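import Pool.Agent.H92.GGL.AnnJensen

/-!
# Nevanlinna theory at a puncture: definitions

Circle means and counting functions near the puncture `0`, with the variable `x = log (1 / r)`.
-/

open Filter Topology MeasureTheory
open Pool.Agent.H92.GGL (ordZ)

noncomputable section

namespace Pool.Agent.H62.FC

/-- `u` is meromorphic and not identically zero on the punctured disc of radius `R₀`. -/
structure MeroPunct (R₀ : ℝ) (u : ℂ → ℂ) : Prop where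
  mero : ∀ z, 0 < ‖z‖ → ‖z‖ < R₀ → MeromorphicAt u z
  ord : ∀ z, 0 < ‖z‖ → ‖z‖ < R₀ → meromorphicOrderAt u z ≠ ⊤

/-- The weighted counting function of the annulus `r < ‖s‖ < R₁`. -/
def cnt (w : ℂ → ℝ) (R₁ r : ℝ) : ℝ :=
  ∑ᶠ s ∈ {s : ℂ | r < ‖s‖ ∧ ‖s‖ < R₁}, w s * Real.log (‖s‖ / r)

/-- The weight `w` has locally finite support in the punctured disc of radius `R₀`. -/
def LocFin (R₀ : ℝ) (w : ℂ → ℝ) : Prop :=
  ∀ r b : ℝ, 0 < r → b < R₀ → {s : ℂ | r ≤ ‖s‖ ∧ ‖s‖ ≤ b ∧ w s ≠ 0}.Finite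

/-- The mean on the circle of radius `exp (-x)`. -/
def mean (g : ℂ → ℝ) (x : ℝ) : ℝ := Real.circleAverage g 0 (Real.exp (-x))

/-- The characteristic function near the puncture. -/
def nevT (u : ℂ → ℂ) (R₁ x : ℝ) : ℝ :=
  mean (fun z => Real.posLog ‖u z‖) x + cnt (fun s => max (-(ordZ u s : ℝ)) 0) R₁ (Real.exp (-x))

/-- `S` is negligible with respect to `T`, outside a set of finite measure. -/
def Negl (R₁ : ℝ) (T S : ℝ → ℝ) : Prop :=
  ∀ ε : ℝ, 0 < ε → ∃ (C : ℝ) (E : Set ℝ), volume E ≠ ⊤ ∧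
    ∀ x, Real.exp (-x) < R₁ → x ∉ E → S x ≤ ε * T x + C * (1 + |x|)

/-- The Wronskian. -/
def wronsk {n : ℕ} (u : Fin n → ℂ → ℂ) (z : ℂ) : ℂ :=
  (Matrix.of fun i j : Fin n => iteratedDeriv i (u j) z).det

/-- `f` is, up to a discrete set, meromorphic at `0`. -/
def PunctMero (f : ℂ → ℂ) : Prop :=
  ∃ v : ℂ → ℂ, MeromorphicAt v 0 ∧ ∀ᶠ z in 𝓝[≠] (0 : ℂ), f =ᶠ[𝓝[≠] z] v

end Pool.Agent.H62.FC
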