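import Mathlib

/-!
# Circuits of a family of vectors
-/

namespace Pool.Agent.H62.FC

/-- A minimal linearly dependent finite set of indices. -/
def IsCircuit (F : Type*) {V ι : Type*} [Field F] [AddCommGroup V] [Module F V] (y : ι → V)
    (ρ : Finset ι) : Prop :=
  ¬ LinearIndepOn F y (ρ : Set ι) ∧ ∀ τ ⊂ ρ, LinearIndepOn F y (τ : Set ι)

end Pool.Agent.H62.FC
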