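import Pool.Agent.H17LG.Variety
import Pool.Agent.H17.BrodyLimit

/-!
# Fermat covers: definitions

Locally closed subsets of `ℙ^N` given by forms and by the condition that some homogeneous
coordinates are not zero, and the monomial curves `t ↦ (a_i t ^ (n_i))` contained in them.
-/

open MvPolynomial
open Pool.Agent.H17 (PN VanishesAt zeroLocus ZariskiClosedIn)
open Pool.Agent.H17GT (coordFun)
open Pool.Agent.H17LG.Variety (FunField ratio IsLogGeneralType)
open Pool.Agent.H23.Fano (PrimeDivisorOver)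

noncomputable section

namespace Pool.Agent.H62.FC

variable {N : ℕ}

/-- The points of the common zero locus of the forms `A l` with `x i ≠ 0` for `i ∈ O`. -/
def openLocus {κ : Type} (A : κ → MvPolynomial (Fin (N + 1)) ℂ) (O : Finset (Fin (N + 1))) :
    Set (PN N) :=
  {x | x ∈ zeroLocus A ∧ ∀ i ∈ O, x.rep i ≠ 0}

/-- The points of the zero locus of the homogeneous ideal `P` with `x i ≠ 0` for `i ∈ O`. -/
def primeLocus (P : Ideal (MvPolynomial (Fin (N + 1)) ℂ)) (O : Finset (Fin (N + 1))) :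
    Set (PN N) :=
  {x | (∀ Q ∈ P, ∀ n, Q.IsHomogeneous n → VanishesAt Q x) ∧ ∀ i ∈ O, x.rep i ≠ 0}

/-- The union of the images of the non-constant maps `t ↦ (a_i t ^ (n_i))`, `t ≠ 0`, into `X`. -/
def monomialCurves (X : Set (PN N)) : Set (PN N) :=
  {x | ∃ (a : Fin (N + 1) → ℂ) (ha : a ≠ 0) (n : Fin (N + 1) → ℤ),
    x = Projectivization.mk ℂ a ha ∧ (∃ i j, a i ≠ 0 ∧ a j ≠ 0 ∧ n i ≠ n j) ∧
    ∀ (t : ℂ) (h : (fun i => a i * t ^ n i) ≠ 0), t ≠ 0 →
      Projectivization.mk ℂ (fun i => a i * t ^ n i) h ∈ X}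

/-- The Zariski closure of `S` in `X`. -/
def closureIn (X S : Set (PN N)) : Set (PN N) :=
  {x | x ∈ X ∧ ∀ (k : ℕ) (Q : MvPolynomial (Fin (N + 1)) ℂ), Q.IsHomogeneous k →
    (∀ y ∈ S, VanishesAt Q y) → VanishesAt Q x}

/-- The exceptional set of `X`. -/
def excSet (X : Set (PN N)) : Set (PN N) := closureIn X (monomialCurves X)

/-- The ideal `P` is homogeneous. -/
def Homog (P : Ideal (MvPolynomial (Fin (N + 1)) ℂ)) : Prop :=
  ∀ p ∈ P, ∀ n, homogeneousComponent n p ∈ P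

/-- The centre of the prime divisor `E` on the closed subvariety of `ℙ^N` given by `P` lies in one
of the hyperplanes `x i = 0`, `i ∈ O`. -/
def OnBoundary (P : Ideal (MvPolynomial (Fin (N + 1)) ℂ)) [P.IsPrime] (O : Finset (Fin (N + 1)))
    {w : ℕ} (E : PrimeDivisorOver (FunField P) w) : Prop :=
  ∃ j, coordFun P j ≠ 0 ∧ (∀ i, 0 ≤ E.ord (ratio P i j)) ∧ ∃ i ∈ O, 0 < E.ord (ratio P i j)

/-- The variety `primeLocus P O` is of log general type. -/
def LogGeneralType (P : Ideal (MvPolynomial (Fin (N + 1)) ℂ)) [P.IsPrime]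
    (O : Finset (Fin (N + 1))) (w : ℕ) : Prop :=
  IsLogGeneralType (OnBoundary P O (w := w))

/-- The variety `primeLocus P O` is strongly of log general type. -/
def StronglyLogGeneralType (P : Ideal (MvPolynomial (Fin (N + 1)) ℂ))
    (O : Finset (Fin (N + 1))) : Prop :=
  ∃ Ξ : Set (PN N), ZariskiClosedIn (primeLocus P O) Ξ ∧ Ξ ≠ primeLocus P O ∧
    ∀ (Q : Ideal (MvPolynomial (Fin (N + 1)) ℂ)) [Q.IsPrime], Homog Q → P ≤ Q →
      (∀ i ∈ O, X i ∉ Q) → ¬ primeLocus Q O ⊆ Ξ → ∀ w, 1 ≤ w →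
        (∃ z : Fin w → FunField Q, IsTranscendenceBasis ℂ z) → LogGeneralType Q O w

end Pool.Agent.H62.FC
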