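import Pool.Agent.H62.FC.NevDefs
import Pool.Agent.H92.GGL.NevMero

/-!
# FC, module CharMero: small characteristic implies meromorphic at the puncture
-/

open Complex MeasureTheory Metric Set Topology Filter
open Pool.Agent.H92.GGL

noncomputable section

namespace Pool.Agent.H62.FC

/-- A set of points of a punctured disc with small counting function for arbitrarily small
radii is finite. -/
private lemma CharMero_finite_of_count {P : Set ℂ} {C D : ℝ} (hP : ∀ s ∈ P, 0 < ‖s‖)
    (h : ∀ r₁, 0 < r₁ → ∃ r, 0 < r ∧ r < r₁ ∧ ∀ S : Finset ℂ, (∀ s ∈ S, s ∈ P) →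
      ∑ s ∈ S, Real.posLog (‖s‖ / r) ≤ C - D * Real.log r) : P.Finite := by
  by_contra hinf
  obtain ⟨n₀, hn₀⟩ := exists_nat_gt D
  obtain ⟨S, hSP, hScard⟩ := (Set.not_finite.mp hinf).exists_subset_card_eq (n₀ + 1)
  have hSne : S.Nonempty := by
    rw [← Finset.card_pos, hScard]
    omega
  obtain ⟨s₀, hs₀, hmin⟩ := S.exists_min_image (fun s => ‖s‖) hSne
  set δ := ‖s₀‖ with hδ
  have hδ0 : 0 < δ := hP s₀ (hSP hs₀)
  set n : ℝ := ((n₀ + 1 : ℕ) : ℝ) with hn
  have hnD : 1 < n - D := by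
    rw [hn]
    push_cast
    linarith
  have hnpos : 0 ≤ n := Nat.cast_nonneg _
  set t₀ : ℝ := max (1 + -Real.log δ) (|C - n * Real.log δ| + 1) with ht₀
  obtain ⟨r, hr0, hr1, hr⟩ := h (Real.exp (-t₀)) (Real.exp_pos _)
  set t : ℝ := -Real.log r with ht
  have hrt : r = Real.exp (-t) := by
    rw [ht, neg_neg, Real.exp_log hr0]
  have htt : t₀ < t := by
    have := Real.log_lt_log hr0 hr1
    rw [Real.log_exp] at this
    linarith
  have ht1 : -Real.log δ < t := by
    have h1 := le_max_left (1 + -Real.log δ) (|C - n * Real.log δ| + 1)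
    linarith
  have ht3 : |C - n * Real.log δ| + 1 ≤ t := (le_max_right _ _).trans htt.le
  have hr2 : Real.exp (-t) < δ := by
    rw [← Real.exp_log hδ0]
    exact Real.exp_lt_exp.mpr (by linarith)
  have h1 := hr S (fun s hs => hSP hs)
  rw [hrt, Real.log_exp] at h1
  have h2 : n * (Real.log δ + t) ≤ ∑ s ∈ S, Real.posLog (‖s‖ / Real.exp (-t)) := by
    have h3 : ∑ _s ∈ S, (Real.log δ + t) = n * (Real.log δ + t) := by
      rw [Finset.sum_const, hScard, nsmul_eq_mul]
    rw [← h3]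
    refine Finset.sum_le_sum fun s hs => ?_
    have h4 : δ ≤ ‖s‖ := hmin s hs
    have h5 : Real.log δ + t = Real.log (δ / Real.exp (-t)) := by
      rw [Real.log_div hδ0.ne' (Real.exp_pos _).ne', Real.log_exp]
      ring
    rw [h5]
    refine le_trans ?_ (le_max_right _ _)
    refine Real.log_le_log (by positivity) ?_
    gcongr
  have h6 : (n - D) * t ≤ C - n * Real.log δ := by linarith
  have h7 : t ≤ (n - D) * t := by
    have : 0 ≤ t := by
      have := abs_nonneg (C - n * Real.log δ)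
      linarith
    nlinarith
  have h8 := le_abs_self (C - n * Real.log δ)
  linarith

private theorem CharMero_core {u : ℂ → ℂ} {R₀ R₁ : ℝ} (hR₁0 : 0 < R₁) (hR₁ : R₁ < R₀)
    (hu : ∀ z, 0 < ‖z‖ → ‖z‖ < R₀ → MeromorphicAt u z) {C D : ℝ}
    (hT : ∀ r₁, 0 < r₁ → ∃ r, 0 < r ∧ r < r₁ ∧ r < R₁ ∧
      ∀ S : Finset ℂ, (∀ s ∈ S, 0 < ‖s‖ ∧ ‖s‖ < R₁) →
      Real.circleAverage (fun z => Real.posLog ‖u z‖) 0 r +
        ∑ s ∈ S, max (-(ordZ u s : ℝ)) 0 * Real.posLog (‖s‖ / r) ≤ C - D * Real.log r) :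
    PunctMero u := by
  classical
  set Ω : Set ℂ := {z : ℂ | 0 < ‖z‖ ∧ ‖z‖ < R₀} with hΩ
  have hΩo : IsOpen Ω := isOpen_punctured R₀
  have hm : MeromorphicOn u Ω := fun z hz => hu z hz.1 hz.2
  -- the constant case
  by_cases hconst : ∃ c, ∃ z ∈ Ω, meromorphicOrderAt (fun z => u z - c) z = ⊤
  · obtain ⟨c, z₀, hz₀, hc⟩ := hconst
    have hmc : MeromorphicOn (fun z => u z - c) Ω := fun z hz =>
      (hm z hz).sub (MeromorphicAt.const c z)
    have hall : ∀ z ∈ Ω, meromorphicOrderAt (fun z => u z - c) z = ⊤ := by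
      intro z hz
      by_contra h
      exact (hmc.meromorphicOrderAt_ne_top_of_isPreconnected (isPreconnected_punctured R₀) hz
        hz₀ h) hc
    refine ⟨fun _ => c, MeromorphicAt.const c 0, ?_⟩
    filter_upwards [punctured_mem (hR₁0.trans hR₁)] with z hz
    have h3 := hall z hz
    rw [meromorphicOrderAt_eq_top_iff] at h3
    filter_upwards [h3] with w hw
    exact sub_eq_zero.mp hw
  push Not at hconst
  have hord : ∀ z ∈ Ω, meromorphicOrderAt u z ≠ ⊤ := by
    intro z hz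
    have := hconst 0 z hz
    simpa using this
  have hsub : ∀ s : ℂ, 0 < ‖s‖ → ‖s‖ < R₁ → s ∈ Ω := fun s h1 h2 => ⟨h1, h2.trans hR₁⟩
  -- integrability
  have hsph : ∀ r, 0 < r → r < R₁ → MeromorphicOn u (sphere 0 |r|) := by
    intro r h1 h2 z hz
    rw [mem_sphere_zero_iff_norm, abs_of_pos h1] at hz
    exact hm z (hsub z (by rw [hz]; exact h1) (by rw [hz]; exact h2))
  have hposnn : ∀ r, 0 < r → r < R₁ → 0 ≤ Real.circleAverage (fun z => Real.posLog ‖u z‖) 0 r := by
    intro r h1 h2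
    exact Real.circleAverage_nonneg_of_nonneg fun z _ => Real.posLog_nonneg
  -- finitely many poles
  have hpoles : {s : ℂ | (0 < ‖s‖ ∧ ‖s‖ < R₁) ∧ ordZ u s < 0}.Finite := by
    refine CharMero_finite_of_count (C := C) (D := D) (fun s hs => hs.1.1) ?_
    intro r₁ hr₁
    obtain ⟨r, h1, h1', h2, hTr⟩ := hT r₁ hr₁
    refine ⟨r, h1, h1', fun S hS => ?_⟩
    have h3 := hTr S (fun s hs => (hS s hs).1)
    have h4 := hposnn r h1 h2
    refine le_trans ?_ (le_trans (by linarith) h3) (b := ∑ s ∈ S, max (-(ordZ u s : ℝ)) 0 *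
      Real.posLog (‖s‖ / r))
    refine Finset.sum_le_sum fun s hs => ?_
    have h5 : ordZ u s ≤ -1 := by
      have := (hS s hs).2
      omega
    have h6 : (ordZ u s : ℝ) ≤ -1 := by exact_mod_cast h5
    have h7 : (1 : ℝ) ≤ max (-(ordZ u s : ℝ)) 0 := le_max_of_le_left (by linarith)
    have h8 : 0 ≤ Real.posLog (‖s‖ / r) := Real.posLog_nonneg
    nlinarith
  -- finitely many zeros of `u - c`
  have hzeros : ∀ c : ℂ, {s : ℂ | (0 < ‖s‖ ∧ ‖s‖ < R₁) ∧ 0 < ordZ (fun z => u z - c) s}.Finite := by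
    intro c
    have hmc : ∀ z, 0 < ‖z‖ → ‖z‖ < R₀ → MeromorphicAt (fun z => u z - c) z := fun z h1 h2 =>
      (hu z h1 h2).sub (MeromorphicAt.const c z)
    obtain ⟨A, B, hJ⟩ := jensen_punctured hR₁ hmc (fun z h1 h2 => hconst c z ⟨h1, h2⟩)
    refine CharMero_finite_of_count (C := C + Real.posLog ‖c‖ + Real.log 2 - A) (D := D + B)
      (fun s hs => hs.1.1) ?_
    intro r₁ hr₁
    obtain ⟨r, h1, h1', h2, hTr⟩ := hT r₁ hr₁
    refine ⟨r, h1, h1', fun S hS => ?_⟩
    have hfin := finite_ordZ (a := r) (b := R₁) h1 hR₁ hmc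
    set S' : Finset ℂ := S ∪ hfin.toFinset.filter (fun s => ‖s‖ < R₁) with hS'
    have hS'1 : ∀ s ∈ S', 0 < ‖s‖ ∧ ‖s‖ < R₁ := by
      intro s hs
      rw [hS', Finset.mem_union, Finset.mem_filter, hfin.mem_toFinset] at hs
      rcases hs with hs | hs
      · exact (hS s hs).1
      · exact ⟨h1.trans_le hs.1.1, hs.2⟩
    have hS'2 : ∀ s, r < ‖s‖ → ‖s‖ < R₁ → ordZ (fun z => u z - c) s ≠ 0 → s ∈ S' := by
      intro s h3 h4 h5
      rw [hS', Finset.mem_union, Finset.mem_filter, hfin.mem_toFinset]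
      exact Or.inr ⟨⟨h3.le, h4.le, h5⟩, h4⟩
    have h3 := hJ r h1 h2 S' (fun s hs => (hS'1 s hs).2) hS'2
    have h4 := hTr S' hS'1
    -- comparison of the means
    have hsphc : MeromorphicOn (fun z => u z - c) (sphere 0 |r|) := fun z hz =>
      (hsph r h1 h2 z hz).sub (MeromorphicAt.const c z)
    have h5 : Real.circleAverage (fun z => Real.log ‖u z - c‖) 0 r ≤
        Real.circleAverage (fun z => Real.posLog ‖u z‖) 0 r + (Real.posLog ‖c‖ + Real.log 2) := by
      have h6 : Real.circleAverage (fun z => Real.posLog ‖u z‖ + (Real.posLog ‖c‖ + Real.log 2)) 0 r =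
          Real.circleAverage (fun z => Real.posLog ‖u z‖) 0 r +
            (Real.posLog ‖c‖ + Real.log 2) := by
        rw [Real.circleAverage_fun_add (MeromorphicOn.circleIntegrable_posLog_norm (hsph r h1 h2))
          (circleIntegrable_const _ _ _), Real.circleAverage_const]
      rw [← h6]
      refine Real.circleAverage_mono (MeromorphicOn.circleIntegrable_log_norm hsphc) ?_ ?_
      · exact (MeromorphicOn.circleIntegrable_posLog_norm (hsph r h1 h2)).fun_add
          (circleIntegrable_const _ _ _)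
      · intro z _
        have h7 : Real.log ‖u z - c‖ ≤ Real.posLog ‖u z - c‖ := le_max_right _ _
        have h8 := Real.posLog_norm_add_le (u z) (-c)
        rw [norm_neg, ← sub_eq_add_neg] at h8
        linarith
    -- comparison of the sums
    have h6 : ∑ s ∈ S, Real.posLog (‖s‖ / r) ≤
        ∑ s ∈ S', (ordZ (fun z => u z - c) s : ℝ) * Real.posLog (‖s‖ / r) +
        ∑ s ∈ S', max (-(ordZ u s : ℝ)) 0 * Real.posLog (‖s‖ / r) := by
      rw [← Finset.sum_add_distrib]
      have h7 : ∑ s ∈ S, Real.posLog (‖s‖ / r) ≤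
          ∑ s ∈ S', max (ordZ (fun z => u z - c) s : ℝ) 0 * Real.posLog (‖s‖ / r) := by
        refine le_trans (b := ∑ s ∈ S, max (ordZ (fun z => u z - c) s : ℝ) 0 *
          Real.posLog (‖s‖ / r)) ?_ ?_
        · refine Finset.sum_le_sum fun s hs => ?_
          have h8 : 1 ≤ ordZ (fun z => u z - c) s := by
            have := (hS s hs).2
            omega
          have h9 : (1 : ℝ) ≤ ordZ (fun z => u z - c) s := by exact_mod_cast h8
          have h10 : (1 : ℝ) ≤ max (ordZ (fun z => u z - c) s : ℝ) 0 := le_max_of_le_left h9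
          have h11 : 0 ≤ Real.posLog (‖s‖ / r) := Real.posLog_nonneg
          nlinarith
        · refine Finset.sum_le_sum_of_subset_of_nonneg Finset.subset_union_left ?_
          intro s _ _
          exact mul_nonneg (le_max_right _ _) Real.posLog_nonneg
      refine h7.trans (Finset.sum_le_sum fun s hs => ?_)
      have hs' := hS'1 s hs
      have h8 := neg_ordZ_sub_const_le (hu s hs'.1 (hs'.2.trans hR₁)) (hord s (hsub s hs'.1 hs'.2))
        (hconst c s (hsub s hs'.1 hs'.2))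
      rw [← add_mul]
      refine mul_le_mul_of_nonneg_right ?_ Real.posLog_nonneg
      have h9 : max (ordZ (fun z => u z - c) s : ℝ) 0 = ordZ (fun z => u z - c) s +
          max (-(ordZ (fun z => u z - c) s : ℝ)) 0 := by
        rcases le_total (ordZ (fun z => u z - c) s : ℝ) 0 with h | h
        · rw [max_eq_right h, max_eq_left (by linarith)]
          ring
        · rw [max_eq_left h, max_eq_right (by linarith)]
          ring
      rw [h9]
      linarith
    linarith
  -- the normal form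
  set v : ℂ → ℂ := toMeromorphicNFOn u Ω with hv
  have hvNF : MeromorphicNFOn v Ω := meromorphicNFOn_toMeromorphicNFOn u Ω
  have huv : ∀ z ∈ Ω, u =ᶠ[𝓝[≠] z] v := fun z hz =>
    (hm.toMeromorphicNFOn_eq_self_on_nhdsNE hz).symm
  obtain ⟨ε₁, hε₁, hε₁P⟩ := exists_radius hpoles (fun s hs => hs.1.1)
  have hnonneg : ∀ z, 0 < ‖z‖ → ‖z‖ < min ε₁ R₁ → 0 ≤ meromorphicOrderAt u z := by
    intro z h1 h2
    have h3 : ‖z‖ < ε₁ := h2.trans_le (min_le_left _ _)
    have h4 : ‖z‖ < R₁ := h2.trans_le (min_le_right _ _)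
    by_contra h
    push Not at h
    have h5 : ordZ u z < 0 := by
      rw [← ordZ_cast (hord z (hsub z h1 h4))] at h
      exact_mod_cast h
    exact absurd (hε₁P z ⟨⟨h1, h4⟩, h5⟩) (not_le.mpr h3)
  have hvan : ∀ z, 0 < ‖z‖ → ‖z‖ < min ε₁ R₁ → AnalyticAt ℂ v z := by
    intro z h1 h2
    have hz : z ∈ Ω := hsub z h1 (h2.trans_le (min_le_right _ _))
    rw [← (hvNF hz).meromorphicOrderAt_nonneg_iff_analyticAt, ← meromorphicOrderAt_congr (huv z hz)]
    exact hnonneg z h1 h2
  have hmin : 0 < min ε₁ R₁ := lt_min hε₁ hR₁0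
  have hmero : MeromorphicAt v 0 := by
    refine meromorphicAt_of_omits hmin hvan fun c => ?_
    obtain ⟨δ, hδ, hδP⟩ := exists_radius (hzeros c) (fun s hs => hs.1.1)
    refine ⟨min δ (min ε₁ R₁), lt_min hδ hmin, fun z h1 h2 hzc => ?_⟩
    have h3 : ‖z‖ < δ := h2.trans_le (min_le_left _ _)
    have h4 : ‖z‖ < min ε₁ R₁ := h2.trans_le (min_le_right _ _)
    have h5 : ‖z‖ < R₁ := h4.trans_le (min_le_right _ _)
    have hz : z ∈ Ω := hsub z h1 h5
    have h6 : AnalyticAt ℂ (fun w => v w - c) z := (hvan z h1 h4).sub analyticAt_const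
    have h7 : (fun w => u w - c) =ᶠ[𝓝[≠] z] fun w => v w - c := by
      filter_upwards [huv z hz] with w hw
      rw [hw]
    have h8 : 0 < ordZ (fun w => u w - c) z := by
      have h9 : 0 < meromorphicOrderAt (fun w => u w - c) z := by
        rw [meromorphicOrderAt_congr h7, ← tendsto_zero_iff_meromorphicOrderAt_pos h6.meromorphicAt]
        have h10 := h6.continuousAt.tendsto
        simp only [hzc, sub_self] at h10
        exact h10.mono_left nhdsWithin_le_nhds
      rw [← ordZ_cast (hconst c z hz)] at h9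
      exact_mod_cast h9
    exact absurd (hδP z ⟨⟨h1, h5⟩, h8⟩) (not_le.mpr h3)
  refine ⟨v, hmero, ?_⟩
  filter_upwards [punctured_mem (hR₁0.trans hR₁)] with z hz
  exact huv z hz

theorem punctMero_of_nevT {R₀ R₁ : ℝ} (h1 : 0 < R₁) (h : R₁ < R₀) {u : ℂ → ℂ}
    (hu : MeroPunct R₀ u) {C : ℝ} {E : Set ℝ} (hE : volume E ≠ ⊤)
    (hT : ∀ x, Real.exp (-x) < R₁ → x ∉ E → nevT u R₁ x ≤ C * (1 + |x|)) : PunctMero u := by
  classical
  refine CharMero_core h1 h hu.mero (C := C) (D := C) ?_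
  intro r₁ hr₁
  -- a good radius
  set a : ℝ := max 0 (max (-Real.log r₁) (-Real.log R₁)) with ha
  obtain ⟨x, hxa, hxE⟩ : ∃ x, a < x ∧ x ∉ E := by
    by_contra hcon
    push Not at hcon
    have h2 : Set.Ioi a ⊆ E := fun x hx => hcon x hx
    have h3 := measure_mono (μ := volume) h2
    rw [Real.volume_Ioi] at h3
    exact hE (top_le_iff.mp h3)
  have hx0 : 0 < x := lt_of_le_of_lt (le_max_left _ _) hxa
  have hxr : -Real.log r₁ < x :=
    lt_of_le_of_lt ((le_max_left _ _).trans (le_max_right _ _)) hxa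
  have hxR : -Real.log R₁ < x :=
    lt_of_le_of_lt ((le_max_right _ _).trans (le_max_right _ _)) hxa
  have hr1 : Real.exp (-x) < r₁ := by
    rw [← Real.exp_log hr₁]
    exact Real.exp_lt_exp.mpr (by linarith)
  have hr2 : Real.exp (-x) < R₁ := by
    rw [← Real.exp_log h1]
    exact Real.exp_lt_exp.mpr (by linarith)
  refine ⟨Real.exp (-x), Real.exp_pos _, hr1, hr2, fun S hS => ?_⟩
  have h2 := hT x hr2 hxE
  rw [abs_of_pos hx0] at h2
  rw [Real.log_exp]
  set r : ℝ := Real.exp (-x) with hr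
  have hr0 : 0 < r := Real.exp_pos _
  -- the counting function as a finite sum
  have hfin := finite_ordZ (a := r) (b := R₁) hr0 h hu.mero
  set T : Finset ℂ := hfin.toFinset.filter (fun s => r < ‖s‖ ∧ ‖s‖ < R₁) with hTd
  have hcnt : cnt (fun s => max (-(ordZ u s : ℝ)) 0) R₁ r =
      ∑ s ∈ T, max (-(ordZ u s : ℝ)) 0 * Real.log (‖s‖ / r) := by
    unfold cnt
    refine finsum_mem_eq_sum_of_inter_support_eq _ ?_
    ext s
    simp only [Set.mem_inter_iff, Function.mem_support, Finset.mem_coe, hTd, Finset.mem_filter,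
      Set.Finite.mem_toFinset]
    constructor
    · rintro ⟨⟨h3, h4⟩, h5⟩
      refine ⟨⟨⟨h3.le, h4.le, ?_⟩, h3, h4⟩, h5⟩
      intro h6
      apply h5
      rw [h6]
      simp
    · rintro ⟨⟨_, h3, h4⟩, h5⟩
      exact ⟨⟨h3, h4⟩, h5⟩
  have hle : ∑ s ∈ S, max (-(ordZ u s : ℝ)) 0 * Real.posLog (‖s‖ / r) ≤
      ∑ s ∈ T, max (-(ordZ u s : ℝ)) 0 * Real.log (‖s‖ / r) := by
    have h3 : ∑ s ∈ T, max (-(ordZ u s : ℝ)) 0 * Real.log (‖s‖ / r) =
        ∑ s ∈ T, max (-(ordZ u s : ℝ)) 0 * Real.posLog (‖s‖ / r) := by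
      refine Finset.sum_congr rfl fun s hs => ?_
      have hs' : r < ‖s‖ := (Finset.mem_filter.mp hs).2.1
      have h4 : Real.posLog (‖s‖ / r) = Real.log (‖s‖ / r) := by
        refine max_eq_right (Real.log_nonneg ?_)
        rw [one_le_div hr0]
        exact hs'.le
      rw [h4]
    rw [h3]
    have h4 : ∑ s ∈ T, max (-(ordZ u s : ℝ)) 0 * Real.posLog (‖s‖ / r) =
        ∑ s ∈ S ∪ T, max (-(ordZ u s : ℝ)) 0 * Real.posLog (‖s‖ / r) := by
      refine Finset.sum_subset Finset.subset_union_right ?_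
      intro s hs hsT
      have hsS : s ∈ S := by
        rcases Finset.mem_union.mp hs with h5 | h5
        · exact h5
        · exact absurd h5 hsT
      have hsn := hS s hsS
      by_cases h5 : r < ‖s‖
      · have h6 : ordZ u s = 0 := by
          by_contra h6
          apply hsT
          rw [hTd, Finset.mem_filter, hfin.mem_toFinset]
          exact ⟨⟨h5.le, hsn.2.le, h6⟩, h5, hsn.2⟩
        rw [h6]
        simp
      · have h6 : Real.posLog (‖s‖ / r) = 0 := by
          rw [Real.posLog_eq_zero_iff, abs_of_nonneg (by positivity), div_le_one hr0]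
          exact not_lt.mp h5
        rw [h6, mul_zero]
    rw [h4]
    exact Finset.sum_le_sum_of_subset_of_nonneg Finset.subset_union_left
      fun s _ _ => mul_nonneg (le_max_right _ _) Real.posLog_nonneg
  have h3 : nevT u R₁ x = Real.circleAverage (fun z => Real.posLog ‖u z‖) 0 r +
      cnt (fun s => max (-(ordZ u s : ℝ)) 0) R₁ r := rfl
  rw [h3, hcnt] at h2
  linarith

end Pool.Agent.H62.FC
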