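import Mathlib

/-!
# Second derivatives of circle means: the smooth case

Taylor's formula with integral remainder in `x` for every fixed `θ`, Fubini, and periodicity.
-/

noncomputable section

namespace Pool.Agent.H62.FC

open Filter Topology MeasureTheory

/-- directional derivatives -/
def Avg_d (F : ℝ × ℝ → ℝ) (v : ℝ × ℝ) (p : ℝ × ℝ) : ℝ := fderiv ℝ F p v

theorem Avg_d_contDiffAt {F : ℝ × ℝ → ℝ} {p : ℝ × ℝ} (v : ℝ × ℝ) {m n : WithTop ℕ∞}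
    (h : ContDiffAt ℝ n F p) (hmn : m + 1 ≤ n) : ContDiffAt ℝ m (Avg_d F v) p :=
  (h.fderiv_right hmn).clm_apply contDiffAt_const

theorem Avg_hasDerivAt_fst {F : ℝ × ℝ → ℝ} {x θ : ℝ} (h : DifferentiableAt ℝ F (x, θ)) :
    HasDerivAt (fun y => F (y, θ)) (Avg_d F (1, 0) (x, θ)) x :=
  HasFDerivAt.comp_hasDerivAt (f := fun y : ℝ => (y, θ)) x h.hasFDerivAt
    ((hasDerivAt_id x).prodMk (hasDerivAt_const x θ))

theorem Avg_hasDerivAt_snd {F : ℝ × ℝ → ℝ} {x θ : ℝ} (h : DifferentiableAt ℝ F (x, θ)) :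
    HasDerivAt (fun φ => F (x, φ)) (Avg_d F (0, 1) (x, θ)) θ :=
  HasFDerivAt.comp_hasDerivAt (f := fun φ : ℝ => (x, φ)) θ h.hasFDerivAt
    ((hasDerivAt_const θ x).prodMk (hasDerivAt_id θ))

theorem Avg_iter_two {f g : ℝ → ℝ} {x g' : ℝ} (h : ∀ᶠ y in 𝓝 x, HasDerivAt f (g y) y)
    (hg : HasDerivAt g g' x) : iteratedDeriv 2 f x = g' := by
  have h1 : iteratedDeriv 2 f = deriv (deriv f) := by
    rw [iteratedDeriv_succ, iteratedDeriv_one]
  rw [h1]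
  have h2 : deriv f =ᶠ[𝓝 x] g := h.mono fun y hy => hy.deriv
  rw [h2.deriv_eq]
  exact hg.deriv

/-- Taylor's formula with integral remainder -/
theorem Avg_taylor {u u' u'' : ℝ → ℝ} {x₀ x : ℝ} (h1 : ∀ y ∈ Set.uIcc x₀ x, HasDerivAt u (u' y) y)
    (h2 : ∀ y ∈ Set.uIcc x₀ x, HasDerivAt u' (u'' y) y)
    (hc : ContinuousOn u'' (Set.uIcc x₀ x)) :
    ∫ y in x₀..x, (x - y) * u'' y = u x - u x₀ - u' x₀ * (x - x₀) := by
  have h3 : ∀ y ∈ Set.uIcc x₀ x,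
      HasDerivAt (fun y => (x - y) * u' y + u y) ((x - y) * u'' y) y := by
    intro y hy
    have h4 := (((hasDerivAt_const y x).sub (hasDerivAt_id y)).mul (h2 y hy)).add (h1 y hy)
    refine HasDerivAt.congr_deriv (f' := _) h4 ?_
    simp only [Pi.sub_apply, id]
    ring
  rw [intervalIntegral.integral_eq_sub_of_hasDerivAt h3]
  · ring
  · exact ((continuousOn_const.sub continuousOn_id).mul hc).intervalIntegrable

theorem average_second_deriv {Φ L : ℝ → ℝ → ℝ} {α β : ℝ}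
    (hΦ : ∀ x ∈ Set.Ioo α β, ∀ θ, ContDiffAt ℝ 2 (fun p : ℝ × ℝ => Φ p.1 p.2) (x, θ))
    (hper : ∀ x θ, Φ x (θ + 2 * Real.pi) = Φ x θ)
    (hL : ∀ x ∈ Set.Ioo α β, ∀ θ, L x θ =
      iteratedDeriv 2 (fun y => Φ y θ) x + iteratedDeriv 2 (fun φ => Φ x φ) θ)
    {x₀ x : ℝ} (hx₀ : x₀ ∈ Set.Ioo α β) (hx : x ∈ Set.Ioo α β) :
    (∫ θ in (0 : ℝ)..2 * Real.pi, Φ x θ) = (∫ θ in (0 : ℝ)..2 * Real.pi, Φ x₀ θ) +
      (∫ θ in (0 : ℝ)..2 * Real.pi, deriv (fun y => Φ y θ) x₀) * (x - x₀) +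
      ∫ y in x₀..x, (x - y) * ∫ θ in (0 : ℝ)..2 * Real.pi, L y θ := by
  set F : ℝ × ℝ → ℝ := fun p => Φ p.1 p.2 with hF
  set G1 : ℝ × ℝ → ℝ := Avg_d F (1, 0) with hG1
  set G2 : ℝ × ℝ → ℝ := Avg_d F (0, 1) with hG2
  set G11 : ℝ × ℝ → ℝ := Avg_d G1 (1, 0) with hG11
  set G22 : ℝ × ℝ → ℝ := Avg_d G2 (0, 1) with hG22
  have c1 : ∀ y ∈ Set.Ioo α β, ∀ θ, ContDiffAt ℝ 1 G1 (y, θ) := fun y hy θ =>
    Avg_d_contDiffAt _ (hΦ y hy θ) (by norm_num)
  have c2 : ∀ y ∈ Set.Ioo α β, ∀ θ, ContDiffAt ℝ 1 G2 (y, θ) := fun y hy θ =>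
    Avg_d_contDiffAt _ (hΦ y hy θ) (by norm_num)
  have c11 : ∀ y ∈ Set.Ioo α β, ∀ θ, ContinuousAt G11 (y, θ) := fun y hy θ =>
    (Avg_d_contDiffAt (m := 0) _ (c1 y hy θ) (by norm_num)).continuousAt
  have c22 : ∀ y ∈ Set.Ioo α β, ∀ θ, ContinuousAt G22 (y, θ) := fun y hy θ =>
    (Avg_d_contDiffAt (m := 0) _ (c2 y hy θ) (by norm_num)).continuousAt
  have d1 : ∀ y ∈ Set.Ioo α β, ∀ θ, HasDerivAt (fun y => Φ y θ) (G1 (y, θ)) y := fun y hy θ =>
    Avg_hasDerivAt_fst ((hΦ y hy θ).differentiableAt (by norm_num))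
  have d2 : ∀ y ∈ Set.Ioo α β, ∀ θ, HasDerivAt (fun φ => Φ y φ) (G2 (y, θ)) θ := fun y hy θ =>
    Avg_hasDerivAt_snd ((hΦ y hy θ).differentiableAt (by norm_num))
  have d11 : ∀ y ∈ Set.Ioo α β, ∀ θ, HasDerivAt (fun y => G1 (y, θ)) (G11 (y, θ)) y :=
    fun y hy θ => Avg_hasDerivAt_fst ((c1 y hy θ).differentiableAt (by norm_num))
  have d22 : ∀ y ∈ Set.Ioo α β, ∀ θ, HasDerivAt (fun φ => G2 (y, φ)) (G22 (y, θ)) θ :=
    fun y hy θ => Avg_hasDerivAt_snd ((c2 y hy θ).differentiableAt (by norm_num))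
  have hsub : Set.uIcc x₀ x ⊆ Set.Ioo α β := Set.OrdConnected.uIcc_subset Set.ordConnected_Ioo hx₀ hx
  have hpair : ∀ y : ℝ, Continuous fun θ : ℝ => ((y, θ) : ℝ × ℝ) := fun y => by fun_prop
  have k0 : ∀ y ∈ Set.Ioo α β, Continuous fun θ => Φ y θ := fun y hy =>
    continuous_iff_continuousAt.2 fun θ => (d2 y hy θ).continuousAt
  have k1 : ∀ y ∈ Set.Ioo α β, Continuous fun θ => G1 (y, θ) := fun y hy =>
    continuous_iff_continuousAt.2 fun θ =>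
      ContinuousAt.comp (f := fun θ : ℝ => ((y, θ) : ℝ × ℝ)) (g := G1) (c1 y hy θ).continuousAt
        (hpair y).continuousAt
  have k11 : ∀ y ∈ Set.Ioo α β, Continuous fun θ => G11 (y, θ) := fun y hy =>
    continuous_iff_continuousAt.2 fun θ =>
      ContinuousAt.comp (f := fun θ : ℝ => ((y, θ) : ℝ × ℝ)) (g := G11) (c11 y hy θ)
        (hpair y).continuousAt
  have k22 : ∀ y ∈ Set.Ioo α β, Continuous fun θ => G22 (y, θ) := fun y hy =>
    continuous_iff_continuousAt.2 fun θ =>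
      ContinuousAt.comp (f := fun θ : ℝ => ((y, θ) : ℝ × ℝ)) (g := G22) (c22 y hy θ)
        (hpair y).continuousAt
  -- the function `L`
  have hL' : ∀ y ∈ Set.Ioo α β, ∀ θ, L y θ = G11 (y, θ) + G22 (y, θ) := by
    intro y hy θ
    rw [hL y hy θ, Avg_iter_two (g := fun y => G1 (y, θ)) ?_ (d11 y hy θ),
      Avg_iter_two (g := fun φ => G2 (y, φ)) ?_ (d22 y hy θ)]
    · exact Eventually.of_forall fun φ => d2 y hy φ
    · filter_upwards [isOpen_Ioo.mem_nhds hy] with y' hy' using d1 y' hy' θ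
  -- periodicity
  have hper2 : ∀ y ∈ Set.Ioo α β, G2 (y, 2 * Real.pi) = G2 (y, 0) := by
    intro y hy
    have e1 := d2 y hy (0 + 2 * Real.pi)
    have e2 : HasDerivAt (fun φ => Φ y (φ + 2 * Real.pi)) (G2 (y, 0 + 2 * Real.pi)) 0 :=
      HasDerivAt.comp_add_const 0 (2 * Real.pi) e1
    simp only [hper] at e2
    rw [zero_add] at e2
    exact e2.unique (d2 y hy 0)
  have hint22 : ∀ y ∈ Set.Ioo α β, ∫ θ in (0 : ℝ)..2 * Real.pi, G22 (y, θ) = 0 := by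
    intro y hy
    rw [intervalIntegral.integral_eq_sub_of_hasDerivAt (fun θ _ => d22 y hy θ)
      ((k22 y hy).intervalIntegrable _ _), hper2 y hy, sub_self]
  have hintL : ∀ y ∈ Set.Ioo α β, ∫ θ in (0 : ℝ)..2 * Real.pi, L y θ =
      ∫ θ in (0 : ℝ)..2 * Real.pi, G11 (y, θ) := by
    intro y hy
    simp only [hL' y hy]
    rw [intervalIntegral.integral_add ((k11 y hy).intervalIntegrable _ _)
      ((k22 y hy).intervalIntegrable _ _), hint22 y hy, add_zero]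
  -- Taylor
  have hT : ∀ θ, ∫ y in x₀..x, (x - y) * G11 (y, θ) =
      Φ x θ - Φ x₀ θ - G1 (x₀, θ) * (x - x₀) := by
    intro θ
    refine Avg_taylor (u := fun y => Φ y θ) (u' := fun y => G1 (y, θ))
      (u'' := fun y => G11 (y, θ)) (fun y hy => d1 y (hsub hy) θ)
      (fun y hy => d11 y (hsub hy) θ) fun y hy => ?_
    exact (ContinuousAt.comp (f := fun y : ℝ => ((y, θ) : ℝ × ℝ)) (g := G11)
      (c11 y (hsub hy) θ) (by fun_prop)).continuousWithinAt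
  -- Fubini
  have hcont : ContinuousOn (Function.uncurry fun y θ : ℝ => (x - y) * G11 (y, θ))
      (Set.uIcc x₀ x ×ˢ Set.uIcc 0 (2 * Real.pi)) := by
    rintro ⟨y, θ⟩ hp
    refine ContinuousAt.continuousWithinAt ?_
    change ContinuousAt (fun p : ℝ × ℝ => (x - p.1) * G11 (p.1, p.2)) (y, θ)
    have h2 : ContinuousAt (fun p : ℝ × ℝ => G11 (p.1, p.2)) (y, θ) := c11 y (hsub hp.1) θ
    exact ContinuousAt.mul (by fun_prop) h2
  have hfub : ∫ y in x₀..x, ∫ θ in (0 : ℝ)..2 * Real.pi, (x - y) * G11 (y, θ) =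
      ∫ θ in (0 : ℝ)..2 * Real.pi, ∫ y in x₀..x, (x - y) * G11 (y, θ) := by
    refine intervalIntegral_intervalIntegral_swap ?_
    refine IntegrableOn.mono_set (hcont.integrableOn_compact
      (isCompact_uIcc.prod isCompact_uIcc)) ?_
    exact Set.prod_mono Set.uIoc_subset_uIcc Set.uIoc_subset_uIcc
  have hR : ∫ y in x₀..x, (x - y) * ∫ θ in (0 : ℝ)..2 * Real.pi, L y θ =
      ∫ y in x₀..x, ∫ θ in (0 : ℝ)..2 * Real.pi, (x - y) * G11 (y, θ) := by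
    refine intervalIntegral.integral_congr fun y hy => ?_
    rw [hintL y (hsub hy), intervalIntegral.integral_const_mul]
  have hD : ∀ θ, deriv (fun y => Φ y θ) x₀ = G1 (x₀, θ) := fun θ => (d1 x₀ hx₀ θ).deriv
  rw [hR, hfub]
  simp only [hT, hD]
  have i0 := (k0 x hx).intervalIntegrable (μ := volume) 0 (2 * Real.pi)
  have i1 := (k0 x₀ hx₀).intervalIntegrable (μ := volume) 0 (2 * Real.pi)
  have i2 := ((k1 x₀ hx₀).mul_const (x - x₀)).intervalIntegrable (μ := volume) 0 (2 * Real.pi)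
  rw [intervalIntegral.integral_sub (i0.sub i1) i2, intervalIntegral.integral_sub i0 i1,
    intervalIntegral.integral_mul_const]
  ring

end Pool.Agent.H62.FC
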