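import Pool.Agent.H62.FC.Words
import Pool.Agent.H62.FC.Defs
import Pool.Agent.H62.FC.NevDefs
import Pool.Agent.H62.FC.CircuitDefs
import Pool.Agent.H62.FC.Avg
import Pool.Agent.H62.FC.Nev0

noncomputable section

namespace Pool.Agent.H62.FC

open Filter Topology MeasureTheory
open Pool.Agent.H92.GGL (ordZ)

/-- a branch of the logarithm -/
private theorem Potential_branch {g : ℂ → ℂ} {z₀ : ℂ} (hg : AnalyticAt ℂ g z₀) (h0 : g z₀ ≠ 0) :
    ∃ l : ℂ → ℂ, AnalyticAt ℂ l z₀ ∧ (∀ᶠ z in 𝓝 z₀, (l z).re = Real.log ‖g z‖) ∧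
      deriv l z₀ = deriv g z₀ / g z₀ := by
  have h1 : g z₀ / g z₀ ∈ Complex.slitPlane := by
    rw [div_self h0]
    exact Complex.one_mem_slitPlane
  have h2 : AnalyticAt ℂ (fun z => g z / g z₀) z₀ := hg.div analyticAt_const h0
  refine ⟨fun z => Complex.log (g z / g z₀) + (Real.log ‖g z₀‖ : ℂ), ?_, ?_, ?_⟩
  · exact (h2.clog h1).add analyticAt_const
  · filter_upwards [hg.continuousAt.eventually_ne h0] with z hz
    rw [Complex.add_re, Complex.log_re, Complex.ofReal_re, norm_div,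
      Real.log_div (norm_ne_zero_iff.mpr hz) (norm_ne_zero_iff.mpr h0)]
    ring
  · have h3 : HasDerivAt g (deriv g z₀) z₀ := hg.differentiableAt.hasDerivAt
    have h4 := ((h3.div_const (g z₀)).clog h1).add_const (Real.log ‖g z₀‖ : ℂ)
    rw [h4.deriv, div_self h0, div_one]

/-- the second derivative along a line -/
private theorem Potential_line {F W w : ℝ → ℝ} (hF : ∀ t, HasDerivAt F (W t) t)
    (hW : ∀ t, HasDerivAt W (w t) t) {l m : ℂ → ℂ} {ζ₀ : ℂ} (hl : AnalyticAt ℂ l ζ₀)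
    (hm : AnalyticAt ℂ m ζ₀) (ζ₁ c : ℂ) (t₀ : ℝ) (h0 : ζ₁ + c * (t₀ : ℂ) = ζ₀) {g : ℝ → ℝ}
    (hg : ∀ᶠ t in 𝓝 t₀, g t = F (l (ζ₁ + c * (t : ℂ))).re + (m (ζ₁ + c * (t : ℂ))).re) :
    deriv g t₀ = W (l ζ₀).re * (c * deriv l ζ₀).re + (c * deriv m ζ₀).re ∧
    iteratedDeriv 2 g t₀ = w (l ζ₀).re * (c * deriv l ζ₀).re ^ 2 +
      W (l ζ₀).re * (c ^ 2 * deriv (deriv l) ζ₀).re + (c ^ 2 * deriv (deriv m) ζ₀).re := by
  have hp : ∀ t : ℝ, HasDerivAt (fun t : ℝ => ζ₁ + c * (t : ℂ)) c t := by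
    intro t
    have h1 : HasDerivAt (fun t : ℝ => (t : ℂ)) 1 t := Complex.ofRealCLM.hasDerivAt
    have h2 := (h1.const_mul c).const_add ζ₁
    rwa [mul_one] at h2
  have hpc : ContinuousAt (fun t : ℝ => ζ₁ + c * (t : ℂ)) t₀ := (hp t₀).continuousAt
  have hcomp : ∀ {k : ℂ → ℂ} {t : ℝ}, AnalyticAt ℂ k (ζ₁ + c * (t : ℂ)) →
      HasDerivAt (fun t : ℝ => (k (ζ₁ + c * (t : ℂ))).re)
        (c * deriv k (ζ₁ + c * (t : ℂ))).re t := by
    intro k t hk
    have h1 : HasDerivAt (fun t : ℝ => k (ζ₁ + c * (t : ℂ)))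
        (deriv k (ζ₁ + c * (t : ℂ)) * c) t :=
      HasDerivAt.comp t hk.differentiableAt.hasDerivAt (hp t)
    have h2 := Complex.reCLM.hasFDerivAt.comp_hasDerivAt t h1
    rw [mul_comm] at h2
    exact h2
  have hl' : ∀ᶠ t : ℝ in 𝓝 t₀, AnalyticAt ℂ l (ζ₁ + c * (t : ℂ)) := by
    have h1 : ∀ᶠ z in 𝓝 (ζ₁ + c * (t₀ : ℂ)), AnalyticAt ℂ l z := by
      rw [h0]; exact hl.eventually_analyticAt
    exact hpc.eventually h1
  have hm' : ∀ᶠ t : ℝ in 𝓝 t₀, AnalyticAt ℂ m (ζ₁ + c * (t : ℂ)) := by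
    have h1 : ∀ᶠ z in 𝓝 (ζ₁ + c * (t₀ : ℂ)), AnalyticAt ℂ m z := by
      rw [h0]; exact hm.eventually_analyticAt
    exact hpc.eventually h1
  have hd1 : ∀ᶠ t : ℝ in 𝓝 t₀, HasDerivAt g (W (l (ζ₁ + c * (t : ℂ))).re *
      (c * deriv l (ζ₁ + c * (t : ℂ))).re + (c * deriv m (ζ₁ + c * (t : ℂ))).re) t := by
    filter_upwards [hl', hm', hg.eventually_nhds] with t h1 h2 h3
    have h4 : HasDerivAt (fun t : ℝ => F (l (ζ₁ + c * (t : ℂ))).re + (m (ζ₁ + c * (t : ℂ))).re)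
        (W (l (ζ₁ + c * (t : ℂ))).re *
      (c * deriv l (ζ₁ + c * (t : ℂ))).re + (c * deriv m (ζ₁ + c * (t : ℂ))).re) t :=
      ((hF _).comp t (hcomp h1)).add (hcomp h2)
    exact h4.congr_of_eventuallyEq h3
  constructor
  · have h1 := hd1.self_of_nhds.deriv
    rw [h0] at h1
    exact h1
  · rw [iteratedDeriv_succ, iteratedDeriv_one]
    have h1 : deriv g =ᶠ[𝓝 t₀] fun t : ℝ => W (l (ζ₁ + c * (t : ℂ))).re *
      (c * deriv l (ζ₁ + c * (t : ℂ))).re + (c * deriv m (ζ₁ + c * (t : ℂ))).re := by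
      filter_upwards [hd1] with t ht using ht.deriv
    rw [h1.deriv_eq]
    have hl0 : AnalyticAt ℂ l (ζ₁ + c * (t₀ : ℂ)) := by rw [h0]; exact hl
    have hm0 : AnalyticAt ℂ m (ζ₁ + c * (t₀ : ℂ)) := by rw [h0]; exact hm
    have h2 : HasDerivAt (fun t : ℝ => (c * deriv l (ζ₁ + c * (t : ℂ))).re)
        (c ^ 2 * deriv (deriv l) (ζ₁ + c * (t₀ : ℂ))).re t₀ := by
      have h3 := hcomp (k := fun z => c * deriv l z) (t := t₀) (analyticAt_const.mul hl0.deriv)
      have h4 : deriv (fun z => c * deriv l z) (ζ₁ + c * (t₀ : ℂ)) =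
          c * deriv (deriv l) (ζ₁ + c * (t₀ : ℂ)) := by
        rw [deriv_const_mul_field]
      rw [h4, ← mul_assoc, ← pow_two] at h3
      exact h3
    have h2' : HasDerivAt (fun t : ℝ => (c * deriv m (ζ₁ + c * (t : ℂ))).re)
        (c ^ 2 * deriv (deriv m) (ζ₁ + c * (t₀ : ℂ))).re t₀ := by
      have h3 := hcomp (k := fun z => c * deriv m z) (t := t₀) (analyticAt_const.mul hm0.deriv)
      have h4 : deriv (fun z => c * deriv m z) (ζ₁ + c * (t₀ : ℂ)) =
          c * deriv (deriv m) (ζ₁ + c * (t₀ : ℂ)) := by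
        rw [deriv_const_mul_field]
      rw [h4, ← mul_assoc, ← pow_two] at h3
      exact h3
    have h5 := (((hW _).comp t₀ (hcomp hl0)).mul h2).add h2'
    have h6 := h5.deriv
    rw [h0] at h6
    refine Eq.trans ?_ (h6.trans ?_)
    · rfl
    · simp only [Function.comp_apply, h0]
      ring

/-- the primitives of the weight -/
private structure Potential_Data (w : ℝ → ℝ) (M : ℝ) (F W : ℝ → ℝ) (a b : ℝ) : Prop where
  hF : ∀ t, HasDerivAt F (W t) t
  hW : ∀ t, HasDerivAt W (w t) t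
  wc : Continuous w
  a0 : 0 ≤ a
  a1 : a ≤ 1
  W1 : ∀ t, |W t| ≤ 1
  F0 : ∀ t, 0 ≤ F t
  F1 : ∀ t, F t ≤ |t|
  big : ∀ t, M ≤ |t| → F t = a * |t| - b
  wbig : ∀ t, M ≤ |t| → w t = 0

private theorem Potential_data {w : ℝ → ℝ} {M : ℝ} (hw : Continuous w) (h0 : ∀ t, 0 ≤ w t)
    (he : ∀ t, w (-t) = w t) (hM : 0 ≤ M) (hz : ∀ t, M ≤ t → w t = 0)
    (h1 : (∫ t in (0 : ℝ)..M, w t) ≤ 1) :
    ∃ F W : ℝ → ℝ, ∃ a b : ℝ, Potential_Data w M F W a b := by
  set W : ℝ → ℝ := fun ξ => ∫ t in (0 : ℝ)..ξ, w t with hWdef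
  have hW : ∀ t, HasDerivAt W (w t) t := fun t => (hw.integral_hasStrictDerivAt 0 t).hasDerivAt
  have hWc : Continuous W := continuous_iff_continuousAt.mpr fun t => (hW t).continuousAt
  set F : ℝ → ℝ := fun ξ => ∫ t in (0 : ℝ)..ξ, W t with hFdef
  have hF : ∀ t, HasDerivAt F (W t) t := fun t => (hWc.integral_hasStrictDerivAt 0 t).hasDerivAt
  have hii : ∀ p q, IntervalIntegrable w volume p q := fun p q => hw.intervalIntegrable p q
  have hiW : ∀ p q, IntervalIntegrable W volume p q := fun p q => hWc.intervalIntegrable p q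
  have hWodd : ∀ t, W (-t) = -W t := by
    intro t
    have h2 : (∫ x in (0 : ℝ)..t, w (-x)) = ∫ x in -t..-0, w x :=
      intervalIntegral.integral_comp_neg w
    simp only [he, neg_zero] at h2
    have h3 : (∫ x in (0 : ℝ)..-t, w x) = -∫ x in -t..0, w x := intervalIntegral.integral_symm _ _
    simp only [hWdef]
    rw [h3, h2]
  have hFeven : ∀ t, F (-t) = F t := by
    intro t
    have h2 : (∫ x in (0 : ℝ)..t, W (-x)) = ∫ x in -t..-0, W x :=
      intervalIntegral.integral_comp_neg W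
    simp only [hWodd, neg_zero] at h2
    rw [intervalIntegral.integral_neg] at h2
    have h3 : (∫ x in (0 : ℝ)..-t, W x) = -∫ x in -t..0, W x := intervalIntegral.integral_symm _ _
    simp only [hFdef]
    linarith
  have hWM : ∀ t, M ≤ t → W t = W M := by
    intro t ht
    have h2 : W M + (∫ x in M..t, w x) = W t :=
      intervalIntegral.integral_add_adjacent_intervals (hii 0 M) (hii M t)
    have h3 : (∫ x in M..t, w x) = 0 := by
      have : (∫ x in M..t, w x) = ∫ x in M..t, (0 : ℝ) := by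
        apply intervalIntegral.integral_congr
        intro x hx
        rw [Set.uIcc_of_le ht] at hx
        exact hz x hx.1
      rw [this]
      simp
    linarith
  have hW0 : ∀ t, 0 ≤ t → 0 ≤ W t := fun t ht =>
    intervalIntegral.integral_nonneg ht fun x _ => h0 x
  have hWle : ∀ t, 0 ≤ t → W t ≤ 1 := by
    intro t ht
    rcases le_total M t with h | h
    · rw [hWM t h]
      exact h1
    · have h2 : W t + (∫ x in t..M, w x) = W M :=
        intervalIntegral.integral_add_adjacent_intervals (hii 0 t) (hii t M)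
      have h3 : 0 ≤ ∫ x in t..M, w x := intervalIntegral.integral_nonneg h fun x _ => h0 x
      have h4 : W M ≤ 1 := h1
      linarith
  have hF0 : ∀ t, 0 ≤ t → 0 ≤ F t := fun t ht =>
    intervalIntegral.integral_nonneg ht fun x hx => hW0 x hx.1
  have hFle : ∀ t, 0 ≤ t → F t ≤ t := by
    intro t ht
    have h2 : F t ≤ ∫ x in (0 : ℝ)..t, (1 : ℝ) :=
      intervalIntegral.integral_mono_on ht (hiW 0 t) (intervalIntegrable_const)
        fun x hx => hWle x hx.1
    simpa using h2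
  have hFM : ∀ t, M ≤ t → F t = W M * t - (W M * M - F M) := by
    intro t ht
    have h2 : F M + (∫ x in M..t, W x) = F t :=
      intervalIntegral.integral_add_adjacent_intervals (hiW 0 M) (hiW M t)
    have h3 : (∫ x in M..t, W x) = W M * (t - M) := by
      have : (∫ x in M..t, W x) = ∫ x in M..t, W M := by
        apply intervalIntegral.integral_congr
        intro x hx
        rw [Set.uIcc_of_le ht] at hx
        exact hWM x hx.1
      rw [this, intervalIntegral.integral_const, smul_eq_mul, mul_comm]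
    rw [← h2, h3]
    ring
  have hFabs : ∀ t, F |t| = F t := by
    intro t
    rcases abs_cases t with ⟨h, _⟩ | ⟨h, _⟩
    · rw [h]
    · rw [h, hFeven]
  refine ⟨F, W, W M, W M * M - F M, ⟨hF, hW, hw, hW0 M hM, h1, ?_, ?_, ?_, ?_, ?_⟩⟩
  · intro t
    rcases le_total 0 t with h | h
    · rw [abs_of_nonneg (hW0 t h)]
      exact hWle t h
    · have h2 : W t = -W (-t) := by rw [hWodd, neg_neg]
      have h3 : 0 ≤ -t := by linarith
      rw [h2, abs_neg, abs_of_nonneg (hW0 _ h3)]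
      exact hWle _ h3
  · intro t
    rw [← hFabs]
    exact hF0 _ (abs_nonneg t)
  · intro t
    rw [← hFabs]
    exact hFle _ (abs_nonneg t)
  · intro t ht
    rw [← hFabs]
    exact hFM _ ht
  · intro t ht
    rcases abs_cases t with ⟨h, _⟩ | ⟨h, _⟩
    · rw [h] at ht
      exact hz t ht
    · rw [h] at ht
      rw [← he]
      exact hz _ ht


/-- normal forms on the punctured disc -/
private structure Potential_NF (R₀ : ℝ) (U : ℂ → ℂ) : Prop where
  mer : ∀ z, 0 < ‖z‖ → ‖z‖ < R₀ → MeromorphicAt U z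
  ana : ∀ z, 0 < ‖z‖ → ‖z‖ < R₀ → U z ≠ 0 → AnalyticAt ℂ U z
  fac : ∀ z, 0 < ‖z‖ → ‖z‖ < R₀ → ∃ h : ℂ → ℂ, AnalyticAt ℂ h z ∧ h z ≠ 0 ∧
    ∀ᶠ z' in 𝓝[≠] z, U z' = (z' - z) ^ (ordZ U z) * h z'
  ord : ∀ z, 0 < ‖z‖ → ‖z‖ < R₀ → (U z = 0 ↔ ordZ U z ≠ 0)

private theorem Potential_exists_nf {R₀ : ℝ} {u : ℂ → ℂ} (hu : MeroPunct R₀ u) :
    ∃ U : ℂ → ℂ, Potential_NF R₀ U ∧ (∀ z, 0 < ‖z‖ → ‖z‖ < R₀ → U =ᶠ[𝓝[≠] z] u) ∧
      ∀ z, 0 < ‖z‖ → ‖z‖ < R₀ → ordZ U z = ordZ u z := by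
  set D : Set ℂ := {z | 0 < ‖z‖ ∧ ‖z‖ < R₀} with hD
  have hm : MeromorphicOn u D := fun z hz => hu.mero z hz.1 hz.2
  have hnf : ∀ z, 0 < ‖z‖ → ‖z‖ < R₀ → MeromorphicNFAt (toMeromorphicNFOn u D) z :=
    fun z h1 h2 => meromorphicNFOn_toMeromorphicNFOn u D ⟨h1, h2⟩
  have hor : ∀ z, 0 < ‖z‖ → ‖z‖ < R₀ →
      meromorphicOrderAt (toMeromorphicNFOn u D) z = meromorphicOrderAt u z :=
    fun z h1 h2 => meromorphicOrderAt_toMeromorphicNFOn hm ⟨h1, h2⟩
  have hcast : ∀ z, 0 < ‖z‖ → ‖z‖ < R₀ → (ordZ (toMeromorphicNFOn u D) z : WithTop ℤ) =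
      meromorphicOrderAt (toMeromorphicNFOn u D) z := fun z h1 h2 =>
    Pool.Agent.H92.GGL.ordZ_cast (by rw [hor z h1 h2]; exact hu.ord z h1 h2)
  refine ⟨toMeromorphicNFOn u D, ⟨fun z h1 h2 => (hnf z h1 h2).meromorphicAt, ?_, ?_, ?_⟩, ?_, ?_⟩
  · intro z h1 h2 h3
    refine (hnf z h1 h2).meromorphicOrderAt_nonneg_iff_analyticAt.mp ?_
    rw [(hnf z h1 h2).meromorphicOrderAt_eq_zero_iff.mpr h3]
  · intro z h1 h2
    obtain ⟨h, ha, hb, hc⟩ := (meromorphicOrderAt_eq_int_iff (hnf z h1 h2).meromorphicAt).mp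
      (hcast z h1 h2).symm
    refine ⟨h, ha, hb, ?_⟩
    filter_upwards [hc] with z' hz'
    rw [hz', smul_eq_mul]
  · intro z h1 h2
    have h3 := (hnf z h1 h2).meromorphicOrderAt_eq_zero_iff
    rw [← hcast z h1 h2] at h3
    have h4 : ((ordZ (toMeromorphicNFOn u D) z : WithTop ℤ) = 0) ↔
        ordZ (toMeromorphicNFOn u D) z = 0 := by
      exact_mod_cast Iff.rfl
    rw [h4] at h3
    tauto
  · intro z h1 h2
    exact hm.toMeromorphicNFOn_eq_self_on_nhdsNE ⟨h1, h2⟩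
  · intro z h1 h2
    unfold ordZ
    rw [hor z h1 h2]

/-- functions which agree off a discrete set have the same means -/
private theorem Potential_mean_congr {f g : ℂ → ℝ} {x : ℝ}
    (h : ∀ z, ‖z‖ = Real.exp (-x) → f =ᶠ[𝓝[≠] z] g) : mean f x = mean g x := by
  unfold mean
  have hr : 0 < Real.exp (-x) := Real.exp_pos _
  refine Real.circleAverage_congr_codiscreteWithin ?_ hr.ne'
  rw [Filter.EventuallyEq, Filter.Eventually, mem_codiscreteWithin]
  intro z hz
  rw [mem_sphere_zero_iff_norm, abs_of_pos hr] at hz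
  rw [disjoint_principal_right]
  filter_upwards [h z hz] with z' hz'
  intro hc
  exact hc.2 hz'

/-- the logarithms of the linear factors -/
private theorem Potential_sumlog (T : Finset ℂ) (c : ℂ → ℝ) (z₀ : ℂ) (hT : z₀ ∉ T) :
    ∃ m : ℂ → ℂ, AnalyticAt ℂ m z₀ ∧
      (∀ᶠ z in 𝓝 z₀, (m z).re = ∑ s ∈ T, c s * Real.log ‖z - s‖) ∧
      deriv m z₀ = ∑ s ∈ T, (c s : ℂ) * (1 / (z₀ - s)) := by
  have h1 : ∀ s : ℂ, ∃ ls : ℂ → ℂ, s ∈ T → (AnalyticAt ℂ ls z₀ ∧
      (∀ᶠ z in 𝓝 z₀, (ls z).re = Real.log ‖z - s‖) ∧ deriv ls z₀ = 1 / (z₀ - s)) := by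
    intro s
    by_cases hs : s ∈ T
    · have hne : z₀ - s ≠ 0 := by
        intro h0
        exact hT (by rw [sub_eq_zero.mp h0]; exact hs)
      obtain ⟨l, hl, hl2, hl3⟩ := Potential_branch (g := fun z => z - s) (z₀ := z₀)
        (analyticAt_id.sub analyticAt_const) hne
      refine ⟨l, fun _ => ⟨hl, hl2, ?_⟩⟩
      have hd : deriv (fun z : ℂ => z - s) z₀ = 1 := by
        rw [deriv_sub_const]
        exact deriv_id z₀
      rw [hl3, hd]
    · exact ⟨0, fun h => absurd h hs⟩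
  choose ls hls using h1
  refine ⟨fun z => ∑ s ∈ T, (c s : ℂ) * ls s z, ?_, ?_, ?_⟩
  · apply Finset.analyticAt_fun_sum
    intro s hs
    exact analyticAt_const.mul (hls s hs).1
  · have h2 : ∀ᶠ z in 𝓝 z₀, ∀ s ∈ T, (ls s z).re = Real.log ‖z - s‖ := by
      rw [Filter.eventually_all_finset]
      exact fun s hs => (hls s hs).2.1
    filter_upwards [h2] with z hz
    rw [Complex.re_sum]
    refine Finset.sum_congr rfl fun s hs => ?_
    rw [Complex.re_ofReal_mul, hz s hs]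
  · rw [deriv_fun_sum fun s hs => (hls s hs).1.differentiableAt.const_mul _]
    refine Finset.sum_congr rfl fun s hs => ?_
    rw [deriv_const_mul_field, (hls s hs).2.2]

/-- the regularised function -/
private def Potential_g (F : ℝ → ℝ) (a : ℝ) (U : ℂ → ℂ) (T : Finset ℂ) (z : ℂ) : ℝ :=
  F (Real.log ‖U z‖) + a * ∑ s ∈ T, |(ordZ U s : ℝ)| * Real.log ‖z - s‖

/-- the local structure of the regularised function -/
private theorem Potential_loc {w : ℝ → ℝ} {M : ℝ} {F W : ℝ → ℝ} {a b : ℝ}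
    (hd : Potential_Data w M F W a b) {R₀ : ℝ} {U : ℂ → ℂ} (hU : Potential_NF R₀ U)
    {T : Finset ℂ} (hT : ∀ s ∈ T, U s = 0) {z₀ : ℂ} (h1 : 0 < ‖z₀‖) (h2 : ‖z₀‖ < R₀)
    (h3 : U z₀ = 0 → z₀ ∈ T) :
    ∃ l m : ℂ → ℂ, AnalyticAt ℂ l z₀ ∧ AnalyticAt ℂ m z₀ ∧
      (∀ᶠ z in 𝓝[≠] z₀, Potential_g F a U T z = F (l z).re + (m z).re) ∧
      w (Real.log ‖U z₀‖) * ‖z₀ * deriv U z₀ / U z₀‖ ^ 2 =
        w (l z₀).re * ‖z₀ * deriv l z₀‖ ^ 2 := by
  by_cases h0 : U z₀ = 0
  · have hz₀T := h3 h0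
    obtain ⟨h, hha, hh0, hfac⟩ := hU.fac z₀ h1 h2
    have hn : ordZ U z₀ ≠ 0 := (hU.ord z₀ h1 h2).mp h0
    obtain ⟨lh, hlha, hlh, -⟩ := Potential_branch hha hh0
    obtain ⟨m, hma, hm, -⟩ := Potential_sumlog (T.erase z₀) (fun s => a * |(ordZ U s : ℝ)|) z₀
      (Finset.notMem_erase z₀ T)
    set n : ℝ := (ordZ U z₀ : ℝ) with hnd
    have hn0 : n ≠ 0 := by
      rw [hnd]
      exact_mod_cast hn
    -- the logarithm of `|U|` near `z₀`
    have hlog : ∀ᶠ z in 𝓝[≠] z₀, Real.log ‖U z‖ = n * Real.log ‖z - z₀‖ + Real.log ‖h z‖ := by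
      filter_upwards [hfac, self_mem_nhdsWithin,
        (hha.continuousAt.eventually_ne hh0).filter_mono nhdsWithin_le_nhds] with z hz hz1 hz2
      have hz3 : z - z₀ ≠ 0 := sub_ne_zero.mpr hz1
      rw [hz, norm_mul, norm_zpow, Real.log_mul (zpow_ne_zero _ (norm_ne_zero_iff.mpr hz3))
        (norm_ne_zero_iff.mpr hz2), Real.log_zpow]
    have htop : Tendsto (fun z : ℂ => Real.log ‖z - z₀‖) (𝓝[≠] z₀) atBot := by
      have ht1 : Tendsto (fun z : ℂ => ‖z - z₀‖) (𝓝[≠] z₀) (𝓝[>] 0) := by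
        refine tendsto_nhdsWithin_iff.mpr ⟨?_, ?_⟩
        · have : Tendsto (fun z : ℂ => ‖z - z₀‖) (𝓝 z₀) (𝓝 ‖z₀ - z₀‖) :=
            (continuous_norm.comp (continuous_id.sub continuous_const)).tendsto z₀
          rw [sub_self, norm_zero] at this
          exact this.mono_left nhdsWithin_le_nhds
        · filter_upwards [self_mem_nhdsWithin] with z hz
          exact norm_pos_iff.mpr (sub_ne_zero.mpr hz)
      exact Real.tendsto_log_nhdsGT_zero.comp ht1
    have hhc : Tendsto (fun z : ℂ => Real.log ‖h z‖) (𝓝[≠] z₀) (𝓝 (Real.log ‖h z₀‖)) := by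
      have : ContinuousAt (fun z : ℂ => Real.log ‖h z‖) z₀ :=
        hha.continuousAt.norm.log (norm_ne_zero_iff.mpr hh0)
      exact this.tendsto.mono_left nhdsWithin_le_nhds
    have hsum : ∀ z, ∑ s ∈ T, |(ordZ U s : ℝ)| * Real.log ‖z - s‖ =
        |n| * Real.log ‖z - z₀‖ + ∑ s ∈ T.erase z₀, |(ordZ U s : ℝ)| * Real.log ‖z - s‖ := by
      intro z
      rw [← Finset.add_sum_erase _ _ hz₀T]
    rcases lt_or_gt_of_ne hn0 with hneg | hpos
    · -- a pole
      have hbig : Tendsto (fun z : ℂ => n * Real.log ‖z - z₀‖ + Real.log ‖h z‖) (𝓝[≠] z₀)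
          atTop := Tendsto.atTop_add (htop.const_mul_atBot_of_neg hneg) hhc
      refine ⟨fun _ => 0, fun z => (a : ℂ) * lh z - (b : ℂ) - (F 0 : ℂ) + m z, analyticAt_const,
        (((analyticAt_const.mul hlha).sub analyticAt_const).sub analyticAt_const).add hma, ?_, ?_⟩
      · filter_upwards [hlog, hbig.eventually_ge_atTop (max M 0),
          hlh.filter_mono nhdsWithin_le_nhds, hm.filter_mono nhdsWithin_le_nhds] with z e1 e2 e3 e4
        rw [← e1] at e2
        have e5 : |Real.log ‖U z‖| = Real.log ‖U z‖ :=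
          abs_of_nonneg ((le_max_right M 0).trans e2)
        have e6 : F (Real.log ‖U z‖) = a * Real.log ‖U z‖ - b := by
          have := hd.big (Real.log ‖U z‖) (by rw [e5]; exact (le_max_left M 0).trans e2)
          rwa [e5] at this
        unfold Potential_g
        rw [e6, hsum, abs_of_neg hneg, e1]
        simp only [Complex.add_re, Complex.sub_re, Complex.re_ofReal_mul, Complex.ofReal_re,
          Complex.zero_re, e3, e4]
        have e7 : ∑ s ∈ T.erase z₀, a * |(ordZ U s : ℝ)| * Real.log ‖z - s‖ =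
            a * ∑ s ∈ T.erase z₀, |(ordZ U s : ℝ)| * Real.log ‖z - s‖ := by
          rw [Finset.mul_sum]
          simp only [mul_assoc]
        rw [e7]
        ring
      · rw [h0]
        simp
    · -- a zero
      have hbig : Tendsto (fun z : ℂ => n * Real.log ‖z - z₀‖ + Real.log ‖h z‖) (𝓝[≠] z₀)
          atBot := Tendsto.atBot_add (htop.const_mul_atBot hpos) hhc
      refine ⟨fun _ => 0, fun z => -((a : ℂ) * lh z) - (b : ℂ) - (F 0 : ℂ) + m z, analyticAt_const,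
        (((analyticAt_const.mul hlha).neg.sub analyticAt_const).sub analyticAt_const).add hma,
        ?_, ?_⟩
      · filter_upwards [hlog, hbig.eventually_le_atBot (min (-M) 0),
          hlh.filter_mono nhdsWithin_le_nhds, hm.filter_mono nhdsWithin_le_nhds] with z e1 e2 e3 e4
        rw [← e1] at e2
        have e5 : |Real.log ‖U z‖| = -Real.log ‖U z‖ :=
          abs_of_nonpos (e2.trans (min_le_right _ _))
        have e6 : F (Real.log ‖U z‖) = -(a * Real.log ‖U z‖) - b := by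
          have := hd.big (Real.log ‖U z‖) (by
            rw [e5]
            have := e2.trans (min_le_left _ _)
            linarith)
          rw [e5] at this
          rw [this]
          ring
        unfold Potential_g
        rw [e6, hsum, abs_of_pos hpos, e1]
        simp only [Complex.add_re, Complex.sub_re, Complex.neg_re, Complex.re_ofReal_mul,
          Complex.ofReal_re, Complex.zero_re, e3, e4]
        have e7 : ∑ s ∈ T.erase z₀, a * |(ordZ U s : ℝ)| * Real.log ‖z - s‖ =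
            a * ∑ s ∈ T.erase z₀, |(ordZ U s : ℝ)| * Real.log ‖z - s‖ := by
          rw [Finset.mul_sum]
          simp only [mul_assoc]
        rw [e7]
        ring
      · rw [h0]
        simp
  · have hz₀T : z₀ ∉ T := fun h => h0 (hT z₀ h)
    obtain ⟨l, hla, hl, hl'⟩ := Potential_branch (hU.ana z₀ h1 h2 h0) h0
    obtain ⟨m, hma, hm, -⟩ := Potential_sumlog T (fun s => a * |(ordZ U s : ℝ)|) z₀ hz₀T
    refine ⟨l, m, hla, hma, ?_, ?_⟩
    · filter_upwards [hl.filter_mono nhdsWithin_le_nhds, hm.filter_mono nhdsWithin_le_nhds]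
        with z e1 e2
      unfold Potential_g
      rw [e1, e2, Finset.mul_sum]
      simp only [mul_assoc]
    · rw [hl.self_of_nhds, hl', mul_div_assoc]

/-- the extension over the zeros and poles -/
private theorem Potential_ext {g k : ℂ → ℝ} {z₀ : ℂ} (h1 : ∀ᶠ z in 𝓝[≠] z₀, g z = k z)
    (h2 : ∀ᶠ z in 𝓝 z₀, ContinuousAt k z) :
    ∀ᶠ z in 𝓝 z₀, limUnder (𝓝[≠] z) g = k z := by
  have h3 : ∀ᶠ z in 𝓝 z₀, ∀ᶠ z' in 𝓝[≠] z, g z' = k z' := by
    rw [eventually_nhdsWithin_iff] at h1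
    filter_upwards [h1.eventually_nhds] with z hz
    by_cases hzz : z = z₀
    · rw [hzz] at hz ⊢
      rw [eventually_nhdsWithin_iff]
      exact hz
    · have h4 : ∀ᶠ z' in 𝓝 z, z' ≠ z₀ := eventually_ne_nhds hzz
      have h5 : ∀ᶠ z' in 𝓝 z, g z' = k z' := by
        filter_upwards [hz, h4] with z' e1 e2 using e1 e2
      exact h5.filter_mono nhdsWithin_le_nhds
  filter_upwards [h2, h3] with z e1 e2
  apply Filter.Tendsto.limUnder_eq
  have h6 : Tendsto k (𝓝[≠] z) (𝓝 (k z)) := e1.tendsto.mono_left nhdsWithin_le_nhds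
  exact h6.congr' (by filter_upwards [e2] with z' hz' using hz'.symm)


private theorem Potential_circleMap (x θ : ℝ) :
    circleMap 0 (Real.exp (-x)) θ = Complex.exp (-(x : ℂ) + (θ : ℂ) * Complex.I) := by
  rw [circleMap, zero_add, Complex.exp_add, Complex.ofReal_exp, Complex.ofReal_neg]

private theorem Potential_norm (x θ : ℝ) :
    ‖Complex.exp (-(x : ℂ) + (θ : ℂ) * Complex.I)‖ = Real.exp (-x) := by
  rw [Complex.norm_exp]
  simp

private theorem Potential_contDiff {F W w : ℝ → ℝ} (hF : ∀ t, HasDerivAt F (W t) t)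
    (hW : ∀ t, HasDerivAt W (w t) t) (hw : Continuous w) : ContDiff ℝ 2 F := by
  have h1 : deriv F = W := funext fun t => (hF t).deriv
  have h2 : deriv W = w := funext fun t => (hW t).deriv
  have h3 : ContDiff ℝ 1 W := by
    rw [contDiff_one_iff_deriv, h2]
    exact ⟨fun t => (hW t).differentiableAt, hw⟩
  have h4 : ContDiff ℝ (1 + 1) F := by
    rw [contDiff_succ_iff_deriv, h1]
    exact ⟨fun t => (hF t).differentiableAt, by simp, h3⟩
  have h5 : (1 + 1 : WithTop ℕ∞) = 2 := by norm_num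
  rwa [h5] at h4

/-- the composition with the exponential map is twice continuously differentiable -/
private theorem Potential_smooth {F W w : ℝ → ℝ} (hF : ∀ t, HasDerivAt F (W t) t)
    (hW : ∀ t, HasDerivAt W (w t) t) (hw : Continuous w) {S : ℂ → ℝ} {l m : ℂ → ℂ} (x θ : ℝ)
    (hl : AnalyticAt ℂ l (Complex.exp (-(x : ℂ) + (θ : ℂ) * Complex.I)))
    (hm : AnalyticAt ℂ m (Complex.exp (-(x : ℂ) + (θ : ℂ) * Complex.I)))
    (hS : ∀ᶠ z in 𝓝 (Complex.exp (-(x : ℂ) + (θ : ℂ) * Complex.I)),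
      S z = F (l z).re + (m z).re) :
    ContDiffAt ℝ 2 (fun p : ℝ × ℝ => S (Complex.exp (-(p.1 : ℂ) + (p.2 : ℂ) * Complex.I)))
      (x, θ) ∧
    deriv (fun y : ℝ => S (Complex.exp (-(y : ℂ) + (θ : ℂ) * Complex.I))) x =
      W (l (Complex.exp (-(x : ℂ) + (θ : ℂ) * Complex.I))).re *
        (-(Complex.exp (-(x : ℂ) + (θ : ℂ) * Complex.I) *
          deriv l (Complex.exp (-(x : ℂ) + (θ : ℂ) * Complex.I)))).re +
        (-(Complex.exp (-(x : ℂ) + (θ : ℂ) * Complex.I) *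
          deriv m (Complex.exp (-(x : ℂ) + (θ : ℂ) * Complex.I)))).re ∧
    iteratedDeriv 2 (fun y : ℝ => S (Complex.exp (-(y : ℂ) + (θ : ℂ) * Complex.I))) x +
      iteratedDeriv 2 (fun φ : ℝ => S (Complex.exp (-(x : ℂ) + (φ : ℂ) * Complex.I))) θ =
      w (l (Complex.exp (-(x : ℂ) + (θ : ℂ) * Complex.I))).re *
        ‖Complex.exp (-(x : ℂ) + (θ : ℂ) * Complex.I) *
          deriv l (Complex.exp (-(x : ℂ) + (θ : ℂ) * Complex.I))‖ ^ 2 := by
  set ζ₀ : ℂ := -(x : ℂ) + (θ : ℂ) * Complex.I with hζ₀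
  set z₀ : ℂ := Complex.exp ζ₀ with hz₀
  have hexp : AnalyticAt ℂ Complex.exp ζ₀ := analyticAt_cexp
  have hle : AnalyticAt ℂ (fun ζ => l (Complex.exp ζ)) ζ₀ := hl.comp hexp
  have hme : AnalyticAt ℂ (fun ζ => m (Complex.exp ζ)) ζ₀ := hm.comp hexp
  have hdle : deriv (fun ζ => l (Complex.exp ζ)) ζ₀ = z₀ * deriv l z₀ := by
    have h1 : HasDerivAt (fun ζ => l (Complex.exp ζ)) (deriv l z₀ * Complex.exp ζ₀) ζ₀ :=
      HasDerivAt.comp ζ₀ hl.differentiableAt.hasDerivAt (Complex.hasDerivAt_exp ζ₀)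
    rw [h1.deriv, mul_comm]
  have hdme : deriv (fun ζ => m (Complex.exp ζ)) ζ₀ = z₀ * deriv m z₀ := by
    have h1 : HasDerivAt (fun ζ => m (Complex.exp ζ)) (deriv m z₀ * Complex.exp ζ₀) ζ₀ :=
      HasDerivAt.comp ζ₀ hm.differentiableAt.hasDerivAt (Complex.hasDerivAt_exp ζ₀)
    rw [h1.deriv, mul_comm]
  have hSe : ∀ᶠ ζ in 𝓝 ζ₀, S (Complex.exp ζ) =
      F (l (Complex.exp ζ)).re + (m (Complex.exp ζ)).re :=
    hexp.continuousAt.eventually hS
  -- the two lines
  have hx0 : (θ : ℂ) * Complex.I + (-1) * (x : ℂ) = ζ₀ := by rw [hζ₀]; ring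
  have hy0 : -(x : ℂ) + Complex.I * (θ : ℂ) = ζ₀ := by rw [hζ₀]; ring
  have hcx : ∀ᶠ y : ℝ in 𝓝 x, S (Complex.exp (-(y : ℂ) + (θ : ℂ) * Complex.I)) =
      F (l (Complex.exp ((θ : ℂ) * Complex.I + (-1) * (y : ℂ)))).re +
        (m (Complex.exp ((θ : ℂ) * Complex.I + (-1) * (y : ℂ)))).re := by
    have h1 : ContinuousAt (fun y : ℝ => -(y : ℂ) + (θ : ℂ) * Complex.I) x := by fun_prop
    have h2 := h1.eventually hSe
    filter_upwards [h2] with y hy
    have h3 : (θ : ℂ) * Complex.I + (-1) * (y : ℂ) = -(y : ℂ) + (θ : ℂ) * Complex.I := by ring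
    rw [h3]
    exact hy
  have hcy : ∀ᶠ φ : ℝ in 𝓝 θ, S (Complex.exp (-(x : ℂ) + (φ : ℂ) * Complex.I)) =
      F (l (Complex.exp (-(x : ℂ) + Complex.I * (φ : ℂ)))).re +
        (m (Complex.exp (-(x : ℂ) + Complex.I * (φ : ℂ)))).re := by
    have h1 : ContinuousAt (fun φ : ℝ => -(x : ℂ) + (φ : ℂ) * Complex.I) θ := by fun_prop
    have h2 := h1.eventually hSe
    filter_upwards [h2] with φ hφ
    have h3 : -(x : ℂ) + Complex.I * (φ : ℂ) = -(x : ℂ) + (φ : ℂ) * Complex.I := by ring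
    rw [h3]
    exact hφ
  obtain ⟨k1, k2⟩ := Potential_line hF hW hle hme _ _ x hx0 hcx
  obtain ⟨-, k3⟩ := Potential_line hF hW hle hme _ _ θ hy0 hcy
  refine ⟨?_, ?_, ?_⟩
  · have hι : ContDiffAt ℝ 2 (fun p : ℝ × ℝ => -(p.1 : ℂ) + (p.2 : ℂ) * Complex.I) (x, θ) := by
      have h1 : ContDiff ℝ 2 (fun p : ℝ × ℝ => (p.1 : ℂ)) :=
        Complex.ofRealCLM.contDiff.comp contDiff_fst
      have h2 : ContDiff ℝ 2 (fun p : ℝ × ℝ => (p.2 : ℂ)) :=
        Complex.ofRealCLM.contDiff.comp contDiff_snd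
      exact (h1.neg.add (h2.mul contDiff_const)).contDiffAt
    have hlr : ContDiffAt ℝ 2 (fun ζ => l (Complex.exp ζ)) ζ₀ :=
      (hle.contDiffAt (n := 2)).restrict_scalars ℝ
    have hmr : ContDiffAt ℝ 2 (fun ζ => m (Complex.exp ζ)) ζ₀ :=
      (hme.contDiffAt (n := 2)).restrict_scalars ℝ
    have h3 : ContDiffAt ℝ 2 (fun p : ℝ × ℝ =>
        l (Complex.exp (-(p.1 : ℂ) + (p.2 : ℂ) * Complex.I))) (x, θ) :=
      ContDiffAt.comp (x, θ) (g := fun ζ => l (Complex.exp ζ))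
        (f := fun p : ℝ × ℝ => -(p.1 : ℂ) + (p.2 : ℂ) * Complex.I) hlr hι
    have h4 : ContDiffAt ℝ 2 (fun p : ℝ × ℝ =>
        m (Complex.exp (-(p.1 : ℂ) + (p.2 : ℂ) * Complex.I))) (x, θ) :=
      ContDiffAt.comp (x, θ) (g := fun ζ => m (Complex.exp ζ))
        (f := fun p : ℝ × ℝ => -(p.1 : ℂ) + (p.2 : ℂ) * Complex.I) hmr hι
    have h5 : ContDiffAt ℝ 2 (fun p : ℝ × ℝ =>
        (l (Complex.exp (-(p.1 : ℂ) + (p.2 : ℂ) * Complex.I))).re) (x, θ) :=
      Complex.reCLM.contDiff.contDiffAt.comp (x, θ) h3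
    have h6 : ContDiffAt ℝ 2 (fun p : ℝ × ℝ =>
        (m (Complex.exp (-(p.1 : ℂ) + (p.2 : ℂ) * Complex.I))).re) (x, θ) :=
      Complex.reCLM.contDiff.contDiffAt.comp (x, θ) h4
    have h7 : ContDiffAt ℝ 2 (fun p : ℝ × ℝ =>
        F (l (Complex.exp (-(p.1 : ℂ) + (p.2 : ℂ) * Complex.I))).re) (x, θ) :=
      (Potential_contDiff hF hW hw).contDiffAt.comp (x, θ) h5
    refine (h7.add h6).congr_of_eventuallyEq ?_
    have h8 : ContinuousAt (fun p : ℝ × ℝ => -(p.1 : ℂ) + (p.2 : ℂ) * Complex.I) (x, θ) :=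
      hι.continuousAt
    exact h8.eventually hSe
  · rw [k1]
    simp only [hdle, hdme, neg_one_mul]
    rfl
  · rw [k2, k3, hdle]
    simp only [Complex.I_sq, neg_one_sq, one_mul, neg_one_mul, Complex.neg_re, Complex.I_mul_re]
    have h9 : ‖z₀ * deriv l z₀‖ ^ 2 = (z₀ * deriv l z₀).re ^ 2 + (z₀ * deriv l z₀).im ^ 2 := by
      rw [← Complex.normSq_eq_norm_sq, Complex.normSq_apply]
      ring
    rw [h9]
    change w (l z₀).re * _ + W (l z₀).re * _ + _ + (w (l z₀).re * _ + W (l z₀).re * _ + _) = _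
    ring


/-- the density -/
private def Potential_L (w : ℝ → ℝ) (U : ℂ → ℂ) (z : ℂ) : ℝ :=
  w (Real.log ‖U z‖) * ‖z * deriv U z / U z‖ ^ 2

/-- the derivative at the outer radius -/
private def Potential_K (W : ℝ → ℝ) (a : ℝ) (U : ℂ → ℂ) (T : Finset ℂ) (z : ℂ) : ℝ :=
  W (Real.log ‖U z‖) * (-(z * (deriv U z / U z))).re +
    (-(z * ∑ s ∈ T, ((a * |(ordZ U s : ℝ)| : ℝ) : ℂ) * (1 / (z - s)))).re

private theorem Potential_mean_eq (f : ℂ → ℝ) (x : ℝ) :
    mean f x = (2 * Real.pi)⁻¹ *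
      ∫ θ in (0 : ℝ)..2 * Real.pi, f (Complex.exp (-(x : ℂ) + (θ : ℂ) * Complex.I)) := by
  unfold mean
  rw [Real.circleAverage_def, smul_eq_mul]
  simp only [Potential_circleMap]

private theorem Potential_S_eq {w : ℝ → ℝ} {M : ℝ} {F W : ℝ → ℝ} {a b : ℝ}
    (hd : Potential_Data w M F W a b) {g : ℂ → ℝ} {l m : ℂ → ℂ} {z₀ : ℂ}
    (hl : AnalyticAt ℂ l z₀) (hm : AnalyticAt ℂ m z₀)
    (hg : ∀ᶠ z in 𝓝[≠] z₀, g z = F (l z).re + (m z).re) :
    ∀ᶠ z in 𝓝 z₀, limUnder (𝓝[≠] z) g = F (l z).re + (m z).re := by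
  refine Potential_ext (k := fun z => F (l z).re + (m z).re) hg ?_
  filter_upwards [hl.eventually_analyticAt, hm.eventually_analyticAt] with z h1 h2
  have h3 : ContinuousAt F (l z).re := (hd.hF _).continuousAt
  have h4 : ContinuousAt (fun z => (l z).re) z :=
    Complex.continuous_re.continuousAt.comp h1.continuousAt
  have h5 : ContinuousAt (fun z => (m z).re) z :=
    Complex.continuous_re.continuousAt.comp h2.continuousAt
  exact (ContinuousAt.comp (f := fun z => (l z).re) h3 h4).add h5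

private theorem Potential_identity {w : ℝ → ℝ} {M : ℝ} {F W : ℝ → ℝ} {a b : ℝ}
    (hd : Potential_Data w M F W a b) {R₀ : ℝ} {U : ℂ → ℂ} (hU : Potential_NF R₀ U)
    {T : Finset ℂ} (hT : ∀ s ∈ T, U s = 0) {α β : ℝ} (hα : Real.exp (-α) ≤ R₀)
    (hTc : ∀ z, Real.exp (-β) < ‖z‖ → ‖z‖ < Real.exp (-α) → U z = 0 → z ∈ T)
    {x₀ x : ℝ} (hx₀ : x₀ ∈ Set.Ioo α β) (hx : x ∈ Set.Ioo α β)
    (hne : ∀ z, ‖z‖ = Real.exp (-x₀) → U z ≠ 0) :
    mean (Potential_g F a U T) x = mean (Potential_g F a U T) x₀ +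
      mean (Potential_K W a U T) x₀ * (x - x₀) +
      ∫ y in x₀..x, (x - y) * mean (Potential_L w U) y := by
  set g : ℂ → ℝ := Potential_g F a U T with hg
  set S : ℂ → ℝ := fun z => limUnder (𝓝[≠] z) g with hSdef
  have hloc : ∀ y ∈ Set.Ioo α β, ∀ z₀ : ℂ, ‖z₀‖ = Real.exp (-y) →
      ∃ l m : ℂ → ℂ, AnalyticAt ℂ l z₀ ∧ AnalyticAt ℂ m z₀ ∧
        (∀ᶠ z in 𝓝[≠] z₀, g z = F (l z).re + (m z).re) ∧
        Potential_L w U z₀ = w (l z₀).re * ‖z₀ * deriv l z₀‖ ^ 2 := by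
    intro y hy z₀ hz₀
    have h1 : Real.exp (-β) < ‖z₀‖ := by
      rw [hz₀]; exact Real.exp_lt_exp.mpr (by linarith [hy.2])
    have h2 : ‖z₀‖ < Real.exp (-α) := by
      rw [hz₀]; exact Real.exp_lt_exp.mpr (by linarith [hy.1])
    exact Potential_loc hd hU hT ((Real.exp_pos _).trans h1) (h2.trans_le hα)
      (hTc z₀ h1 h2)
  have hmeanS : ∀ y ∈ Set.Ioo α β, mean S y = mean g y := by
    intro y hy
    refine Potential_mean_congr fun z₀ hz₀ => ?_
    obtain ⟨l, m, hl, hm, h1, -⟩ := hloc y hy z₀ hz₀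
    have h2 := Potential_S_eq hd hl hm h1
    filter_upwards [h1, h2.filter_mono nhdsWithin_le_nhds] with z e1 e2
    rw [hSdef]
    exact e2.trans e1.symm
  have havg := average_second_deriv
    (Φ := fun y θ => S (Complex.exp (-(y : ℂ) + (θ : ℂ) * Complex.I)))
    (L := fun y θ => Potential_L w U (Complex.exp (-(y : ℂ) + (θ : ℂ) * Complex.I)))
    (α := α) (β := β) ?_ ?_ ?_ hx₀ hx
  · have h2π : (0 : ℝ) < 2 * Real.pi := Real.two_pi_pos
    rw [← hmeanS x hx, ← hmeanS x₀ hx₀, Potential_mean_eq S x, Potential_mean_eq S x₀, havg,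
      Potential_mean_eq (Potential_K W a U T) x₀]
    have hder : (∫ θ in (0 : ℝ)..2 * Real.pi,
        deriv (fun y : ℝ => S (Complex.exp (-(y : ℂ) + (θ : ℂ) * Complex.I))) x₀) =
        ∫ θ in (0 : ℝ)..2 * Real.pi,
          Potential_K W a U T (Complex.exp (-(x₀ : ℂ) + (θ : ℂ) * Complex.I)) := by
      apply intervalIntegral.integral_congr
      intro θ _
      have hn := Potential_norm x₀ θ
      have h0 := hne _ hn
      have h1 : 0 < ‖Complex.exp (-(x₀ : ℂ) + (θ : ℂ) * Complex.I)‖ := by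
        rw [hn]; exact Real.exp_pos _
      have h2 : ‖Complex.exp (-(x₀ : ℂ) + (θ : ℂ) * Complex.I)‖ < R₀ := by
        rw [hn]; exact (Real.exp_lt_exp.mpr (by linarith [hx₀.1])).trans_le hα
      have h3 : Complex.exp (-(x₀ : ℂ) + (θ : ℂ) * Complex.I) ∉ T := fun h => h0 (hT _ h)
      obtain ⟨l, hla, hl, hl'⟩ := Potential_branch (hU.ana _ h1 h2 h0) h0
      obtain ⟨m, hma, hm, hm'⟩ := Potential_sumlog T (fun s => a * |(ordZ U s : ℝ)|) _ h3
      have hgl : ∀ᶠ z in 𝓝[≠] (Complex.exp (-(x₀ : ℂ) + (θ : ℂ) * Complex.I)),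
          g z = F (l z).re + (m z).re := by
        filter_upwards [hl.filter_mono nhdsWithin_le_nhds, hm.filter_mono nhdsWithin_le_nhds]
          with z e1 e2
        rw [hg]
        unfold Potential_g
        rw [e1, e2, Finset.mul_sum]
        simp only [mul_assoc]
      have h4 := (Potential_smooth hd.hF hd.hW hd.wc x₀ θ hla hma
        (Potential_S_eq hd hla hma hgl)).2.1
      refine h4.trans ?_
      unfold Potential_K
      rw [hl.self_of_nhds, hl', hm']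
    rw [hder]
    have hint : (∫ y in x₀..x, (x - y) * mean (Potential_L w U) y) =
        (2 * Real.pi)⁻¹ * ∫ y in x₀..x, (x - y) * ∫ θ in (0 : ℝ)..2 * Real.pi,
          Potential_L w U (Complex.exp (-(y : ℂ) + (θ : ℂ) * Complex.I)) := by
      rw [← intervalIntegral.integral_const_mul]
      apply intervalIntegral.integral_congr
      intro y _
      simp only [Potential_mean_eq]
      ring
    rw [hint]
    ring
  · intro y hy θ
    obtain ⟨l, m, hl, hm, h1, -⟩ := hloc y hy _ (Potential_norm y θ)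
    exact (Potential_smooth hd.hF hd.hW hd.wc y θ hl hm (Potential_S_eq hd hl hm h1)).1
  · intro y θ
    have : Complex.exp (-(y : ℂ) + ((θ + 2 * Real.pi : ℝ) : ℂ) * Complex.I) =
        Complex.exp (-(y : ℂ) + (θ : ℂ) * Complex.I) := by
      have h1 : -(y : ℂ) + ((θ + 2 * Real.pi : ℝ) : ℂ) * Complex.I =
          (-(y : ℂ) + (θ : ℂ) * Complex.I) + 2 * Real.pi * Complex.I := by
        push_cast
        ring
      rw [h1, Complex.exp_periodic]
    simp only [this]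
  · intro y hy θ
    obtain ⟨l, m, hl, hm, h1, h2⟩ := hloc y hy _ (Potential_norm y θ)
    rw [(Potential_smooth hd.hF hd.hW hd.wc y θ hl hm (Potential_S_eq hd hl hm h1)).2.2]
    exact h2


private theorem Potential_big {R₀ : ℝ} {U : ℂ → ℂ} (hU : Potential_NF R₀ U) {z₀ : ℂ}
    (h1 : 0 < ‖z₀‖) (h2 : ‖z₀‖ < R₀) (h0 : U z₀ = 0) (M : ℝ) :
    ∀ᶠ z in 𝓝[≠] z₀, M ≤ |Real.log ‖U z‖| := by
  obtain ⟨h, hha, hh0, hfac⟩ := hU.fac z₀ h1 h2
  have hn : ordZ U z₀ ≠ 0 := (hU.ord z₀ h1 h2).mp h0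
  set n : ℝ := (ordZ U z₀ : ℝ) with hnd
  have hn0 : n ≠ 0 := by
    rw [hnd]
    exact_mod_cast hn
  have hlog : ∀ᶠ z in 𝓝[≠] z₀, Real.log ‖U z‖ = n * Real.log ‖z - z₀‖ + Real.log ‖h z‖ := by
    filter_upwards [hfac, self_mem_nhdsWithin,
      (hha.continuousAt.eventually_ne hh0).filter_mono nhdsWithin_le_nhds] with z hz hz1 hz2
    have hz3 : z - z₀ ≠ 0 := sub_ne_zero.mpr hz1
    rw [hz, norm_mul, norm_zpow, Real.log_mul (zpow_ne_zero _ (norm_ne_zero_iff.mpr hz3))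
      (norm_ne_zero_iff.mpr hz2), Real.log_zpow]
  have htop : Tendsto (fun z : ℂ => Real.log ‖z - z₀‖) (𝓝[≠] z₀) atBot := by
    have ht1 : Tendsto (fun z : ℂ => ‖z - z₀‖) (𝓝[≠] z₀) (𝓝[>] 0) := by
      refine tendsto_nhdsWithin_iff.mpr ⟨?_, ?_⟩
      · have : Tendsto (fun z : ℂ => ‖z - z₀‖) (𝓝 z₀) (𝓝 ‖z₀ - z₀‖) :=
          (continuous_norm.comp (continuous_id.sub continuous_const)).tendsto z₀
        rw [sub_self, norm_zero] at this
        exact this.mono_left nhdsWithin_le_nhds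
      · filter_upwards [self_mem_nhdsWithin] with z hz
        exact norm_pos_iff.mpr (sub_ne_zero.mpr hz)
    exact Real.tendsto_log_nhdsGT_zero.comp ht1
  have hhc : Tendsto (fun z : ℂ => Real.log ‖h z‖) (𝓝[≠] z₀) (𝓝 (Real.log ‖h z₀‖)) := by
    have : ContinuousAt (fun z : ℂ => Real.log ‖h z‖) z₀ :=
      hha.continuousAt.norm.log (norm_ne_zero_iff.mpr hh0)
    exact this.tendsto.mono_left nhdsWithin_le_nhds
  have habs : Tendsto (fun z : ℂ => |n * Real.log ‖z - z₀‖ + Real.log ‖h z‖|) (𝓝[≠] z₀)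
      atTop := by
    rcases lt_or_gt_of_ne hn0 with hneg | hpos
    · exact tendsto_abs_atTop_atTop.comp
        (Tendsto.atTop_add (htop.const_mul_atBot_of_neg hneg) hhc)
    · exact tendsto_abs_atBot_atTop.comp (Tendsto.atBot_add (htop.const_mul_atBot hpos) hhc)
  filter_upwards [hlog, habs.eventually_ge_atTop M] with z e1 e2
  rw [e1]
  exact e2

private theorem Potential_cont {w : ℝ → ℝ} {M : ℝ} (hw : Continuous w)
    (hwb : ∀ t, M ≤ |t| → w t = 0) {R₀ : ℝ} {U : ℂ → ℂ} (hU : Potential_NF R₀ U) {z₀ : ℂ}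
    (h1 : 0 < ‖z₀‖) (h2 : ‖z₀‖ < R₀) : ContinuousAt (Potential_L w U) z₀ := by
  by_cases h0 : U z₀ = 0
  · have h3 : ∀ᶠ z in 𝓝 z₀, Potential_L w U z = 0 := by
      have h4 := Potential_big hU h1 h2 h0 M
      rw [eventually_nhdsWithin_iff] at h4
      filter_upwards [h4] with z hz
      unfold Potential_L
      by_cases hzz : z = z₀
      · rw [hzz, h0]
        simp
      · rw [hwb _ (hz hzz), zero_mul]
    exact (continuousAt_const (y := (0 : ℝ))).congr (by filter_upwards [h3] with z hz using hz.symm)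
  · have hana := hU.ana z₀ h1 h2 h0
    have h3 : ContinuousAt (fun z => Real.log ‖U z‖) z₀ :=
      hana.continuousAt.norm.log (norm_ne_zero_iff.mpr h0)
    have h4 : ContinuousAt (fun z => w (Real.log ‖U z‖)) z₀ := hw.continuousAt.comp h3
    have h5 : ContinuousAt (fun z => ‖z * deriv U z / U z‖ ^ 2) z₀ :=
      (((continuousAt_id.mul hana.deriv.continuousAt).div hana.continuousAt h0).norm).pow 2
    exact h4.mul h5

private theorem Potential_avg_one {s : ℂ} {R : ℝ} (h : ‖s‖ < R) :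
    Real.circleAverage (fun z => z * (1 / (z - s))) 0 R = 1 := by
  have hR : 0 < R := (norm_nonneg s).trans_lt h
  rw [Real.circleAverage_eq_circleIntegral hR.ne']
  have h1 : (∮ z in C(0, R), (z - 0)⁻¹ • (z * (1 / (z - s)))) = ∮ z in C(0, R), (z - s)⁻¹ := by
    refine circleIntegral.integral_congr hR.le fun z hz => ?_
    have hz0 : z ≠ 0 := by
      intro h0
      rw [h0, mem_sphere_zero_iff_norm, norm_zero] at hz
      exact hR.ne hz
    simp only [smul_eq_mul, sub_zero]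
    rw [← mul_assoc, inv_mul_cancel₀ hz0, one_mul, one_div]
  rw [h1, circleIntegral.integral_sub_inv_of_mem_ball (by rwa [mem_ball_zero_iff]), smul_eq_mul]
  exact inv_mul_cancel₀ Complex.two_pi_I_ne_zero

/-- the mean of the regularised function -/
private theorem Potential_mean_g {w : ℝ → ℝ} {M : ℝ} {F W : ℝ → ℝ} {a b : ℝ}
    (hd : Potential_Data w M F W a b) {R₀ : ℝ} {U : ℂ → ℂ} (hU : Potential_NF R₀ U)
    (T : Finset ℂ) {x : ℝ} (hx : Real.exp (-x) < R₀) :
    mean (Potential_g F a U T) x = mean (fun z => F (Real.log ‖U z‖)) x +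
      a * ∑ s ∈ T, |(ordZ U s : ℝ)| * (-x + Real.posLog (‖s‖ / Real.exp (-x))) ∧
    0 ≤ mean (fun z => F (Real.log ‖U z‖)) x ∧
    mean (fun z => F (Real.log ‖U z‖)) x ≤ mean (fun z => |Real.log ‖U z‖|) x := by
  have hr : 0 < Real.exp (-x) := Real.exp_pos _
  have hlog : CircleIntegrable (fun z => Real.log ‖U z‖) 0 (Real.exp (-x)) := by
    apply MeromorphicOn.circleIntegrable_log_norm
    intro z hz
    rw [mem_sphere_zero_iff_norm, abs_of_pos hr] at hz
    exact hU.mer z (by rw [hz]; exact hr) (by rw [hz]; exact hx)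
  have hFc : Continuous F := continuous_iff_continuousAt.mpr fun t => (hd.hF t).continuousAt
  have hFi : CircleIntegrable (fun z => F (Real.log ‖U z‖)) 0 (Real.exp (-x)) := by
    unfold CircleIntegrable at hlog ⊢
    refine hlog.mono_fun ?_ ?_
    · exact hFc.comp_aestronglyMeasurable hlog.aestronglyMeasurable_restrict_uIoc
    · refine Filter.Eventually.of_forall fun θ => ?_
      simp only [Real.norm_eq_abs]
      rw [abs_of_nonneg (hd.F0 _)]
      exact hd.F1 _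
  have hsi : CircleIntegrable (fun z => a * ∑ s ∈ T, |(ordZ U s : ℝ)| * Real.log ‖z - s‖) 0
      (Real.exp (-x)) := by
    refine CircleIntegrable.const_fun_smul (a := a)
      (f := fun z => ∑ s ∈ T, |(ordZ U s : ℝ)| * Real.log ‖z - s‖) ?_
    refine CircleIntegrable.fun_sum T fun s _ => ?_
    exact (circleIntegrable_log_norm_sub_const (Real.exp (-x))).const_fun_smul
      (a := |(ordZ U s : ℝ)|)
  refine ⟨?_, ?_, ?_⟩
  · unfold mean Potential_g
    rw [Real.circleAverage_fun_add hFi hsi]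
    congr 1
    have h1 := Real.circleAverage_fun_smul (a := a)
      (f := fun z => ∑ s ∈ T, |(ordZ U s : ℝ)| * Real.log ‖z - s‖) (c := 0) (R := Real.exp (-x))
    simp only [smul_eq_mul] at h1
    have hsi' : ∀ s ∈ T, CircleIntegrable (fun z => |(ordZ U s : ℝ)| * Real.log ‖z - s‖) 0
        (Real.exp (-x)) := fun s _ =>
      (circleIntegrable_log_norm_sub_const (Real.exp (-x))).const_fun_smul
        (a := |(ordZ U s : ℝ)|)
    rw [h1, Real.circleAverage_fun_sum hsi']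
    congr 1
    refine Finset.sum_congr rfl fun s _ => ?_
    have h5 := Real.circleAverage_fun_smul (a := |(ordZ U s : ℝ)|)
      (f := fun z => Real.log ‖z - s‖) (c := 0) (R := Real.exp (-x))
    simp only [smul_eq_mul] at h5
    rw [h5, circleAverage_log_norm_sub_const_eq_log_radius_add_posLog hr.ne', zero_sub, norm_neg,
      inv_mul_eq_div, Real.log_exp]
  · exact Real.circleAverage_nonneg_of_nonneg fun z _ => hd.F0 _
  · refine Real.circleAverage_mono hFi ?_ fun z _ => hd.F1 _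
    unfold CircleIntegrable at hlog ⊢
    exact hlog.abs

/-- the mean of the derivative -/
private theorem Potential_mean_K {w : ℝ → ℝ} {M : ℝ} {F W : ℝ → ℝ} {a b : ℝ}
    (hd : Potential_Data w M F W a b) {R₀ : ℝ} {U : ℂ → ℂ} (hU : Potential_NF R₀ U)
    {T : Finset ℂ} {x : ℝ} (hx : Real.exp (-x) < R₀)
    (hne : ∀ z, ‖z‖ = Real.exp (-x) → U z ≠ 0) (hT : ∀ s ∈ T, ‖s‖ < Real.exp (-x)) :
    |(mean (Potential_K W a U T) x + a * (∑ s ∈ T, |(ordZ U s : ℝ)|))| ≤
      mean (fun z => ‖z * deriv U z / U z‖) x := by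
  have hr : 0 < Real.exp (-x) := Real.exp_pos _
  have hWc : Continuous W := continuous_iff_continuousAt.mpr fun t => (hd.hW t).continuousAt
  have hz0 : ∀ z : ℂ, z ∈ Metric.sphere (0 : ℂ) (Real.exp (-x)) → ‖z‖ = Real.exp (-x) :=
    fun z hz => mem_sphere_zero_iff_norm.mp hz
  have hana : ∀ z : ℂ, z ∈ Metric.sphere (0 : ℂ) (Real.exp (-x)) → AnalyticAt ℂ U z :=
    fun z hz => hU.ana z (by rw [hz0 z hz]; exact hr) (by rw [hz0 z hz]; exact hx)
      (hne z (hz0 z hz))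
  have hc0 : ∀ z : ℂ, z ∈ Metric.sphere (0 : ℂ) (Real.exp (-x)) →
      ContinuousAt (fun z => z * (deriv U z / U z)) z := fun z hz =>
    continuousAt_id.mul ((hana z hz).deriv.continuousAt.div (hana z hz).continuousAt
      (hne z (hz0 z hz)))
  have hi1 : CircleIntegrable (fun z => W (Real.log ‖U z‖) * (-(z * (deriv U z / U z))).re) 0
      (Real.exp (-x)) := by
    refine ContinuousOn.circleIntegrable hr.le fun z hz => ContinuousAt.continuousWithinAt ?_
    have h1 : ContinuousAt (fun z => W (Real.log ‖U z‖)) z :=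
      hWc.continuousAt.comp
        ((hana z hz).continuousAt.norm.log (norm_ne_zero_iff.mpr (hne z (hz0 z hz))))
    have h2 : ContinuousAt (fun z => (-(z * (deriv U z / U z))).re) z :=
      Complex.continuous_re.continuousAt.comp (hc0 z hz).neg
    exact h1.mul h2
  have hi3 : CircleIntegrable (fun z => ‖z * deriv U z / U z‖) 0 (Real.exp (-x)) := by
    refine ContinuousOn.circleIntegrable hr.le fun z hz => ContinuousAt.continuousWithinAt ?_
    have := (hc0 z hz).norm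
    simp only [← mul_div_assoc] at this
    exact this
  have hcs : ∀ s ∈ T, ContinuousOn (fun z : ℂ => z * (1 / (z - s)))
      (Metric.sphere (0 : ℂ) (Real.exp (-x))) := by
    intro s hs z hz
    refine ContinuousAt.continuousWithinAt ?_
    have h1 : z - s ≠ 0 := by
      intro h
      have h2 := hT s hs
      rw [← sub_eq_zero.mp h, hz0 z hz] at h2
      exact lt_irrefl _ h2
    exact continuousAt_id.mul (continuousAt_const.div (continuousAt_id.sub continuousAt_const) h1)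
  have hi4 : ∀ s ∈ T, CircleIntegrable (fun z : ℂ => z * (1 / (z - s))) 0 (Real.exp (-x)) :=
    fun s hs => ContinuousOn.circleIntegrable hr.le (hcs s hs)
  have hfun : (fun z : ℂ => -(z * ∑ s ∈ T, ((a * |(ordZ U s : ℝ)| : ℝ) : ℂ) * (1 / (z - s)))) =
      fun z => ∑ s ∈ T, (-((a * |(ordZ U s : ℝ)| : ℝ) : ℂ)) • (z * (1 / (z - s))) := by
    funext z
    rw [Finset.mul_sum, ← Finset.sum_neg_distrib]
    refine Finset.sum_congr rfl fun s _ => ?_
    rw [smul_eq_mul]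
    ring
  have hi5 : CircleIntegrable (fun z : ℂ =>
      -(z * ∑ s ∈ T, ((a * |(ordZ U s : ℝ)| : ℝ) : ℂ) * (1 / (z - s)))) 0 (Real.exp (-x)) := by
    rw [hfun]
    refine CircleIntegrable.fun_sum T fun s hs => ?_
    exact (hi4 s hs).const_fun_smul
  have hav : Real.circleAverage (fun z : ℂ =>
      -(z * ∑ s ∈ T, ((a * |(ordZ U s : ℝ)| : ℝ) : ℂ) * (1 / (z - s)))) 0 (Real.exp (-x)) =
      ((-(a * ∑ s ∈ T, |(ordZ U s : ℝ)|) : ℝ) : ℂ) := by
    rw [hfun, Real.circleAverage_fun_sum fun s hs => (hi4 s hs).const_fun_smul]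
    have h1 : ∀ s ∈ T, Real.circleAverage (fun z : ℂ =>
        (-((a * |(ordZ U s : ℝ)| : ℝ) : ℂ)) • (z * (1 / (z - s)))) 0 (Real.exp (-x)) =
        -((a * |(ordZ U s : ℝ)| : ℝ) : ℂ) := by
      intro s hs
      rw [Real.circleAverage_fun_smul, Potential_avg_one (hT s hs), smul_eq_mul, mul_one]
    rw [Finset.sum_congr rfl h1, Finset.sum_neg_distrib, Finset.mul_sum]
    push_cast
    rfl
  have hre : Real.circleAverage (fun z : ℂ =>
      (-(z * ∑ s ∈ T, ((a * |(ordZ U s : ℝ)| : ℝ) : ℂ) * (1 / (z - s)))).re) 0 (Real.exp (-x)) =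
      -(a * ∑ s ∈ T, |(ordZ U s : ℝ)|) := by
    have h1 := Complex.reCLM.circleAverage_comp_comm hi5
    rw [hav] at h1
    rw [Complex.reCLM_apply, Complex.ofReal_re] at h1
    exact h1
  have hi6 : CircleIntegrable (fun z : ℂ =>
      (-(z * ∑ s ∈ T, ((a * |(ordZ U s : ℝ)| : ℝ) : ℂ) * (1 / (z - s)))).re) 0
      (Real.exp (-x)) := by
    refine ContinuousOn.circleIntegrable hr.le ?_
    refine Complex.continuous_re.comp_continuousOn ?_
    rw [hfun]
    refine continuousOn_finsetSum T fun s hs => ?_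
    exact continuousOn_const.mul (hcs s hs)
  have hK : mean (Potential_K W a U T) x =
      Real.circleAverage (fun z => W (Real.log ‖U z‖) * (-(z * (deriv U z / U z))).re) 0
        (Real.exp (-x)) + -(a * ∑ s ∈ T, |(ordZ U s : ℝ)|) := by
    unfold mean Potential_K
    rw [Real.circleAverage_fun_add hi1 hi6, hre]
  rw [hK]
  have h7 : Real.circleAverage (fun z => W (Real.log ‖U z‖) * (-(z * (deriv U z / U z))).re) 0
        (Real.exp (-x)) + -(a * ∑ s ∈ T, |(ordZ U s : ℝ)|) + a * ∑ s ∈ T, |(ordZ U s : ℝ)| =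
      Real.circleAverage (fun z => W (Real.log ‖U z‖) * (-(z * (deriv U z / U z))).re) 0
        (Real.exp (-x)) := by ring
  rw [h7]
  refine Real.abs_circleAverage_le_circleAverage_abs.trans ?_
  unfold mean
  refine Real.circleAverage_mono ?_ hi3 fun z _ => ?_
  · unfold CircleIntegrable at hi1 ⊢
    exact hi1.abs
  · rw [Pi.abs_apply, abs_mul]
    have h8 : |(-(z * (deriv U z / U z))).re| ≤ ‖z * deriv U z / U z‖ := by
      refine (Complex.abs_re_le_norm _).trans ?_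
      rw [norm_neg, mul_div_assoc]
    calc |W (Real.log ‖U z‖)| * |(-(z * (deriv U z / U z))).re|
        ≤ 1 * ‖z * deriv U z / U z‖ :=
          mul_le_mul (hd.W1 _) h8 (abs_nonneg _) zero_le_one
      _ = ‖z * deriv U z / U z‖ := one_mul _


/-- radii without zeros and poles -/
private theorem Potential_radii {R₀ : ℝ} (hR₀ : 0 < R₀) {u : ℂ → ℂ} (hu : MeroPunct R₀ u) :
    ∃ R₁ R₂ : ℝ, 0 < R₁ ∧ R₁ < R₂ ∧ R₂ < R₀ ∧ ∀ z, R₁ ≤ ‖z‖ → ‖z‖ ≤ R₂ → ordZ u z = 0 := by
  have hfin : {s : ℂ | R₀ / 4 ≤ ‖s‖ ∧ ‖s‖ ≤ R₀ / 2 ∧ ordZ u s ≠ 0}.Finite :=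
    Pool.Agent.H92.GGL.finite_ordZ (by linarith) (by linarith) hu.mero
  set A : Set ℝ := (fun s : ℂ => ‖s‖) '' {s : ℂ | R₀ / 4 ≤ ‖s‖ ∧ ‖s‖ ≤ R₀ / 2 ∧ ordZ u s ≠ 0}
    with hA
  have hAfin : A.Finite := hfin.image _
  have hinf : (Set.Ioo (R₀ / 4) (R₀ / 2) \ A).Infinite :=
    (Set.Ioo_infinite (by linarith)).sdiff hAfin
  obtain ⟨R₁, ⟨h1, h2⟩, h3⟩ := hinf.nonempty
  have hopen : Aᶜ ∈ 𝓝 R₁ := hAfin.isClosed.isOpen_compl.mem_nhds h3
  obtain ⟨ε, hε, hε2⟩ := Metric.mem_nhds_iff.mp hopen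
  refine ⟨R₁, min (R₁ + ε / 2) ((R₁ + R₀ / 2) / 2), by linarith, ?_, ?_, ?_⟩
  · exact lt_min (by linarith) (by linarith)
  · exact (min_le_right _ _).trans_lt (by linarith)
  · intro z hz1 hz2
    by_contra h0
    have h4 : ‖z‖ ∈ A := by
      refine ⟨z, ⟨by linarith, ?_, h0⟩, rfl⟩
      have := hz2.trans (min_le_right _ _)
      linarith
    refine hε2 ?_ h4
    rw [Metric.mem_ball, Real.dist_eq, abs_of_nonneg (by linarith)]
    have := hz2.trans (min_le_left _ _)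
    linarith

/-- The potential inequality. -/
theorem potential_ineq {R₀ : ℝ} (hR₀ : 0 < R₀) {u : ℂ → ℂ} (hu : MeroPunct R₀ u) :
    ∃ (R₁ C : ℝ), 0 < R₁ ∧ R₁ < R₀ ∧ ∀ (w : ℝ → ℝ) (M : ℝ), Continuous w → (∀ t, 0 ≤ w t) →
      (∀ t, w (-t) = w t) → 0 ≤ M → (∀ t, M ≤ t → w t = 0) → (∫ t in (0 : ℝ)..M, w t) ≤ 1 →
      ContinuousOn (fun y => mean (fun z => w (Real.log ‖u z‖) * ‖z * deriv u z / u z‖ ^ 2) y)
        (Set.Ici (-Real.log R₁)) ∧
      ∀ x, -Real.log R₁ ≤ x →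
        (∫ y in (-Real.log R₁)..x, (x - y) *
          mean (fun z => w (Real.log ‖u z‖) * ‖z * deriv u z / u z‖ ^ 2) y) ≤
        mean (fun z => |Real.log ‖u z‖|) x +
          cnt (fun s => |(ordZ u s : ℝ)|) R₁ (Real.exp (-x)) + C * (1 + |x|) := by
  obtain ⟨R₁, R₂, hR1, hR12, hR2, hfree⟩ := Potential_radii hR₀ hu
  obtain ⟨U, hU, hUu, hord⟩ := Potential_exists_nf hu
  have hpl : ∀ t : ℝ, Real.posLog t = max 0 (Real.log t) := fun t => rfl
  set x₀ : ℝ := -Real.log R₁ with hx₀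
  have hex₀ : Real.exp (-x₀) = R₁ := by rw [hx₀, neg_neg, Real.exp_log hR1]
  set C₀ : ℝ := mean (fun z => ‖z * deriv U z / U z‖) x₀ with hC₀
  have hC₀0 : 0 ≤ C₀ := Real.circleAverage_nonneg_of_nonneg fun z _ => norm_nonneg _
  refine ⟨R₁, C₀ * (1 + |x₀|), hR1, hR12.trans hR2, ?_⟩
  intro w M hw hw0 hwe hM hwz hwi
  obtain ⟨F, W, a, b, hd⟩ := Potential_data hw hw0 hwe hM hwz hwi
  have hder : ∀ z, 0 < ‖z‖ → ‖z‖ < R₀ → ∀ᶠ z' in 𝓝[≠] z, U z' = u z' ∧ deriv U z' = deriv u z' := by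
    intro z h1 h2
    have h3 := hUu z h1 h2
    have h4 : ∀ᶠ z' in 𝓝[≠] z, U =ᶠ[𝓝 z'] u := by
      rw [Filter.EventuallyEq, eventually_nhdsWithin_iff] at h3
      rw [eventually_nhdsWithin_iff]
      filter_upwards [h3.eventually_nhds] with z' e1 e2
      have e3 : ∀ᶠ y in 𝓝 z', y ≠ z := eventually_ne_nhds e2
      filter_upwards [e1, e3] with y k1 k2 using k1 k2
    filter_upwards [h4] with z' hz'
    exact ⟨hz'.self_of_nhds, hz'.deriv_eq⟩
  have hG : ∀ y, Real.exp (-y) < R₀ →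
      mean (fun z => w (Real.log ‖u z‖) * ‖z * deriv u z / u z‖ ^ 2) y =
        mean (Potential_L w U) y := by
    intro y hy
    refine Potential_mean_congr fun z hz => ?_
    filter_upwards [hder z (by rw [hz]; exact Real.exp_pos _) (by rw [hz]; exact hy)] with z' hz'
    unfold Potential_L
    rw [hz'.1, hz'.2]
  have hexle : ∀ y, x₀ ≤ y → Real.exp (-y) < R₀ := by
    intro y hy
    have h1 : Real.exp (-y) ≤ Real.exp (-x₀) := Real.exp_le_exp.mpr (by linarith)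
    rw [hex₀] at h1
    exact h1.trans_lt (hR12.trans hR2)
  constructor
  · have h1 : ContinuousOn (Real.circleAverage (Potential_L w U) 0) (Set.Ioo 0 R₀) := by
      refine Real.ContinuousOn.circleAverage (fun z hz => ?_) fun r hr => hr.1.le
      have hz' : 0 < ‖z‖ ∧ ‖z‖ < R₀ := by simpa using hz
      exact (Potential_cont hw hd.wbig hU hz'.1 hz'.2).continuousWithinAt
    have h2 : ContinuousOn (fun y : ℝ => Real.exp (-y)) (Set.Ici x₀) :=
      (Real.continuous_exp.comp continuous_neg).continuousOn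
    have h3 : ContinuousOn (fun y => Real.circleAverage (Potential_L w U) 0 (Real.exp (-y)))
        (Set.Ici x₀) := h1.comp h2 fun y hy => ⟨Real.exp_pos _, hexle y hy⟩
    exact h3.congr fun y hy => hG y (hexle y hy)
  · intro x hx
    -- the zeros and poles
    set β : ℝ := x + 1 with hβ
    set α : ℝ := -Real.log R₂ with hα
    have hR2pos : 0 < R₂ := hR1.trans hR12
    have heα : Real.exp (-α) = R₂ := by rw [hα, neg_neg, Real.exp_log hR2pos]
    have hαx₀ : α < x₀ := by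
      rw [hα, hx₀]
      linarith [Real.log_lt_log hR1 hR12]
    have hfinT : {s : ℂ | Real.exp (-β) ≤ ‖s‖ ∧ ‖s‖ ≤ R₁ ∧ ordZ u s ≠ 0}.Finite :=
      Pool.Agent.H92.GGL.finite_ordZ (Real.exp_pos _) (hR12.trans hR2) hu.mero
    set T : Finset ℂ := hfinT.toFinset with hTdef
    have hTmem : ∀ s, s ∈ T ↔ Real.exp (-β) ≤ ‖s‖ ∧ ‖s‖ ≤ R₁ ∧ ordZ u s ≠ 0 := by
      intro s
      rw [hTdef, Set.Finite.mem_toFinset]
      rfl
    have hTD : ∀ s ∈ T, 0 < ‖s‖ ∧ ‖s‖ < R₀ := by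
      intro s hs
      obtain ⟨h1, h2, -⟩ := (hTmem s).mp hs
      exact ⟨(Real.exp_pos _).trans_le h1, h2.trans_lt (hR12.trans hR2)⟩
    have hTU : ∀ s ∈ T, U s = 0 := by
      intro s hs
      obtain ⟨h1, h2⟩ := hTD s hs
      rw [hU.ord s h1 h2, hord s h1 h2]
      exact ((hTmem s).mp hs).2.2
    have hTlt : ∀ s ∈ T, ‖s‖ < R₁ := by
      intro s hs
      obtain ⟨h1, h2, h3⟩ := (hTmem s).mp hs
      refine lt_of_le_of_ne h2 fun h4 => h3 (hfree s h4.ge ?_)
      rw [h4]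
      exact hR12.le
    have hTc : ∀ z, Real.exp (-β) < ‖z‖ → ‖z‖ < Real.exp (-α) → U z = 0 → z ∈ T := by
      intro z h1 h2 h3
      rw [heα] at h2
      have h4 : 0 < ‖z‖ := (Real.exp_pos _).trans h1
      have h5 : ‖z‖ < R₀ := h2.trans hR2
      rw [hU.ord z h4 h5, hord z h4 h5] at h3
      rw [hTmem]
      refine ⟨h1.le, ?_, h3⟩
      by_contra h6
      exact h3 (hfree z (not_le.mp h6).le h2.le)
    have hne : ∀ z, ‖z‖ = Real.exp (-x₀) → U z ≠ 0 := by
      intro z hz h0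
      rw [hex₀] at hz
      have h4 : 0 < ‖z‖ := by rw [hz]; exact hR1
      have h5 : ‖z‖ < R₀ := by rw [hz]; exact hR12.trans hR2
      rw [hU.ord z h4 h5, hord z h4 h5] at h0
      exact h0 (hfree z hz.ge (by rw [hz]; exact hR12.le))
    have hid := Potential_identity hd hU hTU (α := α) (β := β) (by rw [heα]; exact hR2.le) hTc
      (x₀ := x₀) (x := x) ⟨hαx₀, by rw [hβ]; linarith⟩ ⟨hαx₀.trans_le hx, by rw [hβ]; linarith⟩ hne
    obtain ⟨hg1, hg2, hg3⟩ := Potential_mean_g hd hU T (hexle x hx)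
    obtain ⟨hg4, hg5, hg6⟩ := Potential_mean_g hd hU T (hexle x₀ le_rfl)
    have hK := Potential_mean_K hd hU (T := T) (hexle x₀ le_rfl) hne
      (fun s hs => by rw [hex₀]; exact hTlt s hs)
    rw [hg1, hg4] at hid
    have hint : (∫ y in x₀..x, (x - y) *
        mean (fun z => w (Real.log ‖u z‖) * ‖z * deriv u z / u z‖ ^ 2) y) =
        ∫ y in x₀..x, (x - y) * mean (Potential_L w U) y := by
      apply intervalIntegral.integral_congr
      intro y hy
      rw [Set.uIcc_of_le hx] at hy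
      simp only [hG y (hexle y hy.1)]
    have habs : mean (fun z => |Real.log ‖U z‖|) x = mean (fun z => |Real.log ‖u z‖|) x := by
      refine Potential_mean_congr fun z hz => ?_
      filter_upwards [hUu z (by rw [hz]; exact Real.exp_pos _) (by rw [hz]; exact hexle x hx)]
        with z' hz'
      rw [hz']
    -- the counting function
    have hcnt : cnt (fun s => |(ordZ u s : ℝ)|) R₁ (Real.exp (-x)) =
        ∑ s ∈ T, |(ordZ U s : ℝ)| * Real.posLog (‖s‖ / Real.exp (-x)) := by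
      rw [cnt_eq_sum (T := T) ?_ (Real.exp_pos _), Finset.sum_filter]
      · refine Finset.sum_congr rfl fun s hs => ?_
        have hs2 := hTlt s hs
        obtain ⟨k1, k2⟩ := hTD s hs
        rw [hord s k1 k2, hpl]
        by_cases h1 : Real.exp (-x) < ‖s‖
        · rw [if_pos ⟨h1, hs2⟩, max_eq_right]
          exact Real.log_nonneg ((one_le_div (Real.exp_pos _)).mpr h1.le)
        · rw [if_neg fun h => h1 h.1, max_eq_left, mul_zero]
          exact Real.log_nonpos (div_nonneg (norm_nonneg _) (Real.exp_pos _).le)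
            ((div_le_one (Real.exp_pos _)).mpr (not_lt.mp h1))
      · intro s h1 h2 h3
        rw [hTmem]
        refine ⟨?_, h2.le, ?_⟩
        · have : Real.exp (-β) ≤ Real.exp (-x) := Real.exp_le_exp.mpr (by rw [hβ]; linarith)
          exact this.trans h1.le
        · intro h4
          exact h3 (by rw [h4]; simp)
    have hpos0 : ∀ s ∈ T, Real.posLog (‖s‖ / Real.exp (-x₀)) = 0 := by
      intro s hs
      rw [hpl, max_eq_left]
      rw [hex₀]
      exact Real.log_nonpos (div_nonneg (norm_nonneg _) hR1.le)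
        ((div_le_one hR1).mpr (hTlt s hs).le)
    have hs1 : ∑ s ∈ T, |(ordZ U s : ℝ)| * (-x + Real.posLog (‖s‖ / Real.exp (-x))) =
        -x * (∑ s ∈ T, |(ordZ U s : ℝ)|) + cnt (fun s => |(ordZ u s : ℝ)|) R₁ (Real.exp (-x)) := by
      rw [hcnt, Finset.mul_sum, ← Finset.sum_add_distrib]
      refine Finset.sum_congr rfl fun s _ => ?_
      ring
    have hs2 : ∑ s ∈ T, |(ordZ U s : ℝ)| * (-x₀ + Real.posLog (‖s‖ / Real.exp (-x₀))) =
        -x₀ * (∑ s ∈ T, |(ordZ U s : ℝ)|) := by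
      rw [Finset.mul_sum]
      refine Finset.sum_congr rfl fun s hs => ?_
      rw [hpos0 s hs]
      ring
    rw [hs1, hs2] at hid
    have hcnt0 : 0 ≤ cnt (fun s => |(ordZ u s : ℝ)|) R₁ (Real.exp (-x)) := by
      rw [hcnt]
      exact Finset.sum_nonneg fun s _ => mul_nonneg (abs_nonneg _) Real.posLog_nonneg
    rw [hint, ← habs]
    set N : ℝ := ∑ s ∈ T, |(ordZ U s : ℝ)| with hN
    have hKle := (abs_le.mp hK).1
    have hxx : 0 ≤ x - x₀ := by linarith
    have h1 : -(mean (Potential_K W a U T) x₀ + a * N) * (x - x₀) ≤ C₀ * (x - x₀) :=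
      mul_le_mul_of_nonneg_right (by linarith) hxx
    have h2 : a * cnt (fun s => |(ordZ u s : ℝ)|) R₁ (Real.exp (-x)) ≤
        cnt (fun s => |(ordZ u s : ℝ)|) R₁ (Real.exp (-x)) := by
      have := mul_le_mul_of_nonneg_right hd.a1 hcnt0
      linarith
    have h3 : C₀ * (x - x₀) ≤ C₀ * (1 + |x₀|) * (1 + |x|) := by
      rw [mul_assoc]
      refine mul_le_mul_of_nonneg_left ?_ hC₀0
      have e1 := le_abs_self x
      have e2 := neg_le_abs x₀
      have e3 := abs_nonneg x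
      have e4 := abs_nonneg x₀
      nlinarith [mul_nonneg e3 e4]
    nlinarith [hid, h1, h2, h3, hg3, hg5]

end Pool.Agent.H62.FC
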