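import Pool.Agent.H62.FC.Words
import Pool.Agent.H62.FC.Defs
import Pool.Agent.H62.FC.NevDefs
import Pool.Agent.H62.FC.CircuitDefs
import Pool.Agent.H62.FC.Calculus
import Pool.Agent.H62.FC.Nev0
import Pool.Agent.H62.FC.Potential

/-!
# The lemma on the logarithmic derivative at a puncture
-/

open Filter Topology MeasureTheory
open Pool.Agent.H92.GGL (ordZ)

noncomputable section

namespace Pool.Agent.H62.FC

/-! ### The weights -/

private def wt (t : ℝ) : ℝ := 1 / (1 + |t|) ^ 2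

private def wn (n : ℕ) (t : ℝ) : ℝ := max 0 (wt t - wt n)

private lemma one_add_abs_pos (t : ℝ) : 0 < 1 + |t| := by positivity

private lemma wt_cont : Continuous wt := by
  unfold wt
  exact continuous_const.div₀ (by fun_prop) fun t => (pow_pos (one_add_abs_pos t) 2).ne'

private lemma wn_cont (n : ℕ) : Continuous (wn n) := by
  unfold wn
  exact continuous_const.max (wt_cont.sub continuous_const)

private lemma wn_nonneg (n : ℕ) (t : ℝ) : 0 ≤ wn n t := le_max_left _ _

private lemma wt_nonneg (t : ℝ) : 0 ≤ wt t := by unfold wt; positivity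

private lemma wn_neg (n : ℕ) (t : ℝ) : wn n (-t) = wn n t := by
  simp only [wn, wt, abs_neg]

private lemma wt_le {s t : ℝ} (h : |s| ≤ |t|) : wt t ≤ wt s := by
  unfold wt
  have h1 := one_add_abs_pos s
  exact one_div_le_one_div_of_le (by positivity) (pow_le_pow_left₀ h1.le (by linarith) 2)

private lemma wn_zero {n : ℕ} {t : ℝ} (h : (n : ℝ) ≤ |t|) : wn n t = 0 := by
  unfold wn
  refine max_eq_left ?_
  have := wt_le (s := (n : ℝ)) (t := t) (by rwa [Nat.abs_cast])
  linarith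

private lemma wn_le_wt (n : ℕ) (t : ℝ) : wn n t ≤ wt t := by
  unfold wn
  have := wt_nonneg (n : ℝ)
  have := wt_nonneg t
  exact max_le (by assumption) (by linarith)

private lemma wn_mono {n m : ℕ} (h : n ≤ m) (t : ℝ) : wn n t ≤ wn m t := by
  unfold wn
  refine max_le_max le_rfl ?_
  have : wt (m : ℝ) ≤ wt (n : ℝ) := wt_le (by
    rw [Nat.abs_cast, Nat.abs_cast]
    exact_mod_cast h)
  linarith

private lemma wt_tendsto : Tendsto (fun n : ℕ => wt (n : ℝ)) atTop (𝓝 0) := by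
  have h1 : Tendsto (fun n : ℕ => 1 / ((n : ℝ) + 1)) atTop (𝓝 0) :=
    tendsto_one_div_add_atTop_nhds_zero_nat
  have h2 := h1.pow 2
  rw [zero_pow two_ne_zero] at h2
  refine h2.congr fun n => ?_
  unfold wt
  rw [Nat.abs_cast, one_div_pow, add_comm]

private lemma wn_tendsto (t : ℝ) : Tendsto (fun n : ℕ => wn n t) atTop (𝓝 (wt t)) := by
  have h : Tendsto (fun n : ℕ => wt t - wt (n : ℝ)) atTop (𝓝 (wt t - 0)) :=
    tendsto_const_nhds.sub wt_tendsto
  rw [sub_zero] at h
  have h2 : Tendsto (fun n : ℕ => max 0 (wt t - wt (n : ℝ))) atTop (𝓝 (max 0 (wt t))) :=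
    (tendsto_const_nhds (x := (0 : ℝ))).max h
  rwa [max_eq_right (wt_nonneg t)] at h2

private lemma wn_integral (n : ℕ) : (∫ t in (0 : ℝ)..n, wn n t) ≤ 1 := by
  have hn : (0 : ℝ) ≤ n := Nat.cast_nonneg n
  have h1 : (∫ t in (0 : ℝ)..n, wn n t) ≤ ∫ t in (0 : ℝ)..n, wt t :=
    intervalIntegral.integral_mono_on hn ((wn_cont n).intervalIntegrable _ _)
      (wt_cont.intervalIntegrable _ _) fun t _ => wn_le_wt n t
  have h2 : ∀ t ∈ Set.uIcc (0 : ℝ) n, HasDerivAt (fun t : ℝ => -(1 + t)⁻¹) (wt t) t := by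
    intro t ht
    rw [Set.uIcc_of_le hn] at ht
    have h0 : (1 : ℝ) + t ≠ 0 := by have := ht.1; positivity
    have h3 : HasDerivAt (fun t : ℝ => (1 + t)⁻¹) (-1 / (1 + t) ^ 2) t := by
      exact ((hasDerivAt_id' t).const_add 1).fun_inv h0
    have h4 := h3.neg
    have h5 : wt t = -(-1 / (1 + t) ^ 2) := by
      unfold wt
      rw [abs_of_nonneg ht.1]
      ring
    rw [h5]
    exact h4
  have h3 := intervalIntegral.integral_eq_sub_of_hasDerivAt h2 (wt_cont.intervalIntegrable _ _)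
  rw [h3] at h1
  refine h1.trans ?_
  have : 0 ≤ (1 + (n : ℝ))⁻¹ := by positivity
  norm_num
  linarith

/-! ### Integrability on circles -/

private lemma circleIntegrable_of_local {f : ℂ → ℝ} {r : ℝ} (hr : 0 < r)
    (h : ∀ s, ‖s‖ = r → ∃ g : ℂ → ℝ, (∀ᶠ z in 𝓝 s, ContinuousAt g z) ∧ f =ᶠ[𝓝[≠] s] g) :
    CircleIntegrable f 0 r := by
  have hl : LocallyIntegrable (fun θ : ℝ => f (circleMap 0 r θ)) volume := by
    intro θ
    obtain ⟨g, hg1, hg2⟩ := h (circleMap 0 r θ) (by simp [abs_of_pos hr])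
    have hc : ContinuousAt (circleMap 0 r) θ := (continuous_circleMap 0 r).continuousAt
    have h1 : ∀ᶠ φ in 𝓝 θ, ContinuousAt (fun φ => g (circleMap 0 r φ)) φ := by
      filter_upwards [hc.eventually hg1] with φ hφ
      exact hφ.comp (continuous_circleMap 0 r).continuousAt
    have h2 : ∀ᶠ φ in 𝓝 θ, φ ≠ θ → f (circleMap 0 r φ) = g (circleMap 0 r φ) := by
      have h3 : ∀ᶠ z in 𝓝 (circleMap 0 r θ), z ≠ circleMap 0 r θ → f z = g z :=
        eventually_nhdsWithin_iff.1 hg2
      have h4 : ∀ᶠ φ in 𝓝 θ, |φ - θ| < 2 * Real.pi := by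
        have : ContinuousAt (fun φ : ℝ => |φ - θ|) θ := by fun_prop
        have h5 := this.tendsto
        rw [sub_self, abs_zero] at h5
        exact h5.eventually (gt_mem_nhds (by positivity))
      filter_upwards [hc.eventually h3, h4] with φ h5 h6 hne
      refine h5 fun h7 => hne ?_
      exact eq_of_circleMap_eq hr.ne' h6 h7
    obtain ⟨ε, hε, hball⟩ := Metric.eventually_nhds_iff_ball.1 (h1.and h2)
    refine ⟨Set.Icc (θ - ε / 2) (θ + ε / 2), Icc_mem_nhds (by linarith) (by linarith), ?_⟩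
    have hsub : ∀ φ ∈ Set.Icc (θ - ε / 2) (θ + ε / 2), φ ∈ Metric.ball θ ε := by
      intro φ hφ
      rw [Metric.mem_ball, Real.dist_eq, abs_lt]
      constructor <;> linarith [hφ.1, hφ.2]
    have hcont : ContinuousOn (fun φ => g (circleMap 0 r φ)) (Set.Icc (θ - ε / 2) (θ + ε / 2)) :=
      fun φ hφ => (hball φ (hsub φ hφ)).1.continuousWithinAt
    refine hcont.integrableOn_Icc.congr_fun_ae ?_
    rw [EventuallyEq, ae_restrict_iff' measurableSet_Icc]
    have hne : ∀ᵐ φ : ℝ, φ ≠ θ := by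
      rw [ae_iff]
      simp
    filter_upwards [hne] with φ h3 h4
    exact ((hball φ (hsub φ h4)).2 h3).symm
  unfold CircleIntegrable
  rw [intervalIntegrable_iff_integrableOn_Icc_of_le (by positivity)]
  exact hl.integrableOn_isCompact isCompact_Icc

private lemma circleIntegrable_wn {R₀ : ℝ} {u : ℂ → ℂ} (hu : MeroPunct R₀ u) (n : ℕ) {x : ℝ}
    (hx : Real.exp (-x) < R₀) :
    CircleIntegrable (fun z => wn n (Real.log ‖u z‖) * ‖z * deriv u z / u z‖ ^ 2) 0
      (Real.exp (-x)) := by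
  refine circleIntegrable_of_local (Real.exp_pos _) fun s hs => ?_
  have hs0 : 0 < ‖s‖ := by rw [hs]; exact Real.exp_pos _
  have hs1 : ‖s‖ < R₀ := by rw [hs]; exact hx
  have hm := hu.mero s hs0 hs1
  have ho := hu.ord s hs0 hs1
  rcases eq_or_ne (meromorphicOrderAt u s) 0 with h0 | h0
  · obtain ⟨g, hg, hgs, hug⟩ := (meromorphicOrderAt_ne_top_iff hm).1 ho
    rw [h0] at hug
    have hug' : u =ᶠ[𝓝[≠] s] g := by
      filter_upwards [hug] with z hz
      rw [hz]
      simp
    refine ⟨fun z => wn n (Real.log ‖g z‖) * ‖z * deriv g z / g z‖ ^ 2, ?_, ?_⟩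
    · have h1 : ∀ᶠ z in 𝓝 s, g z ≠ 0 := hg.continuousAt.eventually_ne hgs
      filter_upwards [h1, hg.eventually_analyticAt] with z h2 h3
      have h4 := h3.continuousAt
      have h5 := h3.deriv.continuousAt
      refine ((wn_cont n).continuousAt.comp ?_).mul ?_
      · exact h4.norm.log (norm_ne_zero_iff.2 h2)
      · exact ((continuousAt_id.mul h5).div h4 h2).norm.pow 2
    · filter_upwards [hug', hug'.nhdsNE_deriv] with z h1 h2
      rw [h1, h2]
  · refine ⟨fun _ => 0, Eventually.of_forall fun _ => continuousAt_const, ?_⟩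
    have key : ∀ᶠ z in 𝓝[≠] s, (n : ℝ) ≤ |Real.log ‖u z‖| := by
      rcases lt_or_gt_of_ne h0 with h1 | h1
      · have h2 := (tendsto_cobounded_iff_meromorphicOrderAt_neg hm).2 h1
        have h3 : Tendsto (fun z => Real.log ‖u z‖) (𝓝[≠] s) atTop :=
          Real.tendsto_log_atTop.comp (tendsto_norm_cobounded_atTop.comp h2)
        filter_upwards [h3.eventually_ge_atTop (n : ℝ)] with z hz
        exact hz.trans (le_abs_self _)
      · have h2 := (tendsto_zero_iff_meromorphicOrderAt_pos hm).2 h1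
        have hne := (meromorphicOrderAt_ne_top_iff_eventually_ne_zero hm).1 ho
        have h3 : Tendsto (fun z => ‖u z‖) (𝓝[≠] s) (𝓝[>] 0) := by
          rw [tendsto_nhdsWithin_iff]
          refine ⟨by simpa using h2.norm, ?_⟩
          filter_upwards [hne] with z hz
          exact norm_pos_iff.2 hz
        have h4 : Tendsto (fun z => Real.log ‖u z‖) (𝓝[≠] s) atBot :=
          Real.tendsto_log_nhdsGT_zero.comp h3
        filter_upwards [h4.eventually_le_atBot (-(n : ℝ))] with z hz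
        exact (by linarith : (n : ℝ) ≤ -Real.log ‖u z‖).trans (neg_le_abs _)
    filter_upwards [key] with z hz
    rw [wn_zero hz, zero_mul]

/-! ### Pointwise inequality -/

private lemma posLog_le_half_log (y : ℝ) : Real.posLog y ≤ 1 / 2 * Real.log (1 + y ^ 2) := by
  unfold Real.posLog
  refine max_le (mul_nonneg (by norm_num) (Real.log_nonneg (by nlinarith [sq_nonneg y]))) ?_
  rcases eq_or_ne y 0 with rfl | hy
  · simp
  · have h : Real.log (y ^ 2) ≤ Real.log (1 + y ^ 2) :=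
      Real.log_le_log (by positivity) (by linarith)
    rw [Real.log_pow] at h
    push_cast at h
    linarith

private lemma log_tangent {a A : ℝ} (ha : 0 ≤ a) (hA : 0 ≤ A) :
    Real.log (1 + a) ≤ Real.log (1 + A) + (a - A) / (1 + A) := by
  have h1 : 0 < 1 + a := by linarith
  have h2 : 0 < 1 + A := by linarith
  have h3 := Real.log_le_sub_one_of_pos (div_pos h1 h2)
  rw [Real.log_div h1.ne' h2.ne'] at h3
  have h4 : (1 + a) / (1 + A) - 1 = (a - A) / (1 + A) := by
    field_simp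
    ring
  linarith

/-- The pointwise inequality. -/
private lemma pointwise {z : ℂ} {x : ℝ} (hz : ‖z‖ = Real.exp (-x)) (w d : ℂ) {A B : ℝ}
    (hA : 0 ≤ A) (hB : 0 ≤ B) :
    Real.posLog ‖d / w‖ ≤ 1 / 2 * (Real.log (1 + A) +
      (wt (Real.log ‖w‖) * ‖z * d / w‖ ^ 2 - A) / (1 + A)) +
      (Real.log (1 + B) + (|Real.log ‖w‖| - B) / (1 + B)) + |x| := by
  set L := Real.log ‖w‖ with hL
  set y := ‖z * d / w‖ with hy
  have hzpos : 0 < ‖z‖ := by rw [hz]; exact Real.exp_pos _
  have e1 : ‖d / w‖ = y * Real.exp x := by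
    rw [hy, mul_div_assoc, norm_mul, hz, Real.exp_neg]
    field_simp
  have h1 : Real.posLog ‖d / w‖ ≤ Real.posLog y + |x| := by
    rw [e1]
    refine Real.posLog_mul.trans ?_
    have : Real.posLog (Real.exp x) ≤ |x| := by
      unfold Real.posLog
      rw [Real.log_exp]
      exact max_le (abs_nonneg _) (le_abs_self _)
    linarith
  have hy0 : 0 ≤ y := norm_nonneg _
  have hL1 : 0 < 1 + |L| := by positivity
  have hg0 : 0 ≤ wt L * y ^ 2 := mul_nonneg (wt_nonneg _) (sq_nonneg _)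
  have h2 : Real.log (1 + y ^ 2) ≤ Real.log (1 + wt L * y ^ 2) + 2 * Real.log (1 + |L|) := by
    have h3 : (1 : ℝ) + y ^ 2 ≤ (1 + wt L * y ^ 2) * (1 + |L|) ^ 2 := by
      have h4 : (1 + wt L * y ^ 2) * (1 + |L|) ^ 2 = (1 + |L|) ^ 2 + y ^ 2 := by
        unfold wt
        field_simp
      rw [h4]
      have : 0 ≤ |L| := abs_nonneg L
      nlinarith
    have h5 := Real.log_le_log (by positivity) h3
    rw [Real.log_mul (by positivity) (by positivity), Real.log_pow] at h5
    push_cast at h5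
    exact h5
  have h3 := posLog_le_half_log y
  have h4 := log_tangent hg0 hA
  have h5 := log_tangent (abs_nonneg L) hB
  linarith

/-! ### Bounds of logarithms -/

private lemma log_le_eps {η : ℝ} (hη : 0 < η) {t : ℝ} (ht : 0 ≤ t) :
    Real.log (1 + t) ≤ η * t + (η + |Real.log η|) := by
  have h1 : 0 < 1 + t := by linarith
  have h2 := Real.log_le_sub_one_of_pos (mul_pos hη h1)
  rw [Real.log_mul hη.ne' h1.ne'] at h2
  have := neg_abs_le (Real.log η)
  have h3 : η * (1 + t) = η * t + η := by ring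
  rw [h3] at h2
  have := le_abs_self (Real.log η)
  have := neg_le_abs (Real.log η)
  linarith

/-! ### The limit of the weights -/

private lemma limit_wn {R₀ : ℝ} {u : ℂ → ℂ} (hu : MeroPunct R₀ u) {x A : ℝ}
    (hx : Real.exp (-x) < R₀) (hA : 0 ≤ A)
    (h : ∀ n : ℕ, mean (fun z => wn n (Real.log ‖u z‖) * ‖z * deriv u z / u z‖ ^ 2) x ≤ A) :
    CircleIntegrable (fun z => wt (Real.log ‖u z‖) * ‖z * deriv u z / u z‖ ^ 2) 0
      (Real.exp (-x)) ∧
    mean (fun z => wt (Real.log ‖u z‖) * ‖z * deriv u z / u z‖ ^ 2) x ≤ A := by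
  set r := Real.exp (-x) with hr
  set F : ℕ → ℝ → ℝ := fun n θ => wn n (Real.log ‖u (circleMap 0 r θ)‖) *
    ‖circleMap 0 r θ * deriv u (circleMap 0 r θ) / u (circleMap 0 r θ)‖ ^ 2 with hF
  set G : ℝ → ℝ := fun θ => wt (Real.log ‖u (circleMap 0 r θ)‖) *
    ‖circleMap 0 r θ * deriv u (circleMap 0 r θ) / u (circleMap 0 r θ)‖ ^ 2 with hG
  set μ : Measure ℝ := volume.restrict (Set.Ioc 0 (2 * Real.pi)) with hμ
  have hpi : (0 : ℝ) < 2 * Real.pi := by positivity
  have hFi : ∀ n, Integrable (F n) μ := by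
    intro n
    have h1 := circleIntegrable_wn hu n hx
    unfold CircleIntegrable at h1
    rw [intervalIntegrable_iff_integrableOn_Ioc_of_le hpi.le] at h1
    exact h1
  have hF0 : ∀ n θ, 0 ≤ F n θ := fun n θ => mul_nonneg (wn_nonneg _ _) (sq_nonneg _)
  have hG0 : ∀ θ, 0 ≤ G θ := fun θ => mul_nonneg (wt_nonneg _) (sq_nonneg _)
  have hlim : ∀ θ, Tendsto (fun n => F n θ) atTop (𝓝 (G θ)) := fun θ =>
    (wn_tendsto _).mul_const _
  have hFint : ∀ n, ∫ θ, F n θ ∂μ ≤ 2 * Real.pi * A := by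
    intro n
    have h1 := h n
    unfold mean at h1
    rw [Real.circleAverage_def, smul_eq_mul, intervalIntegral.integral_of_le hpi.le] at h1
    have h2 := mul_le_mul_of_nonneg_left h1 hpi.le
    rw [← mul_assoc, mul_inv_cancel₀ hpi.ne', one_mul] at h2
    exact h2
  have hmeas : AEStronglyMeasurable G μ :=
    aestronglyMeasurable_of_tendsto_ae atTop (fun n => (hFi n).aestronglyMeasurable)
      (Eventually.of_forall hlim)
  have hlint : ∫⁻ θ, ENNReal.ofReal (G θ) ∂μ ≤ ENNReal.ofReal (2 * Real.pi * A) := by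
    have h1 := lintegral_liminf_le' (μ := μ) (f := fun n θ => ENNReal.ofReal (F n θ))
      (u := atTop) fun n => (hFi n).aestronglyMeasurable.aemeasurable.ennreal_ofReal
    have h2 : ∀ θ, liminf (fun n => ENNReal.ofReal (F n θ)) atTop = ENNReal.ofReal (G θ) :=
      fun θ => (ENNReal.tendsto_ofReal (hlim θ)).liminf_eq
    simp only [h2] at h1
    refine h1.trans ?_
    have h3 : liminf (fun n => ∫⁻ θ, ENNReal.ofReal (F n θ) ∂μ) atTop ≤
        liminf (fun _ : ℕ => ENNReal.ofReal (2 * Real.pi * A)) atTop := by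
      refine liminf_le_liminf (Eventually.of_forall fun n => ?_)
      rw [← ofReal_integral_eq_lintegral_ofReal (hFi n) (Eventually.of_forall (hF0 n))]
      exact ENNReal.ofReal_le_ofReal (hFint n)
    rwa [liminf_const] at h3
  have hGi : Integrable G μ := by
    refine ⟨hmeas, ?_⟩
    rw [hasFiniteIntegral_iff_ofReal (Eventually.of_forall hG0)]
    exact hlint.trans_lt ENNReal.ofReal_lt_top
  refine ⟨?_, ?_⟩
  · unfold CircleIntegrable
    rw [intervalIntegrable_iff_integrableOn_Ioc_of_le hpi.le]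
    exact hGi
  · unfold mean
    rw [Real.circleAverage_def, smul_eq_mul, intervalIntegral.integral_of_le hpi.le]
    have h1 : ∫ θ, G θ ∂μ ≤ 2 * Real.pi * A := by
      rw [integral_eq_lintegral_of_nonneg_ae (Eventually.of_forall hG0) hmeas]
      have h2 := ENNReal.toReal_mono ENNReal.ofReal_ne_top hlint
      rwa [ENNReal.toReal_ofReal (by positivity)] at h2
    have h2 := mul_le_mul_of_nonneg_left h1 (inv_nonneg.2 hpi.le)
    rw [← mul_assoc, inv_mul_cancel₀ hpi.ne', one_mul] at h2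
    exact h2

/-- The bound of the mean of `posLog ‖u' / u‖`. -/
private lemma mean_bound {R₀ : ℝ} {u : ℂ → ℂ} (hu : MeroPunct R₀ u) {x A B : ℝ}
    (hx : Real.exp (-x) < R₀) (hA : 0 ≤ A)
    (h : ∀ n : ℕ, mean (fun z => wn n (Real.log ‖u z‖) * ‖z * deriv u z / u z‖ ^ 2) x ≤ A)
    (hB : mean (fun z => |Real.log ‖u z‖|) x ≤ B) :
    mean (fun z => Real.posLog ‖deriv u z / u z‖) x ≤
      1 / 2 * Real.log (1 + A) + Real.log (1 + B) + |x| := by
  obtain ⟨hgi, hgm⟩ := limit_wn hu hx hA h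
  have hB0 : 0 ≤ B := (Real.circleAverage_nonneg_of_nonneg fun z _ => abs_nonneg _).trans hB
  have hR0 : 0 ≤ 1 / 2 * Real.log (1 + A) + Real.log (1 + B) + |x| := by
    have h1 := Real.log_nonneg (by linarith : (1 : ℝ) ≤ 1 + A)
    have h2 := Real.log_nonneg (by linarith : (1 : ℝ) ≤ 1 + B)
    have := abs_nonneg x
    linarith
  by_cases hP : CircleIntegrable (fun z => Real.posLog ‖deriv u z / u z‖) 0 (Real.exp (-x))
  swap
  · unfold mean
    rw [Real.circleAverage.integral_undef hP]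
    exact hR0
  have hL : CircleIntegrable (fun z => |Real.log ‖u z‖|) 0 (Real.exp (-x)) :=
    (MeroPunct.circleIntegrable_log hu hx).abs
  set g : ℂ → ℝ := fun z => wt (Real.log ‖u z‖) * ‖z * deriv u z / u z‖ ^ 2 with hg
  set l : ℂ → ℝ := fun z => |Real.log ‖u z‖| with hl
  -- the upper bound as a linear combination
  set c : ℝ := 1 / 2 * (Real.log (1 + A) - A / (1 + A)) + (Real.log (1 + B) - B / (1 + B)) + |x|
    with hc
  have hci : CircleIntegrable (fun _ : ℂ => c) 0 (Real.exp (-x)) := circleIntegrable_const c 0 _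
  have h1i : CircleIntegrable (fun z => (1 / (2 * (1 + A))) • g z) 0 (Real.exp (-x)) :=
    hgi.const_smul
  have h2i : CircleIntegrable (fun z => (1 / (1 + B)) • l z) 0 (Real.exp (-x)) :=
    hL.const_smul
  have hsi : CircleIntegrable (fun z => (1 / (2 * (1 + A))) • g z + (1 / (1 + B)) • l z) 0
      (Real.exp (-x)) := h1i.add h2i
  have hti : CircleIntegrable
      (fun z => ((1 / (2 * (1 + A))) • g z + (1 / (1 + B)) • l z) + c) 0
      (Real.exp (-x)) := hsi.add hci
  have hmono : Real.circleAverage (fun z => Real.posLog ‖deriv u z / u z‖) 0 (Real.exp (-x)) ≤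
      Real.circleAverage (fun z => ((1 / (2 * (1 + A))) • g z + (1 / (1 + B)) • l z) + c) 0
        (Real.exp (-x)) := by
    refine Real.circleAverage_mono hP hti fun z hz => ?_
    rw [abs_of_pos (Real.exp_pos _), mem_sphere_zero_iff_norm] at hz
    have h1 := pointwise hz (u z) (deriv u z) hA hB0
    refine h1.trans (le_of_eq ?_)
    rw [hc, hg, hl, smul_eq_mul, smul_eq_mul]
    have hA1 : (1 : ℝ) + A ≠ 0 := by linarith
    have hB1 : (1 : ℝ) + B ≠ 0 := by linarith
    field_simp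
    ring
  unfold mean at hgm hB ⊢
  rw [Real.circleAverage_fun_add hsi hci, Real.circleAverage_fun_add h1i h2i,
    Real.circleAverage_fun_smul, Real.circleAverage_fun_smul, Real.circleAverage_const,
    smul_eq_mul, smul_eq_mul] at hmono
  refine hmono.trans ?_
  have hA1 : (0 : ℝ) < 1 + A := by linarith
  have hB1 : (0 : ℝ) < 1 + B := by linarith
  have e1 : 1 / (2 * (1 + A)) * Real.circleAverage g 0 (Real.exp (-x)) ≤
      1 / (2 * (1 + A)) * A := mul_le_mul_of_nonneg_left hgm (by positivity)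
  have e2 : 1 / (1 + B) * Real.circleAverage l 0 (Real.exp (-x)) ≤ 1 / (1 + B) * B :=
    mul_le_mul_of_nonneg_left hB (by positivity)
  have e3 : 1 / (2 * (1 + A)) * A = 1 / 2 * (A / (1 + A)) := by field_simp
  have e4 : 1 / (1 + B) * B = B / (1 + B) := by field_simp
  rw [hc]
  linarith

private lemma locFin_neg {R₀ : ℝ} {u : ℂ → ℂ} (hu : MeroPunct R₀ u) :
    LocFin R₀ (fun s => max (-(ordZ u s : ℝ)) 0) := by
  intro r b hr hb
  refine (MeroPunct.locFin hu r b hr hb).subset fun s hs => ?_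
  refine ⟨hs.1, hs.2.1, fun h => hs.2.2 ?_⟩
  simp only [h, neg_zero, max_self]

private lemma nevT_radius {R₀ R₁ R' : ℝ} (h1 : 0 < R₁) (h : R₁ < R₀) (h1' : 0 < R') (h' : R' < R₀)
    {u : ℂ → ℂ} (hu : MeroPunct R₀ u) :
    ∃ C : ℝ, ∀ x, Real.exp (-x) < R₁ → Real.exp (-x) < R' →
      nevT u R' x ≤ nevT u R₁ x + C * (1 + |x|) := by
  rcases le_total R₁ R' with hle | hle
  · obtain ⟨C, hC⟩ := cnt_radius h1 hle h' (locFin_neg hu)
    refine ⟨C, fun x hx _ => ?_⟩
    have h2 := (abs_le.1 (hC x hx)).2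
    unfold nevT
    linarith
  · obtain ⟨C, hC⟩ := cnt_radius h1' hle h (locFin_neg hu)
    refine ⟨C, fun x _ hx => ?_⟩
    have h2 := (abs_le.1 (hC x hx)).1
    unfold nevT
    linarith

/-- Lemma on the logarithmic derivative. -/
theorem MeroPunct.logDeriv_negl {R₀ R₁ : ℝ} (h1 : 0 < R₁) (h : R₁ < R₀) {u : ℂ → ℂ}
    (hu : MeroPunct R₀ u) :
    Negl R₁ (nevT u R₁) (mean fun z => Real.posLog ‖deriv u z / u z‖) := by
  intro ε hε
  have hR₀ : 0 < R₀ := h1.trans h
  obtain ⟨R', C₀, hR', hR'0, hpot⟩ := potential_ineq hR₀ hu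
  obtain ⟨C₁, hC₁⟩ := MeroPunct.mean_abs_add_cnt hu hR' hR'0
  obtain ⟨C₂, hC₂⟩ := nevT_radius h1 h hR' hR'0 hu
  have hpot' : ∀ n : ℕ, _ := fun n => hpot (wn n) n (wn_cont n) (wn_nonneg n) (wn_neg n)
    (Nat.cast_nonneg n) (fun t ht => wn_zero (ht.trans (le_abs_self t))) (wn_integral n)
  set x₀ : ℝ := -Real.log R' with hx₀
  set G : ℕ → ℝ → ℝ := fun n x =>
    mean (fun z => wn n (Real.log ‖u z‖) * ‖z * deriv u z / u z‖ ^ 2) x with hG
  set Bd : ℝ → ℝ := fun x => mean (fun z => |Real.log ‖u z‖|) x +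
    cnt (fun s => |(ordZ u s : ℝ)|) R' (Real.exp (-x)) + |C₀| * (1 + |x|) with hBd
  have hexp : ∀ x, x₀ ≤ x → Real.exp (-x) < R₀ := by
    intro x hx
    have : Real.exp (-x) ≤ R' := by
      rw [← Real.exp_log hR']
      refine Real.exp_le_exp.2 ?_
      rw [hx₀] at hx
      linarith
    linarith
  have hG0 : ∀ n x, 0 ≤ G n x := fun n x =>
    Real.circleAverage_nonneg_of_nonneg fun z _ => mul_nonneg (wn_nonneg _ _) (sq_nonneg _)
  have hH : ∀ n x, x₀ ≤ x → (∫ y in x₀..x, (x - y) * G n y) ≤ Bd x := by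
    intro n x hx
    refine ((hpot' n).2 x hx).trans ?_
    rw [hBd]
    have := le_abs_self C₀
    have := abs_nonneg x
    have h3 : C₀ * (1 + |x|) ≤ |C₀| * (1 + |x|) :=
      mul_le_mul_of_nonneg_right (le_abs_self C₀) (by linarith)
    show _ ≤ mean (fun z => |Real.log ‖u z‖|) x +
      cnt (fun s => |(ordZ u s : ℝ)|) R' (Real.exp (-x)) + |C₀| * (1 + |x|)
    linarith
  have hH0 : ∀ n x, x₀ ≤ x → 0 ≤ ∫ y in x₀..x, (x - y) * G n y := by
    intro n x hx
    refine intervalIntegral.integral_nonneg hx fun y hy => ?_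
    exact mul_nonneg (by linarith [hy.2]) (hG0 n y)
  have hBd0 : ∀ x, x₀ ≤ x → 0 ≤ Bd x := fun x hx => (hH0 0 x hx).trans (hH 0 x hx)
  set En : ℕ → Set ℝ := fun n => {x | x₀ ≤ x ∧ 4 * (1 + Bd x) ^ 4 < G n x} with hEn
  have hEn2 : ∀ n, volume (En n) ≤ 2 := by
    intro n
    refine (measure_mono ?_).trans (calculus_lemma (hpot' n).1 fun x _ => hG0 n x)
    rintro x ⟨hx, hx2⟩
    refine ⟨hx, lt_of_le_of_lt ?_ hx2⟩
    have h3 := hH n x hx
    have h4 := hH0 n x hx
    refine mul_le_mul_of_nonneg_left (pow_le_pow_left₀ (by linarith) (by linarith) 4) (by norm_num)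
  have hmono : Monotone En := by
    intro n m hnm x hx
    refine ⟨hx.1, lt_of_lt_of_le hx.2 ?_⟩
    refine Real.circleAverage_mono (circleIntegrable_wn hu n (hexp x hx.1))
      (circleIntegrable_wn hu m (hexp x hx.1)) fun z _ => ?_
    exact mul_le_mul_of_nonneg_right (wn_mono hnm _) (sq_nonneg _)
  have hEU : volume (⋃ n, En n) ≤ 2 := by
    rw [hmono.measure_iUnion]
    exact iSup_le hEn2
  set η : ℝ := ε / 6 with hη
  have hη0 : 0 < η := by positivity
  refine ⟨3 + 3 * (η + |Real.log η|) + ε / 2 * abs (2 * C₂ + C₁ + |C₀|),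
    (⋃ n, En n) ∪ Set.Icc (-Real.log R₁) x₀, ?_, ?_⟩
  · refine ne_top_of_le_ne_top ?_ (measure_union_le _ _)
    refine ENNReal.add_ne_top.2 ⟨ne_top_of_le_ne_top (by norm_num) hEU, ?_⟩
    rw [Real.volume_Icc]
    exact ENNReal.ofReal_ne_top
  · intro x hx hxE
    have hx1 : -Real.log R₁ < x := by
      have := Real.log_lt_log (Real.exp_pos _) hx
      rw [Real.log_exp] at this
      linarith
    have hx2 : x₀ < x := by
      by_contra hcon
      exact hxE (Or.inr ⟨hx1.le, not_lt.1 hcon⟩)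
    have hx3 : Real.exp (-x) < R' := by
      rw [← Real.exp_log hR']
      refine Real.exp_lt_exp.2 ?_
      rw [hx₀] at hx2
      linarith
    have hGA : ∀ n, G n x ≤ 4 * (1 + Bd x) ^ 4 := by
      intro n
      by_contra hcon
      exact hxE (Or.inl (Set.mem_iUnion.2 ⟨n, hx2.le, not_le.1 hcon⟩))
    have ht := hBd0 x hx2.le
    have hax : 0 ≤ |x| := abs_nonneg x
    have hcnt : 0 ≤ cnt (fun s => |(ordZ u s : ℝ)|) R' (Real.exp (-x)) :=
      cnt_nonneg (Real.exp_pos _) fun s => abs_nonneg _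
    have hB : mean (fun z => |Real.log ‖u z‖|) x ≤ Bd x := by
      have h3 : 0 ≤ |C₀| * (1 + |x|) := by positivity
      show _ ≤ mean (fun z => |Real.log ‖u z‖|) x +
        cnt (fun s => |(ordZ u s : ℝ)|) R' (Real.exp (-x)) + |C₀| * (1 + |x|)
      linarith
    have hmain := mean_bound hu (hexp x hx2.le) (A := 4 * (1 + Bd x) ^ 4) (B := Bd x)
      (by positivity) hGA hB
    have hlog1 : Real.log (1 + 4 * (1 + Bd x) ^ 4) ≤ 4 + 4 * Real.log (1 + Bd x) := by
      have h3 : 1 + 4 * (1 + Bd x) ^ 4 ≤ 5 * (1 + Bd x) ^ 4 := by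
        have : (1 : ℝ) ≤ (1 + Bd x) ^ 4 := one_le_pow₀ (by linarith)
        linarith
      have h4 := Real.log_le_log (by positivity) h3
      rw [Real.log_mul (by norm_num) (by positivity), Real.log_pow] at h4
      have h5 := Real.log_le_sub_one_of_pos (by norm_num : (0 : ℝ) < 5)
      push_cast at h4
      linarith
    have hlog2 := log_le_eps hη0 ht
    have hT := hC₁ x hx3
    have hT2 := hC₂ x hx hx3
    have hBdle : Bd x ≤ 2 * nevT u R₁ x + (2 * C₂ + C₁ + |C₀|) * (1 + |x|) := by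
      show mean (fun z => |Real.log ‖u z‖|) x +
        cnt (fun s => |(ordZ u s : ℝ)|) R' (Real.exp (-x)) + |C₀| * (1 + |x|) ≤ _
      nlinarith
    have hBdle2 : Bd x ≤ 2 * nevT u R₁ x + abs (2 * C₂ + C₁ + |C₀|) * (1 + |x|) := by
      have : (2 * C₂ + C₁ + |C₀|) * (1 + |x|) ≤ abs (2 * C₂ + C₁ + |C₀|) * (1 + |x|) :=
        mul_le_mul_of_nonneg_right (le_abs_self _) (by linarith)
      linarith
    have h6 : 3 * (η * Bd x) ≤ ε * nevT u R₁ x +
        ε / 2 * abs (2 * C₂ + C₁ + |C₀|) * (1 + |x|) := by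
      have h7 := mul_le_mul_of_nonneg_left hBdle2 (by positivity : 0 ≤ 3 * η)
      rw [hη] at h7 ⊢
      linarith
    have h8 : 0 ≤ 3 * (η + |Real.log η|) * |x| := by positivity
    show mean (fun z => Real.posLog ‖deriv u z / u z‖) x ≤ _
    nlinarith

end Pool.Agent.H62.FC
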