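import Pool.Agent.H62.FC.Words
import Pool.Agent.H62.FC.Defs
import Pool.Agent.H62.FC.NevDefs
import Pool.Agent.H62.FC.CircuitDefs
import Pool.Agent.H62.FC.LogDeriv
import Pool.Agent.H62.FC.Nev0

/-!
# FC: lemma on the logarithmic derivative, higher derivatives
-/

noncomputable section

namespace Pool.Agent.H62.FC

open Filter Topology MeasureTheory
open Pool.Agent.H92.GGL (ordZ)

/-! ### The punctured disc -/

private lemma iterDeriv_preconn (R₀ : ℝ) (hR₀ : 0 < R₀) :
    IsPreconnected {z : ℂ | 0 < ‖z‖ ∧ ‖z‖ < R₀} := by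
  have h1 : IsPreconnected ({z : ℂ | z.re < Real.log R₀}) :=
    (convex_halfSpace_re_lt (Real.log R₀)).isPreconnected
  have h2 := h1.image Complex.exp Complex.continuous_exp.continuousOn
  have h3 : Complex.exp '' {z : ℂ | z.re < Real.log R₀} = {z : ℂ | 0 < ‖z‖ ∧ ‖z‖ < R₀} := by
    ext z
    constructor
    · rintro ⟨w, hw, rfl⟩
      refine ⟨by rw [Complex.norm_exp]; exact Real.exp_pos _, ?_⟩
      rw [Complex.norm_exp]
      calc Real.exp w.re < Real.exp (Real.log R₀) := Real.exp_lt_exp.2 hw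
        _ = R₀ := Real.exp_log hR₀
    · rintro ⟨hz0, hz1⟩
      refine ⟨Complex.log z, ?_, Complex.exp_log (norm_pos_iff.1 hz0)⟩
      change (Complex.log z).re < _
      rw [Complex.log_re]
      exact Real.log_lt_log hz0 hz1
  rwa [h3] at h2

/-- a meromorphic function on the punctured disc is either of finite order everywhere, or it
vanishes off a discrete set -/
private lemma iterDeriv_dich {R₀ : ℝ} (hR₀ : 0 < R₀) {w : ℂ → ℂ}
    (hw : ∀ z, 0 < ‖z‖ → ‖z‖ < R₀ → MeromorphicAt w z) :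
    MeroPunct R₀ w ∨ ∀ z, 0 < ‖z‖ → ‖z‖ < R₀ → ∀ᶠ ζ in 𝓝[≠] z, w ζ = 0 := by
  by_cases h : ∀ z, 0 < ‖z‖ → ‖z‖ < R₀ → meromorphicOrderAt w z ≠ ⊤
  · exact Or.inl ⟨hw, h⟩
  · right
    push Not at h
    obtain ⟨z₀, h1, h2, h3⟩ := h
    intro z hz1 hz2
    rw [← meromorphicOrderAt_eq_top_iff]
    by_contra h4
    have hm : MeromorphicOn w {z : ℂ | 0 < ‖z‖ ∧ ‖z‖ < R₀} := fun y hy => hw y hy.1 hy.2
    exact hm.meromorphicOrderAt_ne_top_of_isPreconnected (iterDeriv_preconn R₀ hR₀)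
      ⟨hz1, hz2⟩ ⟨h1, h2⟩ h4 h3

/-! ### Means -/

private lemma iterDeriv_cod {R₀ x : ℝ} (hx : Real.exp (-x) < R₀) {P : ℂ → Prop}
    (hP : ∀ z, 0 < ‖z‖ → ‖z‖ < R₀ → ∀ᶠ ζ in 𝓝[≠] z, P ζ) :
    ∀ᶠ z in codiscreteWithin (Metric.sphere (0 : ℂ) |Real.exp (-x)|), P z := by
  rw [Filter.Eventually, mem_codiscreteWithin_iff_forall_mem_nhdsNE]
  intro z hz
  rw [mem_sphere_zero_iff_norm, abs_of_pos (Real.exp_pos _)] at hz
  filter_upwards [hP z (by rw [hz]; exact Real.exp_pos _) (by rw [hz]; exact hx)] with ζ hζ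
  exact Or.inl hζ

private lemma iterDeriv_mean_mono {f g : ℂ → ℝ} {x : ℝ}
    (hf : CircleIntegrable f 0 (Real.exp (-x))) (hg : CircleIntegrable g 0 (Real.exp (-x)))
    (h : ∀ᶠ z in codiscreteWithin (Metric.sphere (0 : ℂ) |Real.exp (-x)|), f z ≤ g z) :
    mean f x ≤ mean g x := by
  have he : f =ᶠ[codiscreteWithin (Metric.sphere (0 : ℂ) |Real.exp (-x)|)]
      fun z => min (f z) (g z) := by
    filter_upwards [h] with z hz
    exact (min_eq_left hz).symm
  unfold mean
  rw [Real.circleAverage_congr_codiscreteWithin he (Real.exp_pos _).ne']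
  exact Real.circleAverage_mono (hf.congr_codiscreteWithin he) hg fun z _ => min_le_right _ _

private lemma iterDeriv_mean_zero {f : ℂ → ℝ} {x : ℝ}
    (h : ∀ᶠ z in codiscreteWithin (Metric.sphere (0 : ℂ) |Real.exp (-x)|), f z = 0) :
    mean f x = 0 := by
  unfold mean
  have he : f =ᶠ[codiscreteWithin (Metric.sphere (0 : ℂ) |Real.exp (-x)|)] fun _ => 0 := h
  rw [Real.circleAverage_congr_codiscreteWithin he (Real.exp_pos _).ne',
    Real.circleAverage_const]

private lemma iterDeriv_mean_add {f g : ℂ → ℝ} {x : ℝ}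
    (hf : CircleIntegrable f 0 (Real.exp (-x))) (hg : CircleIntegrable g 0 (Real.exp (-x))) :
    mean (fun z => f z + g z) x = mean f x + mean g x :=
  Real.circleAverage_fun_add hf hg

private lemma iterDeriv_posLog_le {a b c : ℂ} (hb : b ≠ 0) :
    Real.posLog ‖a / c‖ ≤ Real.posLog ‖a / b‖ + Real.posLog ‖b / c‖ := by
  have h : a / c = (a / b) * (b / c) := by
    rw [div_mul_div_comm, mul_comm b c, mul_div_mul_right _ _ hb]
  rw [h, norm_mul]
  exact Real.posLog_mul

/-! ### Orders -/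

private lemma iterDeriv_ord_nonneg {f : ℂ → ℂ} {s : ℂ} (hf : MeromorphicAt f s)
    (h : 0 ≤ meromorphicOrderAt f s) : 0 ≤ meromorphicOrderAt (deriv f) s := by
  have h1 : f =ᶠ[𝓝[≠] s] toMeromorphicNFAt f s := hf.eq_nhdsNE_toMeromorphicNFAt
  have h2 : 0 ≤ meromorphicOrderAt (toMeromorphicNFAt f s) s := by
    rwa [← meromorphicOrderAt_congr h1]
  have h3 : AnalyticAt ℂ (toMeromorphicNFAt f s) s :=
    meromorphicNFAt_toMeromorphicNFAt.meromorphicOrderAt_nonneg_iff_analyticAt.1 h2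
  rw [meromorphicOrderAt_congr h1.nhdsNE_deriv]
  exact h3.deriv.meromorphicOrderAt_nonneg

private lemma iterDeriv_mero {u : ℂ → ℂ} {s : ℂ} (hu : MeromorphicAt u s) (l : ℕ) :
    MeromorphicAt (iteratedDeriv l u) s := by
  rw [iteratedDeriv_eq_iterate]
  exact hu.iterated_deriv

private lemma iterDeriv_ord {u : ℂ → ℂ} {s : ℂ} (hu : MeromorphicAt u s) (l : ℕ) :
    (0 ≤ meromorphicOrderAt u s → 0 ≤ meromorphicOrderAt (iteratedDeriv l u) s) ∧
    ∀ n : ℤ, n < 0 → meromorphicOrderAt u s = n →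
      meromorphicOrderAt (iteratedDeriv l u) s = ((n - l : ℤ) : WithTop ℤ) := by
  induction l with
  | zero =>
    rw [iteratedDeriv_zero]
    exact ⟨id, fun n _ hn => by simpa using hn⟩
  | succ l ih =>
    rw [iteratedDeriv_succ]
    refine ⟨fun h => iterDeriv_ord_nonneg (iterDeriv_mero hu l) (ih.1 h), fun n hn hn' => ?_⟩
    have h1 := ih.2 n hn hn'
    have h2 : ((n - l : ℤ) : ℂ) ≠ 0 := by
      have : (n - l : ℤ) ≠ 0 := by omega
      exact_mod_cast this
    rw [meromorphicOrderAt_deriv_eq_sub_one h2 h1]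
    congr 1
    push_cast
    ring

private lemma iterDeriv_pole {u : ℂ → ℂ} {s : ℂ} (hu : MeromorphicAt u s)
    (ho : meromorphicOrderAt u s ≠ ⊤) (l : ℕ)
    (hv : meromorphicOrderAt (iteratedDeriv l u) s ≠ ⊤) :
    max (-(ordZ (iteratedDeriv l u) s : ℝ)) 0 ≤ ((l : ℝ) + 1) * max (-(ordZ u s : ℝ)) 0 := by
  have h1 := Pool.Agent.H92.GGL.ordZ_cast ho
  have h2 := Pool.Agent.H92.GGL.ordZ_cast hv
  obtain ⟨h3, h4⟩ := iterDeriv_ord hu l
  rcases le_or_gt 0 (ordZ u s) with h0 | h0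
  · have h5 : 0 ≤ meromorphicOrderAt (iteratedDeriv l u) s := by
      apply h3
      rw [← h1]
      exact_mod_cast h0
    rw [← h2] at h5
    have h6 : 0 ≤ ordZ (iteratedDeriv l u) s := by exact_mod_cast h5
    have h7 : (0 : ℝ) ≤ (ordZ (iteratedDeriv l u) s : ℝ) := by exact_mod_cast h6
    rw [max_eq_right (by linarith)]
    positivity
  · have h5 := h4 _ h0 h1.symm
    rw [← h2] at h5
    have h6 : ordZ (iteratedDeriv l u) s = ordZ u s - l := by exact_mod_cast h5
    have h7 : (ordZ (iteratedDeriv l u) s : ℝ) = (ordZ u s : ℝ) - l := by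
      rw [h6]; push_cast; ring
    have h8 : (ordZ u s : ℝ) ≤ -1 := by
      have : ordZ u s ≤ -1 := by omega
      exact_mod_cast this
    have hl : (0 : ℝ) ≤ l := Nat.cast_nonneg l
    rw [h7, max_eq_left (by linarith), max_eq_left (by linarith)]
    nlinarith

private lemma iterDeriv_locFin {R₀ : ℝ} {u : ℂ → ℂ} (hu : MeroPunct R₀ u) :
    LocFin R₀ fun s => max (-(ordZ u s : ℝ)) 0 := by
  intro r b hr hb
  refine (MeroPunct.locFin hu r b hr hb).subset ?_
  rintro s ⟨h1, h2, h3⟩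
  refine ⟨h1, h2, fun h0 => h3 ?_⟩
  simp only at h0
  simp [h0]

/-! ### The characteristic of a derivative -/

private lemma iterDeriv_nevT {R₀ R₁ : ℝ} (h : R₁ < R₀) {u : ℂ → ℂ}
    (hu : MeroPunct R₀ u) (l : ℕ) (hv : MeroPunct R₀ (iteratedDeriv l u)) {x : ℝ}
    (hx : Real.exp (-x) < R₁) :
    nevT (iteratedDeriv l u) R₁ x ≤ ((l : ℝ) + 1) * nevT u R₁ x +
      mean (fun z => Real.posLog ‖iteratedDeriv l u z / u z‖) x := by
  have hx0 : Real.exp (-x) < R₀ := hx.trans h
  have iv := MeroPunct.circleIntegrable_posLog hv hx0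
  have iu := MeroPunct.circleIntegrable_posLog hu hx0
  have ivu : CircleIntegrable (fun z => Real.posLog ‖iteratedDeriv l u z / u z‖) 0
      (Real.exp (-x)) := by
    have := MeroPunct.circleIntegrable_posLog
      (MeroPunct.mul hv (MeroPunct.inv hu)) hx0
    simpa only [div_eq_mul_inv] using this
  have hm : mean (fun z => Real.posLog ‖iteratedDeriv l u z‖) x ≤
      mean (fun z => Real.posLog ‖iteratedDeriv l u z / u z‖) x +
        mean (fun z => Real.posLog ‖u z‖) x := by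
    rw [← iterDeriv_mean_add ivu iu]
    refine iterDeriv_mean_mono iv (CircleIntegrable.fun_add ivu iu) ?_
    refine iterDeriv_cod hx0 (P := fun z => Real.posLog ‖iteratedDeriv l u z‖ ≤
      Real.posLog ‖iteratedDeriv l u z / u z‖ + Real.posLog ‖u z‖) fun z hz1 hz2 => ?_
    filter_upwards [(meromorphicOrderAt_ne_top_iff_eventually_ne_zero (hu.mero z hz1 hz2)).1
      (hu.ord z hz1 hz2)] with ζ hζ
    have := iterDeriv_posLog_le (a := iteratedDeriv l u ζ) (b := u ζ) (c := 1) hζ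
    simpa using this
  have hu0 : 0 ≤ mean (fun z => Real.posLog ‖u z‖) x :=
    Real.circleAverage_nonneg_of_nonneg fun z _ => Real.posLog_nonneg
  have hc : cnt (fun s => max (-(ordZ (iteratedDeriv l u) s : ℝ)) 0) R₁ (Real.exp (-x)) ≤
      ((l : ℝ) + 1) * cnt (fun s => max (-(ordZ u s : ℝ)) 0) R₁ (Real.exp (-x)) := by
    rw [← cnt_mul _ h (iterDeriv_locFin hu) (Real.exp_pos _)]
    refine cnt_mono h (iterDeriv_locFin hv) ?_ (Real.exp_pos _) fun s hs1 hs2 => ?_
    · intro r b hr hb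
      refine (iterDeriv_locFin hu r b hr hb).subset ?_
      rintro s ⟨g1, g2, g3⟩
      refine ⟨g1, g2, fun h0 => g3 ?_⟩
      simp only at h0
      simp only [h0, mul_zero]
    · have hs0 : 0 < ‖s‖ := (Real.exp_pos _).trans hs1
      have hs3 : ‖s‖ < R₀ := hs2.trans h
      exact iterDeriv_pole (hu.mero s hs0 hs3) (hu.ord s hs0 hs3) l (hv.ord s hs0 hs3)
  have hl : (0 : ℝ) ≤ l := Nat.cast_nonneg l
  unfold nevT
  nlinarith [mul_nonneg hl hu0]

/-- Lemma on the logarithmic derivative, higher derivatives. -/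
theorem MeroPunct.iteratedDeriv_negl {R₀ R₁ : ℝ} (h1 : 0 < R₁) (h : R₁ < R₀) {u : ℂ → ℂ}
    (hu : MeroPunct R₀ u) (l : ℕ) :
    Negl R₁ (nevT u R₁) (mean fun z => Real.posLog ‖iteratedDeriv l u z / u z‖) := by
  have hR₀ : 0 < R₀ := h1.trans h
  have hzero : ∀ w : ℂ → ℝ, (∀ x, Real.exp (-x) < R₁ → mean w x = 0) →
      Negl R₁ (nevT u R₁) (mean w) := by
    intro w hw ε hε
    refine ⟨0, ∅, by simp, fun x hx _ => ?_⟩
    rw [hw x hx]
    have := nevT_nonneg u R₁ x
    positivity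
  induction l with
  | zero =>
    refine hzero _ fun x hx => iterDeriv_mean_zero (Eventually.of_forall fun z => ?_)
    rw [iteratedDeriv_zero]
    by_cases hz : u z = 0
    · simp [hz]
    · simp [div_self hz]
  | succ l ih =>
    have hv : ∀ z, 0 < ‖z‖ → ‖z‖ < R₀ → MeromorphicAt (iteratedDeriv l u) z :=
      fun z hz1 hz2 => iterDeriv_mero (hu.mero z hz1 hz2) l
    have hv' : ∀ z, 0 < ‖z‖ → ‖z‖ < R₀ → MeromorphicAt (iteratedDeriv (l + 1) u) z :=
      fun z hz1 hz2 => iterDeriv_mero (hu.mero z hz1 hz2) (l + 1)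
    rcases iterDeriv_dich hR₀ hv' with hM' | hM'
    swap
    · refine hzero _ fun x hx => iterDeriv_mean_zero ?_
      refine iterDeriv_cod (hx.trans h)
        (P := fun z => Real.posLog ‖iteratedDeriv (l + 1) u z / u z‖ = 0) fun z hz1 hz2 => ?_
      filter_upwards [hM' z hz1 hz2] with ζ hζ
      simp [hζ]
    rcases iterDeriv_dich hR₀ hv with hM | hM
    swap
    · exfalso
      have hz1 : (0 : ℝ) < ‖((R₁ : ℝ) : ℂ)‖ := by
        rw [Complex.norm_real, Real.norm_of_nonneg h1.le]; exact h1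
      have hz2 : ‖((R₁ : ℝ) : ℂ)‖ < R₀ := by
        rw [Complex.norm_real, Real.norm_of_nonneg h1.le]; exact h
      apply hM'.ord _ hz1 hz2
      rw [meromorphicOrderAt_eq_top_iff, iteratedDeriv_succ]
      have e1 : iteratedDeriv l u =ᶠ[𝓝[≠] ((R₁ : ℝ) : ℂ)] fun _ => 0 := hM _ hz1 hz2
      filter_upwards [e1.nhdsNE_deriv] with ζ hζ
      rw [hζ, deriv_const]
    intro ε hε
    have hl : (0 : ℝ) ≤ l := Nat.cast_nonneg l
    obtain ⟨C1, E1, hE1, hb1⟩ := MeroPunct.logDeriv_negl h1 h hM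
      (ε / (2 * ((l : ℝ) + 2))) (by positivity)
    obtain ⟨C2, E2, hE2, hb2⟩ := ih 1 one_pos
    obtain ⟨C3, E3, hE3, hb3⟩ := ih (ε / 2) (by positivity)
    refine ⟨(ε / (2 * ((l : ℝ) + 2))) * C2 + C1 + C3, (E1 ∪ E2) ∪ E3, ?_, fun x hx hxE => ?_⟩
    · exact measure_union_ne_top (measure_union_ne_top hE1 hE2) hE3
    · have hx0 : Real.exp (-x) < R₀ := hx.trans h
      have hx1 : x ∉ E1 := fun hh => hxE (Or.inl (Or.inl hh))
      have hx2 : x ∉ E2 := fun hh => hxE (Or.inl (Or.inr hh))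
      have hx3 : x ∉ E3 := fun hh => hxE (Or.inr hh)
      have g1 := hb1 x hx hx1
      have g2 := hb2 x hx hx2
      have g3 := hb3 x hx hx3
      have g4 := iterDeriv_nevT h hu l hM hx
      have i1 : CircleIntegrable (fun z => Real.posLog ‖deriv (iteratedDeriv l u) z /
          iteratedDeriv l u z‖) 0 (Real.exp (-x)) := by
        rw [← iteratedDeriv_succ]
        have := MeroPunct.circleIntegrable_posLog
          (MeroPunct.mul hM' (MeroPunct.inv hM)) hx0
        simpa only [div_eq_mul_inv] using this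
      have i2 : CircleIntegrable (fun z => Real.posLog ‖iteratedDeriv l u z / u z‖) 0
          (Real.exp (-x)) := by
        have := MeroPunct.circleIntegrable_posLog
          (MeroPunct.mul hM (MeroPunct.inv hu)) hx0
        simpa only [div_eq_mul_inv] using this
      have i3 : CircleIntegrable (fun z => Real.posLog ‖iteratedDeriv (l + 1) u z / u z‖) 0
          (Real.exp (-x)) := by
        have := MeroPunct.circleIntegrable_posLog
          (MeroPunct.mul hM' (MeroPunct.inv hu)) hx0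
        simpa only [div_eq_mul_inv] using this
      have g5 : mean (fun z => Real.posLog ‖iteratedDeriv (l + 1) u z / u z‖) x ≤
          mean (fun z => Real.posLog ‖deriv (iteratedDeriv l u) z / iteratedDeriv l u z‖) x +
            mean (fun z => Real.posLog ‖iteratedDeriv l u z / u z‖) x := by
        rw [← iterDeriv_mean_add i1 i2]
        refine iterDeriv_mean_mono i3 (CircleIntegrable.fun_add i1 i2) ?_
        refine iterDeriv_cod hx0 (P := fun z => Real.posLog ‖iteratedDeriv (l + 1) u z / u z‖ ≤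
          Real.posLog ‖deriv (iteratedDeriv l u) z / iteratedDeriv l u z‖ +
            Real.posLog ‖iteratedDeriv l u z / u z‖) fun z hz1 hz2 => ?_
        filter_upwards [(meromorphicOrderAt_ne_top_iff_eventually_ne_zero
          (hM.mero z hz1 hz2)).1 (hM.ord z hz1 hz2)] with ζ hζ
        rw [iteratedDeriv_succ]
        exact iterDeriv_posLog_le hζ
      have hT := nevT_nonneg u R₁ x
      set δ : ℝ := ε / (2 * ((l : ℝ) + 2)) with hδ
      have hδ0 : 0 < δ := by positivity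
      have hδ1 : δ * ((l : ℝ) + 2) = ε / 2 := by
        rw [hδ]; field_simp
      have g6 : δ * nevT (iteratedDeriv l u) R₁ x ≤
          δ * (((l : ℝ) + 2) * nevT u R₁ x + C2 * (1 + |x|)) := by
        refine mul_le_mul_of_nonneg_left ?_ hδ0.le
        nlinarith
      have g7 : δ * (((l : ℝ) + 2) * nevT u R₁ x + C2 * (1 + |x|)) =
          ε / 2 * nevT u R₁ x + δ * C2 * (1 + |x|) := by
        rw [mul_add, ← mul_assoc, hδ1]; ring
      nlinarith

end Pool.Agent.H62.FC
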