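import Pool.Agent.H62.FC.NevDefs

/-!
# The local order of the Wronskian
-/

open Filter Topology MeasureTheory
open Pool.Agent.H92.GGL (ordZ)

noncomputable section

namespace Pool.Agent.H62.FC

/-- `f` vanishes to order at least `b` at `s`, up to the value at `s` -/
def LocalEst_V (s : ℂ) (f : ℂ → ℂ) (b : ℕ) : Prop :=
  ∃ g : ℂ → ℂ, AnalyticAt ℂ g s ∧ f =ᶠ[𝓝[≠] s] fun z => (z - s) ^ b * g z

theorem LocalEst_congr {s : ℂ} {f f' : ℂ → ℂ} {b : ℕ} (h : LocalEst_V s f b)
    (hf : f' =ᶠ[𝓝[≠] s] f) : LocalEst_V s f' b := by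
  obtain ⟨g, hg, hfg⟩ := h
  exact ⟨g, hg, hf.trans hfg⟩

theorem LocalEst_anal_sub (s : ℂ) : AnalyticAt ℂ (fun z : ℂ => z - s) s :=
  analyticAt_id.sub analyticAt_const

theorem LocalEst_mono {s : ℂ} {f : ℂ → ℂ} {b b' : ℕ} (h : LocalEst_V s f b) (hb : b' ≤ b) :
    LocalEst_V s f b' := by
  obtain ⟨g, hg, hfg⟩ := h
  refine ⟨fun z => (z - s) ^ (b - b') * g z, ((LocalEst_anal_sub s).pow _).mul hg, ?_⟩
  filter_upwards [hfg] with z hz
  rw [hz, ← mul_assoc, ← pow_add]
  congr 2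
  omega

theorem LocalEst_mul {s : ℂ} {f f' : ℂ → ℂ} {b b' : ℕ} (h : LocalEst_V s f b)
    (h' : LocalEst_V s f' b') : LocalEst_V s (fun z => f z * f' z) (b + b') := by
  obtain ⟨g, hg, hfg⟩ := h
  obtain ⟨g', hg', hfg'⟩ := h'
  refine ⟨fun z => g z * g' z, hg.mul hg', ?_⟩
  filter_upwards [hfg, hfg'] with z hz hz'
  rw [hz, hz', pow_add]
  ring

theorem LocalEst_const (s c : ℂ) : LocalEst_V s (fun _ => c) 0 :=
  ⟨fun _ => c, analyticAt_const, by
    filter_upwards with z
    rw [pow_zero, one_mul]⟩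

theorem LocalEst_add {s : ℂ} {f f' : ℂ → ℂ} {b : ℕ} (h : LocalEst_V s f b)
    (h' : LocalEst_V s f' b) : LocalEst_V s (fun z => f z + f' z) b := by
  obtain ⟨g, hg, hfg⟩ := h
  obtain ⟨g', hg', hfg'⟩ := h'
  refine ⟨fun z => g z + g' z, hg.add hg', ?_⟩
  filter_upwards [hfg, hfg'] with z hz hz'
  rw [hz, hz']
  ring

theorem LocalEst_zero (s : ℂ) (b : ℕ) : LocalEst_V s (fun _ => 0) b :=
  ⟨fun _ => 0, analyticAt_const, by
    filter_upwards with z
    rw [mul_zero]⟩

theorem LocalEst_sum {ι : Type*} {s : ℂ} (T : Finset ι) {f : ι → ℂ → ℂ} {b : ℕ}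
    (h : ∀ i ∈ T, LocalEst_V s (f i) b) : LocalEst_V s (fun z => ∑ i ∈ T, f i z) b := by
  classical
  induction T using Finset.induction_on with
  | empty => simpa using LocalEst_zero s b
  | insert a T ha ih =>
    have h1 := LocalEst_add (h a (Finset.mem_insert_self a T))
      (ih fun i hi => h i (Finset.mem_insert_of_mem hi))
    refine LocalEst_congr h1 ?_
    filter_upwards with z
    rw [Finset.sum_insert ha]

theorem LocalEst_prod {ι : Type*} {s : ℂ} (T : Finset ι) {f : ι → ℂ → ℂ} {b : ι → ℕ}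
    (h : ∀ i ∈ T, LocalEst_V s (f i) (b i)) :
    LocalEst_V s (fun z => ∏ i ∈ T, f i z) (∑ i ∈ T, b i) := by
  classical
  induction T using Finset.induction_on with
  | empty => simpa using LocalEst_const s 1
  | insert a T ha ih =>
    have h1 := LocalEst_mul (h a (Finset.mem_insert_self a T))
      (ih fun i hi => h i (Finset.mem_insert_of_mem hi))
    rw [Finset.sum_insert ha]
    refine LocalEst_congr h1 ?_
    filter_upwards with z
    rw [Finset.prod_insert ha]

theorem LocalEst_deriv {s : ℂ} {f : ℂ → ℂ} {b : ℕ} (h : LocalEst_V s f b) :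
    LocalEst_V s (deriv f) (b - 1) := by
  obtain ⟨g, hg, hfg⟩ := h
  have h1 := hfg.nhdsNE_deriv
  have h2 : ∀ᶠ z in 𝓝[≠] s, AnalyticAt ℂ g z :=
    hg.eventually_analyticAt.filter_mono nhdsWithin_le_nhds
  rcases b with _ | b
  · refine ⟨deriv g, hg.deriv, ?_⟩
    filter_upwards [h1] with z hz
    rw [hz]
    simp
  · refine ⟨fun z => ((b : ℂ) + 1) * g z + (z - s) * deriv g z,
      (analyticAt_const.mul hg).add ((LocalEst_anal_sub s).mul hg.deriv), ?_⟩
    filter_upwards [h1, h2] with z hz hgz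
    rw [hz]
    have h3 : HasDerivAt (fun z : ℂ => (z - s) ^ (b + 1)) (((b + 1 : ℕ) : ℂ) * (z - s) ^ b) z := by
      have h0 := ((hasDerivAt_id z).sub_const s).fun_pow (b + 1)
      simp only [id_eq, Nat.add_sub_cancel, mul_one] at h0
      exact h0
    have h4 := h3.mul hgz.differentiableAt.hasDerivAt
    have h5 : deriv (fun z => (z - s) ^ (b + 1) * g z) z =
        ((b + 1 : ℕ) : ℂ) * (z - s) ^ b * g z + (z - s) ^ (b + 1) * deriv g z := h4.deriv
    rw [h5]
    push_cast
    rw [pow_succ]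
    ring

theorem LocalEst_iteratedDeriv {s : ℂ} {f : ℂ → ℂ} {b : ℕ} (h : LocalEst_V s f b) (i : ℕ) :
    LocalEst_V s (iteratedDeriv i f) (b - i) := by
  induction i with
  | zero => simpa using h
  | succ i ih =>
    rw [iteratedDeriv_succ]
    have := LocalEst_deriv ih
    rwa [Nat.sub_sub] at this

theorem LocalEst_det {n : ℕ} {s : ℂ} {A : Fin n → Fin n → ℂ → ℂ} {K : Fin n → ℕ}
    (h : ∀ i j, LocalEst_V s (A i j) (K j)) :
    LocalEst_V s (fun z => (Matrix.of fun i j : Fin n => A i j z).det) (∑ j, K j) := by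
  have h1 : LocalEst_V s (fun z => ∑ σ : Equiv.Perm (Fin n),
      ((Equiv.Perm.sign σ : ℤ) : ℂ) * ∏ i, A (σ i) i z) (∑ j, K j) := by
    refine LocalEst_sum _ ?_
    intro σ _
    have h2 := LocalEst_mul (LocalEst_const s ((Equiv.Perm.sign σ : ℤ) : ℂ))
      (LocalEst_prod Finset.univ (f := fun i => A (σ i) i) (b := K) fun i _ => h (σ i) i)
    rwa [zero_add] at h2
  refine LocalEst_congr h1 ?_
  filter_upwards with z
  rw [Matrix.det_apply']
  rfl

theorem LocalEst_wronsk {n : ℕ} {s : ℂ} {φ : Fin n → ℂ → ℂ} {c : Fin n → ℕ}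
    (h : ∀ j, LocalEst_V s (φ j) (c j)) :
    LocalEst_V s (wronsk φ) (∑ j, (c j - (n - 1))) := by
  refine LocalEst_det (A := fun i j => iteratedDeriv i (φ j)) ?_
  intro i j
  refine LocalEst_mono (LocalEst_iteratedDeriv (h j) i) ?_
  have := i.2
  omega

/-- scaling of the Wronskian -/
theorem LocalEst_scale {n : ℕ} {z : ℂ} {h : ℂ → ℂ} {u : Fin n → ℂ → ℂ}
    (hh : ∀ k : ℕ, ContDiffAt ℂ k h z) (hu : ∀ j, ∀ k : ℕ, ContDiffAt ℂ k (u j) z) :
    wronsk (fun j w => h w * u j w) z = h z ^ n * wronsk u z := by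
  have h1 : (Matrix.of fun i j : Fin n => iteratedDeriv i (fun w => h w * u j w) z) =
      (Matrix.of fun i k : Fin n => ((Nat.choose i k : ℕ) : ℂ) * iteratedDeriv (i - k) h z) *
        (Matrix.of fun i j : Fin n => iteratedDeriv i (u j) z) := by
    ext i j
    rw [Matrix.mul_apply]
    simp only [Matrix.of_apply]
    have h2 : (fun w => h w * u j w) = fun w => u j w * h w := by
      funext w
      ring
    rw [h2, iteratedDeriv_fun_mul (hu j i) (hh i)]
    rw [Fin.sum_univ_eq_sum_range (fun k => ((Nat.choose i k : ℕ) : ℂ) *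
      iteratedDeriv (i - k) h z * iteratedDeriv k (u j) z) n]
    have h3 : Finset.range ((i : ℕ) + 1) ⊆ Finset.range n := by
      rw [Finset.range_subset_range]
      exact i.2
    rw [← Finset.sum_subset h3]
    · refine Finset.sum_congr rfl ?_
      intro k _
      ring
    · intro k _ hk
      rw [Finset.mem_range, not_lt] at hk
      rw [Nat.choose_eq_zero_of_lt (by omega)]
      simp
  unfold wronsk
  rw [h1, Matrix.det_mul]
  congr 1
  rw [Matrix.det_of_isLowerTriangular]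
  · simp
  · intro i k hik
    have hik' : (i : ℕ) < k := hik
    simp only [Matrix.of_apply]
    rw [Nat.choose_eq_zero_of_lt hik']
    simp

/-- exchange of a column -/
theorem LocalEst_exchange {n : ℕ} {z : ℂ} {f : Fin n → ℂ → ℂ} {q : ℂ → ℂ} (j₀ : Fin n)
    (hf : ∀ j, ∀ k : ℕ, ContDiffAt ℂ k (f j) z) (hq : q =ᶠ[𝓝 z] fun w => ∑ j, f j w) :
    wronsk (Function.update f j₀ q) z = wronsk f z := by
  have h1 : (Matrix.of fun i j : Fin n => iteratedDeriv i (Function.update f j₀ q j) z) =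
      (Matrix.of fun i j : Fin n => iteratedDeriv i (f j) z).updateCol j₀
        (fun i => ∑ j, (1 : ℂ) • (Matrix.of fun i j : Fin n => iteratedDeriv i (f j) z) i j) := by
    ext i j
    rw [Matrix.updateCol_apply]
    by_cases hj : j = j₀
    · subst hj
      rw [if_pos rfl]
      simp only [Matrix.of_apply, Function.update_self, one_smul]
      rw [hq.iteratedDeriv_eq, iteratedDeriv_fun_sum (fun j _ => hf j i)]
    · rw [if_neg hj]
      simp only [Matrix.of_apply]
      rw [Function.update_of_ne hj]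
  unfold wronsk
  rw [h1, Matrix.det_updateCol_sum, one_smul]

theorem LocalEst_num {n d c : ℕ} (hn : 1 ≤ n) (hd : n ≤ d) (hc : (d : ℤ) ∣ (c : ℤ)) :
    (d : ℤ) * ((c : ℤ) - ((c - (n - 1) : ℕ) : ℤ)) ≤ ((n : ℤ) - 1) * c := by
  rcases Nat.eq_zero_or_pos c with h0 | h0
  · subst h0
    simp
  · have h1 : (d : ℤ) ≤ c := Int.le_of_dvd (by exact_mod_cast h0) hc
    have h2 : n - 1 ≤ c := by omega
    have h3 : ((c - (n - 1) : ℕ) : ℤ) = (c : ℤ) - ((n : ℤ) - 1) := by
      push_cast [Nat.cast_sub h2, Nat.cast_sub hn]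
      ring
    rw [h3]
    have h4 : (0 : ℤ) ≤ (n : ℤ) - 1 := by
      have : (1 : ℤ) ≤ n := by exact_mod_cast hn
      linarith
    nlinarith [mul_le_mul_of_nonneg_right h1 h4]

theorem local_estimate {n d : ℕ} (hn : 1 ≤ n) (hd : n ≤ d) {s : ℂ} {u : Fin n → ℂ → ℂ}
    (hu : ∀ j, MeromorphicAt (u j) s) (huo : ∀ j, meromorphicOrderAt (u j) s ≠ ⊤)
    (hrel : ∀ᶠ z in 𝓝[≠] s, ∑ j, u j z = -1) (hW : meromorphicOrderAt (wronsk u) s ≠ ⊤)
    (hdiv : ∀ j, (d : ℤ) ∣ ordZ (u j) s) {μ : ℤ} (hμ0 : μ ≤ 0) (hμ : ∀ j, μ ≤ ordZ (u j) s)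
    (hμ' : μ = 0 ∨ ∃ j, ordZ (u j) s = μ) :
    (d : ℤ) * ((∑ j, ordZ (u j) s) - ordZ (wronsk u) s - μ) ≤
      (n - 1 : ℤ) * ((∑ j, (ordZ (u j) s - μ)) + (0 - μ)) := by
  obtain ⟨m, hm⟩ : ∃ m : ℕ, (m : ℤ) = -μ := ⟨(-μ).toNat, Int.toNat_of_nonneg (by linarith)⟩
  -- the orders of the scaled functions
  have hb : ∀ j, ∃ b : ℕ, (b : ℤ) = ordZ (u j) s - μ := fun j =>
    ⟨(ordZ (u j) s - μ).toNat, Int.toNat_of_nonneg (by linarith [hμ j])⟩
  choose b hb using hb
  set f : Fin n → ℂ → ℂ := fun j w => (w - s) ^ m * u j w with hf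
  have hVf : ∀ j, LocalEst_V s (f j) (b j) := by
    intro j
    have h1 : meromorphicOrderAt (u j) s = ((ordZ (u j) s : ℤ) : WithTop ℤ) := by
      unfold Pool.Agent.H92.GGL.ordZ
      rw [WithTop.coe_untop₀_of_ne_top (huo j)]
    obtain ⟨g, hg, _, hug⟩ := (meromorphicOrderAt_eq_int_iff (hu j)).1 h1
    refine ⟨g, hg, ?_⟩
    filter_upwards [hug, eventually_mem_nhdsWithin] with z hz hzs
    have hzs' : z - s ≠ 0 := sub_ne_zero.mpr hzs
    show (z - s) ^ m * u j z = _
    rw [hz, smul_eq_mul, ← mul_assoc, ← zpow_natCast, ← zpow_add₀ hzs', ← zpow_natCast]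
    congr 2
    rw [hb j, hm]
    ring
  -- the punctured neighbourhood where everything is analytic
  have han : ∀ᶠ z in 𝓝[≠] s, ∀ j, AnalyticAt ℂ (u j) z := by
    rw [Filter.eventually_all]
    exact fun j => (hu j).eventually_analyticAt
  have hscale : wronsk f =ᶠ[𝓝[≠] s] fun z => ((z - s) ^ m) ^ n * wronsk u z := by
    filter_upwards [han] with z hz
    refine LocalEst_scale (h := fun w => (w - s) ^ m) ?_ ?_
    · intro k
      exact ((contDiffAt_id.sub contDiffAt_const).pow m)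
    · intro j k
      exact (hz j).contDiffAt
  -- it is enough to bound the order of the scaled Wronskian
  have main : ∀ c : Fin n → ℕ, (∀ j, (d : ℤ) ∣ (c j : ℤ)) →
      (∑ j, (c j : ℤ)) = (∑ j, (ordZ (u j) s - μ)) + (0 - μ) →
      LocalEst_V s (wronsk f) (∑ j, (c j - (n - 1))) →
      (d : ℤ) * ((∑ j, ordZ (u j) s) - ordZ (wronsk u) s - μ) ≤
        (n - 1 : ℤ) * ((∑ j, (ordZ (u j) s - μ)) + (0 - μ)) := by
    intro c hc hcs hV
    obtain ⟨g, hg, hWg⟩ := hV
    set C : ℕ := ∑ j, (c j - (n - 1)) with hC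
    have h1 : wronsk u =ᶠ[𝓝[≠] s] fun z => (z - s) ^ ((C : ℤ) - m * n) * g z := by
      filter_upwards [hscale, hWg, eventually_mem_nhdsWithin] with z h1 h2 h3
      have hzs' : z - s ≠ 0 := sub_ne_zero.mpr h3
      rw [h1] at h2
      have h4 : ((z - s) ^ m) ^ n ≠ 0 := pow_ne_zero _ (pow_ne_zero _ hzs')
      have h5 : wronsk u z = (((z - s) ^ m) ^ n)⁻¹ * ((z - s) ^ C * g z) := by
        rw [← h2, ← mul_assoc, inv_mul_cancel₀ h4, one_mul]
      rw [h5, zpow_sub₀ hzs', zpow_natCast, ← pow_mul]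
      have h6 : (z - s) ^ ((m : ℤ) * (n : ℤ)) = (z - s) ^ (m * n) := by
        rw [← Nat.cast_mul, zpow_natCast]
      rw [h6]
      field_simp
    have h2 : MeromorphicAt (fun z => (z - s) ^ ((C : ℤ) - m * n)) s :=
      ((LocalEst_anal_sub s).meromorphicAt).zpow _
    have h3 : meromorphicOrderAt (fun z => (z - s) ^ ((C : ℤ) - m * n)) s =
        (((C : ℤ) - m * n : ℤ) : WithTop ℤ) := by
      rw [meromorphicOrderAt_eq_int_iff h2]
      exact ⟨fun _ => 1, analyticAt_const, one_ne_zero, by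
        filter_upwards with z
        rw [smul_eq_mul, mul_one]⟩
    have h4 : (((C : ℤ) - m * n : ℤ) : WithTop ℤ) ≤ meromorphicOrderAt (wronsk u) s := by
      rw [meromorphicOrderAt_congr h1]
      have h5 := meromorphicOrderAt_mul h2 hg.meromorphicAt
      have h6 : meromorphicOrderAt (fun z => (z - s) ^ ((C : ℤ) - m * n) * g z) s =
          meromorphicOrderAt (fun z => (z - s) ^ ((C : ℤ) - m * n)) s +
            meromorphicOrderAt g s := h5
      rw [h6, h3]
      exact le_add_of_nonneg_right hg.meromorphicOrderAt_nonneg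
    have h5 : ((C : ℤ) - m * n : ℤ) ≤ ordZ (wronsk u) s := by
      unfold Pool.Agent.H92.GGL.ordZ
      rw [← WithTop.coe_untop₀_of_ne_top hW] at h4
      exact_mod_cast h4
    have h6 : ∑ j, ((d : ℤ) * ((c j : ℤ) - ((c j - (n - 1) : ℕ) : ℤ))) ≤
        ∑ j, ((n : ℤ) - 1) * (c j : ℤ) :=
      Finset.sum_le_sum fun j _ => LocalEst_num hn hd (hc j)
    rw [← Finset.mul_sum, ← Finset.mul_sum, Finset.sum_sub_distrib, hcs] at h6
    have h7 : ((C : ℕ) : ℤ) = ∑ j, ((c j - (n - 1) : ℕ) : ℤ) := by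
      rw [hC, Nat.cast_sum]
    rw [← h7] at h6
    have h8 : (∑ j, (ordZ (u j) s - μ)) = (∑ j, ordZ (u j) s) - n * μ := by
      rw [Finset.sum_sub_distrib, Finset.sum_const, Finset.card_univ, Fintype.card_fin,
        nsmul_eq_mul]
    refine le_trans ?_ h6
    refine mul_le_mul_of_nonneg_left ?_ (Int.natCast_nonneg d)
    rw [h8]
    rw [hm] at h5
    linarith
  have hdμ : (d : ℤ) ∣ μ := by
    rcases hμ' with h | ⟨j, hj⟩
    · rw [h]; exact dvd_zero _
    · rw [← hj]; exact hdiv j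
  have hdb : ∀ j, (d : ℤ) ∣ (b j : ℤ) := by
    intro j
    rw [hb j]
    exact dvd_sub (hdiv j) hdμ
  rcases hμ' with h0 | ⟨j₀, hj₀⟩
  · refine main b hdb ?_ (LocalEst_wronsk hVf)
    rw [h0, sub_zero, add_zero]
    refine Finset.sum_congr rfl ?_
    intro j _
    rw [hb j, h0]
  · have hq : wronsk f =ᶠ[𝓝[≠] s]
        wronsk (Function.update f j₀ (fun w => -(w - s) ^ m)) := by
      have hrel' := eventually_nhdsNE_eventually_nhds_iff.2 hrel
      filter_upwards [han, hrel'] with z hz hr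
      symm
      refine LocalEst_exchange j₀ ?_ ?_
      · intro j k
        have h1 : ContDiffAt ℂ k (u j) z := (hz j).contDiffAt
        have h2 : ContDiffAt ℂ k (fun w : ℂ => (w - s) ^ m) z :=
          (contDiffAt_id.sub contDiffAt_const).pow m
        exact h2.mul h1
      · filter_upwards [hr] with w hw
        show -(w - s) ^ m = ∑ j, (w - s) ^ m * u j w
        rw [← Finset.mul_sum, hw]
        ring
    have hV : ∀ j, LocalEst_V s (Function.update f j₀ (fun w => -(w - s) ^ m) j)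
        (Function.update b j₀ m j) := by
      intro j
      by_cases hj : j = j₀
      · subst hj
        rw [Function.update_self, Function.update_self]
        refine ⟨fun _ => -1, analyticAt_const, ?_⟩
        filter_upwards with z
        ring
      · rw [Function.update_of_ne hj, Function.update_of_ne hj]
        exact hVf j
    have hb0 : (b j₀ : ℤ) = 0 := by
      rw [hb j₀, hj₀, sub_self]
    refine main (Function.update b j₀ m) ?_ ?_ (LocalEst_congr (LocalEst_wronsk hV) hq)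
    · intro j
      by_cases hj : j = j₀
      · subst hj
        rw [Function.update_self, hm]
        exact (dvd_neg).2 hdμ
      · rw [Function.update_of_ne hj]
        exact hdb j
    · have h1 : (∑ j, (ordZ (u j) s - μ)) = ∑ j, (b j : ℤ) :=
        Finset.sum_congr rfl fun j _ => (hb j).symm
      rw [h1, ← Finset.add_sum_erase Finset.univ _ (Finset.mem_univ j₀),
        ← Finset.add_sum_erase Finset.univ (fun j => (b j : ℤ)) (Finset.mem_univ j₀), hb0,
        Function.update_self, hm]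
      have h2 : ∑ j ∈ Finset.univ.erase j₀, ((Function.update b j₀ m j : ℕ) : ℤ) =
          ∑ j ∈ Finset.univ.erase j₀, (b j : ℤ) := by
        refine Finset.sum_congr rfl ?_
        intro j hj
        rw [Function.update_of_ne (Finset.ne_of_mem_erase hj)]
      rw [h2]
      ring

end Pool.Agent.H62.FC
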