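import Pool.Agent.H62.FC.NevDefs

/-!
# The Wronskian of linearly independent meromorphic functions does not vanish identically
-/

noncomputable section

namespace Pool.Agent.H62.FC

open Filter Topology MeasureTheory
open Pool.Agent.H92.GGL (ordZ)

private lemma Wronsk_det_analyticAt {n : ℕ} {M : ℂ → Matrix (Fin n) (Fin n) ℂ} {s : ℂ}
    (h : ∀ i j, AnalyticAt ℂ (fun z => M z i j) s) : AnalyticAt ℂ (fun z => (M z).det) s := by
  simp only [Matrix.det_apply']
  refine Finset.analyticAt_fun_sum _ fun σ _ => ?_
  refine analyticAt_const.mul ?_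
  exact Finset.analyticAt_fun_prod _ fun i _ => h _ _

private lemma Wronsk_det_meromorphicAt {n : ℕ} {M : ℂ → Matrix (Fin n) (Fin n) ℂ} {s : ℂ}
    (h : ∀ i j, MeromorphicAt (fun z => M z i j) s) : MeromorphicAt (fun z => (M z).det) s := by
  simp only [Matrix.det_apply']
  refine MeromorphicAt.fun_sum fun σ _ => ?_
  refine (MeromorphicAt.const _ s).mul ?_
  exact MeromorphicAt.fun_prod fun i _ => h _ _

private lemma Wronsk_iterated {f : ℂ → ℂ} {z : ℂ} (hf : AnalyticAt ℂ f z) (n : ℕ) :
    AnalyticAt ℂ (iteratedDeriv n f) z := by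
  rw [iteratedDeriv_eq_iterate]
  exact hf.iterated_deriv n

/-- the Wronskian of linearly independent holomorphic functions on a domain -/
private theorem Wronsk_exists {m : ℕ} (φ : Fin m → ℂ → ℂ) (D : Set ℂ) (hD : IsOpen D)
    (hDp : IsPreconnected D) (hDn : D.Nonempty) (hd : ∀ i, ∀ z ∈ D, AnalyticAt ℂ (φ i) z)
    (hli : ∀ c : Fin m → ℂ, (∀ z ∈ D, ∑ j, c j * φ j z = 0) → c = 0) :
    ∃ z ∈ D, Matrix.det (Matrix.of fun i j : Fin m => iteratedDeriv (i : ℕ) (φ j) z) ≠ 0 := by
  induction m with
  | zero =>
    obtain ⟨z, hz⟩ := hDn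
    exact ⟨z, hz, by simp⟩
  | succ m ih =>
    by_contra hcon
    push Not at hcon
    obtain ⟨z₀, hz₀D, hz₀⟩ := ih (fun j => φ j.castSucc) (fun j => hd _) (by
      intro c hc
      have h1 := hli (Fin.lastCases 0 c) (by
        intro z hz
        simp only [Fin.sum_univ_castSucc, Fin.lastCases_castSucc, Fin.lastCases_last, zero_mul,
          add_zero]
        exact hc z hz)
      funext j
      have h2 := congrFun h1 j.castSucc
      simpa using h2)
    set A : ℂ → Matrix (Fin m) (Fin m) ℂ :=
      fun z => Matrix.of fun i j : Fin m => iteratedDeriv (i : ℕ) (φ j.castSucc) z with hA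
    set b : ℂ → Fin m → ℂ := fun z i => iteratedDeriv (i : ℕ) (φ (Fin.last m)) z with hb
    have hAd : ∀ z ∈ D, AnalyticAt ℂ (fun z => (A z).det) z := fun z hz =>
      Wronsk_det_analyticAt fun i j => Wronsk_iterated (hd _ z hz) _
    set c : Fin m → ℂ → ℂ := fun j z => ((A z).updateCol j (b z)).det / (A z).det with hc
    have hU : ∃ r > 0, ∀ z ∈ Metric.ball z₀ r, z ∈ D ∧ (A z).det ≠ 0 := by
      have h1 : ∀ᶠ z in 𝓝 z₀, z ∈ D ∧ (A z).det ≠ 0 :=
        (hD.eventually_mem hz₀D).and ((hAd z₀ hz₀D).continuousAt.eventually_ne hz₀)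
      exact Metric.eventually_nhds_iff_ball.mp h1
    obtain ⟨r, hr, hball⟩ := hU
    have hcd : ∀ j, ∀ z ∈ D, (A z).det ≠ 0 → DifferentiableAt ℂ (c j) z := by
      intro j z hzD hz
      refine DifferentiableAt.div ?_ (hAd z hzD).differentiableAt hz
      refine (Wronsk_det_analyticAt (M := fun z => (A z).updateCol j (b z))
        fun i k => ?_).differentiableAt
      by_cases hk : k = j
      · subst hk
        simp only [Matrix.updateCol_self]
        exact Wronsk_iterated (hd _ z hzD) _
      · simp only [Matrix.updateCol_ne hk]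
        exact Wronsk_iterated (hd _ z hzD) _
    -- the coefficients solve the linear system
    have hsol : ∀ z, (A z).det ≠ 0 → (A z).mulVec (fun j => c j z) = b z := by
      intro z hz
      have h1 := Matrix.mulVec_cramer (A z) (b z)
      have h2 : (fun j => c j z) = ((A z).det)⁻¹ • Matrix.cramer (A z) (b z) := by
        funext j
        simp only [hc, Pi.smul_apply, Matrix.cramer_apply, smul_eq_mul]
        rw [div_eq_inv_mul]
      rw [h2, Matrix.mulVec_smul, h1, smul_smul, inv_mul_cancel₀ hz, one_smul]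
    have hlast : ∀ z ∈ D, (A z).det ≠ 0 →
        ∑ j, iteratedDeriv m (φ j.castSucc) z * c j z = iteratedDeriv m (φ (Fin.last m)) z := by
      intro z hzD hz
      obtain ⟨v, hv0, hv⟩ := Matrix.exists_mulVec_eq_zero_iff.2 (hcon z hzD)
      have hrow : ∀ i : Fin (m + 1), ∑ j : Fin m, iteratedDeriv (i : ℕ) (φ j.castSucc) z *
          v j.castSucc + iteratedDeriv (i : ℕ) (φ (Fin.last m)) z * v (Fin.last m) = 0 := by
        intro i
        have := congrFun hv i
        simpa [Matrix.mulVec, dotProduct, Fin.sum_univ_castSucc] using this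
      have hvl : v (Fin.last m) ≠ 0 := by
        intro h0
        apply hv0
        have hz' : (fun j : Fin m => v j.castSucc) = 0 := by
          apply Matrix.eq_zero_of_mulVec_eq_zero hz
          funext i
          have := hrow i.castSucc
          rw [h0, mul_zero, add_zero] at this
          simpa [Matrix.mulVec, dotProduct, hA] using this
        funext i
        refine Fin.lastCases h0 (fun j => ?_) i
        exact congrFun hz' j
      have hcv : (fun j => c j z) = fun j : Fin m => - v j.castSucc / v (Fin.last m) := by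
        have hdiff : (A z).mulVec ((fun j => c j z) -
            fun j : Fin m => - v j.castSucc / v (Fin.last m)) = 0 := by
          rw [Matrix.mulVec_sub, hsol z hz, sub_eq_zero]
          funext i
          have h3 := hrow i.castSucc
          simp only [Fin.val_castSucc] at h3
          simp only [hb, hA, Matrix.mulVec, dotProduct, Matrix.of_apply]
          have h4 : ∑ j : Fin m, iteratedDeriv (i : ℕ) (φ j.castSucc) z *
              (-v j.castSucc / v (Fin.last m)) =
              -(∑ j : Fin m, iteratedDeriv (i : ℕ) (φ j.castSucc) z * v j.castSucc) /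
                v (Fin.last m) := by
            rw [← Finset.sum_neg_distrib, Finset.sum_div]
            refine Finset.sum_congr rfl fun j _ => by ring
          rw [h4, eq_div_iff hvl]
          linear_combination h3
        exact sub_eq_zero.1 (Matrix.eq_zero_of_mulVec_eq_zero hz hdiff)
      have h5 := hrow (Fin.last m)
      simp only [Fin.val_last] at h5
      have h6 : ∀ j, c j z = - v j.castSucc / v (Fin.last m) := fun j => congrFun hcv j
      have h7 : ∑ j, iteratedDeriv m (φ j.castSucc) z * c j z =
          -(∑ j : Fin m, iteratedDeriv m (φ j.castSucc) z * v j.castSucc) / v (Fin.last m) := by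
        rw [← Finset.sum_neg_distrib, Finset.sum_div]
        refine Finset.sum_congr rfl fun j _ => by rw [h6]; ring
      rw [h7, div_eq_iff hvl]
      linear_combination -h5
    have hall : ∀ i ≤ m, ∀ z ∈ D, (A z).det ≠ 0 →
        ∑ j, iteratedDeriv i (φ j.castSucc) z * c j z = iteratedDeriv i (φ (Fin.last m)) z := by
      intro i hi z hzD hz
      rcases hi.lt_or_eq with hi' | rfl
      · have := congrFun (hsol z hz) ⟨i, hi'⟩
        simpa [Matrix.mulVec, dotProduct, hA, hb] using this
      · exact hlast z hzD hz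
    have hderiv : ∀ j, ∀ z ∈ Metric.ball z₀ r, deriv (c j) z = 0 := by
      intro j₀ z hzb
      obtain ⟨hzD, hz⟩ := hball z hzb
      have hzero : (A z).mulVec (fun j => deriv (c j) z) = 0 := by
        funext i
        have hev : (fun w => ∑ j, iteratedDeriv (i : ℕ) (φ j.castSucc) w * c j w) =ᶠ[𝓝 z]
            iteratedDeriv (i : ℕ) (φ (Fin.last m)) := by
          filter_upwards [Metric.isOpen_ball.mem_nhds hzb] with w hw
          exact hall i i.2.le w (hball w hw).1 (hball w hw).2
        have h1 := hev.deriv_eq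
        have h2 : deriv (fun w => ∑ j, iteratedDeriv (i : ℕ) (φ j.castSucc) w * c j w) z =
            ∑ j, (iteratedDeriv ((i : ℕ) + 1) (φ j.castSucc) z * c j z +
              iteratedDeriv (i : ℕ) (φ j.castSucc) z * deriv (c j) z) := by
          rw [deriv_fun_sum]
          · refine Finset.sum_congr rfl fun j _ => ?_
            rw [deriv_fun_mul (Wronsk_iterated (hd _ z hzD) _).differentiableAt (hcd j z hzD hz),
              iteratedDeriv_succ]
          · intro j _
            exact (Wronsk_iterated (hd _ z hzD) _).differentiableAt.mul (hcd j z hzD hz)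
        have h3 := hall ((i : ℕ) + 1) i.2 z hzD hz
        rw [h2, Finset.sum_add_distrib, h3, ← iteratedDeriv_succ] at h1
        have h4 : ∑ j, iteratedDeriv (i : ℕ) (φ j.castSucc) z * deriv (c j) z = 0 := by
          linear_combination h1
        simpa [Matrix.mulVec, dotProduct, hA] using h4
      exact congrFun (Matrix.eq_zero_of_mulVec_eq_zero hz hzero) j₀
    have hconst : ∀ j, ∀ z ∈ Metric.ball z₀ r, c j z = c j z₀ := by
      intro j z hz
      exact (Metric.isOpen_ball.is_const_of_deriv_eq_zero (convex_ball z₀ r).isPreconnected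
        (fun w hw => (hcd j w (hball w hw).1 (hball w hw).2).differentiableWithinAt)
        (fun w hw => hderiv j w hw) hz (Metric.mem_ball_self hr))
    -- identity theorem
    have hid : ∀ z ∈ D, ∑ j, φ j.castSucc z * c j z₀ = φ (Fin.last m) z := by
      have h1 : AnalyticOnNhd ℂ (fun z => ∑ j, φ j.castSucc z * c j z₀) D := by
        intro z hz
        exact Finset.analyticAt_fun_sum _ fun j _ => (hd _ z hz).mul analyticAt_const
      have h2 : AnalyticOnNhd ℂ (φ (Fin.last m)) D := fun z hz => hd _ z hz
      have h3 : (fun z => ∑ j, φ j.castSucc z * c j z₀) =ᶠ[𝓝 z₀] φ (Fin.last m) := by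
        filter_upwards [Metric.ball_mem_nhds z₀ hr] with z hz
        have h4 := hall 0 (Nat.zero_le _) z (hball z hz).1 (hball z hz).2
        simp only [iteratedDeriv_zero] at h4
        rw [← h4]
        exact Finset.sum_congr rfl fun j _ => by rw [hconst j z hz]
      intro z hz
      exact h1.eqOn_of_preconnected_of_eventuallyEq h2 hDp hz₀D h3 hz
    have hsum := congrFun (hli (Fin.lastCases (-1) fun j => c j z₀) (by
        intro z hz
        simp only [Fin.sum_univ_castSucc, Fin.lastCases_castSucc, Fin.lastCases_last]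
        have := hid z hz
        rw [← this]
        have h5 : ∑ j, c j z₀ * φ j.castSucc z = ∑ j, φ j.castSucc z * c j z₀ :=
          Finset.sum_congr rfl fun j _ => mul_comm _ _
        rw [h5]; ring)) (Fin.last m)
    simp at hsum

theorem wronsk_meroPunct {R₀ : ℝ} {n : ℕ} {u : Fin n → ℂ → ℂ} (hu : ∀ j, MeroPunct R₀ (u j))
    (hind : ∀ (c : Fin n → ℂ) (z : ℂ), 0 < ‖z‖ → ‖z‖ < R₀ →
      (∀ᶠ ζ in 𝓝[≠] z, ∑ j, c j * u j ζ = 0) → c = 0) : MeroPunct R₀ (wronsk u) where
  mero z h1 h2 := by
    refine Wronsk_det_meromorphicAt fun i j => ?_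
    have h3 : MeromorphicAt (iteratedDeriv (i : ℕ) (u j)) z := by
      rw [iteratedDeriv_eq_iterate]
      exact ((hu j).mero z h1 h2).iterated_deriv
    exact h3
  ord z h1 h2 := by
    intro htop
    rw [meromorphicOrderAt_eq_top_iff] at htop
    have han : ∀ᶠ ζ in 𝓝[≠] z, ∀ j, AnalyticAt ℂ (u j) ζ := by
      rw [eventually_all]
      exact fun j => ((hu j).mero z h1 h2).eventually_analyticAt
    have hR : ∀ᶠ ζ in 𝓝[≠] z, 0 < ‖ζ‖ ∧ ‖ζ‖ < R₀ := by
      refine eventually_nhdsWithin_of_eventually_nhds ?_
      exact (continuous_norm.continuousAt.eventually_const_lt h1).and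
        (continuous_norm.continuousAt.eventually_lt_const h2)
    have hall := (htop.and han).and hR
    rw [eventually_nhdsWithin_iff, Metric.eventually_nhds_iff_ball] at hall
    obtain ⟨ε, hε, hball⟩ := hall
    set z₁ : ℂ := z + ((ε / 2 : ℝ) : ℂ) with hz₁
    have hz₁n : ‖z₁ - z‖ = ε / 2 := by
      rw [hz₁, add_sub_cancel_left, Complex.norm_real, Real.norm_of_nonneg (by positivity)]
    have hsub : ∀ ζ ∈ Metric.ball z₁ (ε / 2), ζ ∈ Metric.ball z ε ∧ ζ ∈ ({z}ᶜ : Set ℂ) := by
      intro ζ hζ
      rw [mem_ball_iff_norm] at hζ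
      constructor
      · rw [mem_ball_iff_norm]
        calc ‖ζ - z‖ = ‖(ζ - z₁) + (z₁ - z)‖ := by ring_nf
          _ ≤ ‖ζ - z₁‖ + ‖z₁ - z‖ := norm_add_le _ _
          _ < ε / 2 + ε / 2 := by rw [hz₁n]; linarith
          _ = ε := by ring
      · intro h
        rw [Set.mem_singleton_iff] at h
        rw [h, norm_sub_rev, hz₁n] at hζ
        exact lt_irrefl _ hζ
    have hmem : z₁ ∈ Metric.ball z₁ (ε / 2) := Metric.mem_ball_self (by positivity)
    obtain ⟨ζ, hζ, hne⟩ := Wronsk_exists u (Metric.ball z₁ (ε / 2)) Metric.isOpen_ball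
      (convex_ball _ _).isPreconnected ⟨z₁, hmem⟩
      (fun j ζ hζ => (hball ζ (hsub ζ hζ).1 (hsub ζ hζ).2).1.2 j) (by
        intro c hc
        have h3 := hball z₁ (hsub z₁ hmem).1 (hsub z₁ hmem).2
        refine hind c z₁ h3.2.1 h3.2.2 ?_
        refine eventually_nhdsWithin_of_eventually_nhds ?_
        filter_upwards [Metric.isOpen_ball.mem_nhds hmem] with ζ hζ
        exact hc ζ hζ)
    exact hne (hball ζ (hsub ζ hζ).1 (hsub ζ hζ).2).1.1

end Pool.Agent.H62.FC
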