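import Pool.Agent.H62.FC.Words
import Pool.Agent.H62.FC.Defs
import Pool.Agent.H62.FC.NevDefs
import Pool.Agent.H62.FC.CircuitDefs
import Pool.Agent.H62.FC.CharMero
import Pool.Agent.H62.FC.IterDeriv
import Pool.Agent.H62.FC.LocalEst
import Pool.Agent.H62.FC.Nev0
import Pool.Agent.H62.FC.Wronsk

/-!
# Cartan's theorem at a puncture, for functions with orders divisible by `d`
-/

noncomputable section

namespace Pool.Agent.H62.FC

open Filter Topology MeasureTheory
open Pool.Agent.H92.GGL (ordZ)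

/-! ### Determinants -/

private theorem posLog_prod_perm {n : ℕ} (A : Matrix (Fin n) (Fin n) ℂ) (B : Fin n → Fin n → ℝ)
    (hB : ∀ i j, Real.posLog ‖A i j‖ ≤ B i j) (σ : Equiv.Perm (Fin n)) :
    Real.posLog ‖Equiv.Perm.sign σ • ∏ i, A (σ i) i‖ ≤ ∑ i, ∑ j, B i j := by
  have h1 : ‖Equiv.Perm.sign σ • ∏ i, A (σ i) i‖ = ∏ i, ‖A (σ i) i‖ := by
    rcases Int.units_eq_one_or (Equiv.Perm.sign σ) with h | h
    · rw [h, one_smul, norm_prod]
    · rw [h, Units.neg_smul, one_smul, norm_neg, norm_prod]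
  rw [h1, Finset.sum_comm]
  refine (Real.posLog_prod _ _).trans (Finset.sum_le_sum fun i _ => ?_)
  refine (hB (σ i) i).trans (Finset.single_le_sum (f := fun k => B k i) (fun k _ => ?_)
    (Finset.mem_univ (σ i)))
  exact Real.posLog_nonneg.trans (hB k i)

private theorem posLog_det_le {n : ℕ} (A : Matrix (Fin n) (Fin n) ℂ) (B : Fin n → Fin n → ℝ)
    (hB : ∀ i j, Real.posLog ‖A i j‖ ≤ B i j) :
    Real.posLog ‖A.det‖ ≤ Real.log n.factorial + (n.factorial : ℝ) * ∑ i, ∑ j, B i j := by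
  rw [Matrix.det_apply]
  refine (Real.posLog_norm_sum_le _ _).trans ?_
  have hcard : (Finset.univ : Finset (Equiv.Perm (Fin n))).card = n.factorial := by
    rw [Finset.card_univ, Fintype.card_perm, Fintype.card_fin]
  rw [hcard]
  have h2 : ∑ σ : Equiv.Perm (Fin n), Real.posLog ‖Equiv.Perm.sign σ • ∏ i, A (σ i) i‖ ≤
      ∑ _σ : Equiv.Perm (Fin n), ∑ i, ∑ j, B i j :=
    Finset.sum_le_sum fun σ _ => posLog_prod_perm A B hB σ
  rw [Finset.sum_const, hcard, nsmul_eq_mul] at h2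
  linarith

/-- The sum of the logarithmic derivatives. -/
def Cartan_Q {n : ℕ} (u : Fin n → ℂ → ℂ) (z : ℂ) : ℝ :=
  ∑ i : Fin n, ∑ j : Fin n, Real.posLog ‖iteratedDeriv i (u j) z / u j z‖

private theorem det_star {n : ℕ} {u : Fin n → ℂ → ℂ} {z : ℂ} (h0 : ∀ j, u j z ≠ 0) :
    wronsk u z = (∏ j, u j z) *
      (Matrix.of fun i j : Fin n => iteratedDeriv i (u j) z / u j z).det := by
  rw [← Matrix.det_mul_row]
  unfold wronsk
  congr 1
  ext i j
  simp only [Matrix.of_apply]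
  rw [mul_div_cancel₀ _ (h0 j)]

private theorem det_col {n : ℕ} {u : Fin n → ℂ → ℂ} {z : ℂ} (h0 : ∀ j, u j z ≠ 0)
    (hs : ∀ i : Fin n, ∑ j, iteratedDeriv i (u j) z = if (i : ℕ) = 0 then -1 else 0)
    (j₀ : Fin n) :
    wronsk u z = (∏ j, if j = j₀ then 1 else u j z) *
      (Matrix.of fun i j : Fin n => if j = j₀ then (if (i : ℕ) = 0 then (-1 : ℂ) else 0) else
        iteratedDeriv i (u j) z / u j z).det := by
  rw [← Matrix.det_mul_row]
  unfold wronsk
  have h1 := Matrix.det_updateCol_sum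
    (Matrix.of fun i j : Fin n => iteratedDeriv i (u j) z) j₀ (fun _ => 1)
  rw [one_smul] at h1
  rw [← h1]
  congr 1
  ext i j
  by_cases hj : j = j₀
  · subst hj
    rw [Matrix.updateCol_self]
    simp only [Matrix.of_apply, one_smul, if_true, one_mul]
    exact hs i
  · rw [Matrix.updateCol_ne hj]
    simp only [Matrix.of_apply, if_neg hj]
    rw [mul_div_cancel₀ _ (h0 j)]

private theorem pointwise {n : ℕ} {u : Fin n → ℂ → ℂ} {z : ℂ} (h0 : ∀ j, u j z ≠ 0)
    (hW : wronsk u z ≠ 0)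
    (hs : ∀ i : Fin n, ∑ j, iteratedDeriv i (u j) z = if (i : ℕ) = 0 then -1 else 0)
    (j₀ : Fin n) :
    Real.posLog ‖u j₀ z‖ ≤ (∑ j, Real.log ‖u j z‖) - Real.log ‖wronsk u z‖ +
      (Real.log n.factorial + (n.factorial : ℝ) * Cartan_Q u z) := by
  have hlogu : ∀ j, ‖u j z‖ ≠ 0 := fun j => norm_ne_zero_iff.2 (h0 j)
  rw [Real.posLog_apply]
  refine max_le ?_ ?_
  · have h1 := det_star h0
    have hD : (Matrix.of fun i j : Fin n => iteratedDeriv i (u j) z / u j z).det ≠ 0 := by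
      intro h
      rw [h, mul_zero] at h1
      exact hW h1
    have h2 : Real.log ‖wronsk u z‖ = (∑ j, Real.log ‖u j z‖) +
        Real.log ‖(Matrix.of fun i j : Fin n => iteratedDeriv i (u j) z / u j z).det‖ := by
      rw [h1, norm_mul, norm_prod, Real.log_mul (Finset.prod_ne_zero_iff.2 fun j _ => hlogu j)
        (norm_ne_zero_iff.2 hD), Real.log_prod fun j _ => hlogu j]
    have h3 := posLog_det_le (Matrix.of fun i j : Fin n => iteratedDeriv i (u j) z / u j z)
      (fun i j => Real.posLog ‖iteratedDeriv i (u j) z / u j z‖) (fun i j => le_rfl)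
    have h4 : Real.log ‖(Matrix.of fun i j : Fin n => iteratedDeriv i (u j) z / u j z).det‖ ≤
        Real.posLog ‖(Matrix.of fun i j : Fin n => iteratedDeriv i (u j) z / u j z).det‖ :=
      le_max_right _ _
    unfold Cartan_Q
    linarith
  · have h1 := det_col h0 hs j₀
    set N := (Matrix.of fun i j : Fin n => if j = j₀ then (if (i : ℕ) = 0 then (-1 : ℂ) else 0)
      else iteratedDeriv i (u j) z / u j z) with hN
    have hD : N.det ≠ 0 := by
      intro h
      rw [h, mul_zero] at h1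
      exact hW h1
    have hne : ∀ j ∈ (Finset.univ : Finset (Fin n)),
        ‖(if j = j₀ then (1 : ℂ) else u j z)‖ ≠ 0 := by
      intro j _
      split_ifs
      · simp
      · exact hlogu j
    have h5 : ∑ j, Real.log ‖(if j = j₀ then (1 : ℂ) else u j z)‖ =
        (∑ j, Real.log ‖u j z‖) - Real.log ‖u j₀ z‖ := by
      rw [← Finset.add_sum_erase _ _ (Finset.mem_univ j₀),
        ← Finset.add_sum_erase _ (fun j => Real.log ‖u j z‖) (Finset.mem_univ j₀)]
      rw [if_pos rfl, norm_one, Real.log_one, zero_add, add_sub_cancel_left]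
      refine Finset.sum_congr rfl fun j hj => ?_
      rw [if_neg (Finset.ne_of_mem_erase hj)]
    have h2 : Real.log ‖wronsk u z‖ = (∑ j, Real.log ‖u j z‖) - Real.log ‖u j₀ z‖ +
        Real.log ‖N.det‖ := by
      rw [h1, norm_mul, norm_prod, Real.log_mul (Finset.prod_ne_zero_iff.2 hne)
        (norm_ne_zero_iff.2 hD), Real.log_prod hne, h5]
    have h3 := posLog_det_le N
      (fun i j => Real.posLog ‖iteratedDeriv i (u j) z / u j z‖) (by
        intro i j
        rw [hN, Matrix.of_apply]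
        split_ifs
        · rw [norm_neg, norm_one, Real.posLog_one]
          exact Real.posLog_nonneg
        · rw [norm_zero, Real.posLog_zero]
          exact Real.posLog_nonneg
        · exact le_rfl)
    have h4 : Real.log ‖N.det‖ ≤ Real.posLog ‖N.det‖ := le_max_right _ _
    unfold Cartan_Q
    linarith

/-! ### Means -/

private theorem circleIntegrable_sup {f g : ℂ → ℝ} {c : ℂ} {R : ℝ} (hf : CircleIntegrable f c R)
    (hg : CircleIntegrable g c R) : CircleIntegrable (f ⊔ g) c R := by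
  have h : f ⊔ g = (1 / 2 : ℝ) • (f + g + |g - f|) := by
    funext z
    simp only [Pi.sup_apply, Pi.smul_apply, Pi.add_apply, Pi.abs_apply, Pi.sub_apply, smul_eq_mul]
    rw [max_def]
    split_ifs with h1
    · rw [abs_of_nonneg (by linarith)]
      ring
    · rw [abs_of_nonpos (by linarith)]
      ring
  rw [h]
  exact ((hf.add hg).add (hg.sub hf).abs).const_smul

private theorem mean_mono {f g : ℂ → ℝ} {x : ℝ} (hf : CircleIntegrable f 0 (Real.exp (-x)))
    (hg : CircleIntegrable g 0 (Real.exp (-x)))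
    (h : ∀ z ∈ Metric.sphere (0 : ℂ) |Real.exp (-x)|, ∀ᶠ ζ in 𝓝[≠] z, f ζ ≤ g ζ) :
    mean f x ≤ mean g x := by
  have h1 : g =ᶠ[codiscreteWithin (Metric.sphere (0 : ℂ) |Real.exp (-x)|)]
      fun z => max (f z) (g z) := by
    rw [Filter.EventuallyEq, Filter.Eventually, mem_codiscreteWithin_iff_forall_mem_nhdsNE]
    intro z hz
    filter_upwards [h z hz] with ζ hζ
    left
    show g ζ = max (f ζ) (g ζ)
    rw [max_eq_right hζ]
  have h2 : mean g x = mean (fun z => max (f z) (g z)) x :=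
    Real.circleAverage_congr_codiscreteWithin h1 (Real.exp_ne_zero _)
  rw [h2]
  exact Real.circleAverage_mono hf (CircleIntegrable.congr_codiscreteWithin h1 hg)
    fun z _ => le_max_left _ _

/-! ### Generic points -/

private theorem generic {n : ℕ} {R₀ : ℝ} {u : Fin n → ℂ → ℂ} (hu : ∀ j, MeroPunct R₀ (u j))
    (hW : MeroPunct R₀ (wronsk u))
    (hrel : ∀ z, 0 < ‖z‖ → ‖z‖ < R₀ → ∀ᶠ ζ in 𝓝[≠] z, ∑ j, u j ζ = -1) {z : ℂ}
    (h0 : 0 < ‖z‖) (hz : ‖z‖ < R₀) (j₀ : Fin n) :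
    ∀ᶠ ζ in 𝓝[≠] z, Real.posLog ‖u j₀ ζ‖ ≤
      (∑ j, Real.log ‖u j ζ‖) - Real.log ‖wronsk u ζ‖ +
        (Real.log n.factorial + (n.factorial : ℝ) * Cartan_Q u ζ) := by
  have h1 : ∀ᶠ ζ in 𝓝[≠] z, ∀ j, u j ζ ≠ 0 :=
    Filter.eventually_all.2 fun j =>
      (meromorphicOrderAt_ne_top_iff_eventually_ne_zero ((hu j).mero z h0 hz)).1
        ((hu j).ord z h0 hz)
  have h2 : ∀ᶠ ζ in 𝓝[≠] z, wronsk u ζ ≠ 0 :=
    (meromorphicOrderAt_ne_top_iff_eventually_ne_zero (hW.mero z h0 hz)).1 (hW.ord z h0 hz)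
  have h3 : ∀ᶠ ζ in 𝓝[≠] z, ∀ j, AnalyticAt ℂ (u j) ζ :=
    Filter.eventually_all.2 fun j => ((hu j).mero z h0 hz).eventually_analyticAt
  have h4 : ∀ᶠ ζ in 𝓝[≠] z, ∀ᶠ y in 𝓝 ζ, ∑ j, u j y = -1 := by
    have := eventually_eventually_nhdsWithin.2 (hrel z h0 hz)
    filter_upwards [this, self_mem_nhdsWithin] with ζ hζ hne
    rwa [IsOpen.nhdsWithin_eq isOpen_compl_singleton hne] at hζ
  filter_upwards [h1, h2, h3, h4] with ζ a1 a2 a3 a4
  refine pointwise a1 a2 (fun i => ?_) j₀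
  have e : iteratedDeriv i (fun y => ∑ j, u j y) ζ = ∑ j, iteratedDeriv i (u j) ζ :=
    iteratedDeriv_fun_sum fun j _ => (a3 j).contDiffAt
  rw [← e]
  have h5 : (fun y => ∑ j, u j y) =ᶠ[𝓝 ζ] fun _ => -1 := a4
  rw [(h5.iteratedDeriv i).eq_of_nhds, iteratedDeriv_const]

/-! ### Counting functions -/

private theorem exists_T {ι : Type*} [Finite ι] {R₀ R₁ : ℝ} (h : R₁ < R₀) {w : ι → ℂ → ℝ}
    (hw : ∀ i, LocFin R₀ (w i)) {r : ℝ} (hr : 0 < r) :
    ∃ (T : Finset ℂ) (l : ℂ → ℝ), (∀ s ∈ T, r < ‖s‖ ∧ ‖s‖ < R₁ ∧ 0 ≤ l s) ∧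
      ∀ w' : ℂ → ℝ, (∀ s, (∀ i, w i s = 0) → w' s = 0) →
        cnt w' R₁ r = ∑ s ∈ T, w' s * l s := by
  classical
  have hfin : (⋃ i, {s : ℂ | r ≤ ‖s‖ ∧ ‖s‖ ≤ R₁ ∧ w i s ≠ 0}).Finite :=
    Set.finite_iUnion fun i => hw i r R₁ hr h
  refine ⟨hfin.toFinset.filter fun s => r < ‖s‖ ∧ ‖s‖ < R₁, fun s => Real.log (‖s‖ / r),
    fun s hs => ?_, fun w' hw' => ?_⟩
  · rw [Finset.mem_filter] at hs
    refine ⟨hs.2.1, hs.2.2, Real.log_nonneg ?_⟩
    rw [le_div_iff₀ hr, one_mul]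
    exact hs.2.1.le
  · refine cnt_eq_sum (fun s h1 h2 h3 => ?_) hr
    rw [Set.Finite.mem_toFinset, Set.mem_iUnion]
    by_contra hcon
    refine h3 (hw' s fun i => ?_)
    by_contra hi
    exact hcon ⟨i, h1.le, h2.le, hi⟩

private theorem linear_bound (A B x : ℝ) : |A + B * x| ≤ (|A| + |B|) * (1 + |x|) := by
  have h1 : |A + B * x| ≤ |A| + |B| * |x| := by
    rw [← abs_mul]
    exact abs_add_le A (B * x)
  nlinarith [abs_nonneg A, abs_nonneg B, abs_nonneg x, mul_nonneg (abs_nonneg A) (abs_nonneg x)]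

/-- Cartan's theorem at a puncture, for functions with orders divisible by `d`. -/
theorem cartan_punctMero {n d : ℕ} (hn : 2 ≤ n) (hd : (n + 1) * (n - 1) < d) {R₀ : ℝ}
    (hR₀ : 0 < R₀) {u : Fin n → ℂ → ℂ} (hu : ∀ j, MeroPunct R₀ (u j))
    (hrel : ∀ z, 0 < ‖z‖ → ‖z‖ < R₀ → ∀ᶠ ζ in 𝓝[≠] z, ∑ j, u j ζ = -1)
    (hind : ∀ (c : Fin n → ℂ) (z : ℂ), 0 < ‖z‖ → ‖z‖ < R₀ →
      (∀ᶠ ζ in 𝓝[≠] z, ∑ j, c j * u j ζ = 0) → c = 0)
    (hdiv : ∀ j z, 0 < ‖z‖ → ‖z‖ < R₀ → (d : ℤ) ∣ ordZ (u j) z) (j : Fin n) :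
    PunctMero (u j) := by
  classical
  have : Nonempty (Fin n) := ⟨⟨0, by omega⟩⟩
  obtain ⟨R₁, hR₁⟩ : ∃ R₁, R₁ = R₀ / 2 := ⟨_, rfl⟩
  have h1 : 0 < R₁ := by rw [hR₁]; linarith
  have h12 : R₁ < R₀ := by rw [hR₁]; linarith
  have hW : MeroPunct R₀ (wronsk u) := wronsk_meroPunct hu hind
  -- numbers
  obtain ⟨n', rfl⟩ : ∃ n', n = n' + 1 := ⟨n - 1, by omega⟩
  rw [Nat.add_sub_cancel] at hd
  have hd0 : 0 < d := by omega
  have hdR : (0 : ℝ) < d := by exact_mod_cast hd0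
  have hnd : n' + 1 ≤ d := by nlinarith
  have hdR' : (((n' : ℝ) + 1 + 1) * n') < d := by exact_mod_cast hd
  set κ : ℝ := (n' : ℝ) * (n' + 2) / d with hκ
  have hκ1 : κ < 1 := by
    rw [hκ, div_lt_one hdR]
    linarith
  have hκd : κ * d = (n' : ℝ) * (n' + 2) := by
    rw [hκ]
    field_simp
  -- the minimum of the orders
  obtain ⟨μ, hμ0, hμj, hμ'⟩ : ∃ μ : ℂ → ℤ, (∀ s, μ s ≤ 0) ∧ (∀ s j, μ s ≤ ordZ (u j) s) ∧
      ∀ s, μ s = 0 ∨ ∃ j, ordZ (u j) s = μ s := by
    refine ⟨fun s => Finset.univ.inf' Finset.univ_nonempty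
      (fun o : Option (Fin (n' + 1)) => o.elim 0 (fun j => ordZ (u j) s)),
      fun s => Finset.inf'_le _ (Finset.mem_univ none),
      fun s j => Finset.inf'_le _ (Finset.mem_univ (some j)), fun s => ?_⟩
    obtain ⟨o, -, ho⟩ := Finset.exists_mem_eq_inf' Finset.univ_nonempty
      (fun o : Option (Fin (n' + 1)) => o.elim 0 (fun j => ordZ (u j) s))
    cases o with
    | none => exact Or.inl ho
    | some j => exact Or.inr ⟨j, ho.symm⟩
  -- the characteristic function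
  obtain ⟨G, hG⟩ : ∃ G : ℂ → ℝ, ∀ z, G z =
      Finset.univ.sup' Finset.univ_nonempty (fun j => Real.posLog ‖u j z‖) := ⟨_, fun z => rfl⟩
  have hGj : ∀ z j, Real.posLog ‖u j z‖ ≤ G z := by
    intro z j
    rw [hG]
    exact Finset.le_sup' (fun j => Real.posLog ‖u j z‖) (Finset.mem_univ j)
  have hG0 : ∀ z, 0 ≤ G z := fun z => Real.posLog_nonneg.trans (hGj z (Classical.arbitrary _))
  -- weights
  have hLoc : ∀ o : Option (Fin (n' + 1)), LocFin R₀
      (fun s => (ordZ (o.elim (wronsk u) u) s : ℝ)) := by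
    intro o
    cases o with
    | none => exact MeroPunct.locFin hW
    | some j => exact MeroPunct.locFin (hu j)
  -- constants
  choose A B hAB using fun j => MeroPunct.jensen (hu j) h1 h12
  obtain ⟨A', B', hAB'⟩ := MeroPunct.jensen hW h1 h12
  obtain ⟨K, hK⟩ : ∃ K : ℝ, K = ((n' + 1).factorial : ℝ) := ⟨_, rfl⟩
  have hK0 : 0 < K := by
    rw [hK]
    exact_mod_cast Nat.factorial_pos _
  obtain ⟨L, hL⟩ : ∃ L : ℝ, L = Real.log ((n' + 1).factorial : ℝ) := ⟨_, rfl⟩
  have hL0 : 0 ≤ L := by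
    rw [hL]
    exact Real.log_nonneg (by exact_mod_cast Nat.factorial_pos _)
  have hn1 : (0 : ℝ) < (n' : ℝ) + 1 := by positivity
  have hε : 0 < (1 - κ) / 2 / (K * ((n' + 1) * (n' + 1))) := by
    have : 0 < 1 - κ := by linarith
    positivity
  choose Cq E hE hq using fun i j : Fin (n' + 1) =>
    MeroPunct.iteratedDeriv_negl h1 h12 (hu j) (i : ℕ) _ hε
  -- the exceptional set
  have hE' : volume (⋃ p : Fin (n' + 1) × Fin (n' + 1), E p.1 p.2) ≠ ⊤ := by
    refine ((measure_iUnion_fintype_le volume _).trans_lt ?_).ne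
    exact ENNReal.sum_lt_top.2 fun p _ => lt_top_iff_ne_top.2 (hE p.1 p.2)
  obtain ⟨C₀, hC₀⟩ : ∃ C₀ : ℝ, C₀ = (∑ j, (|A j| + |B j|)) + (|A'| + |B'|) + L +
    K * (∑ i, ∑ j, |Cq i j|) + (n' : ℝ) / d * ∑ j, (|A j| + |B j|) := ⟨_, rfl⟩
  refine punctMero_of_nevT h1 h12 (hu j) (C := 2 / (1 - κ) * C₀) hE' fun x hx hxE => ?_
  have hxR₀ : Real.exp (-x) < R₀ := hx.trans h12
  have hr : 0 < Real.exp (-x) := Real.exp_pos _
  have hxE' : ∀ i j, x ∉ E i j := fun i j hcon => hxE (Set.mem_iUnion.2 ⟨(i, j), hcon⟩)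
  have hsph : ∀ z ∈ Metric.sphere (0 : ℂ) |Real.exp (-x)|, 0 < ‖z‖ ∧ ‖z‖ < R₀ := by
    intro z hz
    rw [mem_sphere_zero_iff_norm, abs_of_pos hr] at hz
    rw [hz]
    exact ⟨hr, hxR₀⟩
  -- integrability
  have hIG : CircleIntegrable G 0 (Real.exp (-x)) := by
    have h := Finset.sup'_induction (Finset.univ_nonempty (α := Fin (n' + 1)))
      (fun j => fun z => Real.posLog ‖u j z‖)
      (p := fun f : ℂ → ℝ => CircleIntegrable f 0 (Real.exp (-x)))
      (fun f hf g hg => circleIntegrable_sup hf hg)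
      (fun j _ => MeroPunct.circleIntegrable_posLog (hu j) hxR₀)
    have e : G = Finset.univ.sup' (Finset.univ_nonempty (α := Fin (n' + 1)))
        (fun j => fun z => Real.posLog ‖u j z‖) := by
      funext z
      rw [hG, Finset.sup'_apply]
    rw [e]
    exact h
  have hIlog : ∀ j, CircleIntegrable (fun z => Real.log ‖u j z‖) 0 (Real.exp (-x)) :=
    fun j => MeroPunct.circleIntegrable_log (hu j) hxR₀
  have hIW : CircleIntegrable (fun z => Real.log ‖wronsk u z‖) 0 (Real.exp (-x)) :=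
    MeroPunct.circleIntegrable_log hW hxR₀
  have hIq : ∀ i j : Fin (n' + 1), CircleIntegrable
      (fun z => Real.posLog ‖iteratedDeriv i (u j) z / u j z‖) 0 (Real.exp (-x)) := by
    intro i j
    apply MeromorphicOn.circleIntegrable_posLog_norm
    intro z hz
    obtain ⟨hz1, hz2⟩ := hsph z hz
    have hm := (hu j).mero z hz1 hz2
    rw [iteratedDeriv_eq_iterate]
    exact hm.iterated_deriv.fun_div hm
  have hIQ : CircleIntegrable (Cartan_Q u) 0 (Real.exp (-x)) := by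
    have e : Cartan_Q u = ∑ i : Fin (n' + 1), ∑ j : Fin (n' + 1),
        fun z => Real.posLog ‖iteratedDeriv i (u j) z / u j z‖ := by
      funext z
      unfold Cartan_Q
      simp only [Finset.sum_apply]
    rw [e]
    exact CircleIntegrable.sum _ fun i _ => CircleIntegrable.sum _ fun j _ => hIq i j
  have hISum : CircleIntegrable (fun z => ∑ j, Real.log ‖u j z‖) 0 (Real.exp (-x)) := by
    have e : (fun z => ∑ j, Real.log ‖u j z‖) = ∑ j, fun z => Real.log ‖u j z‖ := by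
      funext z
      simp only [Finset.sum_apply]
    rw [e]
    exact CircleIntegrable.sum _ fun j _ => hIlog j
  have hISW : CircleIntegrable (fun z => (∑ j, Real.log ‖u j z‖) - Real.log ‖wronsk u z‖) 0
      (Real.exp (-x)) := hISum.sub hIW
  have hIKQ : CircleIntegrable (fun z => K * Cartan_Q u z) 0 (Real.exp (-x)) :=
    hIQ.const_smul (a := K)
  have hILK : CircleIntegrable (fun z => L + K * Cartan_Q u z) 0 (Real.exp (-x)) :=
    (circleIntegrable_const L 0 _).add hIKQ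
  have hIR : CircleIntegrable (fun z => (∑ j, Real.log ‖u j z‖) - Real.log ‖wronsk u z‖ +
      (L + K * Cartan_Q u z)) 0 (Real.exp (-x)) := hISW.add hILK
  -- the mean of `G`
  have hmG : mean G x ≤ (∑ j, mean (fun z => Real.log ‖u j z‖) x) -
      mean (fun z => Real.log ‖wronsk u z‖) x +
      (L + K * ∑ i : Fin (n' + 1), ∑ j : Fin (n' + 1),
        mean (fun z => Real.posLog ‖iteratedDeriv i (u j) z / u j z‖) x) := by
    have h := mean_mono (x := x) hIG hIR (fun z hz => by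
      obtain ⟨hz1, hz2⟩ := hsph z hz
      have := Filter.eventually_all.2 fun j => generic hu hW hrel hz1 hz2 j
      filter_upwards [this] with ζ hζ
      rw [hG, hL, hK]
      exact Finset.sup'_le _ _ fun j _ => hζ j)
    refine h.trans (le_of_eq ?_)
    unfold mean
    rw [Real.circleAverage_fun_add hISW hILK,
      Real.circleAverage_fun_sub hISum hIW, Real.circleAverage_fun_sum fun j _ => hIlog j,
      Real.circleAverage_fun_add (circleIntegrable_const L 0 _) hIKQ,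
      Real.circleAverage_const]
    congr 2
    have e2 : Real.circleAverage (fun z => K * Cartan_Q u z) 0 (Real.exp (-x)) =
        K * Real.circleAverage (Cartan_Q u) 0 (Real.exp (-x)) :=
      Real.circleAverage_fun_smul (a := K)
    rw [e2]
    congr 1
    unfold Cartan_Q
    rw [Real.circleAverage_fun_sum (fun i _ => ?_)]
    · refine Finset.sum_congr rfl fun i _ => ?_
      exact Real.circleAverage_fun_sum fun j _ => hIq i j
    · have e : (fun z => ∑ j : Fin (n' + 1), Real.posLog ‖iteratedDeriv i (u j) z / u j z‖) =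
          ∑ j : Fin (n' + 1), fun z => Real.posLog ‖iteratedDeriv i (u j) z / u j z‖ := by
        funext z
        simp only [Finset.sum_apply]
      rw [e]
      exact CircleIntegrable.sum _ fun j _ => hIq i j
  have hlogG : ∀ j, mean (fun z => Real.log ‖u j z‖) x ≤ mean G x := fun j =>
    Real.circleAverage_mono (hIlog j) hIG fun z _ => (le_max_right _ _).trans (hGj z j)
  have hposG : ∀ j, mean (fun z => Real.posLog ‖u j z‖) x ≤ mean G x := fun j =>
    Real.circleAverage_mono (MeroPunct.circleIntegrable_posLog (hu j) hxR₀) hIG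
      fun z _ => hGj z j
  have hmG0 : 0 ≤ mean G x := Real.circleAverage_nonneg_of_nonneg fun z _ => hG0 z
  -- the counting functions
  obtain ⟨T, l, hT, hcnt⟩ := exists_T h12 hLoc hr
  have hμz : ∀ s, (∀ o : Option (Fin (n' + 1)), (ordZ (o.elim (wronsk u) u) s : ℝ) = 0) →
      μ s = 0 := by
    intro s hs
    rcases hμ' s with h | ⟨j, h⟩
    · exact h
    · rw [← h]
      exact_mod_cast hs (some j)
  have c1 : ∀ j, cnt (fun s => (ordZ (u j) s : ℝ)) R₁ (Real.exp (-x)) =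
      ∑ s ∈ T, (ordZ (u j) s : ℝ) * l s := fun j => hcnt _ fun s hs => hs (some j)
  have c2 : cnt (fun s => (ordZ (wronsk u) s : ℝ)) R₁ (Real.exp (-x)) =
      ∑ s ∈ T, (ordZ (wronsk u) s : ℝ) * l s := hcnt _ fun s hs => hs none
  have c3 : cnt (fun s => -(μ s : ℝ)) R₁ (Real.exp (-x)) = ∑ s ∈ T, -(μ s : ℝ) * l s :=
    hcnt _ fun s hs => by rw [hμz s hs]; simp
  have c4 : ∀ j, cnt (fun s => max (-(ordZ (u j) s : ℝ)) 0) R₁ (Real.exp (-x)) =
      ∑ s ∈ T, max (-(ordZ (u j) s : ℝ)) 0 * l s := fun j => hcnt _ fun s hs => by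
    have h := hs (some j)
    have h' : (ordZ (u j) s : ℝ) = 0 := h
    rw [h']
    simp
  set cμ : ℝ := ∑ s ∈ T, -(μ s : ℝ) * l s with hcμ
  have hcμ0 : 0 ≤ cμ := by
    refine Finset.sum_nonneg fun s hs => mul_nonneg ?_ (hT s hs).2.2
    have := hμ0 s
    have h' : (μ s : ℝ) ≤ 0 := by exact_mod_cast this
    linarith
  have hnev : ∀ j, nevT (u j) R₁ x ≤ mean G x + cμ := by
    intro j
    unfold nevT
    rw [c4]
    refine add_le_add (hposG j) (Finset.sum_le_sum fun s hs => ?_)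
    refine mul_le_mul_of_nonneg_right (max_le ?_ ?_) (hT s hs).2.2
    · have h' : (μ s : ℝ) ≤ ordZ (u j) s := by exact_mod_cast hμj s j
      linarith
    · have h' : (μ s : ℝ) ≤ 0 := by exact_mod_cast hμ0 s
      linarith
  have hloc : (d : ℝ) * ((∑ j, cnt (fun s => (ordZ (u j) s : ℝ)) R₁ (Real.exp (-x))) -
      cnt (fun s => (ordZ (wronsk u) s : ℝ)) R₁ (Real.exp (-x)) + cμ) ≤
      (n' : ℝ) * ((∑ j, (cnt (fun s => (ordZ (u j) s : ℝ)) R₁ (Real.exp (-x)) + cμ)) + cμ) := by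
    have e1 : (∑ j, cnt (fun s => (ordZ (u j) s : ℝ)) R₁ (Real.exp (-x))) -
        cnt (fun s => (ordZ (wronsk u) s : ℝ)) R₁ (Real.exp (-x)) + cμ =
        ∑ s ∈ T, ((∑ j, (ordZ (u j) s : ℝ)) - ordZ (wronsk u) s - μ s) * l s := by
      simp only [c1]
      rw [c2, hcμ, Finset.sum_comm, ← Finset.sum_sub_distrib, ← Finset.sum_add_distrib]
      refine Finset.sum_congr rfl fun s _ => ?_
      rw [← Finset.sum_mul]
      ring
    have e2 : (∑ j, (cnt (fun s => (ordZ (u j) s : ℝ)) R₁ (Real.exp (-x)) + cμ)) + cμ =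
        ∑ s ∈ T, ((∑ j, ((ordZ (u j) s : ℝ) - μ s)) + (0 - μ s)) * l s := by
      simp only [c1]
      rw [hcμ]
      have e3 : ∀ j, (∑ s ∈ T, (ordZ (u j) s : ℝ) * l s) + ∑ s ∈ T, -(μ s : ℝ) * l s =
          ∑ s ∈ T, ((ordZ (u j) s : ℝ) - μ s) * l s := by
        intro j
        rw [← Finset.sum_add_distrib]
        refine Finset.sum_congr rfl fun s _ => ?_
        ring
      rw [Finset.sum_congr rfl fun j _ => e3 j, Finset.sum_comm, ← Finset.sum_add_distrib]
      refine Finset.sum_congr rfl fun s _ => ?_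
      rw [← Finset.sum_mul]
      ring
    rw [e1, e2, Finset.mul_sum, Finset.mul_sum]
    refine Finset.sum_le_sum fun s hs => ?_
    obtain ⟨hs1, hs2, hs3⟩ := hT s hs
    have hs4 : 0 < ‖s‖ := hr.trans hs1
    have hs5 : ‖s‖ < R₀ := hs2.trans h12
    have h := local_estimate (n := n' + 1) (d := d) (by omega) hnd (s := s) (u := u)
      (fun j => (hu j).mero s hs4 hs5) (fun j => (hu j).ord s hs4 hs5) (hrel s hs4 hs5)
      (hW.ord s hs4 hs5) (fun j => hdiv j s hs4 hs5) (hμ0 s) (hμj s) (hμ' s)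
    have h' : (d : ℝ) * ((∑ j, (ordZ (u j) s : ℝ)) - ordZ (wronsk u) s - μ s) ≤
        (n' : ℝ) * ((∑ j, ((ordZ (u j) s : ℝ) - μ s)) + (0 - μ s)) := by
      have e : (((n' + 1 : ℕ) : ℤ) - 1 : ℤ) = n' := by push_cast; ring
      rw [e] at h
      exact_mod_cast h
    rw [← mul_assoc, ← mul_assoc]
    exact mul_le_mul_of_nonneg_right h' hs3
  -- the conclusion
  have hy : 1 ≤ 1 + |x| := by linarith [abs_nonneg x]
  obtain ⟨y, hyd⟩ : ∃ y, y = 1 + |x| := ⟨_, rfl⟩
  rw [← hyd] at hy ⊢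
  obtain ⟨a, ha⟩ : ∃ a, a = ∑ j, (|A j| + |B j|) := ⟨_, rfl⟩
  have hlin : ∀ j, |A j + B j * x| ≤ (|A j| + |B j|) * y := fun j => by
    rw [hyd]
    exact linear_bound _ _ _
  have hlinW : |A' + B' * x| ≤ (|A'| + |B'|) * y := by
    rw [hyd]
    exact linear_bound _ _ _
  have hJ : ∀ j, cnt (fun s => (ordZ (u j) s : ℝ)) R₁ (Real.exp (-x)) =
      mean (fun z => Real.log ‖u j z‖) x - (A j + B j * x) := fun j => by
    have := hAB j x hx
    linarith
  have hJW := hAB' x hx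
  have hsum1 : |∑ j, (A j + B j * x)| ≤ a * y := by
    rw [ha, Finset.sum_mul]
    exact (Finset.abs_sum_le_sum_abs _ _).trans (Finset.sum_le_sum fun j _ => hlin j)
  have hsum2 : (∑ j, (cnt (fun s => (ordZ (u j) s : ℝ)) R₁ (Real.exp (-x)) + cμ)) ≤
      ((n' : ℝ) + 1) * (mean G x + cμ) + a * y := by
    have h2 : ∀ j, cnt (fun s => (ordZ (u j) s : ℝ)) R₁ (Real.exp (-x)) + cμ ≤
        (mean G x + cμ) + (|A j| + |B j|) * y := by
      intro j
      rw [hJ j]
      have := (abs_le.1 (hlin j)).1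
      linarith [hlogG j]
    refine (Finset.sum_le_sum fun j _ => h2 j).trans (le_of_eq ?_)
    rw [Finset.sum_add_distrib, Finset.sum_const, Finset.card_univ, Fintype.card_fin, ha,
      Finset.sum_mul, nsmul_eq_mul]
    push_cast
    ring
  have hq' : K * (∑ i : Fin (n' + 1), ∑ j : Fin (n' + 1),
        mean (fun z => Real.posLog ‖iteratedDeriv i (u j) z / u j z‖) x) ≤
      (1 - κ) / 2 * (mean G x + cμ) + K * (∑ i, ∑ j, |Cq i j|) * y := by
    have h2 : ∀ i j : Fin (n' + 1),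
        mean (fun z => Real.posLog ‖iteratedDeriv i (u j) z / u j z‖) x ≤
        (1 - κ) / 2 / (K * ((n' + 1) * (n' + 1))) * (mean G x + cμ) + |Cq i j| * y := by
      intro i j
      refine (hq i j x hx (hxE' i j)).trans (add_le_add ?_ ?_)
      · exact mul_le_mul_of_nonneg_left (hnev j) hε.le
      · rw [← hyd]
        exact mul_le_mul_of_nonneg_right (le_abs_self _) (by linarith)
    have h3 : (∑ i : Fin (n' + 1), ∑ j : Fin (n' + 1),
        mean (fun z => Real.posLog ‖iteratedDeriv i (u j) z / u j z‖) x) ≤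
        ∑ i : Fin (n' + 1), ∑ j : Fin (n' + 1),
          ((1 - κ) / 2 / (K * ((n' + 1) * (n' + 1))) * (mean G x + cμ) + |Cq i j| * y) :=
      Finset.sum_le_sum fun i _ => Finset.sum_le_sum fun j _ => h2 i j
    refine (mul_le_mul_of_nonneg_left h3 hK0.le).trans (le_of_eq ?_)
    simp only [Finset.sum_add_distrib, Finset.sum_const, Finset.card_univ, Fintype.card_fin,
      nsmul_eq_mul, ← Finset.sum_mul]
    push_cast
    field_simp
  -- final computation
  obtain ⟨t, ht⟩ : ∃ t, t = mean G x + cμ := ⟨_, rfl⟩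
  have ht0 : 0 ≤ t := by rw [ht]; linarith
  have hSc : (∑ j, cnt (fun s => (ordZ (u j) s : ℝ)) R₁ (Real.exp (-x))) =
      (∑ j, mean (fun z => Real.log ‖u j z‖) x) - ∑ j, (A j + B j * x) := by
    rw [← Finset.sum_sub_distrib]
    exact Finset.sum_congr rfl fun j _ => hJ j
  obtain ⟨b, hb⟩ : ∃ b, b = (∑ j, cnt (fun s => (ordZ (u j) s : ℝ)) R₁ (Real.exp (-x))) -
      cnt (fun s => (ordZ (wronsk u) s : ℝ)) R₁ (Real.exp (-x)) + cμ := ⟨_, rfl⟩
  rw [← hb] at hloc
  have hb2 : b ≤ κ * t + (n' : ℝ) / d * a * y := by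
    have h2 : (d : ℝ) * b ≤ (n' : ℝ) * (((n' : ℝ) + 1) * t + a * y + t) := by
      refine hloc.trans (mul_le_mul_of_nonneg_left ?_ (Nat.cast_nonneg _))
      rw [ht]
      linarith
    have h3 : (n' : ℝ) * (((n' : ℝ) + 1) * t + a * y + t) =
        d * (κ * t + (n' : ℝ) / d * a * y) := by
      have : (d : ℝ) * ((n' : ℝ) / d * a * y) = n' * a * y := by field_simp
      rw [mul_add (d : ℝ), this]
      linear_combination (-t) * hκd
    rw [h3] at h2
    exact le_of_mul_le_mul_left h2 hdR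
  have hfin : t ≤ a * y + (|A'| + |B'|) * y + L * y + ((1 - κ) / 2 * t +
      K * (∑ i, ∑ j, |Cq i j|) * y) + (κ * t + (n' : ℝ) / d * a * y) := by
    have hLy : L ≤ L * y := by nlinarith
    rw [← ht] at hq'
    have e1 := (abs_le.1 hsum1).2
    have e2 := (abs_le.1 hlinW).1
    have e3 : t = mean G x + cμ := ht
    linarith
  have hfin2 : (1 - κ) / 2 * t ≤ C₀ * y := by
    rw [hC₀, ← ha]
    linarith
  refine (hnev j).trans ?_
  rw [← ht]
  have hk : 0 < 1 - κ := by linarith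
  have : t = 2 / (1 - κ) * ((1 - κ) / 2 * t) := by field_simp
  rw [this, mul_assoc]
  exact mul_le_mul_of_nonneg_left hfin2 (by positivity)

end Pool.Agent.H62.FC
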