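import Pool.Agent.H62.FC.CircuitDefs

/-!
# Circuits: level sums and the normal form
-/

noncomputable section

namespace Pool.Agent.H62.FC

private theorem Circuit_rel {F V ι : Type*} [Field F] [AddCommGroup V] [Module F V] {y : ι → V}
    {ρ : Finset ι} (hρ : IsCircuit F y ρ) :
    ∃ b : ι → F, (∀ i ∈ ρ, b i ≠ 0) ∧ ∑ i ∈ ρ, b i • y i = 0 := by
  classical
  have h := hρ.1
  rw [linearIndepOn_finset_iff] at h
  push Not at h
  obtain ⟨b, hb, i, hi, hbi⟩ := h
  refine ⟨b, fun j hj hbj => ?_, hb⟩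
  have h2 := hρ.2 (ρ.erase j) (Finset.erase_ssubset hj)
  rw [linearIndepOn_finset_iff] at h2
  have h3 : ∑ i ∈ ρ.erase j, b i • y i = 0 := by
    have := Finset.add_sum_erase ρ (fun i => b i • y i) hj
    simp only [hbj, zero_smul, zero_add] at this
    rw [this, hb]
  have hij : i ≠ j := fun e => hbi (e ▸ hbj)
  exact hbi (h2 b h3 i (Finset.mem_erase.2 ⟨hij, hi⟩))

private theorem Circuit_exists {F V ι : Type*} [Field F] [AddCommGroup V] [Module F V]
    {y : ι → V} {S : Finset ι} (hS : ¬ LinearIndepOn F y (S : Set ι)) :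
    ∃ ρ ⊆ S, IsCircuit F y ρ := by
  classical
  induction S using Finset.strongInduction with
  | H S ih =>
    by_cases h : ∃ τ ⊂ S, ¬ LinearIndepOn F y (τ : Set ι)
    · obtain ⟨τ, hτ, hd⟩ := h
      obtain ⟨ρ, h1, h2⟩ := ih τ hτ hd
      exact ⟨ρ, h1.trans hτ.1, h2⟩
    · push Not at h
      exact ⟨S, subset_rfl, hS, h⟩

theorem sum_level_eq_zero {F V ι : Type*} [Field F] [AddCommGroup V] [Module F V] {y : ι → V}
    {α : Type*} [DecidableEq α] {ν : ι → α}
    {S : Finset ι} (hν : ∀ ρ ⊆ S, IsCircuit F y ρ → ∀ i ∈ ρ, ∀ j ∈ ρ, ν i = ν j) {c : ι → F}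
    (h : ∑ i ∈ S, c i • y i = 0) (v : α) : ∑ i ∈ S with ν i = v, c i • y i = 0 := by
  classical
  obtain ⟨N, hN⟩ : ∃ N, N = (S.filter fun i => c i ≠ 0).card := ⟨_, rfl⟩
  induction N using Nat.strong_induction_on generalizing c with
  | _ N ih =>
    by_cases h0 : ∀ i ∈ S, c i = 0
    · refine Finset.sum_eq_zero fun i hi => ?_
      rw [h0 i (Finset.mem_filter.1 hi).1, zero_smul]
    · push Not at h0
      obtain ⟨i0, hi0, hci0⟩ := h0
      have hdep : ¬ LinearIndepOn F y ((S.filter fun i => c i ≠ 0 : Finset ι) : Set ι) := by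
        rw [linearIndepOn_finset_iff]
        intro hli
        refine hci0 (hli c ?_ i0 (Finset.mem_filter.2 ⟨hi0, hci0⟩))
        rw [← h, Finset.sum_filter]
        refine Finset.sum_congr rfl fun i _ => ?_
        by_cases hc : c i = 0
        · simp [hc]
        · rw [if_pos hc]
      obtain ⟨ρ, hρS', hρ⟩ := Circuit_exists hdep
      obtain ⟨b, hb, hb0⟩ := Circuit_rel hρ
      have hρS : ρ ⊆ S := hρS'.trans (Finset.filter_subset _ _)
      have hne : ρ.Nonempty := by
        rw [Finset.nonempty_iff_ne_empty]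
        rintro rfl
        exact hρ.1 (by rw [Finset.coe_empty]; exact linearIndepOn_empty F y)
      obtain ⟨i, hi⟩ := hne
      have hbi := hb i hi
      have key : ∀ T : Finset ι, T ⊆ S → ∑ j ∈ T, (c j - c i / b i * (if j ∈ ρ then b j else 0)) • y j =
          ∑ j ∈ T, c j • y j - (c i / b i) • ∑ j ∈ T ∩ ρ, b j • y j := by
        intro T _
        rw [Finset.smul_sum, ← Finset.sum_ite_mem T ρ, ← Finset.sum_sub_distrib]
        refine Finset.sum_congr rfl fun j _ => ?_
        by_cases hj : j ∈ ρ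
        · rw [if_pos hj, if_pos hj, sub_smul, mul_smul]
        · rw [if_neg hj, if_neg hj, mul_zero, sub_zero, sub_zero]
      have hc' : ∑ j ∈ S, (c j - c i / b i * (if j ∈ ρ then b j else 0)) • y j = 0 := by
        rw [key S subset_rfl, h, Finset.inter_eq_right.2 hρS, hb0, smul_zero, sub_zero]
      have hlt : (S.filter fun j => c j - c i / b i * (if j ∈ ρ then b j else 0) ≠ 0).card < N := by
        rw [hN]
        refine Finset.card_lt_card ⟨?_, ?_⟩
        · intro j hj
          rw [Finset.mem_filter] at hj ⊢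
          refine ⟨hj.1, fun hcj => hj.2 ?_⟩
          have hjρ : j ∉ ρ := fun hjρ => (Finset.mem_filter.1 (hρS' hjρ)).2 hcj
          rw [if_neg hjρ, hcj, mul_zero, sub_zero]
        · intro hsub
          have := hsub (hρS' hi)
          rw [Finset.mem_filter] at this
          refine this.2 ?_
          rw [if_pos hi, div_mul_cancel₀ _ hbi, sub_self]
      have h1 := ih _ hlt hc' rfl
      rw [key (S.filter fun i => ν i = v) (Finset.filter_subset _ _)] at h1
      have h2 : ∑ j ∈ (S.filter fun i => ν i = v) ∩ ρ, b j • y j = 0 := by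
        by_cases hvi : ν i = v
        · have : (S.filter fun i => ν i = v) ∩ ρ = ρ := by
            refine Finset.inter_eq_right.2 fun j hj => Finset.mem_filter.2 ⟨hρS hj, ?_⟩
            rw [hν ρ hρS hρ j hj i hi, hvi]
          rw [this, hb0]
        · refine Finset.sum_eq_zero fun j hj => ?_
          rw [Finset.mem_inter, Finset.mem_filter] at hj
          exact absurd (by rw [← hj.1.2, hν ρ hρS hρ i hi j hj.2]) hvi
      rwa [h2, smul_zero, sub_zero] at h1

/-- normal form of a circuit in a field -/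
theorem IsCircuit.exists_normal {K ι : Type*} [Field K] [Algebra ℂ K] {y : ι → K}
    (hy : ∀ i, y i ≠ 0) {ρ : Finset ι} (hρ : IsCircuit ℂ y ρ) {i₀ : ι} (hi₀ : i₀ ∈ ρ) :
    ∃ (n : ℕ) (e : Fin n → ι) (c : Fin n → ℂ), n + 1 = ρ.card ∧ Function.Injective e ∧
      (∀ i, i ∈ ρ ↔ i = i₀ ∨ ∃ j, e j = i) ∧ (∀ j, e j ≠ i₀) ∧ (∀ j, c j ≠ 0) ∧
      ∑ j, c j • (y (e j) / y i₀) = -1 ∧
      LinearIndependent ℂ fun j => c j • (y (e j) / y i₀) := by
  classical
  obtain ⟨b, hb, hb0⟩ := Circuit_rel hρ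
  set τ := ρ.erase i₀ with hτ
  have hbi := hb i₀ hi₀
  have hyi := hy i₀
  have hcard : τ.card + 1 = ρ.card := Finset.card_erase_add_one hi₀
  set E := τ.equivFin with hE
  have hmem : ∀ j, ((E.symm j : τ) : ι) ∈ τ := fun j => (E.symm j).2
  have hne : ∀ j, ((E.symm j : τ) : ι) ≠ i₀ := fun j => Finset.ne_of_mem_erase (hmem j)
  have hmemρ : ∀ j, ((E.symm j : τ) : ι) ∈ ρ := fun j => Finset.mem_of_mem_erase (hmem j)
  have hinj : Function.Injective fun j => ((E.symm j : τ) : ι) :=
    Subtype.val_injective.comp E.symm.injective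
  have hc : ∀ j, b ((E.symm j : τ) : ι) / b i₀ ≠ 0 := fun j => div_ne_zero (hb _ (hmemρ j)) hbi
  refine ⟨τ.card, fun j => ((E.symm j : τ) : ι), fun j => b ((E.symm j : τ) : ι) / b i₀, hcard,
    hinj, fun i => ⟨fun hi => ?_, ?_⟩, hne, hc, ?_, ?_⟩
  · by_cases h : i = i₀
    · exact Or.inl h
    · refine Or.inr ⟨E ⟨i, Finset.mem_erase.2 ⟨h, hi⟩⟩, ?_⟩
      simp
  · rintro (rfl | ⟨j, rfl⟩)
    · exact hi₀
    · exact hmemρ j
  · have e1 : ∑ j : Fin τ.card, (b ((E.symm j : τ) : ι) / b i₀) • (y ((E.symm j : τ) : ι) / y i₀) =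
        ∑ x : τ, (b (x : ι) / b i₀) • (y (x : ι) / y i₀) :=
      Equiv.sum_comp E.symm (fun x : τ => (b (x : ι) / b i₀) • (y (x : ι) / y i₀))
    rw [e1, Finset.sum_coe_sort τ (fun x : ι => (b x / b i₀) • (y x / y i₀))]
    have e2 : ∀ x : ι, (b x / b i₀) • (y x / y i₀) =
        (algebraMap ℂ K (b i₀))⁻¹ * (y i₀)⁻¹ * (b x • y x) := by
      intro x
      rw [Algebra.smul_def, Algebra.smul_def, map_div₀]
      ring
    simp only [e2]
    rw [← Finset.mul_sum]
    have e3 : ∑ x ∈ τ, b x • y x = -(b i₀ • y i₀) := by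
      have := Finset.add_sum_erase ρ (fun i => b i • y i) hi₀
      rw [hb0] at this
      exact (neg_eq_of_add_eq_zero_right this).symm
    rw [e3, Algebra.smul_def]
    have hbi' : algebraMap ℂ K (b i₀) ≠ 0 := by
      rw [Ne, map_eq_zero]
      exact hbi
    field_simp
  · have hli : LinearIndependent ℂ fun x : (τ : Set ι) => y x := hρ.2 τ (Finset.erase_ssubset hi₀)
    have hli2 : LinearIndependent ℂ fun j : Fin τ.card => y ((E.symm j : τ) : ι) :=
      hli.comp (fun j => (⟨((E.symm j : τ) : ι), hmem j⟩ : (τ : Set ι)))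
        (fun a a' haa => hinj (congrArg Subtype.val haa))
    rw [Fintype.linearIndependent_iff] at hli2 ⊢
    intro g hg j
    have h1 := hli2 (fun j => g j * (b ((E.symm j : τ) : ι) / b i₀)) (by
      have e4 : ∀ j : Fin τ.card, (g j * (b ((E.symm j : τ) : ι) / b i₀)) • y ((E.symm j : τ) : ι) =
          y i₀ * (g j • ((b ((E.symm j : τ) : ι) / b i₀) • (y ((E.symm j : τ) : ι) / y i₀))) := by
        intro j
        rw [Algebra.smul_def, Algebra.smul_def, Algebra.smul_def, map_mul]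
        field_simp
      simp only [e4]
      rw [← Finset.mul_sum, hg, mul_zero]) j
    exact (mul_eq_zero.1 h1).resolve_right (hc j)

end Pool.Agent.H62.FC
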