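import Mathlib

/-! # Fermat covers: integer relations -/

noncomputable section

namespace Pool.Agent.H62.FC

private lemma Lattice_span {I : Type*} {Γ : Set (I → ℤ)} {x : I → ℚ}
    (hx : x ∈ Submodule.span ℚ ((fun (y : I → ℤ) (l : I) => (y l : ℚ)) '' Γ)) :
    ∃ M : ℕ, 0 < M ∧ ∃ z ∈ AddSubgroup.closure Γ, ∀ l, (M : ℚ) * x l = (z l : ℚ) := by
  induction hx using Submodule.span_induction with
  | mem x hx =>
    obtain ⟨γ, hγ, rfl⟩ := hx
    exact ⟨1, one_pos, γ, AddSubgroup.subset_closure hγ, fun l => by simp⟩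
  | zero => exact ⟨1, one_pos, 0, zero_mem _, fun l => by simp⟩
  | add x y _ _ h1 h2 =>
    obtain ⟨M₁, hM₁, z₁, hz₁, e₁⟩ := h1
    obtain ⟨M₂, hM₂, z₂, hz₂, e₂⟩ := h2
    refine ⟨M₁ * M₂, Nat.mul_pos hM₁ hM₂, M₂ • z₁ + M₁ • z₂,
      add_mem (nsmul_mem hz₁ _) (nsmul_mem hz₂ _), fun l => ?_⟩
    have h1 := e₁ l
    have h2 := e₂ l
    rw [Pi.add_apply, Pi.add_apply, Pi.smul_apply, Pi.smul_apply, nsmul_eq_mul, nsmul_eq_mul]
    push_cast
    rw [← h1, ← h2]
    ring
  | smul q x _ h1 =>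
    obtain ⟨M, hM, z, hz, e⟩ := h1
    refine ⟨M * q.den, Nat.mul_pos hM q.den_pos, q.num • z, zsmul_mem hz _, fun l => ?_⟩
    have h1 := e l
    have h2 : (q.den : ℚ) * q = q.num := Rat.den_mul_eq_num q
    simp only [Pi.smul_apply, smul_eq_mul, Nat.cast_mul, Int.cast_mul]
    rw [← h1, ← h2]
    ring

theorem exists_combination {I : Type*} [Fintype I] [DecidableEq I] {Γ : Set (I → ℤ)} {i j : I}
    (h : ∀ n : I → ℤ, (∀ γ ∈ Γ, ∑ l, n l * γ l = 0) → n i = n j) :
    ∃ M : ℕ, 0 < M ∧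
      (M : ℤ) • (Pi.single i 1 - Pi.single j 1 : I → ℤ) ∈ AddSubgroup.closure Γ := by
  classical
  have key : (fun l => (((Pi.single i 1 - Pi.single j 1 : I → ℤ) l : ℤ) : ℚ)) ∈
      Submodule.span ℚ ((fun (y : I → ℤ) (l : I) => (y l : ℚ)) '' Γ) := by
    by_contra hcon
    obtain ⟨f, hf, hle⟩ := Submodule.exists_le_ker_of_notMem hcon
    -- the coefficients of the functional
    have hsum : ∀ x : I → ℚ, f x = ∑ l, f (Pi.single l 1) * x l := by
      intro x
      conv_lhs => rw [pi_eq_sum_univ' x]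
      rw [map_sum]
      refine Finset.sum_congr rfl fun l _ => ?_
      rw [map_smul, smul_eq_mul, mul_comm]
    -- a common denominator
    obtain ⟨b, hb⟩ := IsLocalization.exist_integer_multiples_of_finite (nonZeroDivisors ℤ)
      (fun l : I => f (Pi.single l 1))
    choose n hn using hb
    have hn' : ∀ l, (n l : ℚ) = (b : ℤ) * f (Pi.single l 1) := by
      intro l
      have h1 := hn l
      rw [Algebra.smul_def] at h1
      simpa using h1
    have hb0 : ((b : ℤ) : ℚ) ≠ 0 := by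
      have := nonZeroDivisors.ne_zero b.2
      exact_mod_cast this
    have h1 : ∀ γ ∈ Γ, ∑ l, n l * γ l = 0 := by
      intro γ hγ
      have h2 : f (fun l => (γ l : ℚ)) = 0 := by
        have := hle (Submodule.subset_span ⟨γ, hγ, rfl⟩)
        simpa using this
      rw [hsum] at h2
      have h3 : ((∑ l, n l * γ l : ℤ) : ℚ) = 0 := by
        push_cast
        simp_rw [hn', mul_assoc]
        rw [← Finset.mul_sum, h2, mul_zero]
      exact_mod_cast h3
    have h2 := h n h1
    apply hf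
    rw [hsum]
    have h3 : f (Pi.single i 1) = f (Pi.single j 1) := by
      have h4 := hn' i
      have h5 := hn' j
      rw [h2, h5] at h4
      exact (mul_left_cancel₀ hb0 h4).symm
    simp only [Pi.sub_apply, Int.cast_sub, mul_sub, Finset.sum_sub_distrib, Pi.single_apply,
      Int.cast_ite, Int.cast_one, Int.cast_zero, mul_ite, mul_one, mul_zero, Finset.sum_ite_eq',
      Finset.mem_univ, if_true]
    rw [h3, sub_self]
  obtain ⟨M, hM, z, hz, hzM⟩ := Lattice_span key
  refine ⟨M, hM, ?_⟩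
  have : (M : ℤ) • (Pi.single i 1 - Pi.single j 1 : I → ℤ) = z := by
    funext l
    have h1 := hzM l
    rw [Pi.smul_apply, smul_eq_mul]
    exact_mod_cast h1
  rw [this]
  exact hz

end Pool.Agent.H62.FC
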