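import Pool.Agent.H62.FC.NevDefs
import Pool.Agent.H92.GGL.CasWei

/-!
# Functions meromorphic at the puncture: closure properties
-/

open Filter Topology MeasureTheory
open Pool.Agent.H92.GGL (ordZ)

noncomputable section

namespace Pool.Agent.H62.FC

theorem PunctMero.congr {f g : ℂ → ℂ} (hf : PunctMero f)
    (h : ∀ᶠ z in 𝓝[≠] (0 : ℂ), f =ᶠ[𝓝[≠] z] g) : PunctMero g := by
  obtain ⟨v, hv, hfv⟩ := hf
  refine ⟨v, hv, ?_⟩
  filter_upwards [hfv, h] with z h1 h2 using h2.symm.trans h1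

theorem PunctMero.of_meromorphicAt {f : ℂ → ℂ} (hf : MeromorphicAt f 0) : PunctMero f :=
  ⟨f, hf, Eventually.of_forall fun _ => EventuallyEq.rfl⟩

theorem PunctMero.const (c : ℂ) : PunctMero (fun _ => c) :=
  PunctMero.of_meromorphicAt (MeromorphicAt.const c 0)

theorem PunctMero.mul {f g : ℂ → ℂ} (hf : PunctMero f) (hg : PunctMero g) :
    PunctMero (fun z => f z * g z) := by
  obtain ⟨v, hv, hfv⟩ := hf
  obtain ⟨w, hw, hgw⟩ := hg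
  refine ⟨fun z => v z * w z, hv.mul hw, ?_⟩
  filter_upwards [hfv, hgw] with z h1 h2
  filter_upwards [h1, h2] with ζ h3 h4
  rw [h3, h4]

theorem PunctMero.inv {f : ℂ → ℂ} (hf : PunctMero f) : PunctMero (fun z => (f z)⁻¹) := by
  obtain ⟨v, hv, hfv⟩ := hf
  refine ⟨fun z => (v z)⁻¹, hv.inv, ?_⟩
  filter_upwards [hfv] with z h1
  filter_upwards [h1] with ζ h3
  rw [h3]

theorem PunctMero.zpow {f : ℂ → ℂ} (hf : PunctMero f) (n : ℤ) : PunctMero (fun z => f z ^ n) := by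
  obtain ⟨v, hv, hfv⟩ := hf
  refine ⟨fun z => v z ^ n, hv.zpow n, ?_⟩
  filter_upwards [hfv] with z h1
  filter_upwards [h1] with ζ h3
  rw [h3]

/-- a bound for a root -/
private lemma norm_le_of_pow_le {w : ℂ} {C : ℝ} {M : ℕ} (hM : 0 < M) (hC : 1 ≤ C)
    (h : ‖w ^ M‖ ≤ C) : ‖w‖ ≤ C := by
  rw [norm_pow] at h
  by_contra hlt
  have hlt := not_le.1 hlt
  have h1 : (1 : ℝ) ≤ ‖w‖ := by linarith
  have h2 : ‖w‖ ≤ ‖w‖ ^ M := le_self_pow₀ h1 hM.ne'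
  linarith

theorem PunctMero.root {R₀ : ℝ} (hR₀ : 0 < R₀) {f : ℂ → ℂ} (hf : MeroPunct R₀ f) {M : ℕ}
    (hM : 0 < M) (h : PunctMero (fun z => f z ^ M)) : PunctMero f := by
  obtain ⟨v, hv, hfv⟩ := h
  -- the punctured disc
  have hU0 : ∀ᶠ z in 𝓝[≠] (0 : ℂ), 0 < ‖z‖ ∧ ‖z‖ < R₀ := by
    have h1 : ∀ᶠ z in 𝓝 (0 : ℂ), ‖z‖ < R₀ := by
      filter_upwards [Metric.ball_mem_nhds (0 : ℂ) hR₀] with z hz
      simpa using hz
    filter_upwards [h1.filter_mono nhdsWithin_le_nhds, self_mem_nhdsWithin] with z h2 h3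
    exact ⟨norm_pos_iff.mpr h3, h2⟩
  -- `v` is not identically zero
  have hvtop : meromorphicOrderAt v 0 ≠ ⊤ := by
    intro htop
    have h0 : ∀ᶠ z in 𝓝[≠] (0 : ℂ), v z = 0 := meromorphicOrderAt_eq_top_iff.1 htop
    have h0' : ∀ᶠ z in 𝓝[≠] (0 : ℂ), ∀ᶠ ζ in 𝓝[≠] z, v ζ = 0 := by
      have h2 := eventually_eventually_nhdsWithin.2 h0
      filter_upwards [h2, self_mem_nhdsWithin] with z hz hz0
      have h4 : ∀ᶠ ζ in 𝓝 z, v ζ = 0 := by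
        have h5 : 𝓝[{(0 : ℂ)}ᶜ] z = 𝓝 z :=
          IsOpen.nhdsWithin_eq isOpen_compl_singleton hz0
        rwa [h5] at hz
      exact h4.filter_mono nhdsWithin_le_nhds
    obtain ⟨z, hz1, hz2, hz3⟩ := ((hU0.and (hfv.and h0'))).exists
    refine hf.ord z hz1.1 hz1.2 ?_
    rw [meromorphicOrderAt_eq_top_iff]
    filter_upwards [hz2, hz3] with ζ h1 h2
    rw [h2] at h1
    exact (pow_eq_zero_iff hM.ne').1 h1
  have hvan : ∀ᶠ z in 𝓝[≠] (0 : ℂ), AnalyticAt ℂ v z := hv.eventually_analyticAt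
  have hvne : ∀ᶠ z in 𝓝[≠] (0 : ℂ), v z ≠ 0 :=
    (meromorphicOrderAt_ne_top_iff_eventually_ne_zero hv).1 hvtop
  obtain ⟨k, hk, -, hvk⟩ := (meromorphicOrderAt_ne_top_iff hv).1 hvtop
  set n : ℤ := (meromorphicOrderAt v 0).untop₀ with hn
  have hkb : ∀ᶠ z in 𝓝 (0 : ℂ), ‖k z‖ ≤ ‖k 0‖ + 1 := by
    have h1 := hk.continuousAt.norm.tendsto
    filter_upwards [h1.eventually_lt_const (lt_add_one ‖k 0‖)] with z hz using hz.le
  have h1b : ∀ᶠ z in 𝓝 (0 : ℂ), ‖z‖ < 1 := by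
    filter_upwards [Metric.ball_mem_nhds (0 : ℂ) one_pos] with z hz
    simpa using hz
  -- everything in one punctured disc
  have hall : ∀ᶠ z in 𝓝[≠] (0 : ℂ), (0 < ‖z‖ ∧ ‖z‖ < R₀) ∧
      ((fun z => f z ^ M) =ᶠ[𝓝[≠] z] v) ∧ AnalyticAt ℂ v z ∧ v z ≠ 0 ∧
        v z = z ^ n * k z ∧ ‖k z‖ ≤ ‖k 0‖ + 1 ∧ ‖z‖ < 1 := by
    filter_upwards [hU0, hfv, hvan, hvne, hvk, hkb.filter_mono nhdsWithin_le_nhds,
      h1b.filter_mono nhdsWithin_le_nhds] with z a1 a2 a3 a4 a5 a6 a7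
    refine ⟨a1, a2, a3, a4, ?_, a6, a7⟩
    rw [a5, sub_zero, smul_eq_mul]
  obtain ⟨ε, hε, hε'⟩ := Metric.mem_nhdsWithin_iff.1 hall
  have hD : ∀ z : ℂ, 0 < ‖z‖ → ‖z‖ < ε → (0 < ‖z‖ ∧ ‖z‖ < R₀) ∧
      ((fun z => f z ^ M) =ᶠ[𝓝[≠] z] v) ∧ AnalyticAt ℂ v z ∧ v z ≠ 0 ∧
        v z = z ^ n * k z ∧ ‖k z‖ ≤ ‖k 0‖ + 1 ∧ ‖z‖ < 1 := by
    intro z hz1 hz2
    exact hε' ⟨by simpa using hz2, norm_pos_iff.1 hz1⟩
  -- the normal form
  set U : Set ℂ := {z | 0 < ‖z‖ ∧ ‖z‖ < R₀} with hU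
  have hfU : MeromorphicOn f U := fun z hz => hf.mero z hz.1 hz.2
  set g : ℂ → ℂ := toMeromorphicNFOn f U with hg
  have hgf : ∀ z : ℂ, 0 < ‖z‖ → ‖z‖ < ε → g =ᶠ[𝓝[≠] z] f := fun z h1 h2 =>
    hfU.toMeromorphicNFOn_eq_self_on_nhdsNE (hD z h1 h2).1
  have hgan : ∀ z : ℂ, 0 < ‖z‖ → ‖z‖ < ε → AnalyticAt ℂ g z := by
    intro z h1 h2
    obtain ⟨b1, b2, b3, b4, -, -, -⟩ := hD z h1 h2
    have hm := hf.mero z b1.1 b1.2
    have e1 : meromorphicOrderAt (fun z => f z ^ M) z = M * meromorphicOrderAt f z :=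
      meromorphicOrderAt_pow hm
    have e2 : meromorphicOrderAt (fun z => f z ^ M) z = 0 := by
      rw [meromorphicOrderAt_congr b2]
      exact b3.meromorphicNFAt.meromorphicOrderAt_eq_zero_iff.2 b4
    have e3 : meromorphicOrderAt f z = 0 := by
      rw [e2] at e1
      rcases mul_eq_zero.1 e1.symm with h3 | h3
      · exact absurd (by exact_mod_cast h3) hM.ne'
      · exact h3
    have hnf : MeromorphicNFAt g z := meromorphicNFOn_toMeromorphicNFOn f U b1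
    refine hnf.meromorphicOrderAt_nonneg_iff_analyticAt.1 ?_
    rw [meromorphicOrderAt_congr (hgf z h1 h2), e3]
  have hgM : ∀ z : ℂ, 0 < ‖z‖ → ‖z‖ < ε → g z ^ M = v z := by
    intro z h1 h2
    obtain ⟨-, b2, b3, -, -, -, -⟩ := hD z h1 h2
    have c1 : (fun ζ => g ζ ^ M) =ᶠ[𝓝[≠] z] v := by
      filter_upwards [hgf z h1 h2, b2] with ζ h3 h4
      rw [h3]; exact h4
    have c2 : ContinuousAt (fun ζ => g ζ ^ M) z := ((hgan z h1 h2).pow M).continuousAt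
    exact tendsto_nhds_unique_of_eventuallyEq (c2.tendsto.mono_left nhdsWithin_le_nhds)
      (b3.continuousAt.tendsto.mono_left nhdsWithin_le_nhds) c1
  -- multiply by a power of `z`
  set m : ℕ := n.natAbs with hm
  obtain ⟨w, hw, hwg⟩ := Pool.Agent.H92.GGL.meromorphicAt_of_bounded
    (u := fun z => z ^ m * g z) (ε := ε) (M := ‖k 0‖ + 1) hε
    (fun z h1 h2 => (analyticAt_id.pow m).mul (hgan z h1 h2)) (by
      intro z h1 h2
      obtain ⟨-, -, -, -, b5, b6, b7⟩ := hD z h1 h2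
      refine norm_le_of_pow_le hM (by linarith [norm_nonneg (k 0)]) ?_
      have hz : z ≠ 0 := norm_pos_iff.1 h1
      have e1 : (z ^ m * g z) ^ M = z ^ ((m * M : ℕ) + n : ℤ) * k z := by
        rw [mul_pow, hgM z h1 h2, b5, zpow_add₀ hz, zpow_natCast, pow_mul]
        ring
      have e2 : (0 : ℤ) ≤ ((m * M : ℕ) : ℤ) + n := by
        have h3 : m ≤ m * M := Nat.le_mul_of_pos_right m hM
        omega
      obtain ⟨q, hq⟩ := Int.eq_ofNat_of_zero_le e2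
      rw [e1, hq, zpow_natCast, norm_mul, norm_pow]
      have h4 : ‖z‖ ^ q ≤ 1 := pow_le_one₀ (norm_nonneg z) b7.le
      calc ‖z‖ ^ q * ‖k z‖ ≤ 1 * (‖k 0‖ + 1) :=
            mul_le_mul h4 b6 (norm_nonneg _) zero_le_one
        _ = ‖k 0‖ + 1 := one_mul _)
  refine ⟨fun z => (z ^ m)⁻¹ * w z, (((analyticAt_id.pow m).meromorphicAt).inv).mul
    hw.meromorphicAt, ?_⟩
  have hεe : ∀ᶠ z in 𝓝[≠] (0 : ℂ), 0 < ‖z‖ ∧ ‖z‖ < ε := by
    filter_upwards [(Metric.ball_mem_nhds (0 : ℂ) hε : _) |> mem_nhdsWithin_of_mem_nhds,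
      self_mem_nhdsWithin] with z h1 h2
    exact ⟨norm_pos_iff.mpr h2, by simpa using h1⟩
  filter_upwards [hεe] with z hz
  have hz0 : z ≠ 0 := norm_pos_iff.1 hz.1
  have h5 : ∀ᶠ ζ in 𝓝[≠] z, ζ ≠ 0 :=
    (isOpen_compl_singleton.mem_nhds hz0 : ({(0 : ℂ)}ᶜ : Set ℂ) ∈ 𝓝 z) |>
      mem_nhdsWithin_of_mem_nhds
  filter_upwards [hgf z hz.1 hz.2, h5] with ζ h6 h7
  rw [hwg ζ h7, ← h6, ← mul_assoc, inv_mul_cancel₀ (pow_ne_zero m h7), one_mul]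

end Pool.Agent.H62.FC
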