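import Pool.Agent.H62.FC.Words
import Pool.Agent.H62.FC.Defs
import Pool.Agent.H62.FC.NevDefs
import Pool.Agent.H62.FC.CircuitDefs
import Pool.Agent.H62.FC.Cartan
import Pool.Agent.H62.FC.Circuit
import Pool.Agent.H62.FC.Lattice
import Pool.Agent.H62.FC.Nev0
import Pool.Agent.H62.FC.PunctMero
import Pool.Agent.H92.GGL.CasWei

/-! # Sparse relations between meromorphic functions at a puncture -/

noncomputable section

namespace Pool.Agent.H62.FC

section Geometry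

open MvPolynomial Topology Filter
open Pool.Agent.H92.GGL (ordZ)

variable {κ : Type}

/-- The germ at `z₁` (punctured), as a linear map. -/
private def Dichotomy_germ (z₁ : ℂ) : (ℂ → ℂ) →ₗ[ℂ] Germ (𝓝[≠] z₁) ℂ where
  toFun f := (f : Germ (𝓝[≠] z₁) ℂ)
  map_add' _ _ := rfl
  map_smul' _ _ := rfl

private lemma Dichotomy_germ_eq_zero {z₁ : ℂ} {f : ℂ → ℂ} :
    Dichotomy_germ z₁ f = 0 ↔ ∀ᶠ ζ in 𝓝[≠] z₁, f ζ = 0 :=
  Germ.coe_eq

/-- Identity principle. -/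
private lemma Dichotomy_identity {R₀ : ℝ} {f : ℂ → ℂ}
    (hf : ∀ z, 0 < ‖z‖ → ‖z‖ < R₀ → MeromorphicAt f z) {z₁ z : ℂ}
    (h1 : 0 < ‖z₁‖) (h1' : ‖z₁‖ < R₀) (h : ∀ᶠ ζ in 𝓝[≠] z₁, f ζ = 0)
    (h2 : 0 < ‖z‖) (h2' : ‖z‖ < R₀) : ∀ᶠ ζ in 𝓝[≠] z, f ζ = 0 := by
  by_contra hcon
  rw [← meromorphicOrderAt_eq_top_iff] at hcon h
  have hm : MeromorphicOn f {z : ℂ | 0 < ‖z‖ ∧ ‖z‖ < R₀} := fun w hw => hf w hw.1 hw.2
  exact hm.meromorphicOrderAt_ne_top_of_isPreconnected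
    (Pool.Agent.H92.GGL.isPreconnected_punctured R₀) (x := z) (y := z₁) ⟨h2, h2'⟩ ⟨h1, h1'⟩ hcon h

private lemma Dichotomy_ne_zero {R₀ : ℝ} {u : ℂ → ℂ} (hu : MeroPunct R₀ u) {z : ℂ}
    (h1 : 0 < ‖z‖) (h2 : ‖z‖ < R₀) : ∀ᶠ ζ in 𝓝[≠] z, u ζ ≠ 0 :=
  (meromorphicOrderAt_ne_top_iff_eventually_ne_zero (hu.mero z h1 h2)).1 (hu.ord z h1 h2)

/-- congruence -/
private lemma Dichotomy_congr {R₀ : ℝ} (hR₀ : 0 < R₀) {f g : ℂ → ℂ} (hf : PunctMero f)
    (h : ∀ z, 0 < ‖z‖ → ‖z‖ < R₀ → f =ᶠ[𝓝[≠] z] g) : PunctMero g := by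
  obtain ⟨v, hv, hfv⟩ := hf
  refine ⟨v, hv, ?_⟩
  have h3 : ∀ᶠ z in 𝓝[≠] (0 : ℂ), 0 < ‖z‖ := by
    filter_upwards [self_mem_nhdsWithin] with z hz using norm_pos_iff.2 hz
  have h4 : ∀ᶠ z in 𝓝[≠] (0 : ℂ), ‖z‖ < R₀ := by
    refine Filter.Eventually.filter_mono nhdsWithin_le_nhds ?_
    have := Metric.ball_mem_nhds (0 : ℂ) hR₀
    filter_upwards [this] with z hz using by simpa using hz
  filter_upwards [hfv, h3, h4] with z h5 h6 h7
  exact (h z h6 h7).symm.trans h5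

private lemma Dichotomy_const {R₀ : ℝ} (hR₀ : 0 < R₀) {g : ℂ → ℂ} (c : ℂ)
    (h : ∀ z, 0 < ‖z‖ → ‖z‖ < R₀ → ∀ᶠ ζ in 𝓝[≠] z, g ζ = c) : PunctMero g := by
  refine Dichotomy_congr hR₀ (f := fun _ => c) ⟨fun _ => c, MeromorphicAt.const c 0, ?_⟩ ?_
  · exact Eventually.of_forall fun z => EventuallyEq.rfl
  · intro z h1 h2
    filter_upwards [h z h1 h2] with ζ hζ using hζ.symm

/-- monomials -/
private def Dichotomy_mon {I : Type} [Fintype I] (ξ : I → ℂ → ℂ) (a : I →₀ ℕ) (z : ℂ) : ℂ :=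
  ∏ i, ξ i z ^ a i

private lemma Dichotomy_mon_meroPunct {I : Type} [Fintype I] {R₀ : ℝ} {ξ : I → ℂ → ℂ}
    (hξ : ∀ i, MeroPunct R₀ (ξ i)) (a : I →₀ ℕ) : MeroPunct R₀ (Dichotomy_mon ξ a) := by
  have hm : ∀ z, 0 < ‖z‖ → ‖z‖ < R₀ → MeromorphicAt (Dichotomy_mon ξ a) z := by
    intro z h1 h2
    exact MeromorphicAt.fun_prod fun i _ => ((hξ i).mero z h1 h2).fun_pow _
  refine ⟨hm, fun z h1 h2 => ?_⟩
  rw [meromorphicOrderAt_ne_top_iff_eventually_ne_zero (hm z h1 h2)]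
  have : ∀ᶠ ζ in 𝓝[≠] z, ∀ i, ξ i ζ ≠ 0 :=
    Filter.eventually_all.2 fun i => Dichotomy_ne_zero (hξ i) h1 h2
  filter_upwards [this] with ζ hζ
  exact Finset.prod_ne_zero_iff.2 fun i _ => pow_ne_zero _ (hζ i)

private lemma Dichotomy_ordZ_mon {I : Type} [Fintype I] {R₀ : ℝ} {ξ : I → ℂ → ℂ}
    (hξ : ∀ i, MeroPunct R₀ (ξ i)) (a : I →₀ ℕ) {z : ℂ} (h1 : 0 < ‖z‖) (h2 : ‖z‖ < R₀) :
    meromorphicOrderAt (Dichotomy_mon ξ a) z = ((∑ i, (a i : ℤ) * ordZ (ξ i) z : ℤ) : WithTop ℤ) := by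
  unfold Dichotomy_mon
  rw [meromorphicOrderAt_fun_prod fun i _ => ((hξ i).mero z h1 h2).fun_pow _]
  rw [WithTop.coe_sum]
  refine Finset.sum_congr rfl fun i _ => ?_
  have h0 : meromorphicOrderAt (fun ζ => ξ i ζ ^ a i) z = a i * meromorphicOrderAt (ξ i) z :=
    meromorphicOrderAt_pow ((hξ i).mero z h1 h2)
  rw [h0]
  have h3 : meromorphicOrderAt (ξ i) z = ((ordZ (ξ i) z : ℤ) : WithTop ℤ) := by
    rw [ordZ, WithTop.coe_untop₀_of_ne_top ((hξ i).ord z h1 h2)]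
  rw [h3, WithTop.coe_mul]
  rfl

private lemma Dichotomy_eval {I : Type} [Fintype I] (ξ : I → ℂ → ℂ) (p : MvPolynomial I ℂ)
    (z : ℂ) : eval (fun i => ξ i z) p = ∑ a ∈ p.support, coeff a p * Dichotomy_mon ξ a z := by
  rw [MvPolynomial.eval_eq']
  rfl

/-- the vectors -/
private def Dichotomy_y {I : Type} [Fintype I] (ξ : I → ℂ → ℂ) (z₁ : ℂ) (a : I →₀ ℕ) :
    Germ (𝓝[≠] z₁) ℂ := Dichotomy_germ z₁ (Dichotomy_mon ξ a)

private lemma Dichotomy_sum_eq_zero {I : Type} [Fintype I] {R₀ : ℝ} {ξ : I → ℂ → ℂ}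
    (hξ : ∀ i, MeroPunct R₀ (ξ i)) {z₁ : ℂ} (h1 : 0 < ‖z₁‖) (h1' : ‖z₁‖ < R₀)
    (s : Finset (I →₀ ℕ)) (c : (I →₀ ℕ) → ℂ) :
    ∑ a ∈ s, c a • Dichotomy_y ξ z₁ a = 0 ↔
      ∀ z, 0 < ‖z‖ → ‖z‖ < R₀ → ∀ᶠ ζ in 𝓝[≠] z, ∑ a ∈ s, c a * Dichotomy_mon ξ a ζ = 0 := by
  have hG : ∑ a ∈ s, c a • Dichotomy_y ξ z₁ a =
      Dichotomy_germ z₁ (fun ζ => ∑ a ∈ s, c a * Dichotomy_mon ξ a ζ) := by
    have : (fun ζ => ∑ a ∈ s, c a * Dichotomy_mon ξ a ζ) =
        ∑ a ∈ s, c a • Dichotomy_mon ξ a := by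
      funext ζ
      simp
    rw [this, map_sum]
    refine Finset.sum_congr rfl fun a _ => ?_
    rw [map_smul]
    rfl
  rw [hG, Dichotomy_germ_eq_zero]
  constructor
  · intro h z h2 h2'
    refine Dichotomy_identity (fun w hw hw' => ?_) h1 h1' h h2 h2'
    exact MeromorphicAt.fun_sum fun a _ =>
      (MeromorphicAt.const (c a) w).fun_mul ((Dichotomy_mon_meroPunct hξ a).mero w hw hw')
  · intro h
    exact h z₁ h1 h1'

/-- Circuits. -/
private lemma Dichotomy_circuit {I : Type} [Fintype I] [DecidableEq I] {R₀ : ℝ} (hR₀ : 0 < R₀)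
    {k d : ℕ} {ξ : I → ℂ → ℂ} (hξ : ∀ i, MeroPunct R₀ (ξ i)) (hd : k * (k - 2) < d)
    {z₁ : ℂ} (h1 : 0 < ‖z₁‖) (h1' : ‖z₁‖ < R₀) {ρ : Finset (I →₀ ℕ)} (hk : ρ.card ≤ k)
    (hρ : IsCircuit ℂ (Dichotomy_y ξ z₁) ρ)
    (hdiv : ∀ a ∈ ρ, ∀ b ∈ ρ, ∀ z, 0 < ‖z‖ → ‖z‖ < R₀ →
      (d : ℤ) ∣ ∑ i, ((a i : ℤ) - b i) * ordZ (ξ i) z)
    {a b : I →₀ ℕ} (ha : a ∈ ρ) (hb : b ∈ ρ) :
    PunctMero (fun z => Dichotomy_mon ξ a z / Dichotomy_mon ξ b z) := by
  classical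
  set y := Dichotomy_y ξ z₁ with hy
  have hmon : ∀ a, MeroPunct R₀ (Dichotomy_mon ξ a) := Dichotomy_mon_meroPunct hξ
  rcases eq_or_ne a b with rfl | hab
  · refine Dichotomy_const hR₀ 1 fun z h2 h2' => ?_
    filter_upwards [Dichotomy_ne_zero (hmon a) h2 h2'] with ζ hζ
    exact div_self hζ
  -- the relation
  obtain ⟨c, hc0, hc⟩ : ∃ c : (I →₀ ℕ) → ℂ, ∑ a ∈ ρ, c a • y a = 0 ∧ ∃ a ∈ ρ, c a ≠ 0 := by
    have h3 := hρ.1
    rw [linearIndepOn_finset_iff] at h3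
    push Not at h3
    obtain ⟨c, h4, a, h5, h6⟩ := h3
    exact ⟨c, h4, a, h5, h6⟩
  have hcne : ∀ a ∈ ρ, c a ≠ 0 := by
    intro a₀ ha₀ h4
    have h5 := hρ.2 (ρ.erase a₀) (Finset.erase_ssubset ha₀)
    rw [linearIndepOn_finset_iff] at h5
    have h6 : ∑ a ∈ ρ.erase a₀, c a • y a = 0 := by
      rw [← hc0, ← Finset.add_sum_erase ρ _ ha₀, h4, zero_smul, zero_add]
    obtain ⟨a₁, h7, h8⟩ := hc
    refine h8 (h5 c h6 a₁ (Finset.mem_erase.2 ⟨?_, h7⟩))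
    rintro rfl
    exact h8 h4
  have hrel : ∀ z, 0 < ‖z‖ → ‖z‖ < R₀ → ∀ᶠ ζ in 𝓝[≠] z,
      ∑ a ∈ ρ, c a * Dichotomy_mon ξ a ζ = 0 := (Dichotomy_sum_eq_zero hξ h1 h1' ρ c).1 hc0
  -- enumeration
  set σ := ρ.erase b with hσ
  have hσcard : σ.card + 1 = ρ.card := Finset.card_erase_add_one hb
  set n := σ.card with hn
  let e : Fin n ≃ σ := (σ.equivFin).symm
  have he : ∀ j, (e j : I →₀ ℕ) ∈ ρ := fun j => Finset.mem_of_mem_erase (e j).2
  have heb : ∀ j, (e j : I →₀ ℕ) ≠ b := fun j => Finset.ne_of_mem_erase (e j).2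
  have hsum : ∀ {M : Type} [AddCommMonoid M] (f : (I →₀ ℕ) → M),
      ∑ j, f (e j) = ∑ a ∈ σ, f a := by
    intro M _ f
    rw [← Finset.sum_coe_sort σ]
    exact Equiv.sum_comp e fun x : σ => f x
  set u : Fin n → ℂ → ℂ := fun j z =>
    c (e j) / c b * (Dichotomy_mon ξ (e j) z / Dichotomy_mon ξ b z) with hu
  have hrelu : ∀ z, 0 < ‖z‖ → ‖z‖ < R₀ → ∀ᶠ ζ in 𝓝[≠] z, ∑ j, u j ζ = -1 := by
    intro z h2 h2'
    filter_upwards [hrel z h2 h2', Dichotomy_ne_zero (hmon b) h2 h2'] with ζ h3 h4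
    rw [hsum fun a => c a / c b * (Dichotomy_mon ξ a ζ / Dichotomy_mon ξ b ζ)]
    rw [← Finset.add_sum_erase ρ _ hb] at h3
    have h5 : ∑ a ∈ σ, c a / c b * (Dichotomy_mon ξ a ζ / Dichotomy_mon ξ b ζ) =
        (∑ a ∈ σ, c a * Dichotomy_mon ξ a ζ) / (c b * Dichotomy_mon ξ b ζ) := by
      rw [Finset.sum_div]
      refine Finset.sum_congr rfl fun a _ => ?_
      rw [div_mul_div_comm]
    rw [h5, eq_neg_of_add_eq_zero_right h3, neg_div, div_self (mul_ne_zero (hcne b hb) h4)]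
  have haσ : a ∈ σ := Finset.mem_erase.2 ⟨hab, ha⟩
  obtain ⟨j₀, hj₀⟩ := e.surjective ⟨a, haσ⟩
  have hj₀' : (e j₀ : I →₀ ℕ) = a := by rw [hj₀]
  have key : PunctMero (u j₀) → PunctMero
      (fun z => Dichotomy_mon ξ a z / Dichotomy_mon ξ b z) := by
    intro h3
    have h4 : PunctMero (fun _ : ℂ => c b / c a) :=
      Dichotomy_const hR₀ (c b / c a) fun z _ _ => Eventually.of_forall fun _ => rfl
    refine Dichotomy_congr hR₀ (PunctMero.mul h4 h3) fun z _ _ => ?_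
    refine Eventually.of_forall fun ζ => ?_
    simp only [hu, hj₀']
    field_simp [hcne a ha, hcne b hb]
  apply key
  have hn1 : 1 ≤ n := Finset.card_pos.2 ⟨a, haσ⟩
  rcases Nat.lt_or_ge n 2 with hn2 | hn2
  · -- two terms
    have hn1' : n = 1 := by omega
    refine Dichotomy_const hR₀ (-1) fun z h2 h2' => ?_
    filter_upwards [hrelu z h2 h2'] with ζ hζ
    rw [← hζ]
    have h5 : (Finset.univ : Finset (Fin n)) = {j₀} := by
      have : Subsingleton (Fin n) := by rw [hn1']; infer_instance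
      ext j
      simp [Subsingleton.elim j j₀]
    rw [h5, Finset.sum_singleton]
  · have hconst : ∀ x : ℂ, x ≠ 0 → MeroPunct R₀ (fun _ => x) := by
      intro x hx
      refine ⟨fun z _ _ => MeromorphicAt.const x z, fun z _ _ => ?_⟩
      rw [meromorphicOrderAt_ne_top_iff_eventually_ne_zero (MeromorphicAt.const x z)]
      exact Eventually.of_forall fun _ => hx
    have hcoef : ∀ j, c (e j) / c b ≠ 0 := fun j => div_ne_zero (hcne _ (he j)) (hcne b hb)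
    have huM : ∀ j, MeroPunct R₀ (u j) := by
      intro j
      refine MeroPunct.mul (hconst _ (hcoef j)) ?_
      have := MeroPunct.mul (hmon (e j)) (MeroPunct.inv (hmon b))
      simpa only [div_eq_mul_inv] using this
    have hcd : (n + 1) * (n - 1) < d := by
      refine lt_of_le_of_lt ?_ hd
      refine Nat.mul_le_mul (by omega) (by omega)
    refine cartan_punctMero hn2 hcd hR₀ huM hrelu ?_ ?_ j₀
    · intro c' z h2 h2' h3
      -- independence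
      have h4 : ∀ᶠ ζ in 𝓝[≠] z, ∑ a ∈ σ, (if h : a ∈ σ then c' (e.symm ⟨a, h⟩) * c a else 0) *
          Dichotomy_mon ξ a ζ = 0 := by
        filter_upwards [h3, Dichotomy_ne_zero (hmon b) h2 h2'] with ζ h5 h6
        have h7 : ∑ a ∈ σ, (if h : a ∈ σ then c' (e.symm ⟨a, h⟩) * c a else 0) *
            Dichotomy_mon ξ a ζ = (∑ j, c' j * u j ζ) * (c b * Dichotomy_mon ξ b ζ) := by
          rw [← hsum fun a => (if h : a ∈ σ then c' (e.symm ⟨a, h⟩) * c a else 0) *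
            Dichotomy_mon ξ a ζ, Finset.sum_mul]
          refine Finset.sum_congr rfl fun j _ => ?_
          rw [dif_pos (e j).2]
          simp only [Subtype.coe_eta, Equiv.symm_apply_apply, hu]
          field_simp [hcne b hb, h6]
        rw [h7, h5, zero_mul]
      have h5 := (Dichotomy_sum_eq_zero hξ h2 h2' σ _).2
        (fun w hw hw' => Dichotomy_identity (fun x hx hx' => MeromorphicAt.fun_sum fun a _ =>
          (MeromorphicAt.const _ x).fun_mul ((hmon a).mero x hx hx')) h2 h2' h4 hw hw')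
      have h6 := (Dichotomy_sum_eq_zero hξ h1 h1' σ _).2
        (fun w hw hw' => Dichotomy_identity (fun x hx hx' => MeromorphicAt.fun_sum fun a _ =>
          (MeromorphicAt.const _ x).fun_mul ((hmon a).mero x hx hx')) h2 h2' h4 hw hw')
      have h7 := hρ.2 σ (Finset.erase_ssubset hb)
      rw [linearIndepOn_finset_iff] at h7
      have h8 := h7 _ h6
      funext j
      have h9 := h8 (e j) (e j).2
      rw [dif_pos (e j).2] at h9
      simp only [Subtype.coe_eta, Equiv.symm_apply_apply] at h9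
      rcases mul_eq_zero.1 h9 with h | h
      · exact h
      · exact absurd h (hcne _ (he j))
    · intro j z h2 h2'
      have hord : ordZ (u j) z = ∑ i, (((e j : I →₀ ℕ) i : ℤ) - b i) * ordZ (ξ i) z := by
        have h3 : meromorphicOrderAt (u j) z =
            ((∑ i, (((e j : I →₀ ℕ) i : ℤ) - b i) * ordZ (ξ i) z : ℤ) : WithTop ℤ) := by
          have h4 : meromorphicOrderAt (u j) z = meromorphicOrderAt (fun _ : ℂ => c (e j) / c b) z +
              (meromorphicOrderAt (Dichotomy_mon ξ (e j)) z -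
                meromorphicOrderAt (Dichotomy_mon ξ b) z) := by
            rw [← meromorphicOrderAt_div ((hmon (e j)).mero z h2 h2') ((hmon b).mero z h2 h2')]
            exact meromorphicOrderAt_mul (MeromorphicAt.const _ z)
              (((hmon (e j)).mero z h2 h2').div ((hmon b).mero z h2 h2'))
          rw [h4, meromorphicOrderAt_const, if_neg (hcoef j), zero_add,
            Dichotomy_ordZ_mon hξ _ h2 h2', Dichotomy_ordZ_mon hξ _ h2 h2',
            ← WithTop.LinearOrderedAddCommGroup.coe_sub]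
          congr 1
          rw [← Finset.sum_sub_distrib]
          exact Finset.sum_congr rfl fun i _ => by ring
        rw [ordZ, h3, WithTop.untop₀_coe]
      rw [hord]
      exact hdiv _ (he j) b hb z h2 h2'

/-- zpow monomials -/
private def Dichotomy_zmon {I : Type} [Fintype I] (ξ : I → ℂ → ℂ) (γ : I → ℤ) (z : ℂ) : ℂ :=
  ∏ i, ξ i z ^ γ i

private lemma Dichotomy_closure {I : Type} [Fintype I] {R₀ : ℝ} (hR₀ : 0 < R₀)
    {ξ : I → ℂ → ℂ} (hξ : ∀ i, MeroPunct R₀ (ξ i)) {Γ : Set (I → ℤ)}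
    (hΓ : ∀ γ ∈ Γ, PunctMero (Dichotomy_zmon ξ γ)) {γ : I → ℤ}
    (hγ : γ ∈ AddSubgroup.closure Γ) : PunctMero (Dichotomy_zmon ξ γ) := by
  have hne : ∀ z, 0 < ‖z‖ → ‖z‖ < R₀ → ∀ᶠ ζ in 𝓝[≠] z, ∀ i, ξ i ζ ≠ 0 := fun z h1 h2 =>
    Filter.eventually_all.2 fun i => Dichotomy_ne_zero (hξ i) h1 h2
  induction hγ using AddSubgroup.closure_induction with
  | mem γ h => exact hΓ γ h
  | zero =>
    refine Dichotomy_const hR₀ 1 fun z _ _ => Eventually.of_forall fun ζ => ?_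
    simp [Dichotomy_zmon]
  | add γ γ' _ _ h h' =>
    refine Dichotomy_congr hR₀ (PunctMero.mul h h') fun z h1 h2 => ?_
    filter_upwards [hne z h1 h2] with ζ hζ
    simp only [Dichotomy_zmon, Pi.add_apply]
    rw [← Finset.prod_mul_distrib]
    exact Finset.prod_congr rfl fun i _ => (zpow_add₀ (hζ i) _ _).symm
  | neg γ _ h =>
    refine Dichotomy_congr hR₀ (PunctMero.inv h) fun z h1 h2 => ?_
    refine Eventually.of_forall fun ζ => ?_
    simp only [Dichotomy_zmon, Pi.neg_apply]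
    rw [← Finset.prod_inv_distrib]
    exact Finset.prod_congr rfl fun i _ => (zpow_neg _ _).symm

/-! D2 -/
theorem punct_dichotomy {I : Type} [Fintype I] [DecidableEq I] {R₀ : ℝ} (hR₀ : 0 < R₀) {k d : ℕ}
    {ξ : I → ℂ → ℂ} (hξ : ∀ i, MeroPunct R₀ (ξ i)) {P : κ → MvPolynomial I ℂ}
    (hk : ∀ l, (P l).support.card ≤ k) (hd : k * (k - 2) < d)
    (hrel : ∀ l z, 0 < ‖z‖ → ‖z‖ < R₀ → ∀ᶠ ζ in 𝓝[≠] z, eval (fun i => ξ i ζ) (P l) = 0)
    (hdiv : ∀ l, ∀ a ∈ (P l).support, ∀ b ∈ (P l).support, ∀ z, 0 < ‖z‖ → ‖z‖ < R₀ →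
      (d : ℤ) ∣ ∑ i, ((a i : ℤ) - b i) * ordZ (ξ i) z)
    (hlev : ∀ n : I → ℤ, (∀ l v z, 0 < ‖z‖ → ‖z‖ < R₀ → ∀ᶠ ζ in 𝓝[≠] z,
      eval (fun i => ξ i ζ) (weightedHomogeneousComponent n v (P l)) = 0) → ∀ i j, n i = n j)
    (i j : I) : PunctMero (fun z => ξ i z / ξ j z) := by
  classical
  have hne : ∀ z, 0 < ‖z‖ → ‖z‖ < R₀ → ∀ᶠ ζ in 𝓝[≠] z, ∀ i, ξ i ζ ≠ 0 := fun z h1 h2 =>
    Filter.eventually_all.2 fun i => Dichotomy_ne_zero (hξ i) h1 h2
  rcases eq_or_ne i j with rfl | hij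
  · refine Dichotomy_const hR₀ 1 fun z h1 h2 => ?_
    filter_upwards [hne z h1 h2] with ζ hζ
    exact div_self (hζ i)
  -- base point
  obtain ⟨z₁, h1, h1'⟩ : ∃ z₁ : ℂ, 0 < ‖z₁‖ ∧ ‖z₁‖ < R₀ := by
    refine ⟨((R₀ / 2 : ℝ) : ℂ), ?_, ?_⟩
    · rw [Complex.norm_real, Real.norm_of_nonneg (by positivity)]
      positivity
    · rw [Complex.norm_real, Real.norm_of_nonneg (by positivity)]
      linarith
  set y := Dichotomy_y ξ z₁ with hy
  set Γ : Set (I → ℤ) := {γ | ∃ l, ∃ ρ ⊆ (P l).support, IsCircuit ℂ y ρ ∧ ∃ a ∈ ρ, ∃ b ∈ ρ,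
    γ = fun i => (a i : ℤ) - b i} with hΓ
  have hΓP : ∀ γ ∈ Γ, PunctMero (Dichotomy_zmon ξ γ) := by
    rintro γ ⟨l, ρ, hρs, hρ, a, ha, b, hb, rfl⟩
    have h3 := Dichotomy_circuit hR₀ hξ hd h1 h1' ((Finset.card_le_card hρs).trans (hk l)) hρ
      (fun a ha b hb => hdiv l a (hρs ha) b (hρs hb)) ha hb
    refine Dichotomy_congr hR₀ h3 fun z h2 h2' => ?_
    filter_upwards [hne z h2 h2'] with ζ hζ
    simp only [Dichotomy_mon, Dichotomy_zmon]
    rw [← Finset.prod_div_distrib]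
    refine Finset.prod_congr rfl fun i _ => ?_
    rw [zpow_sub₀ (hζ i), zpow_natCast, zpow_natCast]
  have hcomb : ∀ n : I → ℤ, (∀ γ ∈ Γ, ∑ l, n l * γ l = 0) → n i = n j := by
    intro n hn
    refine hlev n (fun l v => ?_) i j
    have hlin : ∑ a ∈ (P l).support, coeff a (P l) • y a = 0 := by
      refine (Dichotomy_sum_eq_zero hξ h1 h1' _ fun a => coeff a (P l)).2 fun z h2 h2' => ?_
      filter_upwards [hrel l z h2 h2'] with ζ hζ
      rw [← hζ, Dichotomy_eval]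
    have h4 := sum_level_eq_zero (F := ℂ) (y := y) (ν := fun a => Finsupp.weight n a)
      (S := (P l).support) ?_ hlin v
    · have h5 := (Dichotomy_sum_eq_zero hξ h1 h1' _ fun a => coeff a (P l)).1 h4
      intro z h2 h2'
      filter_upwards [h5 z h2 h2'] with ζ hζ
      rw [weightedHomogeneousComponent_apply, map_sum, ← hζ]
      refine Finset.sum_congr rfl fun a _ => ?_
      rw [eval_monomial, Dichotomy_mon, Finsupp.prod_fintype]
      intro i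
      exact pow_zero _
    · intro ρ hρs hρ a ha b hb
      have h5 := hn _ ⟨l, ρ, hρs, hρ, a, ha, b, hb, rfl⟩
      have hw : ∀ a : I →₀ ℕ, Finsupp.weight n a = ∑ l, n l * (a l : ℤ) := by
        intro a
        rw [Finsupp.weight_apply, Finsupp.sum_fintype]
        · exact Finset.sum_congr rfl fun l _ => by rw [nsmul_eq_mul, mul_comm]
        · intro i
          exact zero_smul _ _
      simp only [hw]
      rw [← sub_eq_zero, ← Finset.sum_sub_distrib, ← h5]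
      exact Finset.sum_congr rfl fun l _ => by ring
  obtain ⟨M, hM, hmem⟩ := exists_combination (Γ := Γ) (i := i) (j := j) hcomb
  have h6 := Dichotomy_closure hR₀ hξ hΓP hmem
  have h7 : MeroPunct R₀ (fun z => ξ i z / ξ j z) := by
    have := MeroPunct.mul (hξ i) (MeroPunct.inv (hξ j))
    simpa only [div_eq_mul_inv] using this
  refine PunctMero.root hR₀ h7 hM ?_
  refine Dichotomy_congr hR₀ h6 fun z h2 h2' => ?_
  filter_upwards [hne z h2 h2'] with ζ hζ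
  simp only [Dichotomy_zmon]
  have h8 : ∀ l, ξ l ζ ^ (((M : ℤ) • (Pi.single i 1 - Pi.single j 1 : I → ℤ)) l) =
      (if l = i then ξ i ζ ^ M else 1) * (if l = j then (ξ j ζ ^ M)⁻¹ else 1) := by
    intro l
    rcases eq_or_ne l i with rfl | hli
    · simp [hij]
    · rcases eq_or_ne l j with rfl | hlj
      · simp [hli]
      · simp [hli, hlj]
  rw [Finset.prod_congr rfl fun l _ => h8 l, Finset.prod_mul_distrib]
  simp [div_eq_mul_inv, mul_pow]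

end Geometry

end Pool.Agent.H62.FC
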