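import Pool.Agent.H62.FC.Defs
import Pool.Agent.H62.FC.NevDefs

/-!
# Extension of a holomorphic map into projective space across a puncture
-/

noncomputable section

namespace Pool.Agent.H62.FC

open Pool.Agent.H62.FC
open MvPolynomial Topology Filter
open Pool.Agent.H17 (PN VanishesAt zeroLocus ZariskiClosedIn HolomorphicInto puncturedDisc
  PseudoBrodyHyperbolic PseudoPicardHyperbolic)

variable {N : ℕ}

/-- A meromorphic function of order at least `n` is `z ^ n` times an analytic function. -/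
private theorem Extend_factor {v : ℂ → ℂ} (hv : MeromorphicAt v 0) {n : ℤ}
    (hn : (n : WithTop ℤ) ≤ meromorphicOrderAt v 0) :
    ∃ w : ℂ → ℂ, AnalyticAt ℂ w 0 ∧ (∀ᶠ z in 𝓝[≠] (0 : ℂ), v z = z ^ n * w z) ∧
      (meromorphicOrderAt v 0 = n → w 0 ≠ 0) := by
  by_cases h : meromorphicOrderAt v 0 = ⊤
  · refine ⟨fun _ => 0, analyticAt_const, ?_, ?_⟩
    · rw [meromorphicOrderAt_eq_top_iff] at h
      filter_upwards [h] with z hz
      rw [hz, mul_zero]
    · intro h'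
      rw [h] at h'
      exact absurd h' (by simp)
  · obtain ⟨k, hk⟩ := WithTop.ne_top_iff_exists.mp h
    rw [← hk] at hn
    have hnk : n ≤ k := by exact_mod_cast hn
    obtain ⟨g, hg, hg0, hge⟩ := (meromorphicOrderAt_eq_int_iff hv).mp hk.symm
    refine ⟨fun z => z ^ (k - n).toNat * g z, ?_, ?_, ?_⟩
    · exact (analyticAt_id.pow _).mul hg
    · filter_upwards [hge, self_mem_nhdsWithin] with z hz hz0
      have hz0' : z ≠ 0 := hz0
      rw [hz, sub_zero, smul_eq_mul, ← mul_assoc, ← zpow_natCast z, ← zpow_add₀ hz0',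
        Int.toNat_of_nonneg (by omega)]
      congr 2
      ring
    · intro h'
      rw [← hk] at h'
      have : k = n := by exact_mod_cast h'
      subst this
      simpa using hg0

/-- The representative of a point given by homogeneous coordinates. -/
private theorem Extend_rep {x : PN N} {u : Fin (N + 1) → ℂ} (hu : u ≠ 0)
    (hx : x = Projectivization.mk ℂ u hu) : ∃ c : ℂ, c ≠ 0 ∧ ∀ i, x.rep i = c * u i := by
  have h1 : Projectivization.mk ℂ x.rep x.rep_nonzero = Projectivization.mk ℂ u hu := by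
    rw [Projectivization.mk_rep, hx]
  rw [Projectivization.mk_eq_mk_iff'] at h1
  obtain ⟨a, ha⟩ := h1
  refine ⟨a, ?_, fun i => ?_⟩
  · rintro rfl
    exact x.rep_nonzero (by rw [← ha, zero_smul])
  · rw [← ha]
    rfl

/-- **Extension criterion.** -/
theorem exists_extension {f : ℂ → PN N} (hf : HolomorphicInto f puncturedDisc)
    {i₀ : Fin (N + 1)} (h0 : ∀ᶠ z in 𝓝[≠] (0 : ℂ), ∀ᶠ ζ in 𝓝[≠] z, (f ζ).rep i₀ ≠ 0)
    (h : ∀ i, PunctMero (fun z => (f z).rep i / (f z).rep i₀)) :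
    ∃ g : ℂ → PN N, HolomorphicInto g (Metric.ball 0 1) ∧ ∀ z ∈ puncturedDisc, g z = f z := by
  classical
  choose v hv hvf using h
  -- the minimal order
  obtain ⟨j₁, -, hj₁⟩ := (Finset.univ : Finset (Fin (N + 1))).exists_min_image
    (fun j => meromorphicOrderAt (v j) 0) ⟨i₀, Finset.mem_univ _⟩
  have hne : meromorphicOrderAt (v i₀) 0 ≠ ⊤ := by
    intro htop
    rw [meromorphicOrderAt_eq_top_iff] at htop
    have h1 : ∀ᶠ z in 𝓝[≠] (0 : ℂ), ∀ᶠ ζ in 𝓝[≠] z, v i₀ ζ = 0 := by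
      have h2 : ∀ᶠ z in 𝓝 (0 : ℂ), z ≠ 0 → v i₀ z = 0 := eventually_nhdsWithin_iff.mp htop
      have h3 := h2.eventually_nhds
      filter_upwards [h3.filter_mono nhdsWithin_le_nhds, self_mem_nhdsWithin] with z hz hz0
      have hz0' : z ≠ 0 := hz0
      have h4 : ∀ᶠ ζ in 𝓝 z, ζ ≠ 0 := isOpen_ne.mem_nhds hz0'
      have h5 : ∀ᶠ ζ in 𝓝 z, v i₀ ζ = 0 := by
        filter_upwards [hz, h4] with ζ ha hb
        exact ha hb
      exact h5.filter_mono nhdsWithin_le_nhds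
    obtain ⟨z, ha, hb, hc⟩ := (h1.and (h0.and (hvf i₀))).exists
    obtain ⟨ζ, hd, he, hg⟩ := (ha.and (hb.and hc)).exists
    have hg' : (f ζ).rep i₀ / (f ζ).rep i₀ = v i₀ ζ := hg
    rw [hd, div_self he] at hg'
    exact one_ne_zero hg'
  have hne1 : meromorphicOrderAt (v j₁) 0 ≠ ⊤ :=
    ne_top_of_le_ne_top hne (hj₁ i₀ (Finset.mem_univ _))
  obtain ⟨n, hn⟩ := WithTop.ne_top_iff_exists.mp hne1
  have hw : ∀ j, ∃ w : ℂ → ℂ, AnalyticAt ℂ w 0 ∧ (∀ᶠ z in 𝓝[≠] (0 : ℂ), v j z = z ^ n * w z) ∧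
      (meromorphicOrderAt (v j) 0 = n → w 0 ≠ 0) := fun j =>
    Extend_factor (hv j) (by rw [hn]; exact hj₁ j (Finset.mem_univ _))
  choose w hwan hwv hw0 using hw
  have hw1 : w j₁ 0 ≠ 0 := hw0 j₁ hn.symm
  -- the local statement near the puncture
  have hmain : ∀ᶠ z in 𝓝[≠] (0 : ℂ), ∃ hh : (fun j => w j z) ≠ 0,
      f z = Projectivization.mk ℂ (fun j => w j z) hh := by
    have a1 : ∀ᶠ z in 𝓝[≠] (0 : ℂ), ∀ j, ∀ᶠ ζ in 𝓝 z, v j ζ = ζ ^ n * w j ζ := by
      rw [eventually_all]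
      intro j
      have h2 : ∀ᶠ z in 𝓝 (0 : ℂ), z ≠ 0 → v j z = z ^ n * w j z :=
        eventually_nhdsWithin_iff.mp (hwv j)
      have h3 := h2.eventually_nhds
      filter_upwards [h3.filter_mono nhdsWithin_le_nhds, self_mem_nhdsWithin] with z hz hz0
      have hz0' : z ≠ 0 := hz0
      have h4 : ∀ᶠ ζ in 𝓝 z, ζ ≠ 0 := isOpen_ne.mem_nhds hz0'
      filter_upwards [hz, h4] with ζ ha hb
      exact ha hb
    have a2 : ∀ᶠ z in 𝓝[≠] (0 : ℂ), ∀ j,
        (fun ζ => (f ζ).rep j / (f ζ).rep i₀) =ᶠ[𝓝[≠] z] v j := by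
      rw [eventually_all]
      exact hvf
    have a3 : ∀ᶠ z in 𝓝[≠] (0 : ℂ), ∀ j, AnalyticAt ℂ (w j) z := by
      rw [eventually_all]
      exact fun j => (hwan j).eventually_analyticAt.filter_mono nhdsWithin_le_nhds
    have a4 : ∀ᶠ z in 𝓝[≠] (0 : ℂ), w j₁ z ≠ 0 :=
      ((hwan j₁).continuousAt.eventually_ne hw1).filter_mono nhdsWithin_le_nhds
    have a5 : ∀ᶠ z in 𝓝[≠] (0 : ℂ), z ∈ puncturedDisc := by
      filter_upwards [mem_nhdsWithin_of_mem_nhds (Metric.ball_mem_nhds (0 : ℂ) one_pos),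
        self_mem_nhdsWithin] with z h1 h2
      exact ⟨h1, h2⟩
    filter_upwards [a1, a2, a3, a4, a5, h0, self_mem_nhdsWithin] with z b1 b2 b3 b4 b5 b6 b7
    obtain ⟨φ, hφ, hφf⟩ := hf z b5
    have hφ1 : ∀ i, AnalyticAt ℂ (fun z => φ z i) z := fun i => (analyticAt_pi_iff.mp hφ) i
    have hcross : ∀ i j, φ z i * w j z = φ z j * w i z := by
      intro i j
      have hev : (fun ζ => φ ζ i * w j ζ - φ ζ j * w i ζ) =ᶠ[𝓝[≠] z] fun _ => (0 : ℂ) := by
        have b1' : ∀ᶠ ζ in 𝓝[≠] z, ∀ j, v j ζ = ζ ^ n * w j ζ := by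
          rw [eventually_all]
          exact fun j => (b1 j).filter_mono nhdsWithin_le_nhds
        have b2' : ∀ᶠ ζ in 𝓝[≠] z, ∀ j, (f ζ).rep j / (f ζ).rep i₀ = v j ζ := by
          rw [eventually_all]
          exact b2
        filter_upwards [b1', b2', b6, hφf.filter_mono nhdsWithin_le_nhds] with ζ c1 c2 c3 c4
        obtain ⟨hφ0, hfφ⟩ := c4
        obtain ⟨c, hc, hrep⟩ := Extend_rep hφ0 hfφ
        have key : ∀ j, φ ζ j = φ ζ i₀ * (ζ ^ n * w j ζ) := by
          intro j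
          have e1 := c2 j
          rw [c1 j, hrep j, hrep i₀, mul_div_mul_left _ _ hc] at e1
          have e2 : φ ζ i₀ ≠ 0 := by
            intro e3
            apply c3
            rw [hrep i₀, e3, mul_zero]
          rw [div_eq_iff e2] at e1
          rw [e1, mul_comm]
        rw [key i, key j]
        ring
      have hcont : ContinuousAt (fun ζ => φ ζ i * w j ζ - φ ζ j * w i ζ) z :=
        (((hφ1 i).mul (b3 j)).sub ((hφ1 j).mul (b3 i))).continuousAt
      have h1 : Tendsto (fun ζ => φ ζ i * w j ζ - φ ζ j * w i ζ) (𝓝[≠] z)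
          (𝓝 (φ z i * w j z - φ z j * w i z)) := hcont.tendsto.mono_left nhdsWithin_le_nhds
      have h2 : Tendsto (fun ζ => φ ζ i * w j ζ - φ ζ j * w i ζ) (𝓝[≠] z) (𝓝 0) :=
        tendsto_const_nhds.congr' hev.symm
      exact sub_eq_zero.mp (tendsto_nhds_unique h1 h2)
    have hwz : (fun j => w j z) ≠ 0 := fun hh => b4 (congrFun hh j₁)
    refine ⟨hwz, ?_⟩
    obtain ⟨hφ0, hfφ⟩ := hφf.self_of_nhds
    rw [hfφ, Projectivization.mk_eq_mk_iff']
    refine ⟨φ z j₁ / w j₁ z, ?_⟩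
    funext j
    simp only [Pi.smul_apply, smul_eq_mul]
    rw [div_mul_eq_mul_div, div_eq_iff b4]
    exact hcross j₁ j
  -- the extension
  have hv0 : (fun j => w j 0) ≠ 0 := fun h => hw1 (congrFun h j₁)
  set g : ℂ → PN N := Function.update f 0 (Projectivization.mk ℂ (fun j => w j 0) hv0) with hg
  have hgf : ∀ z, z ≠ 0 → g z = f z := fun z hz => by
    rw [hg, Function.update_of_ne hz]
  refine ⟨g, ?_, fun z hz => hgf z fun h => hz.2 (by simp [h])⟩
  intro z₀ hz₀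
  by_cases h00 : z₀ = 0
  · subst h00
    refine ⟨fun z => (fun j => w j z), analyticAt_pi_iff.mpr hwan, ?_⟩
    filter_upwards [eventually_nhdsWithin_iff.mp hmain] with z hz
    by_cases hz0 : z = 0
    · subst hz0
      exact ⟨hv0, by rw [hg, Function.update_self]⟩
    · obtain ⟨h1, h2⟩ := hz hz0
      exact ⟨h1, by rw [hgf z hz0, h2]⟩
  · obtain ⟨φ, hφ, hφf⟩ := hf z₀ ⟨hz₀, by simpa using h00⟩
    refine ⟨φ, hφ, ?_⟩
    have h1 : ∀ᶠ z in 𝓝 z₀, z ∈ ({0}ᶜ : Set ℂ) := isOpen_compl_singleton.mem_nhds h00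
    filter_upwards [hφf, h1] with z hz hz'
    rw [hgf z hz']
    exact hz

end Pool.Agent.H62.FC
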