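import Pool.Agent.H62.FC.Words
import Pool.Agent.H62.FC.Defs
import Pool.Agent.H62.FC.NevDefs
import Pool.Agent.H62.FC.CircuitDefs
import Pool.Agent.H62.FC.Dichotomy
import Pool.Agent.H62.FC.Extend
import Pool.Agent.H17.Modulus
import Pool.Agent.H99.Cover.Basic

/-!
# Fermat covers: the big Picard theorem and the Brody statement outside the exceptional set
-/

noncomputable section

namespace Pool.Agent.H62.FC

open MvPolynomial Topology Filter
open Pool.Agent.H92.GGL (ordZ)
open Pool.Agent.H17 (PN VanishesAt zeroLocus ZariskiClosedIn HolomorphicInto puncturedDisc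
  PseudoBrodyHyperbolic PseudoPicardHyperbolic)
open Pool.Agent.H17GT (coordFun)
open Pool.Agent.H17LG.Variety (FunField ratio IsLogGeneralType)
open Pool.Agent.H23.Fano (PrimeDivisorOver)

variable {N : ℕ} {κ : Type} {A : κ → MvPolynomial (Fin (N + 1)) ℂ} {e : κ → ℕ}
  {O : Finset (Fin (N + 1))} {P : Ideal (MvPolynomial (Fin (N + 1)) ℂ)}

/-! ### Restriction of polynomials to some of the variables -/

open Classical in
/-- the part of `p` which only involves the variables in `T` -/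
private def restr (T : Finset (Fin (N + 1))) (p : MvPolynomial (Fin (N + 1)) ℂ) :
    MvPolynomial {i // i ∈ T} ℂ :=
  ∑ a ∈ p.support.filter (fun a => ∀ i, i ∉ T → a i = 0),
    monomial (a.subtypeDomain (fun i => i ∈ T)) (coeff a p)

private theorem restr_support {T : Finset (Fin (N + 1))} {p : MvPolynomial (Fin (N + 1)) ℂ}
    {b : {i // i ∈ T} →₀ ℕ} (hb : b ∈ (restr T p).support) :
    ∃ a ∈ p.support, (∀ i, i ∉ T → a i = 0) ∧ ∀ i : {i // i ∈ T}, b i = a i := by
  classical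
  unfold restr at hb
  have h1 := MvPolynomial.support_sum hb
  rw [Finset.mem_biUnion] at h1
  obtain ⟨a, ha, hab⟩ := h1
  obtain ⟨ha1, ha2⟩ := Finset.mem_filter.mp ha
  have h2 := MvPolynomial.support_monomial_subset hab
  rw [Finset.mem_singleton] at h2
  refine ⟨a, ha1, ha2, fun i => ?_⟩
  rw [h2]
  rfl

private theorem restr_card (T : Finset (Fin (N + 1))) (p : MvPolynomial (Fin (N + 1)) ℂ) :
    (restr T p).support.card ≤ p.support.card := by
  classical
  have h : (restr T p).support ⊆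
      p.support.image (fun a => a.subtypeDomain (fun i => i ∈ T)) := by
    intro b hb
    obtain ⟨a, ha, -, hab⟩ := restr_support hb
    rw [Finset.mem_image]
    refine ⟨a, ha, ?_⟩
    ext i
    rw [hab i]
    rfl
  exact (Finset.card_le_card h).trans Finset.card_image_le

private theorem restr_sum {M : Type*} [AddCommMonoid M] {T : Finset (Fin (N + 1))}
    (a : Fin (N + 1) → M) (ha : ∀ i, i ∉ T → a i = 0) :
    ∑ i : {i // i ∈ T}, a i = ∑ i, a i := by
  rw [Finset.sum_coe_sort T a]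
  exact Finset.sum_subset (Finset.subset_univ T) fun i _ hi => ha i hi

private theorem restr_prod {M : Type*} [CommMonoid M] {T : Finset (Fin (N + 1))}
    (a : Fin (N + 1) → M) (ha : ∀ i, i ∉ T → a i = 1) :
    ∏ i : {i // i ∈ T}, a i = ∏ i, a i := by
  rw [Finset.prod_coe_sort T a]
  exact Finset.prod_subset (Finset.subset_univ T) fun i _ hi => ha i hi

private theorem restr_homog {T : Finset (Fin (N + 1))} {p : MvPolynomial (Fin (N + 1)) ℂ} {m : ℕ}
    (hp : p.IsHomogeneous m) : (restr T p).IsHomogeneous m := by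
  classical
  unfold restr
  refine MvPolynomial.IsHomogeneous.sum _ _ _ fun a ha => ?_
  obtain ⟨ha1, ha2⟩ := Finset.mem_filter.mp ha
  refine MvPolynomial.isHomogeneous_monomial _ ?_
  have hdeg : a.degree = m := by
    by_contra hne
    exact (mem_support_iff.mp ha1) (hp.coeff_eq_zero hne)
  rw [← hdeg, Finsupp.degree_eq_sum, Finsupp.degree_eq_sum]
  exact restr_sum (fun i => a i) ha2

private theorem restr_eval {T : Finset (Fin (N + 1))} (p : MvPolynomial (Fin (N + 1)) ℂ)
    (g : Fin (N + 1) → ℂ) (hg : ∀ i, i ∉ T → g i = 0) :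
    eval (fun i : {i // i ∈ T} => g i) (restr T p) = eval g p := by
  classical
  unfold restr
  rw [map_sum, MvPolynomial.eval_eq', Finset.sum_filter]
  refine Finset.sum_congr rfl fun a _ => ?_
  by_cases ha : ∀ i, i ∉ T → a i = 0
  · rw [if_pos ha, MvPolynomial.eval_monomial, Finsupp.prod_fintype _ _ (fun _ => pow_zero _)]
    congr 1
    exact restr_prod (fun i => g i ^ a i) fun i hi => by rw [ha i hi, pow_zero]
  · rw [if_neg ha]
    push Not at ha
    obtain ⟨i, hi, hai⟩ := ha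
    rw [Finset.prod_eq_zero (Finset.mem_univ i), mul_zero]
    rw [hg i hi, zero_pow hai]

/-! ### Level sums -/

private theorem whc_homog {σ : Type} {p : MvPolynomial σ ℂ} {m : ℕ} (hp : p.IsHomogeneous m)
    (n : σ → ℤ) (v : ℤ) : (weightedHomogeneousComponent n v p).IsHomogeneous m := by
  classical
  intro a ha
  rw [coeff_weightedHomogeneousComponent] at ha
  split_ifs at ha with h
  · exact hp ha
  · exact absurd rfl ha

private theorem eval_level {σ : Type} [Fintype σ] (p : MvPolynomial σ ℂ) (n : σ → ℤ) (a : σ → ℂ)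
    (h : ∀ v, eval a (weightedHomogeneousComponent n v p) = 0) {t : ℂ} (ht : t ≠ 0) :
    eval (fun i => a i * t ^ n i) p = 0 := by
  classical
  have h1 : ∀ d : σ →₀ ℕ, ∏ i, (a i * t ^ n i) ^ d i =
      (∏ i, a i ^ d i) * t ^ (Finsupp.weight n d) := by
    intro d
    rw [Finsupp.weight_apply, Finsupp.sum_fintype _ _ (by intro i; simp)]
    have h2 : t ^ (∑ i, d i • n i) = ∏ i, t ^ (d i • n i) := by
      refine Finset.induction_on (Finset.univ : Finset σ) (by simp) ?_
      intro i s hi ih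
      rw [Finset.sum_insert hi, Finset.prod_insert hi, zpow_add₀ ht, ih]
    rw [h2, ← Finset.prod_mul_distrib]
    refine Finset.prod_congr rfl fun i _ => ?_
    rw [mul_pow, nsmul_eq_mul, mul_comm (d i : ℤ) (n i), zpow_mul, zpow_natCast]
  rw [MvPolynomial.eval_eq']
  have h3 : ∀ d ∈ p.support, Finsupp.weight n d ∈ p.support.image (Finsupp.weight n) :=
    fun d hd => Finset.mem_image_of_mem _ hd
  rw [← Finset.sum_fiberwise_of_maps_to h3]
  refine Finset.sum_eq_zero fun v _ => ?_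
  have h4 : ∑ d ∈ p.support with Finsupp.weight n d = v, coeff d p * ∏ i, (a i * t ^ n i) ^ d i =
      t ^ v * eval a (weightedHomogeneousComponent n v p) := by
    rw [weightedHomogeneousComponent_apply, map_sum, Finset.mul_sum]
    refine Finset.sum_congr rfl fun d hd => ?_
    have hdv := (Finset.mem_filter.mp hd).2
    rw [h1 d, hdv, MvPolynomial.eval_monomial, Finsupp.prod_fintype _ _ (fun _ => pow_zero _)]
    ring
  rw [h4, h v, mul_zero]

/-! ### Holomorphic maps of the punctured disc -/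

private theorem preconnected_puncturedDisc : IsPreconnected puncturedDisc := by
  have h : puncturedDisc = Complex.exp '' {z : ℂ | z.re < 0} := by
    ext z
    constructor
    · rintro ⟨h1, h2⟩
      have h3 : z ≠ 0 := h2
      refine ⟨Complex.log z, ?_, Complex.exp_log h3⟩
      rw [mem_ball_zero_iff] at h1
      change (Complex.log z).re < 0
      rw [Complex.log_re]
      exact Real.log_neg (norm_pos_iff.mpr h3) h1
    · rintro ⟨w, hw, rfl⟩
      refine ⟨?_, Complex.exp_ne_zero w⟩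
      rw [mem_ball_zero_iff, Complex.norm_exp]
      have h1 := Real.exp_lt_exp.mpr hw
      rwa [Real.exp_zero] at h1
  rw [h]
  exact (convex_halfSpace_re_lt 0).isPreconnected.image _ Complex.continuous_exp.continuousOn

private theorem isOpen_puncturedDisc : IsOpen puncturedDisc :=
  Metric.isOpen_ball.sdiff isClosed_singleton

private theorem mem_puncturedDisc {z : ℂ} : z ∈ puncturedDisc ↔ 0 < ‖z‖ ∧ ‖z‖ < 1 := by
  unfold puncturedDisc
  rw [Set.mem_sdiff, mem_ball_zero_iff, Set.mem_singleton_iff, norm_pos_iff]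
  exact and_comm

private theorem vanishesAt_X {x : PN N} {i : Fin (N + 1)} : VanishesAt (X i) x ↔ x.rep i = 0 := by
  unfold VanishesAt
  rw [eval_X]

private theorem vanish_local {f : ℂ → PN N} {s : ℂ} {φ : ℂ → Fin (N + 1) → ℂ}
    (hφ : AnalyticAt ℂ φ s)
    (he : ∀ᶠ z in 𝓝 s, ∃ h : φ z ≠ 0, f z = Projectivization.mk ℂ (φ z) h)
    {Q : MvPolynomial (Fin (N + 1)) ℂ} {m : ℕ} (hQ : Q.IsHomogeneous m) :
    (∀ᶠ z in 𝓝 s, VanishesAt Q (f z)) ∨ (∀ᶠ z in 𝓝[≠] s, ¬ VanishesAt Q (f z)) := by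
  have h1 : AnalyticAt ℂ (fun z => aeval (φ z) Q) s :=
    AnalyticAt.aeval_mvPolynomial (fun i => analyticAt_pi_iff.mp hφ i) Q
  rcases h1.eventually_eq_zero_or_eventually_ne_zero with h | h
  · left
    filter_upwards [h, he] with z hz hfz
    obtain ⟨h2, h3⟩ := hfz
    rw [h3, Pool.Agent.H17.vanishesAt_mk_iff hQ]
    exact hz
  · right
    filter_upwards [h, he.filter_mono nhdsWithin_le_nhds] with z hz hfz
    obtain ⟨h2, h3⟩ := hfz
    rw [h3, Pool.Agent.H17.vanishesAt_mk_iff hQ]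
    exact hz

/-- the identity principle -/
private theorem vanish_dich {f : ℂ → PN N} (hf : HolomorphicInto f puncturedDisc)
    {Q : MvPolynomial (Fin (N + 1)) ℂ} {m : ℕ} (hQ : Q.IsHomogeneous m) :
    (∀ s ∈ puncturedDisc, ∀ᶠ z in 𝓝 s, VanishesAt Q (f z)) ∨
      (∀ s ∈ puncturedDisc, ∀ᶠ z in 𝓝[≠] s, ¬ VanishesAt Q (f z)) := by
  have hou : IsOpen {s | ∀ᶠ z in 𝓝 s, VanishesAt Q (f z)} := isOpen_setOfPred_eventually_nhds
  have hov : IsOpen {s | ∀ᶠ z in 𝓝[≠] s, ¬ VanishesAt Q (f z)} :=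
    isOpen_setOfPred_eventually_nhdsWithin
  have hd : Disjoint {s | ∀ᶠ z in 𝓝 s, VanishesAt Q (f z)}
      {s | ∀ᶠ z in 𝓝[≠] s, ¬ VanishesAt Q (f z)} := by
    rw [Set.disjoint_left]
    intro s hs hs'
    have h1 : ∀ᶠ z in 𝓝 s, VanishesAt Q (f z) := hs
    have h2 : ∀ᶠ z in 𝓝[≠] s, ¬ VanishesAt Q (f z) := hs'
    obtain ⟨z, h3, h4⟩ := ((h1.filter_mono nhdsWithin_le_nhds).and h2).exists
    exact h4 h3
  have hsub : puncturedDisc ⊆ {s | ∀ᶠ z in 𝓝 s, VanishesAt Q (f z)} ∪
      {s | ∀ᶠ z in 𝓝[≠] s, ¬ VanishesAt Q (f z)} := by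
    intro s hs
    obtain ⟨φ, hφ, he⟩ := hf s hs
    exact vanish_local hφ he hQ
  by_cases hne : (puncturedDisc ∩ {s | ∀ᶠ z in 𝓝 s, VanishesAt Q (f z)}).Nonempty
  · left
    intro s hs
    exact (preconnected_puncturedDisc.subset_left_of_subset_union hou hov hd hsub hne) hs
  · right
    intro s hs
    rcases hsub hs with h | h
    · exact absurd ⟨s, hs, h⟩ hne
    · exact h

/-- lifts and representatives -/
private theorem exists_lift {f : ℂ → PN N} (hf : HolomorphicInto f puncturedDisc) {s : ℂ}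
    (hs : s ∈ puncturedDisc) : ∃ φ : ℂ → Fin (N + 1) → ℂ, (∀ i, AnalyticAt ℂ (fun z => φ z i) s) ∧
      ∀ᶠ z in 𝓝 s, ∃ c : ℂ, c ≠ 0 ∧ ∀ i, (f z).rep i = c * φ z i := by
  obtain ⟨φ, hφ, he⟩ := hf s hs
  refine ⟨φ, analyticAt_pi_iff.mp hφ, ?_⟩
  filter_upwards [he] with z hz
  obtain ⟨h1, h2⟩ := hz
  obtain ⟨a, ha, h3⟩ := Pool.Agent.H17.exists_smul_rep (φ z) h1
  refine ⟨a, ha, fun i => ?_⟩
  rw [h2, h3]
  rfl

private theorem ord_eq_zero_of_ne {g : ℂ → ℂ} {s : ℂ} (hg : AnalyticAt ℂ g s) (h : g s ≠ 0) :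
    ordZ g s = 0 := by
  unfold ordZ
  rw [hg.meromorphicOrderAt_eq, hg.analyticOrderAt_eq_zero.mpr h]
  rfl

open Classical in
/-- the coordinates of `f` which are not identically zero -/
private def nzSet (f : ℂ → PN N) : Finset (Fin (N + 1)) :=
  Finset.univ.filter fun i => ∀ s ∈ puncturedDisc, ∀ᶠ z in 𝓝[≠] s, (f z).rep i ≠ 0

private theorem nz_mem {f : ℂ → PN N} {i : Fin (N + 1)} (hi : i ∈ nzSet f) {s : ℂ}
    (hs : s ∈ puncturedDisc) : ∀ᶠ z in 𝓝[≠] s, (f z).rep i ≠ 0 := by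
  unfold nzSet at hi
  simp only [Finset.mem_filter, Finset.mem_univ, true_and] at hi
  exact hi s hs

private theorem nz_notMem {f : ℂ → PN N} (hf : HolomorphicInto f puncturedDisc)
    {i : Fin (N + 1)} (hi : i ∉ nzSet f) {s : ℂ} (hs : s ∈ puncturedDisc) : (f s).rep i = 0 := by
  rcases vanish_dich hf (isHomogeneous_X ℂ i) with h | h
  · exact vanishesAt_X.mp (h s hs).self_of_nhds
  · exfalso
    apply hi
    unfold nzSet
    simp only [Finset.mem_filter, Finset.mem_univ, true_and]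
    intro s hs
    filter_upwards [h s hs] with z hz hz'
    exact hz (vanishesAt_X.mpr hz')

private theorem quot_mero {f : ℂ → PN N} (hf : HolomorphicInto f puncturedDisc)
    (i i₀ : Fin (N + 1)) {s : ℂ} (hs : s ∈ puncturedDisc) :
    MeromorphicAt (fun z => (f z).rep i / (f z).rep i₀) s := by
  obtain ⟨φ, hφ, he⟩ := exists_lift hf hs
  have h1 : MeromorphicAt (fun z => φ z i / φ z i₀) s :=
    (hφ i).meromorphicAt.fun_div (hφ i₀).meromorphicAt
  refine h1.congr ?_
  filter_upwards [he.filter_mono nhdsWithin_le_nhds] with z hz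
  obtain ⟨c, hc, h2⟩ := hz
  rw [h2, h2, mul_div_mul_left _ _ hc]

private theorem quot_meroPunct {f : ℂ → PN N} (hf : HolomorphicInto f puncturedDisc)
    {i i₀ : Fin (N + 1)} (hi : i ∈ nzSet f) (hi₀ : i₀ ∈ nzSet f) :
    MeroPunct 1 (fun z => (f z).rep i / (f z).rep i₀) where
  mero z h1 h2 := quot_mero hf i i₀ (mem_puncturedDisc.mpr ⟨h1, h2⟩)
  ord z h1 h2 := by
    have hs := mem_puncturedDisc.mpr ⟨h1, h2⟩
    rw [meromorphicOrderAt_ne_top_iff_eventually_ne_zero (quot_mero hf i i₀ hs)]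
    filter_upwards [nz_mem hi hs, nz_mem hi₀ hs] with w h3 h4
    exact div_ne_zero h3 h4

private theorem ord_quot {f : ℂ → PN N} (hf : HolomorphicInto f puncturedDisc) {s : ℂ}
    (hs : s ∈ puncturedDisc) : ∃ o : Fin (N + 1) → ℤ, (∀ i, (f s).rep i ≠ 0 → o i = 0) ∧
      ∀ i ∈ nzSet f, ∀ i₀ ∈ nzSet f,
        ordZ (fun z => (f z).rep i / (f z).rep i₀) s = o i - o i₀ := by
  obtain ⟨φ, hφ, he⟩ := exists_lift hf hs
  have hne : ∀ i ∈ nzSet f, ∀ᶠ z in 𝓝[≠] s, φ z i ≠ 0 := by
    intro i hi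
    filter_upwards [he.filter_mono nhdsWithin_le_nhds, nz_mem hi hs] with z hz h1 h2
    obtain ⟨c, hc, h3⟩ := hz
    apply h1
    rw [h3, h2, mul_zero]
  have htop : ∀ i ∈ nzSet f, meromorphicOrderAt (fun z => φ z i) s ≠ ⊤ := fun i hi =>
    (meromorphicOrderAt_ne_top_iff_eventually_ne_zero (hφ i).meromorphicAt).mpr (hne i hi)
  refine ⟨fun i => ordZ (fun z => φ z i) s, ?_, ?_⟩
  · intro i hi
    refine ord_eq_zero_of_ne (hφ i) fun h => hi ?_
    obtain ⟨c, hc, h2⟩ := he.self_of_nhds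
    rw [h2, h, mul_zero]
  · intro i hi i₀ hi₀
    have h1 : (fun z => φ z i) =ᶠ[𝓝[≠] s]
        (fun z => ((f z).rep i / (f z).rep i₀) * φ z i₀) := by
      filter_upwards [he.filter_mono nhdsWithin_le_nhds, hne i₀ hi₀] with z hz h3
      obtain ⟨c, hc, h2⟩ := hz
      rw [h2, h2, mul_div_mul_left _ _ hc, div_mul_cancel₀ _ h3]
    have h2 := meromorphicOrderAt_congr h1
    have h3 : meromorphicOrderAt (fun z => ((f z).rep i / (f z).rep i₀) * φ z i₀) s =
        meromorphicOrderAt (fun z => (f z).rep i / (f z).rep i₀) s +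
          meromorphicOrderAt (fun z => φ z i₀) s :=
      fun_meromorphicOrderAt_mul (quot_mero hf i i₀ hs) (hφ i₀).meromorphicAt
    have h5 := mem_puncturedDisc.mp hs
    rw [h3, ← Pool.Agent.H92.GGL.ordZ_cast (htop i hi),
      ← Pool.Agent.H92.GGL.ordZ_cast (htop i₀ hi₀),
      ← Pool.Agent.H92.GGL.ordZ_cast ((quot_meroPunct hf hi hi₀).ord s h5.1 h5.2)] at h2
    have h4 : ordZ (fun z => φ z i) s =
        ordZ (fun z => (f z).rep i / (f z).rep i₀) s + ordZ (fun z => φ z i₀) s := by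
      exact_mod_cast h2
    change _ = ordZ (fun z => φ z i) s - ordZ (fun z => φ z i₀) s
    linarith

private theorem eval_quot {T : Finset (Fin (N + 1))} {q : MvPolynomial {i // i ∈ T} ℂ} {m : ℕ}
    (hq : q.IsHomogeneous m) (x : Fin (N + 1) → ℂ) {i₀ : Fin (N + 1)} (h : x i₀ ≠ 0) :
    eval (fun i : {i // i ∈ T} => x i) q =
      x i₀ ^ m * eval (fun i : {i // i ∈ T} => x i / x i₀) q := by
  rw [← Pool.Agent.H17.eval_smul_of_isHomogeneous hq]
  congr 1
  congr 1
  funext i
  field_simp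

private theorem eventually_mem_puncturedDisc {s : ℂ} (hs : s ∈ puncturedDisc) :
    ∀ᶠ z in 𝓝[≠] s, z ∈ puncturedDisc := by
  have h : ∀ᶠ z in 𝓝 s, z ∈ puncturedDisc := isOpen_puncturedDisc.mem_nhds hs
  exact h.filter_mono nhdsWithin_le_nhds

private theorem eventually_puncturedDisc_zero : ∀ᶠ z in 𝓝[≠] (0 : ℂ), z ∈ puncturedDisc := by
  have h1 : ∀ᶠ z in 𝓝 (0 : ℂ), z ∈ Metric.ball (0 : ℂ) 1 :=
    Metric.ball_mem_nhds (0 : ℂ) one_pos
  filter_upwards [h1.filter_mono nhdsWithin_le_nhds, self_mem_nhdsWithin] with z h2 h3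
  exact ⟨h2, h3⟩

/-! D-C -/
theorem picard {k d : ℕ}
    (hA : ∀ l, (A l).IsHomogeneous (e l)) (hk : ∀ l, (A l).support.card ≤ k)
    (hdiv : ∀ l, ∀ a ∈ (A l).support, ∀ i ∉ O, d ∣ a i) (hd : k * (k - 2) < d)
    {f : ℂ → PN N} (hf : HolomorphicInto f puncturedDisc)
    (hfX : ∀ z ∈ puncturedDisc, f z ∈ openLocus A O)
    (hne : ∃ z ∈ puncturedDisc, f z ∉ excSet (openLocus A O)) :
    ∃ g : ℂ → PN N, HolomorphicInto g (Metric.ball 0 1) ∧ ∀ z ∈ puncturedDisc, g z = f z := by
  classical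
  obtain ⟨z₀, hz₀, hz₀'⟩ := hne
  set T : Finset (Fin (N + 1)) := nzSet f with hT
  have hOT : ∀ i ∈ O, i ∈ T := by
    intro i hi
    by_contra hcon
    exact (hfX z₀ hz₀).2 i hi (nz_notMem hf hcon hz₀)
  obtain ⟨i₀, hi₀⟩ : ∃ i, (f z₀).rep i ≠ 0 := by
    by_contra hcon
    push Not at hcon
    exact (f z₀).rep_nonzero (funext hcon)
  have hi₀T : i₀ ∈ T := by
    by_contra hcon
    exact hi₀ (nz_notMem hf hcon hz₀)
  -- evaluation of the restricted polynomials
  have hevalA : ∀ (q : MvPolynomial (Fin (N + 1)) ℂ), ∀ z ∈ puncturedDisc,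
      eval (fun i : {i // i ∈ T} => (f z).rep i) (restr T q) = eval (f z).rep q :=
    fun q z hz => restr_eval q _ fun i hi => nz_notMem hf hi hz
  have hPunct : ∀ i : {i // i ∈ T},
      MeroPunct 1 ((fun (i : {i // i ∈ T}) (z : ℂ) => (f z).rep i / (f z).rep i₀) i) :=
    fun i => quot_meroPunct hf i.2 hi₀T
  have hcard : ∀ l, ((fun l => restr T (A l)) l).support.card ≤ k := fun l =>
    (restr_card T (A l)).trans (hk l)
  have hrel : ∀ l z, 0 < ‖z‖ → ‖z‖ < 1 → ∀ᶠ ζ in 𝓝[≠] z,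
      eval (fun i : {i // i ∈ T} => (f ζ).rep i / (f ζ).rep i₀) (restr T (A l)) = 0 := by
    intro l z h1 h2
    have hz := mem_puncturedDisc.mpr ⟨h1, h2⟩
    filter_upwards [eventually_mem_puncturedDisc hz, nz_mem hi₀T hz] with ζ hζ h3
    have h4 := eval_quot (restr_homog (T := T) (hA l)) (f ζ).rep h3
    rw [hevalA (A l) ζ hζ] at h4
    have h5 : eval (f ζ).rep (A l) = 0 := (hfX ζ hζ).1 l
    rw [h5] at h4
    exact (mul_eq_zero.mp h4.symm).resolve_left (pow_ne_zero _ h3)
  have hdivP : ∀ l, ∀ a ∈ (restr T (A l)).support, ∀ b ∈ (restr T (A l)).support,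
      ∀ z, 0 < ‖z‖ → ‖z‖ < 1 → (d : ℤ) ∣ ∑ i : {i // i ∈ T}, ((a i : ℤ) - b i) *
        ordZ (fun z => (f z).rep i / (f z).rep i₀) z := by
    intro l a ha b hb z h1 h2
    have hz := mem_puncturedDisc.mpr ⟨h1, h2⟩
    obtain ⟨o, ho1, ho2⟩ := ord_quot hf hz
    obtain ⟨a', ha1, ha2, ha3⟩ := restr_support ha
    obtain ⟨b', hb1, hb2, hb3⟩ := restr_support hb
    have hdeg : ∀ c' ∈ (A l).support, ∑ i, (c' i : ℤ) = e l := by
      intro c' hc'
      have h3 : c'.degree = e l := by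
        by_contra hne
        exact (mem_support_iff.mp hc') ((hA l).coeff_eq_zero hne)
      rw [← h3, Finsupp.degree_eq_sum]
      push_cast
      rfl
    have h4 : ∑ i : {i // i ∈ T}, ((a i : ℤ) - b i) *
        ordZ (fun z => (f z).rep i / (f z).rep i₀) z =
        ∑ i : {i // i ∈ T}, ((a' i : ℤ) - b' i) * o i := by
      have h5 : ∀ i : {i // i ∈ T}, ((a i : ℤ) - b i) *
          ordZ (fun z => (f z).rep i / (f z).rep i₀) z =
          ((a' i : ℤ) - b' i) * o i - ((a' i : ℤ) - b' i) * o i₀ := by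
        intro i
        rw [ho2 i i.2 i₀ hi₀T, ha3 i, hb3 i]
        ring
      rw [Finset.sum_congr rfl fun i _ => h5 i, Finset.sum_sub_distrib, ← Finset.sum_mul,
        Finset.sum_sub_distrib]
      have h6 : ∑ i : {i // i ∈ T}, (a' i : ℤ) = e l := by
        rw [restr_sum (fun i => (a' i : ℤ)) (fun i hi => by simp [ha2 i hi])]
        exact hdeg a' ha1
      have h7 : ∑ i : {i // i ∈ T}, (b' i : ℤ) = e l := by
        rw [restr_sum (fun i => (b' i : ℤ)) (fun i hi => by simp [hb2 i hi])]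
        exact hdeg b' hb1
      rw [h6, h7]
      ring
    rw [h4]
    refine Finset.dvd_sum fun i _ => ?_
    by_cases hiO : (i : Fin (N + 1)) ∈ O
    · rw [ho1 i ((hfX z hz).2 i hiO), mul_zero]
      exact dvd_zero _
    · have h5 : (d : ℤ) ∣ (a' i : ℤ) := by exact_mod_cast hdiv l a' ha1 i hiO
      have h6 : (d : ℤ) ∣ (b' i : ℤ) := by exact_mod_cast hdiv l b' hb1 i hiO
      exact Dvd.dvd.mul_right (dvd_sub h5 h6) _
  have hlev : ∀ n : {i // i ∈ T} → ℤ, (∀ l v z, 0 < ‖z‖ → ‖z‖ < 1 → ∀ᶠ ζ in 𝓝[≠] z,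
      eval (fun i : {i // i ∈ T} => (f ζ).rep i / (f ζ).rep i₀)
        (weightedHomogeneousComponent n v (restr T (A l))) = 0) → ∀ i j, n i = n j := by
    intro n hn
    by_contra hcon
    push Not at hcon
    obtain ⟨i₁, j₁, hij⟩ := hcon
    -- the level forms vanish along `f`
    have hform : ∀ l v, ∀ z ∈ puncturedDisc, eval (fun i : {i // i ∈ T} => (f z).rep i)
        (weightedHomogeneousComponent n v (restr T (A l))) = 0 := by
      intro l v
      have hQ : (rename (Subtype.val : {i // i ∈ T} → Fin (N + 1))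
          (weightedHomogeneousComponent n v (restr T (A l)))).IsHomogeneous (e l) :=
        (whc_homog (restr_homog (hA l)) n v).rename_isHomogeneous
      have hQv : ∀ z, VanishesAt (rename (Subtype.val : {i // i ∈ T} → Fin (N + 1))
          (weightedHomogeneousComponent n v (restr T (A l)))) (f z) ↔
          eval (fun i : {i // i ∈ T} => (f z).rep i)
            (weightedHomogeneousComponent n v (restr T (A l))) = 0 := by
        intro z
        unfold VanishesAt
        rw [eval_rename]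
        rfl
      rcases vanish_dich hf hQ with h | h
      · intro z hz
        exact (hQv z).mp (h z hz).self_of_nhds
      · exfalso
        have h1 := mem_puncturedDisc.mp hz₀
        obtain ⟨ζ, ⟨h2, h3⟩, h4⟩ :=
          (((hn l v z₀ h1.1 h1.2).and (nz_mem hi₀T hz₀)).and (h z₀ hz₀)).exists
        apply h4
        rw [hQv, eval_quot (whc_homog (restr_homog (hA l)) n v) (f ζ).rep h3, h2, mul_zero]
    -- the generic points lie on monomial curves
    have hcurve : ∀ z ∈ puncturedDisc, (∀ i ∈ T, (f z).rep i ≠ 0) →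
        f z ∈ monomialCurves (openLocus A O) := by
      intro z hz hzT
      refine ⟨(f z).rep, (f z).rep_nonzero, fun i => if h : i ∈ T then n ⟨i, h⟩ else 0,
        ((f z).mk_rep).symm, ⟨i₁, j₁, hzT _ i₁.2, hzT _ j₁.2, ?_⟩, ?_⟩
      · beta_reduce
        rw [dif_pos i₁.2, dif_pos j₁.2]
        exact hij
      · intro t h ht
        constructor
        · intro l
          rw [Pool.Agent.H17.vanishesAt_mk_iff (hA l)]
          rw [← restr_eval (T := T) (A l) _ (fun i hi => by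
            rw [nz_notMem hf hi hz, zero_mul])]
          have h1 := eval_level (restr T (A l)) n (fun i : {i // i ∈ T} => (f z).rep i)
            (fun v => hform l v z hz) ht
          rw [← h1]
          congr 1
          congr 1
          funext i
          beta_reduce
          rw [dif_pos i.2]
        · intro i hi hcon
          obtain ⟨a, ha, h1⟩ := Pool.Agent.H17.exists_smul_rep _ h
          rw [h1, Pi.smul_apply, smul_eq_mul] at hcon
          rcases mul_eq_zero.mp hcon with h2 | h2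
          · exact ha h2
          · rcases mul_eq_zero.mp h2 with h3 | h3
            · exact hzT i (hOT i hi) h3
            · exact zpow_ne_zero _ ht h3
    -- hence all points of the curve lie in the exceptional set
    apply hz₀'
    refine ⟨hfX z₀ hz₀, fun m Q hQ hQv => ?_⟩
    rcases vanish_dich hf hQ with h | h
    · exact (h z₀ hz₀).self_of_nhds
    · exfalso
      have h1 : ∀ᶠ z in 𝓝[≠] z₀, ∀ i ∈ T, (f z).rep i ≠ 0 :=
        (Filter.eventually_all_finset T).mpr fun i hi => nz_mem hi hz₀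
      obtain ⟨ζ, ⟨h2, h3⟩, h4⟩ :=
        ((h1.and (eventually_mem_puncturedDisc hz₀)).and (h z₀ hz₀)).exists
      exact h4 (hQv _ (hcurve ζ h3 h2))
  have hmero := punct_dichotomy (κ := κ) one_pos
    (ξ := fun (i : {i // i ∈ T}) (z : ℂ) => (f z).rep i / (f z).rep i₀)
    hPunct (P := fun l => restr T (A l)) hcard hd hrel hdivP hlev
  refine exists_extension hf (i₀ := i₀) ?_ ?_
  · filter_upwards [eventually_puncturedDisc_zero] with z hz
    exact nz_mem hi₀T hz
  · intro i
    by_cases hi : i ∈ T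
    · obtain ⟨v, hv1, hv2⟩ := hmero ⟨i, hi⟩ ⟨i₀, hi₀T⟩
      refine ⟨v, hv1, ?_⟩
      filter_upwards [hv2, eventually_puncturedDisc_zero] with z hz hzD
      refine Filter.EventuallyEq.trans ?_ hz
      filter_upwards [nz_mem hi₀T hzD] with ζ hζ
      rw [div_self hζ, div_one]
    · refine ⟨fun _ => 0, analyticAt_const.meromorphicAt, ?_⟩
      filter_upwards [eventually_puncturedDisc_zero] with z hzD
      filter_upwards [eventually_mem_puncturedDisc hzD] with ζ hζ
      rw [nz_notMem hf hi hζ, zero_div]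

private theorem eq_of_sep {p q : PN N} (h : Pool.Agent.H17.sep p q = 0) : p = q := by
  have h1 := Pool.Agent.H17.eq_of_sepv_eq_zero p.rep_nonzero q.rep_nonzero h
  rwa [p.mk_rep, q.mk_rep] at h1

/-! D-D -/
theorem brody {k d : ℕ}
    (hA : ∀ l, (A l).IsHomogeneous (e l)) (hk : ∀ l, (A l).support.card ≤ k)
    (hdiv : ∀ l, ∀ a ∈ (A l).support, ∀ i ∉ O, d ∣ a i) (hd : k * (k - 2) < d)
    {f : ℂ → PN N} (hf : HolomorphicInto f Set.univ) (hfX : ∀ z, f z ∈ openLocus A O)
    (hne : ∃ z w, f z ≠ f w) (z : ℂ) : f z ∈ excSet (openLocus A O) := by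
  by_contra hz1
  -- a point different from `0` outside the exceptional set
  obtain ⟨w₀, hw₀, hw₀'⟩ : ∃ w, w ≠ 0 ∧ f w ∉ excSet (openLocus A O) := by
    by_cases hz0 : z = 0
    · subst hz0
      have h1 : ∃ (m : ℕ) (Q : MvPolynomial (Fin (N + 1)) ℂ), Q.IsHomogeneous m ∧
          (∀ y ∈ monomialCurves (openLocus A O), VanishesAt Q y) ∧ ¬ VanishesAt Q (f 0) := by
        by_contra hcon
        push Not at hcon
        exact hz1 ⟨hfX 0, fun m Q hQ hQv => hcon m Q hQ hQv⟩
      obtain ⟨m, Q, hQ, hQv, hQ0⟩ := h1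
      obtain ⟨φ, hφ, he⟩ := hf 0 (Set.mem_univ 0)
      rcases vanish_local hφ he hQ with h | h
      · exact absurd h.self_of_nhds hQ0
      · obtain ⟨w, hw1, hw2⟩ := (h.and self_mem_nhdsWithin).exists
        exact ⟨w, hw2, fun hw3 => hw1 (hw3.2 m Q hQ hQv)⟩
    · exact ⟨z, hz0, hz1⟩
  have hseq : ∀ w : ℂ, w ≠ 0 → ∃ zs : ℕ → ℂ, Tendsto zs atTop (𝓝 0) ∧
      ∀ᶠ n in atTop, zs n ∈ puncturedDisc ∧ Complex.exp (zs n)⁻¹ = w := by
    intro w hw
    obtain ⟨zs, h1, h2⟩ := Pool.Agent.H99.Cover.exists_seq_exp_inv w hw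
    refine ⟨zs, h1, ?_⟩
    filter_upwards [h2, h1.eventually (Metric.ball_mem_nhds (0 : ℂ) one_pos)] with n h3 h4
    exact ⟨⟨h4, h3.1⟩, h3.2⟩
  have hgh : HolomorphicInto (fun z => f (Complex.exp z⁻¹)) puncturedDisc := by
    refine Pool.Agent.H17.HolomorphicInto.comp hf (u := fun z => Complex.exp z⁻¹) ?_
      (fun _ _ => Set.mem_univ _)
    intro z hz
    have h1 : z ≠ 0 := hz.2
    exact (analyticAt_inv h1).cexp
  obtain ⟨g, hg, hge⟩ := picard hA hk hdiv hd hgh (fun z _ => hfX _) (by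
    obtain ⟨zs, -, h2⟩ := hseq w₀ hw₀
    obtain ⟨n, h3, h4⟩ := h2.exists
    refine ⟨zs n, h3, ?_⟩
    rw [h4]
    exact hw₀')
  -- the map is constant off `0`
  have hconst : ∀ w : ℂ, w ≠ 0 → f w = g 0 := by
    intro w hw
    apply eq_of_sep
    obtain ⟨zs, h1, h2⟩ := hseq w hw
    have h3 := Pool.Agent.H17.tendsto_sep hg (Metric.mem_ball_self one_pos)
    have h4 : Tendsto (fun n => (zs n, (0 : ℂ))) atTop (𝓝 ((0 : ℂ), (0 : ℂ))) :=
      h1.prodMk_nhds tendsto_const_nhds
    have h5 := h3.comp h4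
    refine tendsto_nhds_unique (tendsto_const_nhds.congr' ?_) h5
    filter_upwards [h2] with n hn
    change Pool.Agent.H17.sep (f w) (g 0) = Pool.Agent.H17.sep (g (zs n)) (g 0)
    rw [hge (zs n) hn.1, hn.2]
  have hconst0 : f 0 = g 0 := by
    symm
    apply eq_of_sep
    have h3 := Pool.Agent.H17.tendsto_sep hf (Set.mem_univ (0 : ℂ))
    have h4 : Tendsto (fun w : ℂ => (w, (0 : ℂ))) (𝓝[≠] 0) (𝓝 ((0 : ℂ), (0 : ℂ))) :=
      (tendsto_id.mono_left nhdsWithin_le_nhds).prodMk_nhds tendsto_const_nhds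
    have h5 := h3.comp h4
    refine tendsto_nhds_unique (tendsto_const_nhds.congr' ?_) h5
    filter_upwards [self_mem_nhdsWithin] with w hw
    change Pool.Agent.H17.sep (g 0) (f 0) = Pool.Agent.H17.sep (f w) (f 0)
    rw [hconst w hw]
  have hall : ∀ w, f w = g 0 := by
    intro w
    by_cases hw : w = 0
    · rw [hw]
      exact hconst0
    · exact hconst w hw
  obtain ⟨a, b, hab⟩ := hne
  exact hab ((hall a).trans (hall b).symm)

end Pool.Agent.H62.FC
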