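import Pool.Agent.H62.FC.Main
import Pool.Agent.H92.GT.ProjPoint

/-!
# Fermat covers: subvarieties which are not of log general type

The closures of the monomial curves are rational curves stable under a one-parameter group, so they
are not of log general type.
-/

open MvPolynomial Topology Filter
open Pool.Agent.H17 (PN VanishesAt zeroLocus vanishesAt_mk_iff)
open Pool.Agent.H17GT (coordFun functionField)
open Pool.Agent.H17LG.Variety (FunField)

noncomputable section

namespace Pool.Agent.H62.FC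

variable {N : ℕ} {κ : Type} {A : κ → MvPolynomial (Fin (N + 1)) ℂ} {e : κ → ℕ}
  {O : Finset (Fin (N + 1))} {P : Ideal (MvPolynomial (Fin (N + 1)) ℂ)}

/-- The union of the closed irreducible subvarieties of `openLocus A O` of positive dimension which
are not of log general type. -/
def unionNotLogGeneralType (A : κ → MvPolynomial (Fin (N + 1)) ℂ) (O : Finset (Fin (N + 1))) :
    Set (PN N) :=
  {x | ∃ (Q : Ideal (MvPolynomial (Fin (N + 1)) ℂ)) (_ : Q.IsPrime), Homog Q ∧ (∀ l, A l ∈ Q) ∧
    (∀ i ∈ O, X i ∉ Q) ∧ x ∈ primeLocus Q O ∧ ∃ w, 1 ≤ w ∧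
      (∃ z : Fin w → FunField Q, IsTranscendenceBasis ℂ z) ∧ ¬ LogGeneralType Q O w}

/-- The ideal of the polynomials vanishing on the cone over a monomial curve. -/
def curveIdeal (a : Fin (N + 1) → ℂ) (n : Fin (N + 1) → ℤ) :
    Ideal (MvPolynomial (Fin (N + 1)) ℂ) :=
  ⨅ st : {st : ℂ × ℂ // st.2 ≠ 0}, RingHom.ker (eval fun i => st.1.1 * (a i * st.1.2 ^ n i))

variable {a : Fin (N + 1) → ℂ} {n : Fin (N + 1) → ℤ}

lemma mem_curveIdeal {p : MvPolynomial (Fin (N + 1)) ℂ} : p ∈ curveIdeal a n ↔
    ∀ s t : ℂ, t ≠ 0 → eval (fun i => s * (a i * t ^ n i)) p = 0 := by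
  rw [curveIdeal, Ideal.mem_iInf]
  exact ⟨fun h s t ht => h ⟨(s, t), ht⟩, fun h st => h _ _ st.2⟩

lemma X_mem_curveIdeal {i : Fin (N + 1)} : X i ∈ curveIdeal a n ↔ a i = 0 := by
  rw [mem_curveIdeal]
  constructor
  · intro h
    simpa using h 1 1 one_ne_zero
  · intro h s t _
    rw [eval_X, h]
    ring

lemma curveIdeal_isPrime : (curveIdeal a n).IsPrime := by
  constructor
  · rw [Ideal.ne_top_iff_one, mem_curveIdeal]
    intro h
    have := h 1 1 one_ne_zero
    simp at this
  · intro p q hpq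
    by_contra hcon
    push Not at hcon
    obtain ⟨hp, hq⟩ := hcon
    rw [mem_curveIdeal] at hp hq hpq
    push Not at hp hq
    obtain ⟨s₁, t₁, ht₁, hp⟩ := hp
    obtain ⟨s₂, t₂, ht₂, hq⟩ := hq
    set z₁ := Complex.log t₁ with hz₁
    set z₂ := Complex.log t₂ with hz₂
    have hz₁' : Complex.exp z₁ = t₁ := Complex.exp_log ht₁
    have hz₂' : Complex.exp z₂ = t₂ := Complex.exp_log ht₂
    set φ : ℂ → Fin (N + 1) → ℂ := fun τ i =>
      (s₁ + τ * (s₂ - s₁)) * (a i * Complex.exp (z₁ + τ * (z₂ - z₁)) ^ n i) with hφ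
    have hφa : ∀ i τ, AnalyticAt ℂ (fun τ => φ τ i) τ := by
      intro i τ
      have h1 : AnalyticAt ℂ (fun τ : ℂ => s₁ + τ * (s₂ - s₁)) τ :=
        analyticAt_const.add (analyticAt_id.mul analyticAt_const)
      have h2 : AnalyticAt ℂ (fun τ : ℂ => z₁ + τ * (z₂ - z₁)) τ :=
        analyticAt_const.add (analyticAt_id.mul analyticAt_const)
      exact h1.mul (analyticAt_const.mul (h2.cexp.zpow (Complex.exp_ne_zero _)))
    have hana : ∀ r : MvPolynomial (Fin (N + 1)) ℂ,
        AnalyticOnNhd ℂ (fun τ => eval (φ τ) r) Set.univ := by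
      intro r τ _
      have h1 := AnalyticAt.aeval_mvPolynomial (f := φ) (z := τ) (fun i => hφa i τ) r
      simpa [MvPolynomial.aeval_eq_eval] using h1
    have hmul : ∀ τ ∈ (Set.univ : Set ℂ), eval (φ τ) p * eval (φ τ) q = 0 := by
      intro τ _
      rw [← map_mul]
      exact hpq _ _ (Complex.exp_ne_zero _)
    rcases (hana p).eq_zero_or_eq_zero_of_mul_eq_zero (hana q) hmul isPreconnected_univ with h | h
    · apply hp
      have h1 := h 0 (Set.mem_univ _)
      simpa [hφ, hz₁'] using h1
    · apply hq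
      have h1 := h 1 (Set.mem_univ _)
      simpa [hφ, hz₂'] using h1

lemma curveIdeal_graded : ∀ p ∈ curveIdeal a n, ∀ v,
    weightedHomogeneousComponent n v p ∈ curveIdeal a n := by
  intro p hp v
  rw [mem_curveIdeal] at hp ⊢
  intro s t ht
  refine component_eq_zero_of_zpow (fun u hu => ?_) v
  have h1 := hp s (t * u) (mul_ne_zero ht hu)
  rw [← h1]
  congr 2
  funext i
  rw [mul_zpow]
  ring

lemma eval_homogeneousComponent_eq_zero {p : MvPolynomial (Fin (N + 1)) ℂ}
    {x : Fin (N + 1) → ℂ} (h : ∀ c : ℂ, eval (fun i => c * x i) p = 0) (m : ℕ) :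
    eval x (homogeneousComponent m p) = 0 := by
  classical
  have h1 := component_eq_zero_of_zpow (n := fun _ => (1 : ℤ)) (Q := p) (a := x)
    (fun t _ => by
      have := h t
      rw [← this]
      congr 2
      funext i
      rw [zpow_one, mul_comm]) (m : ℤ)
  rw [eval_component] at h1
  rw [homogeneousComponent_apply, map_sum, ← h1]
  refine Finset.sum_congr ?_ fun c _ => ?_
  · ext c
    simp only [Finset.mem_filter]
    refine and_congr_right fun _ => ?_
    rw [Finsupp.degree_eq_sum]
    constructor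
    · intro h2
      rw [← h2]
      push_cast
      simp
    · intro h2
      have h3 : ((∑ i, c i : ℕ) : ℤ) = m := by
        push_cast
        simpa using h2
      exact_mod_cast h3
  · rw [eval_monomial]
    congr 1
    exact Finsupp.prod_fintype _ _ fun i => pow_zero _

lemma curveIdeal_homog : Homog (curveIdeal a n) := by
  intro p hp m
  rw [mem_curveIdeal] at hp ⊢
  intro s t ht
  refine eval_homogeneousComponent_eq_zero (fun c => ?_) m
  have h1 := hp (c * s) t ht
  rw [← h1]
  congr 2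
  funext i
  ring

open scoped IntermediateField.algebraAdjoinAdjoin in
lemma exists_fin_basis_aux {K : Type} [Field K] [Algebra ℂ K] {m : ℕ} {x : Fin m → K}
    (hgen : IntermediateField.adjoin ℂ (Set.range x) = ⊤) :
    ∃ (w : ℕ) (z : Fin w → K), IsTranscendenceBasis ℂ z := by
  have halg : Algebra.IsAlgebraic (IntermediateField.adjoin ℂ (Set.range x)) K := by
    rw [hgen]
    exact ⟨fun f => isAlgebraic_algebraMap (⟨f, IntermediateField.mem_top⟩ :
      (⊤ : IntermediateField ℂ K))⟩
  have h1 : Algebra.IsAlgebraic (Algebra.adjoin ℂ (Set.range x)) K :=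
    (IsFractionRing.comap_isAlgebraic_iff (A := Algebra.adjoin ℂ (Set.range x))
      (K := IntermediateField.adjoin ℂ (Set.range x)) (C := K)).mpr halg
  obtain ⟨u, hu, hub⟩ := exists_isTranscendenceBasis_subset (R := ℂ) (Set.range x)
  have h3 : Finite u := (Set.finite_range x).subset hu
  let eqv : Fin (Nat.card u) ≃ u := (Finite.equivFin u).symm
  refine ⟨Nat.card u, (Subtype.val : u → K) ∘ eqv, ?_⟩
  rw [isTranscendenceBasis_equiv]
  exact hub

/-- The function field of a projective variety has a finite transcendence basis. -/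
lemma exists_fin_basis [P.IsPrime] (hne : ∃ i, X i ∉ P) :
    ∃ (w : ℕ) (z : Fin w → FunField P), IsTranscendenceBasis ℂ z := by
  obtain ⟨j, hj⟩ := hne
  have hj' : coordFun P j ≠ 0 := by
    intro h0
    apply hj
    rw [← Pool.Agent.H92.GT.Proj.aeval_coordFun_eq_zero_iff P (X j), aeval_X]
    exact h0
  obtain ⟨x, -, hgen, -⟩ := Pool.Agent.H92.GT.Proj.proj_point P hj'
  exact exists_fin_basis_aux hgen

/-- The closure of a monomial curve has positive dimension. -/
lemma curveIdeal_dim (hn : ∃ i j, a i ≠ 0 ∧ a j ≠ 0 ∧ n i ≠ n j) [(curveIdeal a n).IsPrime] :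
    ∃ w, 1 ≤ w ∧ ∃ z : Fin w → FunField (curveIdeal a n), IsTranscendenceBasis ℂ z := by
  obtain ⟨i, j, hi, hj, hij⟩ := hn
  have hXj : X j ∉ curveIdeal a n := fun h => hj (X_mem_curveIdeal.mp h)
  obtain ⟨w, z, hz⟩ := exists_fin_basis ⟨j, hXj⟩
  refine ⟨w, Nat.one_le_iff_ne_zero.mpr fun hw => ?_, z, hz⟩
  subst hw
  have hj' : coordFun (curveIdeal a n) j ≠ 0 := by
    intro h0
    apply hXj
    rw [← Pool.Agent.H92.GT.Proj.aeval_coordFun_eq_zero_iff (curveIdeal a n) (X j), aeval_X]
    exact h0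
  obtain ⟨x, hx1, -, hker⟩ := Pool.Agent.H92.GT.Proj.proj_point (curveIdeal a n) hj'
  have halg : Algebra.IsAlgebraic ℂ (functionField (curveIdeal a n)) := by
    exact hz.isEmpty_iff_isAlgebraic.mp inferInstance
  obtain ⟨c, hc⟩ : ∃ c : ℂ, algebraMap ℂ (functionField (curveIdeal a n)) c = x i := by
    have := IsAlgClosed.algebraMap_bijective_of_isIntegral (k := ℂ)
      (K := functionField (curveIdeal a n))
    exact this.2 (x i)
  have h1 : X i - C c * X j ∈ curveIdeal a n := by
    rw [← hker 1 (X i - C c * X j)]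
    · rw [map_sub, map_mul, aeval_X, aeval_X, aeval_C, hx1, mul_one, hc, sub_self]
    · exact ((isHomogeneous_X ℂ i).sub ((isHomogeneous_C_mul_X c j)))
  rw [mem_curveIdeal] at h1
  have h2 := h1 1 1 one_ne_zero
  have h3 := h1 1 2 two_ne_zero
  simp only [map_sub, map_mul, eval_X, eval_C, one_zpow, mul_one, one_mul] at h2 h3
  have h4 : (a i) * ((2 : ℂ) ^ n i - 2 ^ n j) = 0 := by
    linear_combination h3 - (2 : ℂ) ^ n j * h2
  rcases mul_eq_zero.mp h4 with h5 | h5
  · exact hi h5
  · have h6 := congrArg norm (sub_eq_zero.mp h5)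
    rw [norm_zpow, norm_zpow, Complex.norm_two] at h6
    exact hij (zpow_right_injective₀ two_pos (by norm_num) h6)

/-- The points of the monomial curves are on subvarieties not of log general type. -/
lemma monomialCurves_subset_unionNotLogGeneralType (hA : ∀ l, (A l).IsHomogeneous (e l)) :
    monomialCurves (openLocus A O) ⊆ unionNotLogGeneralType A O := by
  rintro x ⟨a, ha, n, rfl, hn, hX⟩
  have hpt : ∀ t : ℂ, t ≠ 0 → (∀ l, eval (fun i => a i * t ^ n i) (A l) = 0) ∧
      ∀ i ∈ O, a i * t ^ n i ≠ 0 := by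
    intro t ht
    have h0 : (fun i => a i * t ^ n i) ≠ 0 := by
      intro h0
      apply ha
      funext i
      have h1 := congrFun h0 i
      simp only [Pi.zero_apply, mul_eq_zero] at h1
      exact h1.resolve_right (zpow_ne_zero _ ht)
    exact (mk_mem_openLocus hA _ h0).mp (hX t h0 ht)
  have hO : ∀ i ∈ O, X i ∉ curveIdeal a n := by
    intro i hi h
    have h1 := (hpt 1 one_ne_zero).2 i hi
    rw [X_mem_curveIdeal.mp h, zero_mul] at h1
    exact h1 rfl
  have : (curveIdeal a n).IsPrime := curveIdeal_isPrime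
  obtain ⟨w, hw, hz⟩ := curveIdeal_dim hn
  refine ⟨curveIdeal a n, curveIdeal_isPrime, curveIdeal_homog, fun l => ?_, hO, ?_, w, hw, hz, ?_⟩
  · rw [mem_curveIdeal]
    intro s t ht
    rw [Pool.Agent.H17.eval_smul_of_isHomogeneous (hA l), (hpt t ht).1 l, mul_zero]
  · rw [mk_mem_primeLocus]
    refine ⟨fun Q hQ m _ => ?_, fun i hi => ?_⟩
    · rw [mem_curveIdeal] at hQ
      simpa using hQ 1 1 one_ne_zero
    · simpa using (hpt 1 one_ne_zero).2 i hi
  · obtain ⟨i, j, hi, hj, hij⟩ := hn
    exact not_logGeneralType_of_graded curveIdeal_homog hO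
      ⟨i, j, fun h => hi (X_mem_curveIdeal.mp h), fun h => hj (X_mem_curveIdeal.mp h), hij⟩
      curveIdeal_graded hz

/-- **Subvarieties not of log general type.**  If `d` is large compared to the dimensions of the
components, the exceptional set is the Zariski closure of the union of the subvarieties of positive
dimension which are not of log general type. -/
theorem closure_unionNotLogGeneralType [Finite κ] {k d : ℕ} (hA : ∀ l, (A l).IsHomogeneous (e l))
    (hk : ∀ l, (A l).support.card ≤ k)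
    (hdiv : ∀ l, ∀ a ∈ (A l).support, ∀ i ∉ O, d ∣ a i)
    (hdim : ∀ (P : Ideal (MvPolynomial (Fin (N + 1)) ℂ)) [P.IsPrime],
      P ∈ (Ideal.span (Set.range A)).minimalPrimes → (∀ i ∈ O, X i ∉ P) → ∀ r,
      (∃ z : Fin r → FunField P, IsTranscendenceBasis ℂ z) → r * k * (k - 1) * (k - 2) < 2 * d) :
    closureIn (openLocus A O) (unionNotLogGeneralType A O) = excSet (openLocus A O) := by
  apply Set.Subset.antisymm
  · rintro x ⟨hx, h⟩
    refine ⟨hx, fun m R hR hR2 => h m R hR ?_⟩
    rintro y ⟨Q, hQ, hQh, hAQ, hOQ, hy, w, hw, hz, hlgt⟩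
    have hsub : primeLocus Q O ⊆ excSet (openLocus A O) := by
      by_contra hcon
      apply hlgt
      have hle : Ideal.span (Set.range A) ≤ Q := by
        rw [Ideal.span_le]
        rintro _ ⟨l, rfl⟩
        exact hAQ l
      obtain ⟨P, hPmin, hPQ⟩ := Ideal.exists_minimalPrimes_le hle
      have hPprime : P.IsPrime := hPmin.1.1
      have hPh : Homog P := homog_of_minimal hA hPmin
      have hne : ∃ i, X i ∉ P := by
        obtain ⟨i, hi⟩ := exists_X_notMem hw hz
        exact ⟨i, fun h => hi (hPQ h)⟩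
      obtain ⟨r, hr⟩ := exists_fin_basis hne
      have hwr : w ≤ r := trdeg_mono hPh hQh hPQ hr hz
      refine logGeneralType_of_not_subset hQh hA hk hdiv hOQ hAQ hcon hw hz ?_
      refine lt_of_le_of_lt ?_ (hdim P hPmin (fun i hi h => hOQ i hi (hPQ h)) r hr)
      gcongr
    exact (hsub hy).2 m R hR hR2
  · rintro x ⟨hx, h⟩
    exact ⟨hx, fun m R hR hR2 =>
      h m R hR fun y hy => hR2 y (monomialCurves_subset_unionNotLogGeneralType hA hy)⟩

end Pool.Agent.H62.FC
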