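import Pool.Agent.H62.FC.Defs
import Pool.Agent.H92.GT.ProjPoint
import Pool.Agent.H92.GT.Homogenize
import Pool.Agent.H92.GT.Index

/-!
# Fermat covers: the dimension is monotone

For homogeneous prime ideals `P ≤ Q` the transcendence degree of the function field of `Q` is at
most the transcendence degree of the function field of `P`: coordinates whose ratios are
algebraically independent on the variety of `Q` have the same property on the variety of `P`.
-/

noncomputable section

namespace Pool.Agent.H62.FC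

open MvPolynomial
open Pool.Agent.H17GT (coordFun)
open Pool.Agent.H17LG.Variety (FunField)

variable {N : ℕ} {P : Ideal (MvPolynomial (Fin (N + 1)) ℂ)}

/-- Coordinates which are algebraically independent on the smaller variety are so on the larger
one. -/
private lemma Trdeg_indep {K L : Type} [Field K] [Algebra ℂ K] [Field L] [Algebra ℂ L] {k : ℕ}
    {j : Fin (N + 1)} {x : Fin (N + 1) → K} {y : Fin (N + 1) → L} (hx : x j = 1) (hy : y j = 1)
    (h : ∀ (n : ℕ) (G : MvPolynomial (Fin (N + 1)) ℂ), G.IsHomogeneous n → aeval x G = 0 →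
      aeval y G = 0) {J : Fin k → Fin (N + 1)} (hJ : AlgebraicIndependent ℂ fun i => y (J i)) :
    AlgebraicIndependent ℂ fun i => x (J i) := by
  rw [algebraicIndependent_iff] at hJ ⊢
  intro p hp
  apply hJ
  set Af : Fin (k + 1) → MvPolynomial (Fin (N + 1)) ℂ := Fin.cons (X j) fun i => X (J i) with hAf
  have hAfhom : ∀ i, IsWeightedHomogeneous (1 : Fin (N + 1) → ℕ) (Af i) 1 := by
    intro i
    refine Fin.cases ?_ (fun i => ?_) i
    · exact isHomogeneous_X ℂ j
    · exact isHomogeneous_X ℂ (J i)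
  have key : ∀ {K : Type} [Field K] [Algebra ℂ K] {x : Fin (N + 1) → K}, x j = 1 →
      aeval x (Pool.Agent.H92.GT.hmg p Af) = aeval (fun i => x (J i)) p := by
    intro K _ _ x hx
    rw [Pool.Agent.H92.GT.map_hmg]
    have h0 : aeval x (Af 0) = 1 := by
      change aeval x (X j) = 1
      rw [aeval_X, hx]
    rw [Pool.Agent.H92.GT.hmg_eq p (by rw [h0]; exact one_ne_zero), h0, one_pow, one_mul]
    congr 2
    funext i
    change aeval x (X (J i)) / 1 = x (J i)
    rw [aeval_X, div_one]
  rw [← key hy]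
  exact h _ _ (Pool.Agent.H92.GT.hmg_isWeightedHomogeneous p hAfhom) (by rw [key hx, hp])

theorem trdeg_mono [P.IsPrime] {Q : Ideal (MvPolynomial (Fin (N + 1)) ℂ)} [Q.IsPrime]
    (hP : Homog P) (hQ : Homog Q) (hPQ : P ≤ Q) {r w : ℕ} (hr : ∃ z : Fin r → FunField P,
      IsTranscendenceBasis ℂ z) (hw : ∃ z : Fin w → FunField Q, IsTranscendenceBasis ℂ z) :
    w ≤ r := by
  rcases w with - | w
  · exact Nat.zero_le _
  obtain ⟨z, hz⟩ := hw
  obtain ⟨z', hz'⟩ := hr
  obtain ⟨j, hj⟩ := Pool.Agent.H92.GT.Proj.exists_coordFun_ne_zero Q (k := w) z hz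
  have hj' : coordFun P j ≠ 0 := by
    intro h0
    apply hj
    have h1 := (Pool.Agent.H92.GT.Proj.aeval_coordFun_eq_zero_iff P (X j)).1
      (by rw [aeval_X]; exact h0)
    have h2 := (Pool.Agent.H92.GT.Proj.aeval_coordFun_eq_zero_iff Q (X j)).2 (hPQ h1)
    rwa [aeval_X] at h2
  obtain ⟨y, hy1, hygen, hyker⟩ := Pool.Agent.H92.GT.Proj.proj_point Q hj
  obtain ⟨x, hx1, -, hxker⟩ := Pool.Agent.H92.GT.Proj.proj_point P hj'
  have halg : Algebra.IsAlgebraic (IntermediateField.adjoin ℂ (Set.range y))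
      (H17GT.functionField Q) := by
    rw [hygen]
    exact ⟨fun f => isAlgebraic_algebraMap (⟨f, IntermediateField.mem_top⟩ :
      (⊤ : IntermediateField ℂ (H17GT.functionField Q)))⟩
  obtain ⟨J, hJ⟩ := Pool.Agent.H92.GT.exists_index halg (z := z) hz
  have hind : AlgebraicIndependent ℂ fun i => x (J i) :=
    Trdeg_indep hx1 hy1 (fun n G hG h => (hyker n G hG).2 (hPQ ((hxker n G hG).1 h))) hJ.1
  have h1 := hind.cardinalMk_le_trdeg
  have h2 := IsTranscendenceBasis.cardinalMk_eq_trdeg (R := ℂ) (A := H17GT.functionField P)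
    (x := z') hz'
  rw [← h2, Cardinal.mk_fin, Cardinal.mk_fin, Nat.cast_le] at h1
  exact h1

end Pool.Agent.H62.FC
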