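import Pool.Agent.H62.FC.CircuitDefs
import Pool.Agent.H23.Fano
import Mathlib

/-! Prime divisors of `L(t)`. -/

noncomputable section

namespace Pool.Agent.H62.FC

open Pool.Agent.H23.Fano (PrimeDivisorOver Form)
open WithZero Cardinal

/-- The additive form of the value group. -/
def Place_phi (x : WithZero (Multiplicative ℤ)) : WithTop ℤ :=
  if x = 0 then ⊤ else ((-(WithZero.log x) : ℤ) : WithTop ℤ)

lemma Place_phi_zero : Place_phi 0 = ⊤ := by simp [Place_phi]

lemma Place_phi_one : Place_phi 1 = 0 := by simp [Place_phi]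

lemma Place_phi_exp (n : ℤ) : Place_phi (WithZero.exp n) = ((-n : ℤ) : WithTop ℤ) := by
  simp [Place_phi]

lemma Place_phi_mul (x y : WithZero (Multiplicative ℤ)) :
    Place_phi (x * y) = Place_phi x + Place_phi y := by
  by_cases hx : x = 0
  · simp [Place_phi, hx]
  by_cases hy : y = 0
  · simp [Place_phi, hy]
  rw [Place_phi, Place_phi, Place_phi, if_neg hx, if_neg hy, if_neg (mul_ne_zero hx hy),
    WithZero.log_mul hx hy, ← WithTop.coe_add]
  congr 1
  ring

lemma Place_phi_anti {x y : WithZero (Multiplicative ℤ)} (h : x ≤ y) :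
    Place_phi y ≤ Place_phi x := by
  by_cases hx : x = 0
  · simp [Place_phi, hx]
  have hy : y ≠ 0 := by
    rintro rfl
    exact hx (le_antisymm h (by simp))
  rw [Place_phi, Place_phi, if_neg hx, if_neg hy, WithTop.coe_le_coe, neg_le_neg_iff,
    WithZero.log_le_log hx hy]
  exact h

lemma Place_phi_nonneg_iff {x : WithZero (Multiplicative ℤ)} : 0 ≤ Place_phi x ↔ x ≤ 1 := by
  refine ⟨fun h => ?_, fun h => by simpa [Place_phi_one] using Place_phi_anti h⟩
  by_cases hx : x = 0
  · rw [hx]; simp
  rw [Place_phi, if_neg hx] at h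
  have h1 : (0 : ℤ) ≤ -(WithZero.log x) := by exact_mod_cast h
  have h2 : WithZero.log x ≤ WithZero.log (1 : WithZero (Multiplicative ℤ)) := by
    rw [WithZero.log_one]; linarith
  exact (WithZero.log_le_log hx one_ne_zero).mp h2

/-- The additive valuation of a `ℤᵐ⁰`-valuation. -/
def Place_add {R : Type*} [CommRing R] (v : Valuation R (WithZero (Multiplicative ℤ))) :
    AddValuation R (WithTop ℤ) :=
  AddValuation.of (fun x => Place_phi (v x)) (by simp [Place_phi_zero])
    (by simp [Place_phi_one])
    (fun x y => by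
      rcases le_total (v x) (v y) with h | h
      · exact (min_le_right _ _).trans (Place_phi_anti ((v.map_add x y).trans
          (max_le h le_rfl)))
      · exact (min_le_left _ _).trans (Place_phi_anti ((v.map_add x y).trans
          (max_le le_rfl h))))
    (fun x y => by rw [map_mul, Place_phi_mul])

lemma Place_add_apply {R : Type*} [CommRing R] (v : Valuation R (WithZero (Multiplicative ℤ)))
    (x : R) : Place_add v x = Place_phi (v x) := rfl

/-- The isomorphism with the rational functions. -/
def Place_rat {K : Type} [Field K] [Algebra ℂ K] (L : IntermediateField ℂ K) {t : K}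
    (ht : Transcendental L t) (htop : IntermediateField.adjoin L {t} = ⊤) : RatFunc L ≃ₐ[L] K :=
  (RatFunc.algEquivOfTranscendental t ht).trans
    ((IntermediateField.equivOfEq htop).trans IntermediateField.topEquiv)

lemma Place_rat_apply {K : Type} [Field K] [Algebra ℂ K] (L : IntermediateField ℂ K) {t : K}
    (ht : Transcendental L t) (htop : IntermediateField.adjoin L {t} = ⊤) (f : RatFunc L) :
    Place_rat L ht htop f = Polynomial.aeval t f.num / Polynomial.aeval t f.denom := by
  rw [← RatFunc.algEquivOfTranscendental_apply t ht]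
  rfl

lemma Place_rat_algebraMap {K : Type} [Field K] [Algebra ℂ K] (L : IntermediateField ℂ K) {t : K}
    (ht : Transcendental L t) (htop : IntermediateField.adjoin L {t} = ⊤) (q : Polynomial L) :
    Place_rat L ht htop (algebraMap (Polynomial L) (RatFunc L) q) = Polynomial.aeval t q := by
  rw [Place_rat_apply, RatFunc.num_algebraMap, RatFunc.denom_algebraMap, map_one, div_one]

/-- The height one prime. -/
def Place_spec {F : Type*} [Field F] {p : Polynomial F} (hp : Irreducible p) :
    IsDedekindDomain.HeightOneSpectrum (Polynomial F) where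
  asIdeal := Ideal.span {p}
  isPrime := (Ideal.span_singleton_prime hp.ne_zero).mpr hp.prime
  ne_bot := by simpa using hp.ne_zero

/-- A transcendence basis of `L`. -/
lemma Place_basis {K : Type} [Field K] [Algebra ℂ K] {w : ℕ}
    (hz : ∃ z : Fin (w + 1) → K, IsTranscendenceBasis ℂ z) (L : IntermediateField ℂ K) {t : K}
    (ht : Transcendental L t) (htop : IntermediateField.adjoin L {t} = ⊤) :
    ∃ x : Fin w → L, AlgebraicIndependent ℂ x := by
  obtain ⟨z, hz⟩ := hz
  have h1 : Algebra.trdeg ℂ K = (w + 1 : ℕ) := by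
    rw [← hz.cardinalMk_eq_trdeg]; simp
  have h2 : Algebra.trdeg ℂ L + Algebra.trdeg L K = Algebra.trdeg ℂ K :=
    trdeg_add_eq ℂ L
  have h3 : Algebra.trdeg L K = 1 := by
    have hb : IsTranscendenceBasis L
        (algebraMap (Polynomial L) (RatFunc L) ∘ fun _ : Unit => (Polynomial.X : Polynomial L)) :=
      have : Algebra.IsAlgebraic (Polynomial L) (RatFunc L) :=
        IsLocalization.isAlgebraic (R := Polynomial L) (S := RatFunc L)
          (M := nonZeroDivisors (Polynomial L))
      IsTranscendenceBasis.algebraMap_comp (A := RatFunc L)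
        (IsTranscendenceBasis.polynomial Unit L)
    rw [← (Place_rat L ht htop).trdeg_eq, ← hb.cardinalMk_eq_trdeg]; simp
  rw [h3, h1] at h2
  have h4 : Algebra.trdeg ℂ L = (w : ℕ) := by
    have : Algebra.trdeg ℂ L < ℵ₀ := by
      refine lt_of_le_of_lt ?_ (Cardinal.natCast_lt_aleph0 (n := w + 1))
      rw [← h2]; exact self_le_add_right _ _
    obtain ⟨m, hm⟩ := Cardinal.lt_aleph0.mp this
    rw [hm] at h2 ⊢
    have : m + 1 = w + 1 := by exact_mod_cast h2
    have : m = w := by omega
    rw [this]
  obtain ⟨s, hs⟩ := exists_isTranscendenceBasis ℂ L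
  have h5 : #s = (w : ℕ) := by rw [hs.cardinalMk_eq_trdeg, h4]
  have h6 : Nonempty (Fin w ≃ s) := by
    rw [← Cardinal.eq]
    simp [h5]
  obtain ⟨e⟩ := h6
  exact ⟨fun i => (e i : L), hs.1.comp e e.injective⟩

theorem exists_place {K : Type} [Field K] [Algebra ℂ K] {w : ℕ}
    (hz : ∃ z : Fin (w + 1) → K, IsTranscendenceBasis ℂ z) (L : IntermediateField ℂ K) {t : K}
    (ht : Transcendental L t) (htop : IntermediateField.adjoin L {t} = ⊤) {p : Polynomial L}
    (hp : Irreducible p) :
    ∃ E : PrimeDivisorOver K (w + 1), E.ord (Polynomial.aeval t p) = 1 ∧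
      (∀ l : L, l ≠ 0 → E.ord (l : K) = 0) ∧
      (∀ q : Polynomial L, ¬ p ∣ q → E.ord (Polynomial.aeval t q) = 0) ∧
      ∀ D : Derivation ℂ K K, (∀ l : L, 0 ≤ E.ord (D (l : K))) → 0 ≤ E.ord (D t) →
        ∀ f, 0 ≤ E.ord f → 0 ≤ E.ord (D f) := by
  set v := Place_spec hp with hv
  set e := Place_rat L ht htop with he
  set V : AddValuation K (WithTop ℤ) :=
    Place_add ((v.valuation (RatFunc L)).comap (e.symm : K →+* RatFunc L)) with hV
  have hVapp : ∀ f : K, V f = Place_phi (v.valuation (RatFunc L) (e.symm f)) := fun f => rfl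
  have hpoly : ∀ q : Polynomial L, V (Polynomial.aeval t q) = Place_phi (v.intValuation q) := by
    intro q
    rw [hVapp, ← Place_rat_algebraMap L ht htop q, ← he, AlgEquiv.symm_apply_apply,
      IsDedekindDomain.HeightOneSpectrum.valuation_of_algebraMap]
  have hp1 : V (Polynomial.aeval t p) = 1 := by
    rw [hpoly, v.intValuation_singleton hp.ne_zero rfl, Place_phi_exp]
    simp
  have hq0 : ∀ q : Polynomial L, ¬ p ∣ q → V (Polynomial.aeval t q) = 0 := by
    intro q hq
    rw [hpoly, IsDedekindDomain.HeightOneSpectrum.intValuation_eq_one_iff.mpr, Place_phi_one]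
    rw [hv]
    simpa [Place_spec, Ideal.mem_span_singleton] using hq
  have hqn : ∀ q : Polynomial L, 0 ≤ V (Polynomial.aeval t q) := by
    intro q
    rw [hpoly, Place_phi_nonneg_iff]
    exact v.intValuation_le_one q
  have hl : ∀ l : L, l ≠ 0 → V (l : K) = 0 := by
    intro l hl
    have h1 : (l : K) = Polynomial.aeval t (Polynomial.C l) := by
      rw [Polynomial.aeval_C]; rfl
    rw [h1]
    refine hq0 _ fun hdvd => ?_
    obtain ⟨r, hr⟩ := hdvd
    have hu : IsUnit (p * r) := by
      rw [← hr]; exact Polynomial.isUnit_C.mpr (isUnit_iff_ne_zero.mpr hl)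
    exact hp.not_isUnit (isUnit_of_mul_isUnit_left hu)
  have hln : ∀ l : L, 0 ≤ V (l : K) := by
    intro l
    by_cases h0 : l = 0
    · rw [h0]; simp
    · rw [hl l h0]
  refine ⟨⟨V, ?_, ⟨_, hp1⟩, ?_⟩, hp1, hl, hq0, ?_⟩
  · intro c
    have := hln (algebraMap ℂ L c)
    rwa [show ((algebraMap ℂ L c : L) : K) = algebraMap ℂ K c from rfl] at this
  · obtain ⟨x, hx⟩ := Place_basis hz L ht htop
    refine ⟨fun i => (x i : K), fun i => hln _, fun P hP => ?_⟩
    have h1 : MvPolynomial.aeval (fun i : Fin w => (x i : K)) P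
        = ((MvPolynomial.aeval x P : L) : K) := by
      exact MvPolynomial.aeval_algebraMap_apply K x P
    have h2 : V (MvPolynomial.aeval (fun i : Fin w => (x i : K)) P) = 0 := by
      rw [h1]
      refine hl _ fun h0 => hP ?_
      have hx' : Function.Injective (MvPolynomial.aeval (R := ℂ) x) := hx
      exact hx' (h0.trans (map_zero _).symm)
    exact h2
  · intro D hDl hDt f hf
    change 0 ≤ V (D f)
    change 0 ≤ V f at hf
    change 0 ≤ V (D t) at hDt
    have hDl' : ∀ l : L, 0 ≤ V (D (l : K)) := hDl
    have htn : 0 ≤ V t := by simpa using hqn Polynomial.X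
    have hadd : ∀ a b : K, 0 ≤ V a → 0 ≤ V b → 0 ≤ V (a + b) := fun a b ha hb =>
      (le_min ha hb).trans (V.map_add a b)
    have hmul : ∀ a b : K, 0 ≤ V a → 0 ≤ V b → 0 ≤ V (a * b) := fun a b ha hb => by
      rw [V.map_mul]; exact add_nonneg ha hb
    have hpow : ∀ (a : K) (n : ℕ), 0 ≤ V a → 0 ≤ V (a ^ n) := by
      intro a n ha
      induction n with
      | zero => simp
      | succ n ih => rw [pow_succ]; exact hmul _ _ ih ha
    have hnat : ∀ n : ℕ, 0 ≤ V (n : K) := by
      intro n
      have := hln (n : L)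
      simpa using this
    have hneg : ∀ a : K, 0 ≤ V a → 0 ≤ V (-a) := fun a ha => by rwa [V.map_neg]
    have hDq : ∀ q : Polynomial L, 0 ≤ V (D (Polynomial.aeval t q)) := by
      intro q
      induction q using Polynomial.induction_on' with
      | add p q hp hq => rw [map_add, map_add]; exact hadd _ _ hp hq
      | monomial n a =>
        rw [Polynomial.aeval_monomial]
        change 0 ≤ V (D ((a : K) * t ^ n))
        rw [D.leibniz, D.leibniz_pow]
        refine hadd _ _ ?_ ?_
        · simp only [smul_eq_mul, nsmul_eq_mul]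
          exact hmul _ _ (hln a) (hmul _ _ (hnat n) (hmul _ _ (hpow _ _ htn) hDt))
        · simp only [smul_eq_mul]
          exact hmul _ _ (hpow _ _ htn) (hDl' a)
    have hval : v.valuation (RatFunc L) (e.symm f) ≤ 1 := by
      rw [← Place_phi_nonneg_iff, ← hVapp]; exact hf
    obtain ⟨a, b, hab⟩ := v.exists_primeCompl_mul_eq_of_integer (e.symm f) hval
    have hb : V (Polynomial.aeval t (b : Polynomial L)) = 0 := by
      refine hq0 _ fun hdvd => b.2 ?_
      change (b : Polynomial L) ∈ (Place_spec hp).asIdeal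
      simpa [Place_spec, Ideal.mem_span_singleton] using hdvd
    have hb0 : Polynomial.aeval t (b : Polynomial L) ≠ 0 := by
      intro h0
      rw [h0, V.map_zero] at hb
      exact absurd hb (by simp)
    have hfa : f * Polynomial.aeval t (b : Polynomial L) = Polynomial.aeval t a := by
      have := congrArg e hab
      rwa [map_mul, AlgEquiv.apply_symm_apply, he, Place_rat_algebraMap, Place_rat_algebraMap]
        at this
    have hDf : D f = (D (Polynomial.aeval t a) - f * D (Polynomial.aeval t (b : Polynomial L)))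
        * (Polynomial.aeval t (b : Polynomial L))⁻¹ := by
      rw [← hfa, D.leibniz]
      simp only [smul_eq_mul]
      field_simp
      ring
    rw [hDf]
    refine hmul _ _ ?_ ?_
    · rw [sub_eq_add_neg]
      exact hadd _ _ (hDq a) (hneg _ (hmul _ _ hf (hDq _)))
    · have h1 : V ((Polynomial.aeval t (b : Polynomial L)) *
          (Polynomial.aeval t (b : Polynomial L))⁻¹) = 0 := by
        rw [mul_inv_cancel₀ hb0, V.map_one]
      rw [V.map_mul, hb, zero_add] at h1
      rw [h1]

end Pool.Agent.H62.FC
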