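import Pool.Agent.H62.FC.CurveIdeal
import Pool.Agent.H92.GGL.DenseLines

/-!
# Fermat covers: the special set
-/

open MvPolynomial Topology Filter
open Pool.Agent.H17 (PN VanishesAt zeroLocus ZariskiClosedIn HolomorphicInto vanishesAt_mk_iff)
open Pool.Agent.H66.Lang (IsAnalyticSubset HolomorphicIntoPN line line_zero line_one
  analyticAt_line)
open Pool.Agent.H92.GGL (dense_lines const_of_dense)
open Pool.Agent.H17GT (coordFun functionField)
open Pool.Agent.H17LG.Variety (FunField PoleAtMost)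
open Pool.Agent.H23.Fano (Form)

noncomputable section

namespace Pool.Agent.H62.FC

variable {N : ℕ} {κ : Type} {A : κ → MvPolynomial (Fin (N + 1)) ℂ} {e : κ → ℕ}
  {O : Finset (Fin (N + 1))} {P : Ideal (MvPolynomial (Fin (N + 1)) ℂ)}

/-- A subset of `ℂ^g` has complex codimension at least two: it is empty or its Hausdorff dimension
is at most `2 g - 4`. -/
def CodimAtLeastTwo {g : ℕ} (Z : Set (Fin g → ℂ)) : Prop :=
  Z = ∅ ∨ dimH Z + 4 ≤ 2 * (g : ENNReal)

/-- A meromorphic map from a quotient `ℂ^g / Λ` (`g ≥ 1`, `Λ` a discrete subgroup) to `ℙ^N`: a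
`Λ`-invariant map `f`, holomorphic outside a `Λ`-invariant analytic subset `Z` of `ℂ^g` of
codimension at least two.  A rational map from a semi-abelian variety `A = ℂ^g / Λ` to `ℙ^N` which
is a morphism on a Zariski open subset `A₀` of `A` with complement of codimension at least two
gives such a map, with `Z` the inverse image of the complement of `A₀`. -/
structure SemiAbelianMap (N : ℕ) where
  /-- the dimension of the source -/
  g : ℕ
  one_le : 1 ≤ g
  /-- the period group -/
  Λ : AddSubgroup (Fin g → ℂ)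
  discrete : DiscreteTopology Λ
  /-- the exceptional set -/
  Z : Set (Fin g → ℂ)
  analytic : IsAnalyticSubset Z
  codim : CodimAtLeastTwo Z
  /-- the map -/
  f : (Fin g → ℂ) → PN N
  holomorphic : HolomorphicIntoPN f Zᶜ
  periodic_Z : ∀ a ∈ Λ, ∀ p, p + a ∈ Z ↔ p ∈ Z
  periodic_f : ∀ a ∈ Λ, ∀ p ∉ Z, f (p + a) = f p

/-- The image of a map. -/
def SemiAbelianMap.image (F : SemiAbelianMap N) : Set (PN N) := F.f '' F.Zᶜ

/-- The union of the images of all non-constant maps into `X`. -/
def unionImages (X : Set (PN N)) : Set (PN N) :=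
  {x | ∃ F : SemiAbelianMap N, F.image ⊆ X ∧ (∃ y ∈ F.image, ∃ z ∈ F.image, y ≠ z) ∧ x ∈ F.image}

/-- The special set of `X`: the Zariski closure in `X` of the union of the images of all
non-constant maps from quotients `ℂ^g / Λ` to `X`. -/
def specialSet (X : Set (PN N)) : Set (PN N) := closureIn X (unionImages X)

/-- `K` is the function field of a variety of dimension `k` of general type: for some `m ≥ 1` there
are `m`-canonical forms `f₀ ω^m, …, f_r ω^m`, regular along all prime divisors over `K`, which define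
a generically finite rational map, that is, `K` is algebraic over `ℂ(f₁/f₀, …, f_r/f₀)`. -/
def IsGeneralType (K : Type) [Field K] [Algebra ℂ K] (k : ℕ) : Prop :=
  ∃ m : ℕ, 1 ≤ m ∧ ∃ ω : Form K k, ω ≠ 0 ∧ ∃ (r : ℕ) (f : Fin (r + 1) → K), f 0 ≠ 0 ∧
    (∀ i E, PoleAtMost 0 E m (f i) ω) ∧
    Algebra.IsAlgebraic (IntermediateField.adjoin ℂ (Set.range fun i => f i / f 0)) K

lemma isGeneralType_iff [P.IsPrime] {w : ℕ} :
    IsGeneralType (FunField P) w ↔ LogGeneralType P ∅ w := by
  have hB : ∀ E, ¬ OnBoundary P ∅ (w := w) E := by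
    rintro E ⟨j, -, -, i, hi, -⟩
    exact absurd hi (Finset.notMem_empty i)
  constructor
  · rintro ⟨m, hm, ω, hω, r, f, hf, h1, h2⟩
    exact ⟨m, hm, ω, hω, r, f, hf, fun i E => ⟨fun _ => h1 i E, fun h => absurd h (hB E)⟩, h2⟩
  · rintro ⟨m, hm, ω, hω, r, f, hf, h1, h2⟩
    exact ⟨m, hm, ω, hω, r, f, hf, fun i E => (h1 i E).1 (hB E), h2⟩

lemma openLocus_empty : openLocus A ∅ = zeroLocus A := by
  ext x
  exact ⟨fun h => h.1, fun h => ⟨h, fun i hi => absurd hi (Finset.notMem_empty i)⟩⟩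

/-- A map from the multiplicative group given by `2 π i`-periodic holomorphic functions. -/
def mapOfPeriodic (ξ : ℂ → Fin (N + 1) → ℂ) (h0 : ∀ z, ξ z ≠ 0)
    (hξ : ∀ j z, AnalyticAt ℂ (fun z => ξ z j) z)
    (hper : ∀ z, ξ (z + 2 * Real.pi * Complex.I) = ξ z) : SemiAbelianMap N where
  g := 1
  one_le := le_rfl
  Λ := AddSubgroup.zmultiples fun _ => 2 * Real.pi * Complex.I
  discrete := by
    apply discreteTopology_of_isOpen_singleton_zero
    rw [Metric.isOpen_singleton_iff]
    refine ⟨1, one_pos, ?_⟩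
    rintro ⟨y, hy⟩ hdist
    obtain ⟨n, rfl⟩ := AddSubgroup.mem_zmultiples_iff.mp hy
    rcases eq_or_ne n 0 with h | h
    · apply Subtype.ext
      simp [h]
    · exfalso
      have h1 : dist (n • (fun _ : Fin 1 => (2 * Real.pi * Complex.I : ℂ)) : Fin 1 → ℂ) 0 < 1 := hdist
      rw [dist_zero_right] at h1
      have h2 := (norm_le_pi_norm (n • (fun _ : Fin 1 => (2 * Real.pi * Complex.I : ℂ)) :
        Fin 1 → ℂ) 0).trans_lt h1
      rw [Pi.smul_apply, norm_smul, norm_mul, norm_mul, Complex.norm_I, mul_one] at h2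
      have h3 : (1 : ℝ) ≤ ‖n‖ := by
        rw [Int.norm_eq_abs]
        exact_mod_cast Int.one_le_abs h
      have h4 : ‖((Real.pi : ℝ) : ℂ)‖ = Real.pi := by
        rw [Complex.norm_real, Real.norm_of_nonneg Real.pi_pos.le]
      rw [h4, Complex.norm_two] at h2
      have h5 := Real.pi_gt_three
      nlinarith
  Z := ∅
  analytic := fun p => ⟨1, fun _ _ => 1, analyticAt_const, Eventually.of_forall fun x => by
    constructor
    · intro h
      exact absurd h (Set.notMem_empty x)
    · intro h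
      exact absurd (congrFun h 0) one_ne_zero⟩
  codim := Or.inl rfl
  f := fun p => Projectivization.mk ℂ (ξ (p 0)) (h0 (p 0))
  holomorphic := by
    intro p _
    refine ⟨fun q => ξ (q 0), ?_, Eventually.of_forall fun q => ⟨h0 (q 0), rfl⟩⟩
    rw [analyticAt_pi_iff]
    intro j
    exact AnalyticAt.comp (g := fun z => ξ z j) (f := fun q : Fin 1 → ℂ => q 0) (hξ j (p 0))
      ((analyticAt_pi_iff.mp (analyticAt_id (𝕜 := ℂ) (z := p))) 0)
  periodic_Z := by simp
  periodic_f := by
    intro a ha p _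
    obtain ⟨n, rfl⟩ := AddSubgroup.mem_zmultiples_iff.mp ha
    have h1 : ∀ z, ξ (z + n * (2 * Real.pi * Complex.I)) = ξ z := by
      have h2 : Function.Periodic ξ (2 * Real.pi * Complex.I) := hper
      intro z
      exact h2.int_mul n z
    have h2 : (p + n • (fun _ : Fin 1 => (2 * Real.pi * Complex.I : ℂ)) : Fin 1 → ℂ) 0 =
        p 0 + n * (2 * Real.pi * Complex.I) := by
      simp
    have h3 : ξ ((p + n • (fun _ : Fin 1 => (2 * Real.pi * Complex.I : ℂ)) : Fin 1 → ℂ) 0) =
        ξ (p 0) := by rw [h2, h1]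
    simp only [h3]

/-- Monomial curves are images of maps from the multiplicative group. -/
lemma monomialCurves_subset_unionImages (X : Set (PN N)) : monomialCurves X ⊆ unionImages X := by
  rintro x ⟨a, ha, n, rfl, ⟨i, j, hi, hj, hij⟩, hX⟩
  have hne : ∀ z : ℂ, (fun l => a l * Complex.exp z ^ n l) ≠ 0 := by
    intro z h
    have h1 := congrFun h i
    simp only [Pi.zero_apply, mul_eq_zero] at h1
    rcases h1 with h1 | h1
    · exact hi h1
    · exact zpow_ne_zero _ (Complex.exp_ne_zero z) h1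
  set S := mapOfPeriodic (fun z l => a l * Complex.exp z ^ n l) hne
    (fun l z => analyticAt_const.mul (AnalyticAt.zpow analyticAt_cexp (Complex.exp_ne_zero z)))
    (fun z => by
      funext l
      rw [Complex.exp_add, Complex.exp_two_pi_mul_I, mul_one]) with hS
  refine ⟨S, ?_, ?_, ?_⟩
  · rintro _ ⟨p, -, rfl⟩
    exact hX _ (hne (p (0 : Fin 1))) (Complex.exp_ne_zero _)
  · refine ⟨_, ⟨fun _ => 0, Set.notMem_empty _, rfl⟩, _, ⟨fun _ => 1, Set.notMem_empty _, rfl⟩, ?_⟩
    intro h
    change Projectivization.mk ℂ (fun l => a l * Complex.exp 0 ^ n l) (hne 0) =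
      Projectivization.mk ℂ (fun l => a l * Complex.exp 1 ^ n l) (hne 1) at h
    rw [Projectivization.mk_eq_mk_iff'] at h
    obtain ⟨c, hc⟩ := h
    have h1 := congrFun hc i
    have h2 := congrFun hc j
    simp only [Pi.smul_apply, smul_eq_mul, Complex.exp_zero, one_zpow, mul_one] at h1 h2
    have h3 : c * Complex.exp 1 ^ n i = 1 :=
      mul_left_cancel₀ hi (by rw [mul_one]; linear_combination h1)
    have h4 : c * Complex.exp 1 ^ n j = 1 :=
      mul_left_cancel₀ hj (by rw [mul_one]; linear_combination h2)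
    have hc0 : c ≠ 0 := by
      rintro rfl
      rw [zero_mul] at h3
      exact zero_ne_one h3
    have h5 : Complex.exp 1 ^ n i = Complex.exp 1 ^ n j :=
      mul_left_cancel₀ hc0 (h3.trans h4.symm)
    have h6 := congrArg norm h5
    rw [norm_zpow, norm_zpow, Complex.norm_exp, Complex.one_re] at h6
    exact hij ((zpow_right_injective₀ (Real.exp_pos 1) (by
      have := Real.add_one_lt_exp (one_ne_zero (α := ℝ))
      linarith)) h6)
  · refine ⟨fun _ => 0, Set.notMem_empty _, ?_⟩
    change Projectivization.mk ℂ (fun l => a l * Complex.exp 0 ^ n l) (hne 0) = _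
    congr 1
    funext l
    simp

/-- If the entire curves of `X` are contained in `Y` then so are the images of all maps. -/
lemma unionImages_subset {X Y : Set (PN N)} (h : entireCurves X ⊆ Y) : unionImages X ⊆ Y := by
  rintro y ⟨S, hSX, ⟨y₁, ⟨p₁, hp₁, rfl⟩, y₂, ⟨p₂, hp₂, rfl⟩, hne⟩, ⟨p, hp, rfl⟩⟩
  by_contra hcon
  have hgood : ∀ q ∈ {q : Fin S.g → ℂ | ∀ s : ℂ, line p q s ∉ S.Z}, S.f q = S.f p := by
    intro q hq
    by_contra hqp
    refine hcon (h ⟨fun s => S.f (line p q s), ?_, fun s => hSX ⟨_, hq s, rfl⟩, ⟨1, 0, ?_⟩, 0, ?_⟩)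
    · intro s _
      obtain ⟨φ, hφ, hev⟩ := S.holomorphic (line p q s) (hq s)
      exact ⟨fun s => φ (line p q s), hφ.comp (analyticAt_line p q s),
        (analyticAt_line p q s).continuousAt.eventually hev⟩
    · beta_reduce
      rwa [line_one, line_zero]
    · beta_reduce
      rw [line_zero]
  have hdense := dense_lines (Z := S.Z) S.codim hp
  have h2 := fun q (hq : q ∉ S.Z) => const_of_dense S.holomorphic hdense hgood hq
  exact hne ((h2 p₁ hp₁).trans (h2 p₂ hp₂).symm)

lemma closureIn_mono {X S T : Set (PN N)} (h : S ⊆ T) : closureIn X S ⊆ closureIn X T :=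
  fun _ hx => ⟨hx.1, fun k Q hQ hT => hx.2 k Q hQ fun y hy => hT y (h hy)⟩

lemma closureIn_subset_of_subset {X S T : Set (PN N)} (h : S ⊆ closureIn X T) :
    closureIn X S ⊆ closureIn X T :=
  fun _ hx => ⟨hx.1, fun k Q hQ hT => hx.2 k Q hQ fun _ hy => (h hy).2 k Q hQ hT⟩

/-- **The special set of a Fermat cover.** -/
theorem specialSet_eq {k d : ℕ} (hA : ∀ l, (A l).IsHomogeneous (e l))
    (hk : ∀ l, (A l).support.card ≤ k)
    (hdiv : ∀ l, ∀ a ∈ (A l).support, ∀ i, d ∣ a i) (hd : k * (k - 2) < d) :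
    specialSet (zeroLocus A) = excSet (zeroLocus A) := by
  have hent : entireCurves (zeroLocus A) ⊆ excSet (zeroLocus A) := by
    rintro y ⟨f, hf, hfX, hne, z, rfl⟩
    have h1 := brody (O := ∅) hA hk (fun l a ha i _ => hdiv l a ha i) hd hf
      (fun z => by rw [openLocus_empty]; exact hfX z) hne z
    rwa [openLocus_empty] at h1
  apply Set.Subset.antisymm
  · exact closureIn_subset_of_subset (unionImages_subset hent)
  · exact closureIn_mono (monomialCurves_subset_unionImages _)

/-- The union of the closed irreducible subvarieties of `zeroLocus A` of positive dimension which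
are not of general type. -/
def unionNotGeneralType (A : κ → MvPolynomial (Fin (N + 1)) ℂ) : Set (PN N) :=
  {x | ∃ (Q : Ideal (MvPolynomial (Fin (N + 1)) ℂ)) (_ : Q.IsPrime), Homog Q ∧ (∀ l, A l ∈ Q) ∧
    x ∈ primeLocus Q ∅ ∧ ∃ w, 1 ≤ w ∧ (∃ z : Fin w → FunField Q, IsTranscendenceBasis ℂ z) ∧
      ¬ IsGeneralType (FunField Q) w}

lemma unionNotLogGeneralType_empty : unionNotLogGeneralType A ∅ = unionNotGeneralType A := by
  ext x
  constructor
  · rintro ⟨Q, hQ, h1, h2, -, h4, w, hw, hz, h⟩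
    exact ⟨Q, hQ, h1, h2, h4, w, hw, hz, fun hg => h (isGeneralType_iff.mp hg)⟩
  · rintro ⟨Q, hQ, h1, h2, h4, w, hw, hz, h⟩
    exact ⟨Q, hQ, h1, h2, fun i hi => absurd hi (Finset.notMem_empty i), h4, w, hw, hz,
      fun hg => h (isGeneralType_iff.mpr hg)⟩

/-- **The components of a Fermat cover and their special sets.** -/
theorem component_special_tfae [Finite κ] [P.IsPrime] {k d : ℕ}
    (hA : ∀ l, (A l).IsHomogeneous (e l)) (hk : ∀ l, (A l).support.card ≤ k)
    (hdiv : ∀ l, ∀ a ∈ (A l).support, ∀ i, d ∣ a i) (hd : k * (k - 2) < d)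
    (hP : P ∈ (Ideal.span (Set.range A)).minimalPrimes) {r : ℕ}
    (hr : 1 ≤ r) (hz : ∃ z : Fin r → FunField P, IsTranscendenceBasis ℂ z)
    (hrd : r * k * (k - 1) * (k - 2) < 2 * d) :
    List.TFAE [IsGeneralType (FunField P) r, specialSet (primeLocus P ∅) ≠ primeLocus P ∅,
      ¬ primeLocus P ∅ ⊆ excSet (zeroLocus A),
      ∀ n : Fin (N + 1) → ℤ, StableUnder (primeLocus P ∅) n →
        ∀ i j, X i ∉ P → X j ∉ P → n i = n j] := by
  have hO : ∀ i ∈ (∅ : Finset (Fin (N + 1))), X i ∉ P := fun i hi =>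
    absurd hi (Finset.notMem_empty i)
  have hdiv' : ∀ l, ∀ a ∈ (A l).support, ∀ i ∉ (∅ : Finset (Fin (N + 1))), d ∣ a i :=
    fun l a ha i _ => hdiv l a ha i
  have hmain := component_tfae hA hk hdiv' hd hP hO hr hz hrd
  rw [openLocus_empty] at hmain
  have hAP : ∀ l, A l ∈ P := fun l => hP.1.2 (Ideal.subset_span ⟨l, rfl⟩)
  have hhom : Homog P := homog_of_minimal hA hP
  have hne : ∃ i, X i ∉ P := exists_X_notMem hr hz
  have hYX : primeLocus P ∅ ⊆ zeroLocus A := by
    have := primeLocus_subset (O := ∅) hA hAP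
    rwa [openLocus_empty] at this
  rw [isGeneralType_iff]
  tfae_have 1 ↔ 3 := hmain.out 0 4
  tfae_have 3 ↔ 4 := hmain.out 4 5
  tfae_have 3 → 2 := by
    intro h heq
    apply h
    rw [← heq]
    rintro x ⟨hx, hx2⟩
    refine ⟨hYX hx, fun m Q hQ hQ2 => hx2 m Q hQ fun y hy => ?_⟩
    have h1 : y ∈ specialSet (zeroLocus A) := by
      obtain ⟨F, hF, hF2, hF3⟩ := hy
      exact ⟨hYX (hF hF3), fun m Q hQ hQ2 => hQ2 y ⟨F, hF.trans hYX, hF2, hF3⟩⟩
    rw [specialSet_eq hA hk hdiv hd] at h1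
    exact h1.2 m Q hQ hQ2
  tfae_have 2 → 4 := by
    intro h n hn i j hi hj
    by_contra hij
    apply h
    refine Set.Subset.antisymm (fun x hx => hx.1) fun x hx => ⟨hx, fun m Q hQ hQ2 => ?_⟩
    classical
    set S : Finset (Fin (N + 1)) := Finset.univ.filter fun i => X i ∉ P with hSdef
    have hQP : Q ∈ P := by
      refine mem_of_vanishes hhom (S := S) (fun i hi => (Finset.mem_filter.mp hi).2) hne hQ
        fun y hy => hQ2 y ?_
      apply monomialCurves_subset_unionImages
      refine ⟨y.rep, y.rep_nonzero, n, y.mk_rep.symm, ⟨i, j, ?_, ?_, hij⟩, fun t h ht => ?_⟩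
      · exact hy.2 i (Finset.mem_filter.mpr ⟨Finset.mem_univ i, hi⟩)
      · exact hy.2 j (Finset.mem_filter.mpr ⟨Finset.mem_univ j, hj⟩)
      · exact hn y ⟨hy.1, fun i hi => absurd hi (Finset.notMem_empty i)⟩ t h ht
    exact hx.1 Q hQP m hQ
  tfae_finish

end Pool.Agent.H62.FC
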