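import Pool.Agent.H62.FC.Defs

/-! # Fermat covers: homogeneity and grading of minimal primes -/

noncomputable section

namespace Pool.Agent.H62.FC

open MvPolynomial

private lemma Components_core {M : Type} [AddCommMonoid M] [LinearOrder M]
    [IsOrderedCancelAddMonoid M] {σ : Type} (w : σ → M) {P : Ideal (MvPolynomial σ ℂ)}
    {G : Set (MvPolynomial σ ℂ)} (hP : P ∈ (Ideal.span G).minimalPrimes)
    (hG : ∀ g ∈ G, ∀ m, weightedHomogeneousComponent w m g ∈ P) :
    ∀ p ∈ P, ∀ m, weightedHomogeneousComponent w m p ∈ P := by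
  classical
  let _ : GradedAlgebra (weightedHomogeneousSubmodule ℂ w) := weightedGradedAlgebra ℂ w
  have hprime : P.IsPrime := hP.1.1
  set Q : Ideal (MvPolynomial σ ℂ) :=
    (P.homogeneousCore (weightedHomogeneousSubmodule ℂ w)).toIdeal with hQ
  have hQprime : Q.IsPrime := hprime.homogeneousCore
  have hQP : Q ≤ P := Ideal.toIdeal_homogeneousCore_le _ P
  have hGQ : Ideal.span G ≤ Q := by
    rw [Ideal.span_le]
    intro g hg
    rw [← sum_weightedHomogeneousComponent w g,
      finsum_eq_sum _ (weightedHomogeneousComponent_finsupp g)]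
    refine Q.sum_mem fun m _ => ?_
    exact Ideal.mem_homogeneousCore_of_homogeneous_of_mem
      ⟨m, weightedHomogeneousComponent_mem w g m⟩ (hG g hg m)
  have hPQ : P ≤ Q := hP.2 ⟨hQprime, hGQ⟩ hQP
  have heq : Q = P := le_antisymm hQP hPQ
  have hhom : P.IsHomogeneous (weightedHomogeneousSubmodule ℂ w) := by
    rw [← heq]
    exact HomogeneousIdeal.isHomogeneous _
  intro p hp m
  exact weightedHomogeneousComponent_mem_of_mem ℂ w hhom hp m

variable {N : ℕ} {κ : Type} {A : κ → MvPolynomial (Fin (N + 1)) ℂ} {e : κ → ℕ}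
  {P : Ideal (MvPolynomial (Fin (N + 1)) ℂ)}

theorem homog_of_minimal (hA : ∀ l, (A l).IsHomogeneous (e l))
    (hP : P ∈ (Ideal.span (Set.range A)).minimalPrimes) : Homog P := by
  classical
  intro p hp n
  refine Components_core (w := (1 : Fin (N + 1) → ℕ)) hP ?_ p hp n
  rintro g ⟨l, rfl⟩ m
  have h1 : A l ∈ P := hP.1.2 (Ideal.subset_span ⟨l, rfl⟩)
  have h2 : weightedHomogeneousComponent (1 : Fin (N + 1) → ℕ) m (A l) =
      if m = e l then A l else 0 := by
    have h3 := homogeneousComponent_of_mem (m := m)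
      ((mem_homogeneousSubmodule _ _).2 (hA l))
    rw [homogeneousComponent] at h3
    exact h3
  rw [h2]
  split_ifs
  · exact h1
  · exact P.zero_mem

theorem graded_of_levels (hP : P ∈ (Ideal.span (Set.range A)).minimalPrimes)
    {n : Fin (N + 1) → ℤ} (hlev : ∀ l v, weightedHomogeneousComponent n v (A l) ∈ P) :
    ∀ p ∈ P, ∀ v, weightedHomogeneousComponent n v p ∈ P := by
  refine Components_core n hP ?_
  rintro g ⟨l, rfl⟩ m
  exact hlev l m

end Pool.Agent.H62.FC
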