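import Pool.Agent.H62.FC.Eval

/-!
# The Nullstellensatz for loci with nonzero coordinates and the exceptional set
-/

noncomputable section

namespace Pool.Agent.H62.FC

open MvPolynomial Topology Filter
open Pool.Agent.H17 (PN VanishesAt zeroLocus ZariskiClosedIn HolomorphicInto puncturedDisc
  PseudoBrodyHyperbolic PseudoPicardHyperbolic vanishesAt_mk_iff)
open Pool.Agent.H17GT (coordFun)
open Pool.Agent.H17LG.Variety (FunField ratio IsLogGeneralType)
open Pool.Agent.H23.Fano (PrimeDivisorOver)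

variable {N : ℕ} {κ : Type} {A : κ → MvPolynomial (Fin (N + 1)) ℂ} {e : κ → ℕ}
  {O : Finset (Fin (N + 1))} {P : Ideal (MvPolynomial (Fin (N + 1)) ℂ)}

/-- All elements of `P` vanish at the points of `primeLocus P O`. -/
theorem Dense_eval (hP : Homog P) {x : PN N} (hx : x ∈ primeLocus P O)
    {Q : MvPolynomial (Fin (N + 1)) ℂ} (hQ : Q ∈ P) : eval x.rep Q = 0 := by
  rw [← sum_homogeneousComponent Q, map_sum]
  refine Finset.sum_eq_zero fun i _ => ?_
  exact hx.1 _ (hP Q hQ i) i (homogeneousComponent_isHomogeneous i Q)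

/-! D-V -/
theorem mem_of_vanishes [P.IsPrime] (hP : Homog P) {S : Finset (Fin (N + 1))}
    (hS : ∀ i ∈ S, X i ∉ P) (hne : ∃ i, X i ∉ P) {m : ℕ} {F : MvPolynomial (Fin (N + 1)) ℂ}
    (hF : F.IsHomogeneous m) (h : ∀ x ∈ primeLocus P S, VanishesAt F x) : F ∈ P := by
  obtain ⟨i1, hi1⟩ := hne
  have hG : F * (∏ i ∈ S, X i) * X i1 ∈ P := by
    rw [← MvPolynomial.IsPrime.vanishingIdeal_zeroLocus (K := ℂ) P,
      MvPolynomial.mem_vanishingIdeal_iff]
    intro v hv
    rw [MvPolynomial.aeval_eq_eval]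
    have hv' : ∀ Q ∈ P, eval v Q = 0 := fun Q hQ => by
      have h1 := hv Q hQ
      rwa [MvPolynomial.aeval_eq_eval] at h1
    change eval v (F * (∏ i ∈ S, X i) * X i1) = 0
    rw [map_mul, map_mul, map_prod]
    simp only [eval_X]
    by_cases hv0 : v = 0
    · rw [hv0]
      simp
    · by_cases hz : ∃ i ∈ S, v i = 0
      · obtain ⟨i, hi, hvi⟩ := hz
        rw [Finset.prod_eq_zero hi hvi]
        simp
      · push Not at hz
        have h1 : Projectivization.mk ℂ v hv0 ∈ primeLocus P S :=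
          (mk_mem_primeLocus v hv0).2 ⟨fun Q hQ _ _ => hv' Q hQ, hz⟩
        have h2 := h _ h1
        rw [vanishesAt_mk_iff hF v hv0] at h2
        rw [h2]
        simp
  have hpr : P.IsPrime := inferInstance
  rcases hpr.mem_or_mem hG with h1 | h1
  · rcases hpr.mem_or_mem h1 with h2 | h2
    · exact h2
    · exfalso
      obtain ⟨i, hi, h3⟩ := (hpr.prod_mem_iff).1 h2
      exact hS i hi h3
  · exact absurd h1 hi1

/-! D-A -/
theorem primeLocus_subset_excSet [P.IsPrime] (hP : Homog P) (hA : ∀ l, (A l).IsHomogeneous (e l))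
    (hO : ∀ i ∈ O, X i ∉ P) {n : Fin (N + 1) → ℤ} (hn : ∃ i j, X i ∉ P ∧ X j ∉ P ∧ n i ≠ n j)
    (hlev : ∀ l v, weightedHomogeneousComponent n v (A l) ∈ P) :
    primeLocus P O ⊆ excSet (openLocus A O) := by
  classical
  intro x hx
  refine ⟨⟨fun l => ?_, hx.2⟩, fun k Q hQ hv => ?_⟩
  · have h1 := eval_zpow_eq_zero (n := n) (Q := A l) (a := x.rep)
      (fun v => Dense_eval hP hx (hlev l v)) (one_ne_zero (α := ℂ))
    simpa [VanishesAt] using h1
  · have hQP : Q ∈ P := by
      obtain ⟨i, j, hi, hj, hij⟩ := hn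
      refine mem_of_vanishes hP (S := Finset.univ.filter fun i => X i ∉ P)
        (fun i hi => (Finset.mem_filter.1 hi).2) ⟨i, hi⟩ hQ fun y hy => hv y ?_
      have hy0 : ∀ i, X i ∉ P → y.rep i ≠ 0 := fun i hi =>
        hy.2 i (Finset.mem_filter.2 ⟨Finset.mem_univ i, hi⟩)
      refine ⟨y.rep, y.rep_nonzero, n, (Projectivization.mk_rep y).symm,
        ⟨i, j, hy0 i hi, hy0 j hj, hij⟩, fun t h ht => ?_⟩
      rw [mk_mem_openLocus hA]
      refine ⟨fun l => eval_zpow_eq_zero (fun v => Dense_eval hP hy (hlev l v)) ht,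
        fun i hi => mul_ne_zero (hy0 i (hO i hi)) (zpow_ne_zero _ ht)⟩
    exact hx.1 Q hQP k hQ

end Pool.Agent.H62.FC
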