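import Pool.Agent.H62.FC.Defs

/-!
# Evaluation along one-parameter groups
-/

open MvPolynomial Topology Filter
open Pool.Agent.H17 (PN VanishesAt zeroLocus ZariskiClosedIn vanishesAt_mk_iff)

noncomputable section

namespace Pool.Agent.H62.FC

variable {N : ℕ} {κ : Type} {A : κ → MvPolynomial (Fin (N + 1)) ℂ} {e : κ → ℕ}
  {O : Finset (Fin (N + 1))} {P : Ideal (MvPolynomial (Fin (N + 1)) ℂ)}

/-- The condition on the coordinates does not depend on the representative. -/
lemma rep_ne_zero_iff (a : Fin (N + 1) → ℂ) (ha : a ≠ 0) (i : Fin (N + 1)) :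
    (Projectivization.mk ℂ a ha).rep i ≠ 0 ↔ a i ≠ 0 := by
  obtain ⟨c, hc, h⟩ := Pool.Agent.H17.exists_smul_rep a ha
  rw [h, Pi.smul_apply, smul_eq_mul]
  constructor
  · intro h1 h2
    exact h1 (by rw [h2, mul_zero])
  · intro h1
    exact mul_ne_zero hc h1

lemma mk_mem_openLocus (hA : ∀ l, (A l).IsHomogeneous (e l)) (a : Fin (N + 1) → ℂ) (ha : a ≠ 0) :
    Projectivization.mk ℂ a ha ∈ openLocus A O ↔
      (∀ l, eval a (A l) = 0) ∧ ∀ i ∈ O, a i ≠ 0 := by
  constructor
  · rintro ⟨h1, h2⟩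
    exact ⟨fun l => (vanishesAt_mk_iff (hA l) a ha).mp (h1 l),
      fun i hi => (rep_ne_zero_iff a ha i).mp (h2 i hi)⟩
  · rintro ⟨h1, h2⟩
    exact ⟨fun l => (vanishesAt_mk_iff (hA l) a ha).mpr (h1 l),
      fun i hi => (rep_ne_zero_iff a ha i).mpr (h2 i hi)⟩

lemma mk_mem_primeLocus (a : Fin (N + 1) → ℂ) (ha : a ≠ 0) :
    Projectivization.mk ℂ a ha ∈ primeLocus P O ↔
      (∀ Q ∈ P, ∀ n, Q.IsHomogeneous n → eval a Q = 0) ∧ ∀ i ∈ O, a i ≠ 0 := by
  constructor
  · rintro ⟨h1, h2⟩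
    exact ⟨fun Q hQ n hn => (vanishesAt_mk_iff hn a ha).mp (h1 Q hQ n hn),
      fun i hi => (rep_ne_zero_iff a ha i).mp (h2 i hi)⟩
  · rintro ⟨h1, h2⟩
    exact ⟨fun Q hQ n hn => (vanishesAt_mk_iff hn a ha).mpr (h1 Q hQ n hn),
      fun i hi => (rep_ne_zero_iff a ha i).mpr (h2 i hi)⟩

lemma primeLocus_subset (hA : ∀ l, (A l).IsHomogeneous (e l)) (hAP : ∀ l, A l ∈ P) :
    primeLocus P O ⊆ openLocus A O := fun _ hx => ⟨fun l => hx.1 _ (hAP l) _ (hA l), hx.2⟩

lemma primeLocus_mono {Q : Ideal (MvPolynomial (Fin (N + 1)) ℂ)} (h : P ≤ Q) :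
    primeLocus Q O ⊆ primeLocus P O := fun _ hx => ⟨fun R hR n hn => hx.1 R (h hR) n hn, hx.2⟩

lemma primeLocus_anti {S : Finset (Fin (N + 1))} (h : O ⊆ S) :
    primeLocus P S ⊆ primeLocus P O := fun _ hx => ⟨hx.1, fun i hi => hx.2 i (h hi)⟩

lemma zpow_sum {ι : Type*} {t : ℂ} (ht : t ≠ 0) (S : Finset ι) (f : ι → ℤ) :
    t ^ (∑ i ∈ S, f i) = ∏ i ∈ S, t ^ f i := by
  classical
  induction S using Finset.induction_on with
  | empty => simp
  | insert a S ha ih => rw [Finset.sum_insert ha, Finset.prod_insert ha, zpow_add₀ ht, ih]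

/-- The components of a polynomial for an integral weight, evaluated. -/
lemma eval_component {σ : Type*} [Fintype σ] (n : σ → ℤ) (Q : MvPolynomial σ ℂ) (a : σ → ℂ)
    (v : ℤ) : eval a (weightedHomogeneousComponent n v Q) =
      ∑ m ∈ Q.support with ∑ i, (m i : ℤ) * n i = v, Q.coeff m * ∏ i, a i ^ m i := by
  classical
  rw [weightedHomogeneousComponent_apply, map_sum]
  refine Finset.sum_congr ?_ fun m _ => ?_
  · ext m
    simp only [Finset.mem_filter, Finsupp.weight_apply, nsmul_eq_mul]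
    rw [Finsupp.sum_fintype _ _ (fun i => by simp)]
  · rw [eval_monomial]
    congr 1
    exact Finsupp.prod_fintype _ _ fun i => pow_zero _

/-- Evaluation of a polynomial along a one-parameter group. -/
lemma eval_zpow_eq_sum {σ : Type*} [Fintype σ] (n : σ → ℤ) (Q : MvPolynomial σ ℂ) (a : σ → ℂ)
    {t : ℂ} (ht : t ≠ 0) : eval (fun i => a i * t ^ n i) Q =
      ∑ v ∈ Q.support.image (fun m => ∑ i, (m i : ℤ) * n i),
        t ^ v * eval a (weightedHomogeneousComponent n v Q) := by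
  classical
  rw [eval_eq']
  simp only [eval_component, Finset.mul_sum]
  rw [← Finset.sum_fiberwise_of_maps_to (s := Q.support)
    (t := Q.support.image fun m => ∑ i, (m i : ℤ) * n i)
    (g := fun m => ∑ i, (m i : ℤ) * n i) (fun m hm => Finset.mem_image_of_mem _ hm)]
  refine Finset.sum_congr rfl fun v _ => Finset.sum_congr rfl fun m hm => ?_
  have hv : ∑ i, (m i : ℤ) * n i = v := (Finset.mem_filter.mp hm).2
  have h2 : ∏ i, (a i * t ^ n i) ^ m i = (∏ i, a i ^ m i) * t ^ v := by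
    rw [← hv, zpow_sum ht, ← Finset.prod_mul_distrib]
    refine Finset.prod_congr rfl fun i _ => ?_
    rw [mul_pow, mul_comm (m i : ℤ), zpow_mul, zpow_natCast]
  rw [h2]
  ring

/-- A polynomial whose components vanish at `a` vanishes along the one-parameter group. -/
lemma eval_zpow_eq_zero {σ : Type*} [Fintype σ] {n : σ → ℤ} {Q : MvPolynomial σ ℂ} {a : σ → ℂ}
    (h : ∀ v, eval a (weightedHomogeneousComponent n v Q) = 0) {t : ℂ} (ht : t ≠ 0) :
    eval (fun i => a i * t ^ n i) Q = 0 := by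
  rw [eval_zpow_eq_sum n Q a ht]
  exact Finset.sum_eq_zero fun v _ => by rw [h, mul_zero]

/-- A Laurent polynomial which vanishes for all `t ≠ 0` has zero coefficients. -/
lemma coeff_eq_zero_of_zpow {S : Finset ℤ} {c : ℤ → ℂ}
    (h : ∀ t : ℂ, t ≠ 0 → ∑ v ∈ S, t ^ v * c v = 0) {v : ℤ} (hv : v ∈ S) : c v = 0 := by
  classical
  obtain ⟨b, hb⟩ : ∃ b : ℤ, ∀ u ∈ S, b ≤ u := by
    rcases S.eq_empty_or_nonempty with rfl | hne
    · exact ⟨0, fun u hu => absurd hu (Finset.notMem_empty u)⟩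
    · exact ⟨S.min' hne, fun u hu => S.min'_le u hu⟩
  set p : Polynomial ℂ := ∑ u ∈ S, Polynomial.C (c u) * Polynomial.X ^ (u - b).toNat with hp
  have hp0 : p = 0 := by
    apply Polynomial.eq_zero_of_infinite_isRoot
    refine Set.Infinite.mono (s := {t : ℂ | t ≠ 0}) ?_ ?_
    · intro t ht
      have ht0 : t ≠ 0 := ht
      change p.eval t = 0
      have h1 : p.eval t = t ^ (-b) * ∑ u ∈ S, t ^ u * c u := by
        rw [hp, Polynomial.eval_finsetSum, Finset.mul_sum]
        refine Finset.sum_congr rfl fun u hu => ?_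
        rw [Polynomial.eval_mul, Polynomial.eval_C, Polynomial.eval_pow, Polynomial.eval_X,
          ← mul_assoc, ← zpow_add₀ ht0, mul_comm, ← zpow_natCast, Int.toNat_of_nonneg (by
            have := hb u hu
            omega)]
        congr 2
        ring
      rw [h1, h t ht0, mul_zero]
    · exact Set.Infinite.mono (fun t ht => ht) (Set.infinite_of_finite_compl
        (s := {t : ℂ | t ≠ 0}) (by
          have : {t : ℂ | t ≠ 0}ᶜ = {0} := by
            ext t
            simp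
          rw [this]
          exact Set.finite_singleton 0))
  have h2 := congrArg (fun q => Polynomial.coeff q (v - b).toNat) hp0
  simp only [hp, Polynomial.finsetSum_coeff, Polynomial.coeff_C_mul, Polynomial.coeff_X_pow,
    Polynomial.coeff_zero] at h2
  rw [Finset.sum_eq_single v] at h2
  · simpa using h2
  · intro u hu huv
    rw [if_neg, mul_zero]
    intro h3
    apply huv
    have h4 := hb u hu
    have h5 := hb v hv
    omega
  · intro h3
    exact absurd hv h3

/-- The components of a polynomial which vanishes along a one-parameter group vanish. -/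
lemma component_eq_zero_of_zpow {σ : Type*} [Fintype σ] {n : σ → ℤ} {Q : MvPolynomial σ ℂ}
    {a : σ → ℂ} (h : ∀ t : ℂ, t ≠ 0 → eval (fun i => a i * t ^ n i) Q = 0) (v : ℤ) :
    eval a (weightedHomogeneousComponent n v Q) = 0 := by
  classical
  by_cases hv : v ∈ Q.support.image (fun m => ∑ i, (m i : ℤ) * n i)
  · refine coeff_eq_zero_of_zpow (c := fun v => eval a (weightedHomogeneousComponent n v Q))
      (S := Q.support.image (fun m => ∑ i, (m i : ℤ) * n i)) (fun t ht => ?_) hv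
    rw [← eval_zpow_eq_sum n Q a ht]
    exact h t ht
  · rw [eval_component]
    refine Finset.sum_eq_zero fun m hm => ?_
    exfalso
    apply hv
    rw [Finset.mem_filter] at hm
    exact Finset.mem_image.mpr ⟨m, hm.1, hm.2⟩

/-- The trace of the exceptional set on a subset is Zariski closed. -/
lemma zariskiClosedIn_inter_excSet {X Y : Set (PN N)} (h : Y ⊆ X) :
    ZariskiClosedIn Y (Y ∩ excSet X) := by
  refine ⟨{Q | (∃ n, Q.IsHomogeneous n) ∧ ∀ y ∈ monomialCurves X, VanishesAt Q y},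
    fun Q hQ => hQ.1, ?_⟩
  ext x
  constructor
  · rintro ⟨h1, h2⟩
    exact ⟨h1, fun Q ⟨⟨n, hn⟩, hQ⟩ => h2.2 n Q hn hQ⟩
  · rintro ⟨h1, h2⟩
    exact ⟨h1, h h1, fun n Q hn hQ => h2 Q ⟨⟨n, hn⟩, hQ⟩⟩

end Pool.Agent.H62.FC
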