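import Pool.Agent.H62.FC.Words
import Pool.Agent.H62.FC.Defs
import Pool.Agent.H62.FC.NevDefs
import Pool.Agent.H62.FC.CircuitDefs
import Pool.Agent.H62.FC.Dense
import Pool.Agent.H99.Cover.Basic

/-! # Fermat covers: a variety with a one-parameter group is not hyperbolic -/

noncomputable section

namespace Pool.Agent.H62.FC

open MvPolynomial Topology Filter
open Pool.Agent.H17 (PN VanishesAt zeroLocus ZariskiClosedIn HolomorphicInto puncturedDisc
  PseudoBrodyHyperbolic PseudoPicardHyperbolic)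

variable {N : ℕ} {O : Finset (Fin (N + 1))} {P : Ideal (MvPolynomial (Fin (N + 1)) ℂ)}

theorem GradedCurves_prod_zpow {ι : Type*} [Fintype ι] (n : ι → ℤ) {c : ℂ} (hc : c ≠ 0)
    (d : ι → ℕ) : ∏ i, (c ^ n i) ^ d i = c ^ (∑ i, d i • n i) := by
  classical
  have h : ∀ s : Finset ι, ∏ i ∈ s, (c ^ n i) ^ d i = c ^ (∑ i ∈ s, d i • n i) := by
    intro s
    induction s using Finset.induction_on with
    | empty => simp
    | insert a s ha ih =>
      rw [Finset.prod_insert ha, Finset.sum_insert ha, zpow_add₀ hc, ih, ← zpow_natCast,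
        ← zpow_mul, nsmul_eq_mul, mul_comm (n a)]
  exact h Finset.univ

/-- The value of a weighted homogeneous polynomial along a one-parameter group. -/
theorem GradedCurves_eval {n : Fin (N + 1) → ℤ} {v : ℤ} {q : MvPolynomial (Fin (N + 1)) ℂ}
    (hq : IsWeightedHomogeneous n q v) (a : Fin (N + 1) → ℂ) {c : ℂ} (hc : c ≠ 0) :
    eval (fun i => a i * c ^ n i) q = c ^ v * eval a q := by
  rw [eval_eq', eval_eq', Finset.mul_sum]
  refine Finset.sum_congr rfl fun d hd => ?_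
  have h1 : Finsupp.weight n d = v := hq (mem_support_iff.mp hd)
  have h2 : ∏ i, (c ^ n i) ^ d i = c ^ v := by
    rw [← h1, Finsupp.weight_apply, Finsupp.sum_fintype _ _ (by simp)]
    exact GradedCurves_prod_zpow n hc _
  simp_rw [mul_pow]
  rw [Finset.prod_mul_distrib, h2]
  ring

/-- The component of a form is a form. -/
theorem GradedCurves_form {n : Fin (N + 1) → ℤ} {v : ℤ} {q : MvPolynomial (Fin (N + 1)) ℂ}
    {m : ℕ} (hq : q.IsHomogeneous m) : (weightedHomogeneousComponent n v q).IsHomogeneous m := by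
  classical
  intro d hd
  rw [coeff_weightedHomogeneousComponent] at hd
  split_ifs at hd with h
  · exact hq hd
  · exact absurd rfl hd

/-- The value of a polynomial along a one-parameter group. -/
theorem GradedCurves_eval_eq (n : Fin (N + 1) → ℤ) (q : MvPolynomial (Fin (N + 1)) ℂ)
    (a : Fin (N + 1) → ℂ) {c : ℂ} (hc : c ≠ 0) :
    eval (fun i => a i * c ^ n i) q =
      ∑ v ∈ (weightedHomogeneousComponent_finsupp (w := n) q).toFinset,
        c ^ v * eval a (weightedHomogeneousComponent n v q) := by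
  conv_lhs => rw [← sum_weightedHomogeneousComponent n q,
    finsum_eq_sum _ (weightedHomogeneousComponent_finsupp q), map_sum]
  refine Finset.sum_congr rfl fun v _ => ?_
  exact GradedCurves_eval (weightedHomogeneousComponent_isWeightedHomogeneous v q) a hc

private lemma GradedCurves_ne {x : PN N} {n : Fin (N + 1) → ℤ} {c : ℂ} (hc : c ≠ 0) :
    (fun i => x.rep i * c ^ n i) ≠ 0 := by
  intro h0
  apply x.rep_nonzero
  funext i
  have h1 := congrFun h0 i
  simp only [Pi.zero_apply, mul_eq_zero] at h1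
  exact h1.resolve_right (zpow_ne_zero _ hc)

private lemma GradedCurves_mem {n : Fin (N + 1) → ℤ}
    (hgr : ∀ p ∈ P, ∀ v, weightedHomogeneousComponent n v p ∈ P) {S : Finset (Fin (N + 1))}
    (hOS : O ⊆ S) {x : PN N} (hx : x ∈ primeLocus P S) {c : ℂ} (hc : c ≠ 0)
    (h : (fun i => x.rep i * c ^ n i) ≠ 0) :
    Projectivization.mk ℂ (fun i => x.rep i * c ^ n i) h ∈ primeLocus P O := by
  constructor
  · intro Q hQ m hm
    rw [Pool.Agent.H17.vanishesAt_mk_iff hm, GradedCurves_eval_eq n Q _ hc]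
    refine Finset.sum_eq_zero fun v _ => ?_
    have h1 : eval x.rep (weightedHomogeneousComponent n v Q) = 0 :=
      hx.1 _ (hgr Q hQ v) m (GradedCurves_form hm)
    rw [h1, mul_zero]
  · intro i hi
    obtain ⟨b, hb, hrep⟩ := Pool.Agent.H17.exists_smul_rep (fun i => x.rep i * c ^ n i) h
    rw [hrep]
    simp only [Pi.smul_apply, smul_eq_mul]
    exact mul_ne_zero hb (mul_ne_zero (hx.2 i (hOS hi)) (zpow_ne_zero _ hc))

private lemma GradedCurves_mk_rep (x : PN N) {n : Fin (N + 1) → ℤ} {c : ℂ} (hc : c = 1)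
    (h : (fun i => x.rep i * c ^ n i) ≠ 0) :
    Projectivization.mk ℂ (fun i => x.rep i * c ^ n i) h = x := by
  conv_rhs => rw [← x.mk_rep]
  congr 1
  funext i
  rw [hc, one_zpow, mul_one]

private lemma GradedCurves_eq_of_subset [P.IsPrime] (hP : Homog P) {S : Finset (Fin (N + 1))}
    (hS : ∀ i ∈ S, X i ∉ P) (hne : ∃ i, X i ∉ P) {Ξ : Set (PN N)}
    (hΞ : ZariskiClosedIn (primeLocus P O) Ξ) (h : primeLocus P S ⊆ Ξ) :
    Ξ = primeLocus P O := by
  obtain ⟨T, hT, rfl⟩ := hΞ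
  refine Set.Subset.antisymm (fun x hx => hx.1) fun x hx => ⟨hx, fun F hF => ?_⟩
  obtain ⟨m, hm⟩ := hT F hF
  have h1 : F ∈ P := mem_of_vanishes hP hS hne hm fun y hy => (h hy).2 F hF
  exact hx.1 F h1 m hm

private lemma GradedCurves_holo (x : PN N) (n : Fin (N + 1) → ℤ) {g : ℂ → ℂ} {U : Set ℂ}
    (hg : ∀ z ∈ U, AnalyticAt ℂ g z) :
    HolomorphicInto (fun z => Projectivization.mk ℂ (fun i => x.rep i * Complex.exp (g z) ^ n i)
      (GradedCurves_ne (Complex.exp_ne_zero _))) U := by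
  intro z₀ hz₀
  refine ⟨fun z i => x.rep i * Complex.exp (g z) ^ n i, ?_, ?_⟩
  · rw [analyticAt_pi_iff]
    intro i
    exact analyticAt_const.mul ((hg z₀ hz₀).cexp.zpow (Complex.exp_ne_zero _))
  · exact Eventually.of_forall fun z => ⟨GradedCurves_ne (Complex.exp_ne_zero _), rfl⟩

/-- The finite set of the coordinates which do not vanish on the variety. -/
private lemma GradedCurves_exists_set (P : Ideal (MvPolynomial (Fin (N + 1)) ℂ)) :
    ∃ S : Finset (Fin (N + 1)), ∀ i, i ∈ S ↔ X i ∉ P := by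
  classical
  exact ⟨Finset.univ.filter fun i => X i ∉ P, fun i => by simp⟩

theorem not_brody_of_graded [P.IsPrime] (hP : Homog P) (hO : ∀ i ∈ O, X i ∉ P)
    {n : Fin (N + 1) → ℤ} (hn : ∃ i j, X i ∉ P ∧ X j ∉ P ∧ n i ≠ n j)
    (hgr : ∀ p ∈ P, ∀ v, weightedHomogeneousComponent n v p ∈ P) :
    ¬ PseudoBrodyHyperbolic (primeLocus P O) := by
  rintro ⟨Ξ, hΞ, hne, hall⟩
  obtain ⟨S, hS⟩ := GradedCurves_exists_set P
  obtain ⟨i, j, hi, hj, hij⟩ := hn
  have hOS : O ⊆ S := fun i hi => (hS i).2 (hO i hi)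
  apply hne
  refine GradedCurves_eq_of_subset hP (fun i hi => (hS i).1 hi) ⟨i, hi⟩ hΞ fun x hx => ?_
  have h1 := hall (fun z => Projectivization.mk ℂ (fun i => x.rep i * Complex.exp z ^ n i)
    (GradedCurves_ne (Complex.exp_ne_zero _)))
    (GradedCurves_holo x n (g := fun z => z) fun z _ => analyticAt_id)
    (fun z => GradedCurves_mem hgr hOS hx (Complex.exp_ne_zero _) _) ?_ 0
  · rwa [GradedCurves_mk_rep x Complex.exp_zero] at h1
  · refine ⟨1, 0, fun heq => ?_⟩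
    rw [Projectivization.mk_eq_mk_iff] at heq
    obtain ⟨a, ha⟩ := heq
    have hxi : x.rep i ≠ 0 := hx.2 i ((hS i).2 hi)
    have hxj : x.rep j ≠ 0 := hx.2 j ((hS j).2 hj)
    have e1 : ∀ k, x.rep k ≠ 0 → (a : ℂ) = Complex.exp 1 ^ n k := by
      intro k hk
      have h2 := congrFun ha k
      simp only [Pi.smul_apply, Complex.exp_zero, one_zpow, mul_one] at h2
      have h3 : (a : ℂ) * x.rep k = x.rep k * Complex.exp 1 ^ n k := h2
      rw [mul_comm] at h3
      exact mul_left_cancel₀ hk h3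
    have e2 : Complex.exp 1 ^ n i = Complex.exp 1 ^ n j := by
      rw [← e1 i hxi, ← e1 j hxj]
    have e3 : Real.exp 1 ^ n i = Real.exp 1 ^ n j := by
      have h3 : ((Real.exp 1 ^ n i : ℝ) : ℂ) = ((Real.exp 1 ^ n j : ℝ) : ℂ) := by
        push_cast
        exact e2
      exact_mod_cast h3
    exact hij (zpow_right_injective₀ (Real.exp_pos 1) (by simp) e3)

private lemma GradedCurves_limit {φ : ℂ → Fin (N + 1) → ℂ} (hφ : AnalyticAt ℂ φ 0)
    {a : Fin (N + 1) → ℂ} {n : Fin (N + 1) → ℤ}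
    (h : ∀ᶠ z in 𝓝 (0 : ℂ), z ≠ 0 → ∀ k l,
      φ z k * (a l * Complex.exp z⁻¹ ^ n l) = φ z l * (a k * Complex.exp z⁻¹ ^ n k))
    {k l : Fin (N + 1)} (hl : a l ≠ 0) (hkl : n k ≠ n l) : φ 0 k = 0 := by
  have key : ∀ σ : ℂ, σ ≠ 0 → φ 0 k * (a l * σ ^ n l) = φ 0 l * (a k * σ ^ n k) := by
    intro σ hσ
    obtain ⟨zs, h1, h2⟩ := Pool.Agent.H99.Cover.exists_seq_exp_inv σ hσ
    have hc : ∀ m, Tendsto (fun s => φ (zs s) m) atTop (𝓝 (φ 0 m)) := fun m =>
      ((continuous_apply m).tendsto _).comp (hφ.continuousAt.tendsto.comp h1)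
    refine tendsto_nhds_unique ((hc k).mul_const (a l * σ ^ n l))
      (((hc l).mul_const (a k * σ ^ n k)).congr' ?_)
    filter_upwards [h2, h1.eventually h] with s h3 h4
    have h5 := h4 h3.1 k l
    rw [h3.2] at h5
    exact h5.symm
  have e1 := key 1 one_ne_zero
  have e2 := key 2 two_ne_zero
  rw [one_zpow, one_zpow, mul_one, mul_one] at e1
  have h3 : (2 : ℂ) ^ n l ≠ 0 := zpow_ne_zero _ two_ne_zero
  have h4 : (2 : ℂ) ^ n l ≠ 2 ^ n k := by
    intro h5
    have h6 : (2 : ℝ) ^ n l = 2 ^ n k := by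
      have h7 : (((2 : ℝ) ^ n l : ℝ) : ℂ) = (((2 : ℝ) ^ n k : ℝ) : ℂ) := by
        push_cast
        exact h5
      exact_mod_cast h7
    exact hkl (zpow_right_injective₀ (by norm_num) (by norm_num) h6).symm
  have h5 : φ 0 k * a l * ((2 : ℂ) ^ n l - 2 ^ n k) = 0 := by
    linear_combination e2 - (2 : ℂ) ^ n k * e1
  have h6 := (mul_eq_zero.1 h5).resolve_right (sub_ne_zero.2 h4)
  exact (mul_eq_zero.1 h6).resolve_right hl

theorem not_picard_of_graded [P.IsPrime] (hP : Homog P) (hO : ∀ i ∈ O, X i ∉ P)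
    {n : Fin (N + 1) → ℤ} (hn : ∃ i j, X i ∉ P ∧ X j ∉ P ∧ n i ≠ n j)
    (hgr : ∀ p ∈ P, ∀ v, weightedHomogeneousComponent n v p ∈ P) :
    ¬ PseudoPicardHyperbolic (primeLocus P O) := by
  rintro ⟨Ξ, hΞ, hne, hall⟩
  obtain ⟨S, hS⟩ := GradedCurves_exists_set P
  obtain ⟨i, j, hi, hj, hij⟩ := hn
  have hOS : O ⊆ S := fun i hi => (hS i).2 (hO i hi)
  obtain ⟨x, hx, hxΞ⟩ : ∃ x ∈ primeLocus P S, x ∉ Ξ := by
    by_contra hcon
    push Not at hcon
    exact hne (GradedCurves_eq_of_subset hP (fun i hi => (hS i).1 hi) ⟨i, hi⟩ hΞ hcon)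
  have hxi : x.rep i ≠ 0 := hx.2 i ((hS i).2 hi)
  have hxj : x.rep j ≠ 0 := hx.2 j ((hS j).2 hj)
  obtain ⟨g, hg, hgf⟩ := hall
    (fun z => Projectivization.mk ℂ (fun i => x.rep i * Complex.exp z⁻¹ ^ n i)
      (GradedCurves_ne (Complex.exp_ne_zero _)))
    (GradedCurves_holo x n (g := fun z => z⁻¹) fun z hz => analyticAt_inv (by
      simpa using hz.2))
    (fun z _ => GradedCurves_mem hgr hOS hx (Complex.exp_ne_zero _) _) (by
      refine ⟨(2 * Real.pi * Complex.I)⁻¹, ⟨?_, ?_⟩, ?_⟩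
      · rw [mem_ball_zero_iff, norm_inv]
        have h1 : ‖(2 * Real.pi * Complex.I : ℂ)‖ = 2 * Real.pi := by
          rw [norm_mul, norm_mul]
          simp [Real.pi_pos.le, abs_of_nonneg]
        rw [h1]
        apply inv_lt_one_of_one_lt₀
        have := Real.pi_gt_three
        linarith
      · simp [Real.pi_ne_zero]
      · rw [GradedCurves_mk_rep x (by rw [inv_inv]; exact Complex.exp_two_pi_mul_I)]
        exact hxΞ)
  obtain ⟨φ, hφ, hφg⟩ := hg 0 (by simp)
  -- the coordinates of the limit point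
  have hφ0 : φ 0 ≠ 0 := by
    obtain ⟨h, -⟩ := hφg.self_of_nhds
    exact h
  have hball : ∀ᶠ z in 𝓝 (0 : ℂ), z ∈ Metric.ball (0 : ℂ) 1 :=
    Metric.ball_mem_nhds 0 one_pos
  have hrel : ∀ᶠ z in 𝓝 (0 : ℂ), z ≠ 0 → ∃ c : ℂ, c ≠ 0 ∧ ∀ k,
      φ z k = c * (x.rep k * Complex.exp z⁻¹ ^ n k) := by
    filter_upwards [hφg, hball] with z h1 h2 h3
    obtain ⟨h4, h5⟩ := h1
    have h6 : z ∈ puncturedDisc := ⟨h2, by simpa using h3⟩
    rw [hgf z h6] at h5
    rw [eq_comm, Projectivization.mk_eq_mk_iff] at h5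
    obtain ⟨c, hc⟩ := h5
    refine ⟨c, c.ne_zero, fun k => ?_⟩
    rw [← hc]
    rfl
  have hrel2 : ∀ᶠ z in 𝓝 (0 : ℂ), z ≠ 0 → ∀ k l,
      φ z k * (x.rep l * Complex.exp z⁻¹ ^ n l) = φ z l * (x.rep k * Complex.exp z⁻¹ ^ n k) := by
    filter_upwards [hrel] with z h1 h2 k l
    obtain ⟨c, -, hc⟩ := h1 h2
    rw [hc k, hc l]
    ring
  apply hφ0
  funext k
  rw [Pi.zero_apply]
  by_cases hk : x.rep k = 0
  · have h1 : Tendsto (fun z => φ z k) (𝓝[≠] 0) (𝓝 (φ 0 k)) :=
      (((continuous_apply k).tendsto _).comp hφ.continuousAt.tendsto).mono_left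
        nhdsWithin_le_nhds
    refine tendsto_nhds_unique h1 (tendsto_const_nhds.congr' ?_)
    rw [EventuallyEq, eventually_nhdsWithin_iff]
    filter_upwards [hrel] with z h2 h3
    obtain ⟨c, -, hc⟩ := h2 h3
    rw [hc k, hk]
    ring
  · by_cases hki : n k = n i
    · exact GradedCurves_limit hφ hrel2 hxj (by rw [hki]; exact hij)
    · exact GradedCurves_limit hφ hrel2 hxi hki

end Pool.Agent.H62.FC
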