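import Pool.Agent.H17LG.Variety

/-!
# Words of derivations and generalised Wronskians
-/

open Pool.Agent.H23.Fano (PrimeDivisorOver)
open Pool.Agent.H17LG.Variety (IsLogGeneralType)

noncomputable section

namespace Pool.Agent.H62.FC

variable {K : Type} [Field K] [Algebra ℂ K] {w : ℕ}

/-- The iterated derivation along a word. -/
def wordD (D : Fin w → Derivation ℂ K K) : List (Fin w) → K → K
  | [], f => f
  | i :: l, f => D i (wordD D l f)

/-- The generalised Wronskian of `u` for the words `W`. -/
def wr {n : ℕ} (D : Fin w → Derivation ℂ K K) (W : Fin n → List (Fin w)) (u : Fin n → K) : K :=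
  (Matrix.of fun i j => wordD D (W i) (u j)).det

/-- The generalised Wronskians of total order less than `s` vanish. -/
def LowVanish {n : ℕ} (D : Fin w → Derivation ℂ K K) (s : ℕ) (u : Fin n → K) : Prop :=
  ∀ W : Fin n → List (Fin w), ∑ i, (W i).length < s → wr D W u = 0

@[simp] lemma wordD_nil (D : Fin w → Derivation ℂ K K) (f : K) : wordD D [] f = f := rfl

@[simp] lemma wordD_cons (D : Fin w → Derivation ℂ K K) (i : Fin w) (l : List (Fin w)) (f : K) :
    wordD D (i :: l) f = D i (wordD D l f) := rfl

end Pool.Agent.H62.FC
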