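import Pool.Agent.H23.Forms
import Pool.Agent.H23.Bridge
import Pool.Agent.H17LG.Variety
import Pool.Agent.H62.FC.Words
import Pool.Agent.H62.FC.Defs
import Pool.Agent.H62.FC.NevDefs
import Pool.Agent.H62.FC.CircuitDefs
import Pool.Agent.H62.FC.Place

/-! # A function field `K = L(t)` is not of log general type -/

noncomputable section

namespace Pool.Agent.H62.FC

open Pool.Agent.H23.Fano (PrimeDivisorOver Form)
open Pool.Agent.H17LG.Variety (IsLogGeneralType PoleAtMost)
open Polynomial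

section der

variable {K : Type} [Field K] [Algebra ℂ K] (L : IntermediateField ℂ K) {ι : Type} {l : ι → L}

private lemma der_aeval_mem (D : Derivation ℂ K K) (hD : ∀ i, D (l i) ∈ L)
    (p : MvPolynomial ι ℂ) : D ((MvPolynomial.aeval l p : L) : K) ∈ L := by
  induction p using MvPolynomial.induction_on with
  | C a =>
    rw [MvPolynomial.aeval_C]
    have h : ((algebraMap ℂ L a : L) : K) = algebraMap ℂ K a := rfl
    rw [h, D.map_algebraMap]
    exact L.zero_mem
  | add p q hp hq =>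
    rw [map_add, L.coe_add, map_add]
    exact L.add_mem hp hq
  | mul_X p i hp =>
    rw [map_mul, L.coe_mul, D.leibniz, MvPolynomial.aeval_X]
    simp only [smul_eq_mul]
    exact L.add_mem (L.mul_mem (SetLike.coe_mem _) (hD i)) (L.mul_mem (SetLike.coe_mem _) hp)

private lemma der_eval (D : Derivation ℂ K K) (hD : ∀ i, D (l i) ∈ L) (x : L)
    (G : (MvPolynomial ι ℂ)[X]) :
    ∃ r ∈ L, D ((G.eval₂ (MvPolynomial.aeval l).toRingHom x : L) : K) =
      r + ((G.derivative.eval₂ (MvPolynomial.aeval l).toRingHom x : L) : K) * D x := by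
  induction G using Polynomial.induction_on' with
  | add p q hp hq =>
    obtain ⟨r, hr, h1⟩ := hp
    obtain ⟨r', hr', h2⟩ := hq
    refine ⟨r + r', L.add_mem hr hr', ?_⟩
    rw [eval₂_add, L.coe_add, map_add, h1, h2, derivative_add, eval₂_add, L.coe_add]
    ring
  | monomial n a =>
    refine ⟨(x : K) ^ n * D ((MvPolynomial.aeval l a : L) : K),
      L.mul_mem (pow_mem (SetLike.coe_mem x) n) (der_aeval_mem L D hD a), ?_⟩
    rw [eval₂_monomial, derivative_monomial, eval₂_monomial, L.coe_mul, D.leibniz, L.coe_pow,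
      D.leibniz_pow]
    have h1 : ((MvPolynomial.aeval l).toRingHom (a * (n : MvPolynomial ι ℂ)) : L) =
        MvPolynomial.aeval l a * (n : L) := by
      change MvPolynomial.aeval l (a * (n : MvPolynomial ι ℂ)) = _
      rw [map_mul, map_natCast]
    rw [h1]
    change ((MvPolynomial.aeval l a : L) : K) • n • (x : K) ^ (n - 1) • D x +
      (x : K) ^ n • D ((MvPolynomial.aeval l a : L) : K) = _
    push_cast
    simp only [nsmul_eq_mul, smul_eq_mul]
    ring

private lemma der_mem (hl : IsTranscendenceBasis ℂ l) (D : Derivation ℂ K K)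
    (hD : ∀ i, D (l i) ∈ L) (x : L) : D x ∈ L := by
  have key : ∀ (n : ℕ) (F : (MvPolynomial ι ℂ)[X]), F ≠ 0 → F.natDegree ≤ n →
      F.eval₂ (MvPolynomial.aeval l).toRingHom x = 0 → D (x : K) ∈ L := by
    intro n
    induction n with
    | zero =>
      intro F hF hn hx
      exfalso
      rw [Polynomial.eq_C_of_natDegree_le_zero hn, eval₂_C] at hx
      have h1 : F.coeff 0 = 0 := hl.1 (by rw [map_zero]; exact hx)
      apply hF
      rw [Polynomial.eq_C_of_natDegree_le_zero hn, h1, C_0]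
    | succ n ih =>
      intro F hF hn hx
      by_cases h0 : F.natDegree ≤ n
      · exact ih F hF h0 hx
      have hdeg : 0 < F.natDegree := by omega
      have hne : F.derivative ≠ 0 := by
        intro h
        have := Polynomial.derivative_eq_zero.1 h
        omega
      have hlt : F.derivative.natDegree ≤ n := by
        have := Polynomial.natDegree_derivative_lt (p := F) (by omega)
        omega
      by_cases hx' : F.derivative.eval₂ (MvPolynomial.aeval l).toRingHom x = 0
      · exact ih _ hne hlt hx'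
      · obtain ⟨r, hr, h⟩ := der_eval L D hD x F
        rw [hx] at h
        have h2 : ((F.derivative.eval₂ (MvPolynomial.aeval l).toRingHom x : L) : K) ≠ 0 := by
          intro h3
          exact hx' (Subtype.ext h3)
        have h4 : D (x : K) =
            -r / ((F.derivative.eval₂ (MvPolynomial.aeval l).toRingHom x : L) : K) := by
          rw [eq_div_iff h2]
          have h5 : D ((0 : L) : K) = 0 := by
            rw [L.coe_zero, map_zero]
          rw [h5] at h
          linear_combination -h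
        rw [h4]
        exact L.div_mem (L.neg_mem hr) (SetLike.coe_mem _)
  obtain ⟨F, hF, hFx⟩ := Pool.Agent.H23.exists_poly_of_basis hl x
  exact key F.natDegree F hF le_rfl hFx

end der

section forms

variable {K : Type} [Field K] [Algebra ℂ K] {w : ℕ}

private lemma pole_form {E : PrimeDivisorOver K w} {b : Module.Basis (Fin w) K Ω[K⁄ℂ]}
    {g : Fin w → K} (hb : ∀ i, b i = KaehlerDifferential.D ℂ K (g i))
    (hg : ∀ i, 0 ≤ E.ord (g i))
    (hD : ∀ i f, 0 ≤ E.ord f → 0 ≤ E.ord (Pool.Agent.H23.dualDer b i f)) {p m : ℕ} {f : K}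
    {ω : Form K w} (h : PoleAtMost p E m f ω) :
    0 ≤ E.ord (f * (Pool.Agent.H23.fc b ω) ^ m) + p := by
  obtain ⟨c, η, hη, rfl, h⟩ := h
  have h1 : 0 ≤ E.ord (Pool.Agent.H23.fc b η) := by
    have h2 := (Pool.Agent.H23.mem_regularForms_iff (Pool.Agent.H23.ofFano E).localRing b hb
      (fun i => hg i) (fun i f hf => hD i f hf) η).1
    exact h2 hη
  have h2 : Pool.Agent.H23.fc b (c • η) = c * Pool.Agent.H23.fc b η :=
    map_smul (Pool.Agent.H23.fc b) c η
  rw [h2, mul_pow, ← mul_assoc, E.ord.map_mul, E.ord.map_pow]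
  refine le_trans h ?_
  rw [add_right_comm]
  exact le_add_of_nonneg_right (nsmul_nonneg h1 _)

private lemma fc_inv {b b' : Module.Basis (Fin w) K Ω[K⁄ℂ]} {t : K} {i₀ : Fin w}
    (hb : b i₀ = KaehlerDifferential.D ℂ K t) (hb' : b' i₀ = KaehlerDifferential.D ℂ K t⁻¹)
    (h : ∀ i, i ≠ i₀ → b' i = b i) (ω : Pool.Agent.H23.RatForm K w) :
    Pool.Agent.H23.fc b ω = -(t⁻¹ ^ 2) * Pool.Agent.H23.fc b' ω := by
  have h1 : (fun i => b' i) = Function.update (fun i => b i) i₀ (-(t⁻¹ ^ 2) • b i₀) := by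
    funext i
    by_cases hi : i = i₀
    · subst hi
      rw [Function.update_self, hb', hb, Derivation.leibniz_inv]
    · rw [Function.update_of_ne hi, h i hi]
  conv_lhs => rw [Pool.Agent.H23.eq_fc_smul b' ω]
  rw [map_smul, Pool.Agent.H23.fc_ιMulti, h1, AlternatingMap.map_update_smul,
    Function.update_eq_self, smul_eq_mul, smul_eq_mul]
  have h2 : b.det (fun i => b i) = 1 := b.det_self
  rw [h2]
  ring

end forms

section poly

private lemma cast_nonneg_top (m : ℕ) : (0 : WithTop ℤ) ≤ (m : WithTop ℤ) := by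
  induction m with
  | zero => rw [Nat.cast_zero]
  | succ n ih =>
    rw [Nat.cast_succ]
    exact add_nonneg ih (by norm_num)

variable {K : Type} [Field K] [Algebra ℂ K] {L : IntermediateField ℂ K} {t : K}

private lemma ord_const_nonneg (v : AddValuation K (WithTop ℤ)) (hL : ∀ l : L, l ≠ 0 → v (l : K) = 0)
    (l : L) : 0 ≤ v (l : K) := by
  by_cases h : l = 0
  · rw [h, L.coe_zero, v.map_zero]
    exact le_top
  · rw [hL l h]

private lemma ord_aeval_nonneg (v : AddValuation K (WithTop ℤ))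
    (hL : ∀ l : L, l ≠ 0 → v (l : K) = 0) (ht : 0 ≤ v t) (q : L[X]) : 0 ≤ v (aeval t q) := by
  induction q using Polynomial.induction_on' with
  | add p q hp hq =>
    rw [map_add]
    exact v.map_le_add hp hq
  | monomial n a =>
    rw [aeval_monomial, v.map_mul, v.map_pow]
    exact add_nonneg (ord_const_nonneg v hL a) (nsmul_nonneg ht n)

private lemma ord_t_nonneg (v : AddValuation K (WithTop ℤ)) (hL : ∀ l : L, l ≠ 0 → v (l : K) = 0)
    {p : L[X]} (hp : Irreducible p) (hp1 : v (aeval t p) = 1)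
    (hq : ∀ q : L[X], ¬ p ∣ q → v (aeval t q) = 0) :
    (p ∣ X ∧ v t = 1) ∨ (¬ p ∣ X ∧ v t = 0) := by
  by_cases h : p ∣ X
  · left
    refine ⟨h, ?_⟩
    obtain ⟨u, hu⟩ := hp.associated_of_dvd irreducible_X h
    obtain ⟨c, hc, hcu⟩ := Polynomial.isUnit_iff.1 u.isUnit
    have h1 : t = aeval t p * (c : K) := by
      have h2 : aeval t (p * (u : L[X])) = aeval t (X : L[X]) := by rw [hu]
      rw [map_mul, aeval_X, ← hcu, aeval_C] at h2
      exact h2.symm
    rw [h1, v.map_mul, hp1, hL c hc.ne_zero, add_zero]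
  · right
    refine ⟨h, ?_⟩
    have := hq X h
    rwa [aeval_X] at this

private lemma eq_poly (htop : IntermediateField.adjoin L {t} = ⊤) (ht : Transcendental L t) {G : K}
    (hG : ∀ p : L[X], Irreducible p → ∃ v : AddValuation K (WithTop ℤ), v (aeval t p) = 1 ∧
      (∀ l : L, l ≠ 0 → v (l : K) = 0) ∧ (∀ q : L[X], ¬ p ∣ q → v (aeval t q) = 0) ∧ 0 ≤ v G) :
    ∃ a : L[X], G = aeval t a := by
  have h1 : G ∈ IntermediateField.adjoin L {t} := by rw [htop]; trivial
  rw [IntermediateField.mem_adjoin_simple_iff] at h1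
  obtain ⟨r, s, hrs⟩ := h1
  by_cases hs : s = 0
  · refine ⟨0, ?_⟩
    rw [hrs, hs, map_zero, div_zero]
  have hinj : ∀ q : L[X], aeval t q = 0 → q = 0 := by
    intro q hq
    by_contra h
    exact ht ⟨q, h, hq⟩
  classical
  have hg : EuclideanDomain.gcd r s ≠ 0 := by
    intro h
    rw [EuclideanDomain.gcd_eq_zero_iff] at h
    exact hs h.2
  obtain ⟨r', hr'⟩ := EuclideanDomain.gcd_dvd_left r s
  obtain ⟨s', hs'⟩ := EuclideanDomain.gcd_dvd_right r s
  set g := EuclideanDomain.gcd r s with hgdef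
  have hcop : IsCoprime r' s' := by
    have h := EuclideanDomain.gcd_eq_gcd_ab r s
    refine ⟨EuclideanDomain.gcdA r s, EuclideanDomain.gcdB r s, ?_⟩
    apply mul_left_cancel₀ hg
    rw [← hgdef] at h
    calc g * (EuclideanDomain.gcdA r s * r' + EuclideanDomain.gcdB r s * s')
        = (g * r') * EuclideanDomain.gcdA r s + (g * s') * EuclideanDomain.gcdB r s := by ring
      _ = g * 1 := by rw [← hr', ← hs', ← h, mul_one]
  have hs0 : s' ≠ 0 := by
    rintro rfl
    exact hs (by rw [hs', mul_zero])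
  have hg' : aeval t g ≠ 0 := fun h => hg (hinj g h)
  have hG' : G = aeval t r' / aeval t s' := by
    rw [hrs, hr', hs', map_mul, map_mul, mul_div_mul_left _ _ hg']
  have hs1 : aeval t s' ≠ 0 := fun h => hs0 (hinj s' h)
  by_cases hu : IsUnit s'
  · obtain ⟨c, hc, hcu⟩ := Polynomial.isUnit_iff.1 hu
    refine ⟨r' * C c⁻¹, ?_⟩
    rw [hG', ← hcu, aeval_C, map_mul, aeval_C, div_eq_mul_inv, map_inv₀]
  · exfalso
    obtain ⟨p, hp, hps⟩ := WfDvdMonoid.exists_irreducible_factor hu hs0
    obtain ⟨v, hv1, hv2, hv3, hv4⟩ := hG p hp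
    have hpr : ¬ p ∣ r' := fun h => hp.not_isUnit (hcop.isUnit_of_dvd' h hps)
    have ht0 : 0 ≤ v t := by
      rcases ord_t_nonneg v hv2 hp hv1 hv3 with h | h
      · rw [h.2]; norm_num
      · rw [h.2]
    obtain ⟨c, rfl⟩ := hps
    have h2 : G * (aeval t p * aeval t c) = aeval t r' := by
      rw [← map_mul, hG', div_mul_cancel₀ _ hs1]
    have h3 : v G + (1 + v (aeval t c)) = 0 := by
      rw [← hv3 r' hpr, ← h2, v.map_mul, v.map_mul, hv1]
    have h4 := ord_aeval_nonneg v hv2 ht0 c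
    have h5 : (1 : WithTop ℤ) ≤ v G + (1 + v (aeval t c)) := by
      calc (1 : WithTop ℤ) ≤ 1 + v (aeval t c) := le_add_of_nonneg_right h4
        _ ≤ _ := le_add_of_nonneg_left hv4
    rw [h3] at h5
    exact absurd h5 (by decide)

private lemma degree_zero (ht0 : t ≠ 0) (v : AddValuation K (WithTop ℤ)) (ht : v t⁻¹ = 1)
    (hq : ∀ q : L[X], ¬ X ∣ q → v (aeval t⁻¹ q) = 0) {a : L[X]} (ha : 0 ≤ v (aeval t a)) :
    ∃ c : L, aeval t a = (c : K) := by
  by_cases ha0 : a = 0
  · exact ⟨0, by rw [ha0, map_zero, L.coe_zero]⟩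
  have h1 : ¬ X ∣ a.reverse := by
    rw [X_dvd_iff, coeff_zero_reverse]
    exact leadingCoeff_ne_zero.2 ha0
  let _ : Invertible t := invertibleOfNonzero ht0
  have h2 := Polynomial.eval₂_reverse_mul_pow (algebraMap L K) t a
  have h3 : v (aeval t a) + a.natDegree • (1 : WithTop ℤ) = 0 := by
    rw [← hq _ h1, ← ht, ← v.map_pow, ← v.map_mul]
    congr 1
    rw [aeval_def, aeval_def, ← h2, invOf_eq_inv, mul_assoc, ← mul_pow, mul_inv_cancel₀ ht0,
      one_pow, mul_one]
  have h4 : a.natDegree = 0 := by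
    by_contra hn
    have h5 : (1 : WithTop ℤ) ≤ a.natDegree • (1 : WithTop ℤ) := by
      obtain ⟨k, hk⟩ := Nat.exists_eq_succ_of_ne_zero hn
      rw [hk, succ_nsmul]
      exact le_add_of_nonneg_left (nsmul_nonneg (by norm_num) k)
    have h6 : (1 : WithTop ℤ) ≤ v (aeval t a) + a.natDegree • (1 : WithTop ℤ) :=
      h5.trans (le_add_of_nonneg_left ha)
    rw [h3] at h6
    exact absurd h6 (by decide)
  refine ⟨a.coeff 0, ?_⟩
  conv_lhs => rw [Polynomial.eq_C_of_natDegree_eq_zero h4]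
  rw [aeval_C]
  rfl

end poly

section bases

variable {K : Type} [Field K] [Algebra ℂ K] {L : IntermediateField ℂ K} {t : K}

private lemma basis_t (ht : Transcendental L t) (htop : IntermediateField.adjoin L {t} = ⊤) :
    IsTranscendenceBasis L (fun _ : Unit => t) := by
  rw [isTranscendenceBasis_iff_algebraicIndependent_isAlgebraic]
  refine ⟨algebraicIndependent_unique_type_iff.2 ht, ⟨fun x => ?_⟩⟩
  have h1 : x ∈ IntermediateField.adjoin L {t} := by rw [htop]; trivial
  rw [IntermediateField.mem_adjoin_simple_iff] at h1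
  obtain ⟨r, s, rfl⟩ := h1
  have h2 : ∀ q : L[X], IsAlgebraic (Algebra.adjoin L (Set.range fun _ : Unit => t)) (aeval t q) := by
    intro q
    have h3 : aeval t q ∈ Algebra.adjoin L (Set.range fun _ : Unit => t) := by
      rw [Set.range_const]
      exact aeval_mem_adjoin_singleton L t
    exact isAlgebraic_algebraMap (⟨aeval t q, h3⟩ : Algebra.adjoin L (Set.range fun _ : Unit => t))
  rw [div_eq_mul_inv]
  exact (h2 r).mul (h2 s).inv

private lemma transc_inv (ht : Transcendental L t) : Transcendental L t⁻¹ := by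
  intro h
  have := h.inv
  rw [inv_inv] at this
  exact ht this

private lemma top_inv (htop : IntermediateField.adjoin L {t} = ⊤) :
    IntermediateField.adjoin L {t⁻¹} = ⊤ := by
  rw [eq_top_iff, ← htop, IntermediateField.adjoin_le_iff, Set.singleton_subset_iff]
  have h := IntermediateField.mem_adjoin_simple_self L t⁻¹
  have h2 := (IntermediateField.adjoin L {t⁻¹}).inv_mem h
  rwa [inv_inv] at h2

private def gen {ι : Type} {w : ℕ} (e : Fin w ≃ Unit ⊕ ι) (l : ι → L) (t : K) (i : Fin w) : K :=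
  Sum.elim (fun _ : Unit => t) (fun j => (l j : K)) (e i)

private lemma exists_basis {ι : Type} {w : ℕ} (e : Fin w ≃ Unit ⊕ ι) {l : ι → L}
    (hl : IsTranscendenceBasis ℂ l) (ht : Transcendental L t)
    (htop : IntermediateField.adjoin L {t} = ⊤) :
    ∃ b : Module.Basis (Fin w) K Ω[K⁄ℂ], (∀ i, b i = KaehlerDifferential.D ℂ K (gen e l t i)) ∧
      (∀ i (x : L), Pool.Agent.H23.dualDer b i (x : K) ∈ L) ∧
      ∀ i, Pool.Agent.H23.dualDer b i t ∈ L := by
  have h1 : IsTranscendenceBasis ℂ (Sum.elim (fun _ : Unit => t) (algebraMap L K ∘ l)) :=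
    hl.sumElim_comp (basis_t ht htop)
  have h2 : IsTranscendenceBasis ℂ (gen e l t) := (isTranscendenceBasis_equiv e).2 h1
  obtain ⟨b, hb⟩ := Pool.Agent.H23.exists_basis_kaehler h2
  have h3 : ∀ i j, Pool.Agent.H23.dualDer b i (gen e l t j) ∈ L := by
    intro i j
    rw [Pool.Agent.H23.dualDer_coord b hb]
    split_ifs
    · exact L.one_mem
    · exact L.zero_mem
  refine ⟨b, hb, fun i x => ?_, fun i => ?_⟩
  · refine der_mem L hl _ (fun j => ?_) x
    have h4 := h3 i (e.symm (Sum.inr j))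
    rwa [gen, Equiv.apply_symm_apply] at h4
  · have h4 := h3 i (e.symm (Sum.inl ()))
    rwa [gen, Equiv.apply_symm_apply] at h4

end bases

theorem not_isLogGeneralType {K : Type} [Field K] [Algebra ℂ K] [Algebra.EssFiniteType ℂ K]
    {w : ℕ} (hz : ∃ z : Fin w → K, IsTranscendenceBasis ℂ z) (L : IntermediateField ℂ K) {t : K}
    (ht : Transcendental L t) (htop : IntermediateField.adjoin L {t} = ⊤)
    (B : PrimeDivisorOver K w → Prop)
    (hB : ∀ E, (∀ l : L, l ≠ 0 → E.ord (l : K) = 0) → E.ord t = 0 → ¬ B E) :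
    ¬ IsLogGeneralType B := by
  rintro ⟨m, hm, ω, hω, r, f, hf0, hpole, halg⟩
  obtain ⟨z, hz'⟩ := id hz
  obtain ⟨ι, l, hl⟩ := exists_isTranscendenceBasis' ℂ L
  have ht0 : t ≠ 0 := by
    rintro rfl
    exact ht isAlgebraic_zero
  have hT : IsTranscendenceBasis ℂ (Sum.elim (fun _ : Unit => t) (algebraMap L K ∘ l)) :=
    hl.sumElim_comp (basis_t ht htop)
  obtain ⟨e⟩ := Cardinal.eq.1 (hz'.cardinalMk_eq hT)
  obtain ⟨w', rfl⟩ : ∃ w', w = w' + 1 :=
    ⟨w - 1, by have := (e.symm (Sum.inl ())).pos; omega⟩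
  have ht' := transc_inv ht
  have htop' := top_inv htop
  obtain ⟨b, hb, hbL, hbt⟩ := exists_basis e hl ht htop
  obtain ⟨b', hb', hbL', hbt'⟩ := exists_basis e hl ht' htop'
  -- the places of `K = L(t₁)`
  have hplace : ∀ (t₁ : K) (b₁ : Module.Basis (Fin (w' + 1)) K Ω[K⁄ℂ])
      (_ : ∀ i, b₁ i = KaehlerDifferential.D ℂ K (gen e l t₁ i))
      (_ : ∀ i (x : L), Pool.Agent.H23.dualDer b₁ i (x : K) ∈ L)
      (_ : ∀ i, Pool.Agent.H23.dualDer b₁ i t₁ ∈ L) (E : PrimeDivisorOver K (w' + 1))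
      (_ : ∀ l : L, l ≠ 0 → E.ord (l : K) = 0) (_ : 0 ≤ E.ord t₁)
      (_ : ∀ D : Derivation ℂ K K, (∀ l : L, 0 ≤ E.ord (D (l : K))) → 0 ≤ E.ord (D t₁) →
        ∀ f, 0 ≤ E.ord f → 0 ≤ E.ord (D f)) (p : ℕ) (g : K), PoleAtMost p E m g ω →
      0 ≤ E.ord (g * (Pool.Agent.H23.fc b₁ ω) ^ m) + p := by
    intro t₁ b₁ h1 h2 h3 E h4 h5 h6 p g h7
    have h8 : ∀ x ∈ L, 0 ≤ E.ord x := fun x hx => ord_const_nonneg E.ord h4 ⟨x, hx⟩
    refine pole_form h1 (fun i => ?_) (fun i => ?_) h7
    · rw [gen]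
      rcases e i with u | j
      · exact h5
      · exact h8 _ (SetLike.coe_mem _)
    · exact h6 _ (fun x => h8 _ (h2 i x)) (h8 _ (h3 i))
  -- the functions `G i` are constant
  set h := Pool.Agent.H23.fc b ω with hh
  have hG : ∀ i, ∃ c : L, f i * h ^ m * t ^ m = (c : K) := by
    intro i
    have h1 : ∃ a : L[X], f i * h ^ m * t ^ m = aeval t a := by
      apply eq_poly htop ht
      intro p hp
      obtain ⟨E, hE1, hE2, hE3, hE4⟩ := exists_place hz L ht htop hp
      refine ⟨E.ord, hE1, hE2, hE3, ?_⟩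
      rw [E.ord.map_mul, E.ord.map_pow]
      rcases ord_t_nonneg E.ord hE2 hp hE1 hE3 with ⟨-, h2⟩ | ⟨-, h2⟩
      · have h3 : 0 ≤ E.ord (f i * h ^ m) + m := by
          by_cases hBE : B E
          · exact hplace t b hb hbL hbt E hE2 (by rw [h2]; norm_num) hE4 m (f i) ((hpole i E).2 hBE)
          · have := hplace t b hb hbL hbt E hE2 (by rw [h2]; norm_num) hE4 0 (f i)
              ((hpole i E).1 hBE)
            rw [Nat.cast_zero, add_zero] at this
            exact add_nonneg this (cast_nonneg_top m)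
        rw [h2, nsmul_one]
        exact h3
      · have h3 := hplace t b hb hbL hbt E hE2 h2.ge hE4 0 (f i)
          ((hpole i E).1 (hB E hE2 h2))
        rw [h2, nsmul_zero]
        simpa using h3
    obtain ⟨a, ha⟩ := h1
    obtain ⟨E, hE1, hE2, hE3, hE4⟩ := exists_place hz L ht' htop' (p := X) irreducible_X
    rw [aeval_X] at hE1
    rw [ha]
    apply degree_zero ht0 E.ord hE1 hE3
    rw [← ha]
    have h3 : 0 ≤ E.ord (f i * (Pool.Agent.H23.fc b' ω) ^ m) + m := by
      by_cases hBE : B E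
      · exact hplace t⁻¹ b' hb' hbL' hbt' E hE2 (by rw [hE1]; norm_num) hE4 m (f i)
          ((hpole i E).2 hBE)
      · have := hplace t⁻¹ b' hb' hbL' hbt' E hE2 (by rw [hE1]; norm_num) hE4 0 (f i)
          ((hpole i E).1 hBE)
        rw [Nat.cast_zero, add_zero] at this
        exact add_nonneg this (cast_nonneg_top m)
    have h4 : h = -(t⁻¹ ^ 2) * Pool.Agent.H23.fc b' ω := by
      refine fc_inv (i₀ := e.symm (Sum.inl ())) (t := t) ?_ ?_ ?_ ω
      · rw [hb, gen, Equiv.apply_symm_apply]; rfl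
      · rw [hb', gen, Equiv.apply_symm_apply]; rfl
      · intro j hj
        rw [hb, hb', gen, gen]
        rcases hej : e j with u | k
        · exact absurd (by rw [← hej, Equiv.symm_apply_apply]) hj
        · rfl
    have h5 : f i * h ^ m * t ^ m =
        (-1) ^ m * ((f i * (Pool.Agent.H23.fc b' ω) ^ m) * t⁻¹ ^ m) := by
      have h7 : (t⁻¹ ^ 2) ^ m * t ^ m = t⁻¹ ^ m := by
        rw [← mul_pow, sq, mul_assoc, inv_mul_cancel₀ ht0, mul_one]
      rw [h4, mul_pow, neg_pow, ← h7]
      ring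
    have h6 : E.ord ((-1 : K) ^ m) = 0 := by
      rw [E.ord.map_pow, E.ord.map_neg, E.ord.map_one, nsmul_zero]
    rw [h5, E.ord.map_mul, h6, zero_add, E.ord.map_mul, E.ord.map_pow, hE1, nsmul_one]
    exact h3
  have hh0 : h ≠ 0 := by
    intro h0
    apply hω
    have h1 := Pool.Agent.H23.eq_fc_smul b ω
    rw [← hh, h0, zero_smul] at h1
    exact h1
  have hth : h ^ m * t ^ m ≠ 0 := mul_ne_zero (pow_ne_zero _ hh0) (pow_ne_zero _ ht0)
  have hfL : IntermediateField.adjoin ℂ (Set.range fun i => f i / f 0) ≤ L := by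
    rw [IntermediateField.adjoin_le_iff]
    rintro _ ⟨i, rfl⟩
    obtain ⟨c, hc⟩ := hG i
    obtain ⟨c0, hc0⟩ := hG 0
    have h1 : f i / f 0 = (c : K) / (c0 : K) := by
      rw [← hc, ← hc0, mul_assoc, mul_assoc, mul_div_mul_right _ _ hth]
    change f i / f 0 ∈ L
    rw [h1]
    exact L.div_mem (SetLike.coe_mem _) (SetLike.coe_mem _)
  obtain ⟨p, hp, hpt⟩ := halg.isAlgebraic t
  refine ht ⟨p.map (IntermediateField.inclusion hfL).toRingHom, ?_, ?_⟩
  · rwa [Ne, Polynomial.map_eq_zero_iff]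
    exact (IntermediateField.inclusion hfL).injective
  · rw [aeval_def, eval₂_map]
    exact hpt

end Pool.Agent.H62.FC
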