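import Pool.Agent.H62.FC.Words
import Pool.Agent.H62.FC.Defs
import Pool.Agent.H62.FC.NevDefs
import Pool.Agent.H62.FC.CircuitDefs
import Pool.Agent.H62.FC.NotLGT
import Pool.Agent.H17GT.Main

open MvPolynomial
open Pool.Agent.H17GT (coordFun functionField)
open Pool.Agent.H17LG.Variety (FunField ratio IsLogGeneralType)
open Pool.Agent.H23.Fano (PrimeDivisorOver)

noncomputable section

namespace Pool.Agent.H62.FC

variable {N : ℕ} {O : Finset (Fin (N + 1))} {P : Ideal (MvPolynomial (Fin (N + 1)) ℂ)}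

/-- The substitution `X i ↦ μ ^ (n i) X i`. -/
private def GradedField_phi (n : Fin (N + 1) → ℤ) (μ : ℂ) :
    MvPolynomial (Fin (N + 1)) ℂ →ₐ[ℂ] MvPolynomial (Fin (N + 1)) ℂ :=
  aeval fun i => C (μ ^ n i) * X i

private lemma GradedField_zpow_sum {μ : ℂ} (hμ : μ ≠ 0) (n : Fin (N + 1) → ℤ)
    (s : Finset (Fin (N + 1))) (d : Fin (N + 1) → ℕ) :
    ∏ i ∈ s, (μ ^ n i) ^ d i = μ ^ (∑ i ∈ s, d i • n i) := by
  classical
  induction s using Finset.induction with
  | empty => simp
  | insert a s ha ih =>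
    rw [Finset.prod_insert ha, Finset.sum_insert ha, ih, zpow_add₀ hμ, nsmul_eq_mul, mul_comm _ (n a),
      zpow_mul, zpow_natCast]

private lemma GradedField_phi_monomial {μ : ℂ} (hμ : μ ≠ 0) (n : Fin (N + 1) → ℤ)
    (d : Fin (N + 1) →₀ ℕ) (c : ℂ) :
    GradedField_phi n μ (monomial d c) = C (μ ^ (Finsupp.weight n d)) * monomial d c := by
  rw [GradedField_phi, aeval_monomial, monomial_eq]
  simp only [mul_pow]
  rw [Finsupp.prod_mul]
  have h1 : (d.prod fun i k => (C (μ ^ n i) : MvPolynomial (Fin (N + 1)) ℂ) ^ k) =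
      C (μ ^ (Finsupp.weight n d)) := by
    rw [Finsupp.weight_apply, Finsupp.sum, ← GradedField_zpow_sum hμ n d.support d, Finsupp.prod,
      map_prod]
    exact Finset.prod_congr rfl fun i _ => by rw [map_pow]
  rw [h1]
  change C c * _ = _
  ring

private lemma GradedField_phi_weighted {μ : ℂ} (hμ : μ ≠ 0) (n : Fin (N + 1) → ℤ) {v : ℤ}
    {q : MvPolynomial (Fin (N + 1)) ℂ} (hq : IsWeightedHomogeneous n q v) :
    GradedField_phi n μ q = C (μ ^ v) * q := by
  conv_lhs => rw [q.as_sum]
  conv_rhs => rw [q.as_sum]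
  rw [map_sum, Finset.mul_sum]
  refine Finset.sum_congr rfl fun d hd => ?_
  rw [GradedField_phi_monomial hμ, hq (mem_support_iff.1 hd)]

private lemma GradedField_phi_mem {μ : ℂ} (hμ : μ ≠ 0) {n : Fin (N + 1) → ℤ}
    (hgr : ∀ p ∈ P, ∀ v, weightedHomogeneousComponent n v p ∈ P)
    {p : MvPolynomial (Fin (N + 1)) ℂ} (hp : p ∈ P) : GradedField_phi n μ p ∈ P := by
  rw [← sum_weightedHomogeneousComponent n p,
    finsum_eq_sum _ (weightedHomogeneousComponent_finsupp p), map_sum]
  refine Ideal.sum_mem _ fun v _ => ?_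
  rw [GradedField_phi_weighted hμ n (weightedHomogeneousComponent_isWeightedHomogeneous v p)]
  exact Ideal.mul_mem_left _ _ (hgr p hp v)

private lemma GradedField_phi_phi {μ : ℂ} (hμ : μ ≠ 0) (n : Fin (N + 1) → ℤ)
    (p : MvPolynomial (Fin (N + 1)) ℂ) :
    GradedField_phi n μ⁻¹ (GradedField_phi n μ p) = p := by
  have h : (GradedField_phi n μ⁻¹).comp (GradedField_phi n μ) =
      AlgHom.id ℂ (MvPolynomial (Fin (N + 1)) ℂ) := by
    apply MvPolynomial.algHom_ext
    intro i
    rw [AlgHom.comp_apply, AlgHom.id_apply, GradedField_phi, GradedField_phi, aeval_X, map_mul,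
      aeval_X, aeval_C]
    change C (μ ^ n i) * _ = _
    rw [← mul_assoc, ← C_mul, inv_zpow, mul_inv_cancel₀ (zpow_ne_zero _ hμ), C_1, one_mul]
  exact congrArg (fun f : MvPolynomial (Fin (N + 1)) ℂ →ₐ[ℂ] MvPolynomial (Fin (N + 1)) ℂ => f p) h

/-- The automorphism of the fraction field of the homogeneous coordinate ring. -/
private lemma GradedField_exists_sigma [P.IsPrime] {μ : ℂ} (hμ : μ ≠ 0) {n : Fin (N + 1) → ℤ}
    (hgr : ∀ p ∈ P, ∀ v, weightedHomogeneousComponent n v p ∈ P) :
    ∃ σ : FractionRing (MvPolynomial (Fin (N + 1)) ℂ ⧸ P) →ₐ[ℂ]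
        FractionRing (MvPolynomial (Fin (N + 1)) ℂ ⧸ P),
      ∀ i, σ (coordFun P i) = algebraMap ℂ _ (μ ^ n i) * coordFun P i := by
  have h1 : P ≤ P.comap (GradedField_phi n μ) := fun p hp => GradedField_phi_mem hμ hgr hp
  let f : (MvPolynomial (Fin (N + 1)) ℂ ⧸ P) →ₐ[ℂ] (MvPolynomial (Fin (N + 1)) ℂ ⧸ P) :=
    Ideal.quotientMapₐ P (GradedField_phi n μ) h1
  have hf : Function.Injective f := by
    apply Ideal.quotientMap_injective' (H := h1)
    intro p hp
    have h2 := GradedField_phi_mem (inv_ne_zero hμ) hgr (show GradedField_phi n μ p ∈ P from hp)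
    rwa [GradedField_phi_phi hμ] at h2
  let g : (MvPolynomial (Fin (N + 1)) ℂ ⧸ P) →ₐ[ℂ] FractionRing (MvPolynomial (Fin (N + 1)) ℂ ⧸ P) :=
    (IsScalarTower.toAlgHom ℂ (MvPolynomial (Fin (N + 1)) ℂ ⧸ P)
      (FractionRing (MvPolynomial (Fin (N + 1)) ℂ ⧸ P))).comp f
  have hg : Function.Injective g :=
    (IsFractionRing.injective (MvPolynomial (Fin (N + 1)) ℂ ⧸ P)
      (FractionRing (MvPolynomial (Fin (N + 1)) ℂ ⧸ P))).comp hf
  refine ⟨IsFractionRing.liftAlgHom hg, fun i => ?_⟩
  rw [IsFractionRing.liftAlgHom_apply, coordFun, IsFractionRing.lift_algebraMap]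
  change algebraMap (MvPolynomial (Fin (N + 1)) ℂ ⧸ P) _ (Ideal.Quotient.mk P
    (GradedField_phi n μ (X i))) = _
  rw [GradedField_phi, aeval_X, map_mul, map_mul]
  rfl

/-- The inclusion of the function field in the fraction field. -/
private def GradedField_val (P : Ideal (MvPolynomial (Fin (N + 1)) ℂ)) [P.IsPrime] :
    FunField P →ₐ[ℂ] FractionRing (MvPolynomial (Fin (N + 1)) ℂ ⧸ P) :=
  (functionField P).val

private lemma GradedField_val_ratio [P.IsPrime] (i j : Fin (N + 1)) :
    GradedField_val P (ratio P i j) = coordFun P i / coordFun P j := rfl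

private lemma GradedField_val_injective [P.IsPrime] : Function.Injective (GradedField_val P) :=
  (GradedField_val P).injective

private lemma GradedField_coordFun_eq_zero [P.IsPrime] (i : Fin (N + 1)) :
    coordFun P i = 0 ↔ X i ∈ P := by
  rw [coordFun, map_eq_zero_iff _ (IsFractionRing.injective (MvPolynomial (Fin (N + 1)) ℂ ⧸ P)
      (FractionRing (MvPolynomial (Fin (N + 1)) ℂ ⧸ P))), Ideal.Quotient.eq_zero_iff_mem]

private lemma GradedField_generate [P.IsPrime] :
    IntermediateField.adjoin ℂ {y : FunField P | ∃ i j, y = ratio P i j} = ⊤ := by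
  have h : IntermediateField.adjoin ℂ {y : functionField P | ∃ i j, y = ratio P i j} = ⊤ := by
    rw [← IntermediateField.lift_inj, IntermediateField.lift_adjoin, IntermediateField.lift_top]
    conv_rhs => rw [functionField]
    congr 1
    ext y
    constructor
    · rintro ⟨y', ⟨i, j, rfl⟩, rfl⟩
      exact ⟨i, j, rfl⟩
    · rintro ⟨i, j, rfl⟩
      exact ⟨ratio P i j, ⟨i, j, rfl⟩, rfl⟩
  exact h

/-- Bezout's identity for a family of integers. -/
private lemma GradedField_bezout {ι : Type} [Fintype ι] (m : ι → ℤ) (hm : ∃ i, m i ≠ 0) :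
    ∃ (g : ℤ) (c k : ι → ℤ), g ≠ 0 ∧ ∑ i, c i * m i = g ∧ ∀ i, m i = g * k i := by
  classical
  obtain ⟨g, hg⟩ := IsPrincipalIdealRing.principal (Ideal.span (Set.range m))
  have h1 : ∀ i, ∃ k, m i = g * k := by
    intro i
    have h2 : m i ∈ Ideal.span (Set.range m) := Ideal.subset_span ⟨i, rfl⟩
    rw [hg] at h2
    obtain ⟨a, ha⟩ := Submodule.mem_span_singleton.1 h2
    exact ⟨a, by rw [← ha, smul_eq_mul, mul_comm]⟩
  have h3 : g ∈ Ideal.span (Set.range m) := by
    rw [hg]
    exact Submodule.mem_span_singleton_self g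
  obtain ⟨c, hc⟩ := Submodule.mem_span_range_iff_exists_fun ℤ |>.1 h3
  choose k hk using h1
  refine ⟨g, c, k, fun h0 => ?_, by simpa using hc, hk⟩
  obtain ⟨i, hi⟩ := hm
  apply hi
  rw [hk i, h0, zero_mul]

private lemma GradedField_ord_zpow {K : Type*} [Field K] (v : AddValuation K (WithTop ℤ)) {t : K}
    (ht : v t = 0) (k : ℤ) : v (t ^ k) = 0 := by
  have h1 : ∀ a : ℕ, v (t ^ a) = 0 := fun a => by rw [AddValuation.map_pow, ht, smul_zero]
  have ht0 : t ≠ 0 := by
    rintro rfl
    rw [AddValuation.map_zero] at ht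
    exact absurd ht (by simp)
  obtain ⟨a, rfl | rfl⟩ := k.eq_nat_or_neg
  · rw [zpow_natCast]
    exact h1 a
  · rw [zpow_neg, zpow_natCast]
    have h2 : v (t ^ a) + v (t ^ a)⁻¹ = 0 := by
      rw [← AddValuation.map_mul, mul_inv_cancel₀ (pow_ne_zero _ ht0), AddValuation.map_one]
    rwa [h1 a, zero_add] at h2

/-- A polynomial with coefficients fixed by `σ` has infinitely many zeros if `σ` multiplies one of
them by a constant which is not a root of unity. -/
private lemma GradedField_transc {F L : Type*} [Field F] [Field L] [Algebra ℂ F] (ι : L →+* F)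
    (σ : F →ₐ[ℂ] F) (hσ : ∀ l, σ (ι l) = ι l) {t : F} (ht : t ≠ 0) {a : ℂ}
    (ha : Function.Injective fun k : ℕ => a ^ k)
    (hat : σ t = algebraMap ℂ F a * t) (p : Polynomial L) (hp : (p.map ι).eval t = 0) : p = 0 := by
  by_contra hp0
  have hq0 : p.map ι ≠ 0 := (Polynomial.map_ne_zero_iff ι.injective).2 hp0
  have hroot : ∀ k : ℕ, (p.map ι).eval (algebraMap ℂ F (a ^ k) * t) = 0 := by
    intro k
    induction k with
    | zero => rw [pow_zero, map_one, one_mul, hp]
    | succ k ih =>
      have h1 : σ ((p.map ι).eval (algebraMap ℂ F (a ^ k) * t)) = 0 := by rw [ih, map_zero]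
      have h2 : (σ : F →+* F).comp ι = ι := RingHom.ext hσ
      have h3 : σ ((p.map ι).eval (algebraMap ℂ F (a ^ k) * t)) =
          (p.map ι).eval (σ (algebraMap ℂ F (a ^ k) * t)) := by
        conv_rhs => rw [← h2, ← Polynomial.map_map]
        exact (Polynomial.eval_map_apply (σ : F →+* F) (algebraMap ℂ F (a ^ k) * t)).symm
      rw [h3, map_mul, AlgHom.commutes, hat, ← mul_assoc, ← map_mul, ← pow_succ] at h1
      exact h1
  have hinj : Function.Injective fun k : ℕ => algebraMap ℂ F (a ^ k) * t := by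
    intro b c hbc
    exact ha ((algebraMap ℂ F).injective (mul_right_cancel₀ ht hbc))
  have hfin : {x | (p.map ι).IsRoot x}.Finite := Polynomial.finite_setOfPred_isRoot hq0
  exact Set.infinite_of_injective_forall_mem hinj (fun k => hroot k) hfin

private lemma GradedField_two_pow {g : ℤ} (hg : g ≠ 0) :
    Function.Injective fun k : ℕ => ((2 : ℂ) ^ g) ^ k := by
  intro a b hab
  have h1 : ((2 : ℝ) ^ g) ^ a = ((2 : ℝ) ^ g) ^ b := by
    have h2 := congrArg (fun z : ℂ => ‖z‖) hab
    simpa using h2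
  rw [← zpow_natCast, ← zpow_natCast, ← zpow_mul, ← zpow_mul] at h1
  have h3 := zpow_right_injective₀ (by norm_num : (0 : ℝ) < 2) (by norm_num) h1
  have h4 := mul_left_cancel₀ hg h3
  exact_mod_cast h4

theorem not_logGeneralType_of_graded [P.IsPrime] (hP : Homog P) (hO : ∀ i ∈ O, X i ∉ P)
    {n : Fin (N + 1) → ℤ} (hn : ∃ i j, X i ∉ P ∧ X j ∉ P ∧ n i ≠ n j)
    (hgr : ∀ p ∈ P, ∀ v, weightedHomogeneousComponent n v p ∈ P) {w : ℕ}
    (hz : ∃ z : Fin w → FunField P, IsTranscendenceBasis ℂ z) : ¬ LogGeneralType P O w := by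
  classical
  obtain ⟨i₀, j₀, hi₀, hj₀, hij⟩ := hn
  have hcj₀ : coordFun P j₀ ≠ 0 := fun h => hj₀ ((GradedField_coordFun_eq_zero j₀).1 h)
  set y : Fin (N + 1) → FunField P := fun i => if X i ∈ P then 1 else ratio P i j₀ with hy
  set m : Fin (N + 1) → ℤ := fun i => if X i ∈ P then 0 else n i - n j₀ with hm
  have hval : ∀ i, X i ∉ P → GradedField_val P (y i) = coordFun P i / coordFun P j₀ := by
    intro i hi
    rw [hy]
    simp only [hi, if_false]
    rfl
  have hy0 : ∀ i, y i ≠ 0 := by
    intro i h0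
    by_cases hi : X i ∈ P
    · rw [hy] at h0
      simp only [hi, if_true] at h0
      exact one_ne_zero h0
    · have h1 := hval i hi
      rw [h0, map_zero] at h1
      exact (div_ne_zero (fun h => hi ((GradedField_coordFun_eq_zero i).1 h)) hcj₀) h1.symm
  have hratio : ∀ i j, X i ∉ P → X j ∉ P → ratio P i j = y i / y j := by
    intro i j hi hj
    apply GradedField_val_injective
    rw [map_div₀, hval i hi, hval j hj, div_div_div_cancel_right₀ hcj₀]
    rfl
  have hratio0 : ∀ i j, (X i ∈ P ∨ X j ∈ P) → ratio P i j = 0 := by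
    intro i j h
    apply GradedField_val_injective
    rw [GradedField_val_ratio, map_zero]
    rcases h with h | h
    · rw [(GradedField_coordFun_eq_zero i).2 h, zero_div]
    · rw [(GradedField_coordFun_eq_zero j).2 h, div_zero]
  obtain ⟨g, c, k, hg, hgc, hk⟩ := GradedField_bezout m ⟨i₀, by
    rw [hm]
    simp only [hi₀, if_false]
    exact sub_ne_zero.2 hij⟩
  set t : FunField P := ∏ i, y i ^ c i with ht
  have ht0 : t ≠ 0 := Finset.prod_ne_zero_iff.2 fun i _ => zpow_ne_zero _ (hy0 i)
  set l : Fin (N + 1) → FunField P := fun i => y i * (t ^ k i)⁻¹ with hl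
  have hyl : ∀ i, y i = l i * t ^ k i := by
    intro i
    rw [hl]
    simp only
    rw [mul_assoc, inv_mul_cancel₀ (zpow_ne_zero _ ht0), mul_one]
  set L : IntermediateField ℂ (FunField P) := IntermediateField.adjoin ℂ (Set.range l) with hL
  have hlL : ∀ i, l i ∈ L := fun i => IntermediateField.subset_adjoin _ _ ⟨i, rfl⟩
  -- `K = L(t)`
  have htop : IntermediateField.adjoin L {t} = ⊤ := by
    have hymem : ∀ i, y i ∈ IntermediateField.adjoin L {t} := by
      intro i
      rw [hyl i]
      refine mul_mem ?_ (zpow_mem (IntermediateField.mem_adjoin_simple_self L t) _)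
      exact (IntermediateField.adjoin L {t}).algebraMap_mem ⟨l i, hlL i⟩
    rw [← IntermediateField.restrictScalars_eq_top_iff (K := ℂ), eq_top_iff,
      ← GradedField_generate, IntermediateField.adjoin_le_iff]
    rintro _ ⟨i, j, rfl⟩
    change ratio P i j ∈ IntermediateField.adjoin L {t}
    by_cases hi : X i ∈ P
    · rw [hratio0 i j (Or.inl hi)]
      exact zero_mem _
    by_cases hj : X j ∈ P
    · rw [hratio0 i j (Or.inr hj)]
      exact zero_mem _
    rw [hratio i j hi hj]
    exact div_mem (hymem i) (hymem j)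
  -- `t` is transcendental over `L`
  have htr : Transcendental L t := by
    obtain ⟨σ, hσ⟩ := GradedField_exists_sigma (P := P) (two_ne_zero (α := ℂ)) hgr
    have hσy : ∀ i, σ (GradedField_val P (y i)) =
        algebraMap ℂ _ ((2 : ℂ) ^ m i) * GradedField_val P (y i) := by
      intro i
      by_cases hi : X i ∈ P
      · have h1 : y i = 1 := by rw [hy]; simp only [hi, if_true]
        have h2 : m i = 0 := by rw [hm]; simp only [hi, if_true]
        rw [h1, h2, map_one, map_one, zpow_zero, map_one, one_mul]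
      · have h2 : m i = n i - n j₀ := by rw [hm]; simp only [hi, if_false]
        rw [hval i hi, map_div₀, hσ, hσ, h2, zpow_sub₀ (two_ne_zero (α := ℂ)), map_div₀,
          mul_div_mul_comm]
    have hσt : σ (GradedField_val P t) = algebraMap ℂ _ ((2 : ℂ) ^ g) * GradedField_val P t := by
      rw [ht, map_prod, map_prod]
      simp only [map_zpow₀, hσy, mul_zpow]
      rw [Finset.prod_mul_distrib]
      congr 1
      rw [← hgc]
      have h3 : ∀ s : Finset (Fin (N + 1)), ∏ i ∈ s, (algebraMap ℂ
          (FractionRing (MvPolynomial (Fin (N + 1)) ℂ ⧸ P)) 2 ^ m i) ^ c i =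
          algebraMap ℂ _ 2 ^ (∑ i ∈ s, c i * m i) := by
        intro s
        induction s using Finset.induction with
        | empty => simp
        | insert a s ha ih =>
          rw [Finset.prod_insert ha, Finset.sum_insert ha, ih, zpow_add₀ (by
            rw [map_ne_zero]; exact two_ne_zero), mul_comm (c a), zpow_mul]
      exact h3 Finset.univ
    have hσL : ∀ x : L, σ (GradedField_val P (x : FunField P)) = GradedField_val P x := by
      rintro ⟨x, hx⟩
      change σ (GradedField_val P x) = GradedField_val P x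
      rw [hL] at hx
      induction hx using IntermediateField.adjoin_induction with
      | mem x hx =>
        obtain ⟨i, rfl⟩ := hx
        have h4 : l i = y i * (t ^ k i)⁻¹ := rfl
        rw [h4, map_mul, map_mul, map_inv₀, map_inv₀, map_zpow₀, map_zpow₀, hσy, hσt, mul_zpow,
          hk i, zpow_mul, map_zpow₀, mul_inv, ← map_zpow₀]
        have h5 : algebraMap ℂ (FractionRing (MvPolynomial (Fin (N + 1)) ℂ ⧸ P))
            (((2 : ℂ) ^ g) ^ k i) ≠ 0 := by
          rw [map_ne_zero]
          exact zpow_ne_zero _ (zpow_ne_zero _ two_ne_zero)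
        rw [← map_zpow₀] 
        field_simp
      | algebraMap x => rw [AlgHom.commutes, AlgHom.commutes]
      | add x z _ _ hx hz => rw [map_add, map_add, hx, hz]
      | inv x _ hx => rw [map_inv₀, map_inv₀, hx]
      | mul x z _ _ hx hz => rw [map_mul, map_mul, hx, hz]
    rw [transcendental_iff]
    intro p hp
    refine GradedField_transc (((GradedField_val P : FunField P →ₐ[ℂ] _) : FunField P →+* _).comp
      (algebraMap L (FunField P))) σ hσL (t := GradedField_val P t) ?_ (GradedField_two_pow hg) hσt p ?_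
    · rw [map_ne_zero]
      exact ht0
    · rw [← Polynomial.map_map]
      refine (Polynomial.eval_map_apply (GradedField_val P : FunField P →+*
        FractionRing (MvPolynomial (Fin (N + 1)) ℂ ⧸ P)) t).trans ?_
      have h6 : (p.map (algebraMap L (FunField P))).eval t = 0 := by
        rw [Polynomial.eval_map_algebraMap]
        exact hp
      rw [h6, map_zero]
  have : Algebra.EssFiniteType ℂ (FunField P) := H17GT.essFiniteType_functionField P
  refine not_isLogGeneralType hz L htr htop _ fun E hE hEt => ?_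
  rintro ⟨j, hj, _, i, hiO, hpos⟩
  have hi := hO i hiO
  have hj' : X j ∉ P := fun h => hj ((GradedField_coordFun_eq_zero j).2 h)
  have hordl : ∀ i, E.ord (l i) = 0 := by
    intro i
    refine hE ⟨l i, hlL i⟩ fun h0 => ?_
    have h1 : l i = 0 := congrArg Subtype.val h0
    exact hy0 i (by rw [hyl i, h1, zero_mul])
  have hord : ∀ i, E.ord (y i) = 0 := by
    intro i
    rw [hyl i, AddValuation.map_mul, hordl i, GradedField_ord_zpow E.ord hEt, zero_add]
  rw [hratio i j hi hj', div_eq_mul_inv, AddValuation.map_mul, hord i, ← zpow_neg_one,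
    GradedField_ord_zpow E.ord (hord j), zero_add] at hpos
  exact lt_irrefl _ hpos

end Pool.Agent.H62.FC
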