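import Pool.Agent.H62.FC.Words

/-!
# Change of frame for generalised Wronskians
-/

noncomputable section

namespace Pool.Agent.H62.FC

open Finset

variable {K : Type} [Field K] [Algebra ℂ K] {w : ℕ}

/-- the span of the operators of the words of length less than `l` -/
private def WS (D : Fin w → Derivation ℂ K K) (l : ℕ) : Submodule K (K → K) :=
  Submodule.span K {q | ∃ V : List (Fin w), V.length < l ∧ q = wordD D V}

private lemma WS_mono (D : Fin w → Derivation ℂ K K) {l m : ℕ} (h : l ≤ m) : WS D l ≤ WS D m :=
  Submodule.span_mono fun _ ⟨V, hV, hq⟩ => ⟨V, lt_of_lt_of_le hV h, hq⟩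

private lemma mem_WS (D : Fin w → Derivation ℂ K K) {l : ℕ} {V : List (Fin w)}
    (h : V.length < l) : wordD D V ∈ WS D l :=
  Submodule.subset_span ⟨V, h, rfl⟩

/-- composition with a derivation raises the length by one -/
private lemma WS_comp (D : Fin w → Derivation ℂ K K) (j : Fin w) {l : ℕ} {q : K → K}
    (hq : q ∈ WS D l) : (fun f => D j (q f)) ∈ WS D (l + 1) := by
  induction hq using Submodule.span_induction with
  | mem q h =>
    obtain ⟨V, hV, rfl⟩ := h
    have h1 : (fun f => D j (wordD D V f)) = wordD D (j :: V) := rfl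
    rw [h1]
    exact mem_WS D (by simp; omega)
  | zero =>
    have h1 : (fun f : K => D j ((0 : K → K) f)) = 0 := by
      funext f
      simp
    rw [h1]
    exact Submodule.zero_mem _
  | add x y hx hy h1 h2 =>
    have h3 : (fun f => D j ((x + y) f)) = (fun f => D j (x f)) + fun f => D j (y f) := by
      funext f
      simp
    rw [h3]
    exact Submodule.add_mem _ h1 h2
  | smul c x hx h1 =>
    have h3 : (fun f => D j ((c • x) f)) = c • (fun f => D j (x f)) + D j c • x := by
      funext f
      simp only [Pi.smul_apply, Pi.add_apply, smul_eq_mul, Derivation.leibniz]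
      ring
    rw [h3]
    exact Submodule.add_mem _ (Submodule.smul_mem _ _ h1)
      (Submodule.smul_mem _ _ (WS_mono D (Nat.le_succ l) hx))

/-- the leading part of the operator of a word -/
private def lead (D' : Fin w → Derivation ℂ K K) (a : Fin w → Fin w → K) (W : List (Fin w)) :
    K → K :=
  ∑ g : Fin W.length → Fin w, (∏ k, a (W.get k) (g k)) • wordD D' (List.ofFn g)

private lemma lead_mem (D' : Fin w → Derivation ℂ K K) (a : Fin w → Fin w → K)
    (W : List (Fin w)) : lead D' a W ∈ WS D' (W.length + 1) :=
  Submodule.sum_mem _ fun g _ => Submodule.smul_mem _ _ (mem_WS D' (by simp))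

private lemma lead_cons (D' : Fin w → Derivation ℂ K K) (a : Fin w → Fin w → K) (i : Fin w)
    (W : List (Fin w)) (f : K) : lead D' a (i :: W) f =
      ∑ j, a i j * ∑ g : Fin W.length → Fin w, (∏ k, a (W.get k) (g k)) *
        D' j (wordD D' (List.ofFn g) f) := by
  have h1 : lead D' a (i :: W) f = ∑ g : Fin (W.length + 1) → Fin w,
      (∏ k : Fin (W.length + 1), a ((i :: W).get k) (g k)) * wordD D' (List.ofFn g) f := by
    rw [lead, Finset.sum_apply]
    rfl
  rw [h1, ← (Fin.consEquiv fun _ => Fin w).sum_comp, Fintype.sum_prod_type]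
  refine sum_congr rfl fun j _ => ?_
  rw [mul_sum]
  refine sum_congr rfl fun g _ => ?_
  have h2 : List.ofFn ((Fin.consEquiv fun _ => Fin w) (j, g)) = j :: List.ofFn g :=
    List.ofFn_cons j g
  rw [Fin.prod_univ_succ, h2]
  simp only [Fin.consEquiv_apply, Fin.cons_zero, Fin.cons_succ, wordD_cons,
    List.get_cons_zero, List.get_cons_succ']
  rw [mul_assoc]

/-- the expansion of the operator of a word in the other frame -/
private lemma expand {D D' : Fin w → Derivation ℂ K K} {a : Fin w → Fin w → K}
    (h : ∀ i f, D i f = ∑ j, a i j * D' j f) (W : List (Fin w)) :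
    wordD D W - lead D' a W ∈ WS D' W.length := by
  induction W with
  | nil =>
    have h1 : wordD D [] - lead D' a [] = 0 := by
      funext f
      simp [lead]
    rw [h1]
    exact Submodule.zero_mem _
  | cons i W ih =>
    have h1 : wordD D (i :: W) - lead D' a (i :: W) =
        ∑ j, a i j • ((fun f => D' j ((wordD D W - lead D' a W) f)) +
          ∑ g : Fin W.length → Fin w,
            D' j (∏ k, a (W.get k) (g k)) • wordD D' (List.ofFn g)) := by
      funext f
      rw [Pi.sub_apply, lead_cons, wordD_cons, h, ← sum_sub_distrib, Finset.sum_apply]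
      refine sum_congr rfl fun j _ => ?_
      rw [Pi.smul_apply, Pi.add_apply, Finset.sum_apply, smul_eq_mul, ← mul_sub]
      congr 1
      have h2 : D' j (lead D' a W f) = ∑ g : Fin W.length → Fin w,
          ((∏ k, a (W.get k) (g k)) * D' j (wordD D' (List.ofFn g) f) +
            (D' j (∏ k, a (W.get k) (g k)) • wordD D' (List.ofFn g)) f) := by
        rw [lead, Finset.sum_apply, map_sum]
        refine sum_congr rfl fun g _ => ?_
        rw [Pi.smul_apply, Pi.smul_apply, smul_eq_mul, smul_eq_mul, Derivation.leibniz,
          smul_eq_mul, smul_eq_mul]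
        ring
      rw [Pi.sub_apply, map_sub, h2, sum_add_distrib]
      ring
    rw [h1]
    refine Submodule.sum_mem _ fun j _ => Submodule.smul_mem _ _ (Submodule.add_mem _ ?_ ?_)
    · exact WS_comp D' j ih
    · exact Submodule.sum_mem _ fun g _ => Submodule.smul_mem _ _ (mem_WS D' (by simp))

private lemma wordD_mem {D D' : Fin w → Derivation ℂ K K} {a : Fin w → Fin w → K}
    (h : ∀ i f, D i f = ∑ j, a i j * D' j f) (W : List (Fin w)) :
    wordD D W ∈ WS D' (W.length + 1) := by
  have h1 := Submodule.add_mem _ (WS_mono D' (Nat.le_succ _) (expand h W)) (lead_mem D' a W)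
  rwa [sub_add_cancel] at h1

/-- the row of an operator -/
private def rowL {n : ℕ} (u : Fin n → K) : (K → K) →ₗ[K] (Fin n → K) where
  toFun q j := q (u j)
  map_add' _ _ := rfl
  map_smul' _ _ := rfl

private lemma wr_eq {n : ℕ} (D : Fin w → Derivation ℂ K K) (W : Fin n → List (Fin w))
    (u : Fin n → K) :
    wr D W u = (Matrix.detRowAlternating (R := K) (n := Fin n)).toMultilinearMap
      fun i => rowL u (wordD D (W i)) := rfl

/-- a determinant with small rows vanishes -/
private lemma det_zero {D : Fin w → Derivation ℂ K K} {n s : ℕ} {u : Fin n → K}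
    (hu : LowVanish D s u) {m : Fin n → ℕ} (hm : ∑ i, m i < s + n) (S : Finset (Fin n)) :
    ∀ v : Fin n → Fin n → K,
      (∀ i, i ∈ S → ∃ q ∈ WS D (m i), v i = rowL u q) →
      (∀ i, i ∉ S → ∃ V : List (Fin w), V.length < m i ∧ v i = rowL u (wordD D V)) →
      (Matrix.detRowAlternating (R := K) (n := Fin n)).toMultilinearMap v = 0 := by
  classical
  induction S using Finset.induction_on with
  | empty =>
    intro v _ h2
    choose V hV1 hV2 using fun i => h2 i (notMem_empty i)
    have h3 : v = fun i => rowL u (wordD D (V i)) := funext hV2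
    rw [h3, ← wr_eq]
    refine hu V ?_
    have h4 : ∑ i, ((V i).length + 1) ≤ ∑ i, m i := sum_le_sum fun i _ => hV1 i
    rw [sum_add_distrib, sum_const, card_univ, Fintype.card_fin, smul_eq_mul, mul_one] at h4
    omega
  | insert i₀ S hi ih =>
    intro v h1 h2
    obtain ⟨q, hq, hvq⟩ := h1 i₀ (mem_insert_self _ _)
    have h3 : WS D (m i₀) ≤ (LinearMap.ker
        (((Matrix.detRowAlternating (R := K) (n := Fin n)).toMultilinearMap.toLinearMap v i₀).comp
          (rowL u))) := by
      refine Submodule.span_le.2 ?_
      rintro _ ⟨V, hV, rfl⟩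
      change (Matrix.detRowAlternating (R := K) (n := Fin n)).toMultilinearMap
        (Function.update v i₀ (rowL u (wordD D V))) = 0
      refine ih _ ?_ ?_
      · intro i hiS
        have h4 : i ≠ i₀ := fun h => hi (h ▸ hiS)
        rw [Function.update_of_ne h4]
        exact h1 i (mem_insert_of_mem hiS)
      · intro i hiS
        by_cases h4 : i = i₀
        · subst h4
          rw [Function.update_self]
          exact ⟨V, hV, rfl⟩
        · rw [Function.update_of_ne h4]
          exact h2 i fun h5 => (mem_insert.1 h5).elim h4 hiS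
    have h4 : (Matrix.detRowAlternating (R := K) (n := Fin n)).toMultilinearMap
        (Function.update v i₀ (rowL u q)) = 0 := h3 hq
    rw [← hvq, Function.update_eq_self] at h4
    exact h4

private lemma det_zero' {D : Fin w → Derivation ℂ K K} {n s : ℕ} {u : Fin n → K}
    (hu : LowVanish D s u) {m : Fin n → ℕ} (hm : ∑ i, m i < s + n) {q : Fin n → K → K}
    (hq : ∀ i, q i ∈ WS D (m i)) :
    (Matrix.detRowAlternating (R := K) (n := Fin n)).toMultilinearMap
      (fun i => rowL u (q i)) = 0 :=
  det_zero hu hm univ _ (fun i _ => ⟨q i, hq i, rfl⟩) fun i h => absurd (mem_univ i) h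

theorem LowVanish.change {D D' : Fin w → Derivation ℂ K K} {b : Fin w → Fin w → K}
    (h : ∀ i f, D' i f = ∑ j, b i j * D j f) {n s : ℕ} {u : Fin n → K} (hu : LowVanish D s u) :
    LowVanish D' s u := by
  intro W hW
  rw [wr_eq]
  refine det_zero' hu (m := fun i => (W i).length + 1) ?_ fun i => wordD_mem h (W i)
  rw [sum_add_distrib, sum_const, card_univ, Fintype.card_fin, smul_eq_mul, mul_one]
  omega

theorem wr_change {D D' : Fin w → Derivation ℂ K K} {a : Fin w → Fin w → K}
    (h : ∀ i f, D i f = ∑ j, a i j * D' j f) {n s : ℕ} {u : Fin n → K} (hu : LowVanish D' s u)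
    {W : Fin n → List (Fin w)} (hW : ∑ i, (W i).length = s) :
    wr D W u = ∑ γ : (i : Fin n) → (Fin (W i).length → Fin w),
      (∏ i, ∏ k, a ((W i).get k) (γ i k)) * wr D' (fun i => List.ofFn (γ i)) u := by
  classical
  have h1 : wr D W u = (Matrix.detRowAlternating (R := K) (n := Fin n)).toMultilinearMap
      (fun i => rowL u (lead D' a (W i))) := by
    have h2 : (fun i => rowL u (wordD D (W i))) = (fun i => rowL u (lead D' a (W i))) +
        fun i => rowL u (wordD D (W i) - lead D' a (W i)) := by
      funext i
      rw [Pi.add_apply, ← map_add, add_sub_cancel]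
    rw [wr_eq, h2, MultilinearMap.map_add_univ, sum_eq_single univ]
    · rw [piecewise_univ]
    · intro S _ hS
      obtain ⟨i₀, hi₀⟩ : ∃ i₀, i₀ ∉ S := by
        by_contra hc
        push Not at hc
        exact hS (eq_univ_iff_forall.2 hc)
      have h3 : (S.piecewise (fun i => rowL u (lead D' a (W i)))
          (fun i => rowL u (wordD D (W i) - lead D' a (W i)))) =
          fun i => rowL u (if i ∈ S then lead D' a (W i) else
            wordD D (W i) - lead D' a (W i)) := by
        funext i
        by_cases hi : i ∈ S
        · rw [piecewise_eq_of_mem _ _ _ hi, if_pos hi]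
        · rw [piecewise_eq_of_notMem _ _ _ hi, if_neg hi]
      rw [h3]
      refine det_zero' hu (m := fun i => if i = i₀ then (W i).length else (W i).length + 1)
        ?_ fun i => ?_
      · have h4 : ∑ i, (if i = i₀ then (W i).length else (W i).length + 1) <
            ∑ i, ((W i).length + 1) := by
          refine sum_lt_sum (fun i _ => ?_) ⟨i₀, mem_univ _, ?_⟩
          · split_ifs <;> omega
          · rw [if_pos rfl]
            omega
        rw [sum_add_distrib (f := fun i => (W i).length), sum_const, card_univ,
          Fintype.card_fin, smul_eq_mul, mul_one, hW] at h4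
        exact h4
      · by_cases hi : i ∈ S
        · have h5 : i ≠ i₀ := fun h => hi₀ (h ▸ hi)
          rw [if_pos hi, if_neg h5]
          exact lead_mem D' a (W i)
        · rw [if_neg hi]
          split_ifs
          · exact expand h (W i)
          · exact WS_mono D' (Nat.le_succ _) (expand h (W i))
    · intro h
      exact absurd (mem_univ _) h
  rw [h1]
  have h2 : (fun i => rowL u (lead D' a (W i))) = fun i => ∑ g : Fin (W i).length → Fin w,
      (∏ k, a ((W i).get k) (g k)) • rowL u (wordD D' (List.ofFn g)) := by
    funext i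
    rw [lead, map_sum]
    exact sum_congr rfl fun g _ => map_smul _ _ _
  rw [h2, MultilinearMap.map_sum]
  refine sum_congr rfl fun γ _ => ?_
  rw [MultilinearMap.map_smul_univ, smul_eq_mul, wr_eq]

end Pool.Agent.H62.FC
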