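import Pool.Agent.H62.FC.Words

/-!
# Generalised Wronskians: existence of words with nonzero determinant
-/

noncomputable section

open scoped Classical

namespace Pool.Agent.H62.FC

open Pool.Agent.H23.Fano (PrimeDivisorOver)
open Pool.Agent.H17LG.Variety (IsLogGeneralType)

variable {K : Type} [Field K] [Algebra ℂ K] {w : ℕ}

/-- The vector of the derivatives of `u` along a word. -/
private def WordsExist_v (D : Fin w → Derivation ℂ K K) {n : ℕ} (u : Fin n → K)
    (W : List (Fin w)) : Fin n → K := fun j => wordD D W (u j)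

/-- The span of the derivatives of order at most `l`. -/
private def WordsExist_V (D : Fin w → Derivation ℂ K K) {n : ℕ} (u : Fin n → K) (l : ℕ) :
    Submodule K (Fin n → K) :=
  Submodule.span K {x | ∃ W : List (Fin w), W.length ≤ l ∧ x = WordsExist_v D u W}

private theorem WordsExist_kill {D : Fin w → Derivation ℂ K K}
    (hD : ∀ f : K, (∀ i, D i f = 0) → ∃ c : ℂ, f = algebraMap ℂ K c) {n : ℕ} {u : Fin n → K}
    (hu : LinearIndependent ℂ u) (V : Submodule K (Fin n → K)) (huV : u ∈ V)
    (hV : ∀ x ∈ V, ∀ i, (fun j => D i (x j)) ∈ V) :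
    ∀ (m : ℕ) (φ : Fin n → K), (Finset.univ.filter fun j => φ j ≠ 0).card ≤ m →
      (∀ x ∈ V, ∑ j, φ j * x j = 0) → φ = 0 := by
  intro m
  induction m with
  | zero =>
    intro φ hφ _
    have h1 : (Finset.univ.filter fun j => φ j ≠ 0) = ∅ := by
      rw [← Finset.card_eq_zero]
      omega
    funext j
    by_contra hj
    have : j ∈ (Finset.univ.filter fun j => φ j ≠ 0) := by
      simpa using hj
    rw [h1] at this
    simp at this
  | succ m ih =>
    intro φ hφ hk
    by_contra hne
    obtain ⟨j0, hj0⟩ : ∃ j0, φ j0 ≠ 0 := by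
      by_contra hc
      push Not at hc
      exact hne (funext hc)
    set ψ : Fin n → K := fun j => φ j / φ j0 with hψ
    have hψ0 : ψ j0 = 1 := by simp [hψ, hj0]
    have hψk : ∀ x ∈ V, ∑ j, ψ j * x j = 0 := by
      intro x hx
      have h1 : ∑ j, ψ j * x j = (φ j0)⁻¹ * ∑ j, φ j * x j := by
        rw [Finset.mul_sum]
        refine Finset.sum_congr rfl fun j _ => ?_
        simp only [hψ]
        field_simp
      rw [h1, hk x hx, mul_zero]
    have hDψ : ∀ i, (fun j => D i (ψ j)) = 0 := by
      intro i
      apply ih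
      · have hsub : (Finset.univ.filter fun j => D i (ψ j) ≠ 0) ⊆
            (Finset.univ.filter fun j => φ j ≠ 0).erase j0 := by
          intro j hj
          rw [Finset.mem_filter] at hj
          rw [Finset.mem_erase, Finset.mem_filter]
          refine ⟨?_, Finset.mem_univ _, ?_⟩
          · rintro rfl
            apply hj.2
            rw [hψ0]
            exact (D i).map_one_eq_zero
          · intro h0
            apply hj.2
            simp [hψ, h0]
        have hc := Finset.card_le_card hsub
        have hmem : j0 ∈ (Finset.univ.filter fun j => φ j ≠ 0) := by simpa using hj0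
        rw [Finset.card_erase_of_mem hmem] at hc
        omega
      · intro x hx
        have h1 := hψk x hx
        have h2 := hψk _ (hV x hx i)
        have h3 : D i (∑ j, ψ j * x j) = 0 := by rw [h1, map_zero]
        rw [map_sum] at h3
        have h4 : ∀ j, D i (ψ j * x j) = ψ j * D i (x j) + D i (ψ j) * x j := by
          intro j
          rw [Derivation.leibniz, smul_eq_mul, smul_eq_mul]
          ring
        simp only [h4, Finset.sum_add_distrib] at h3
        rw [h2, zero_add] at h3
        exact h3
    have hc : ∀ j, ∃ c : ℂ, ψ j = algebraMap ℂ K c := fun j =>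
      hD _ fun i => congrFun (hDψ i) j
    choose c hc using hc
    have h5 : ∑ j, c j • u j = 0 := by
      rw [← hψk u huV]
      refine Finset.sum_congr rfl fun j _ => ?_
      rw [hc j, Algebra.smul_def]
    have h6 := (Fintype.linearIndependent_iff.1 hu) c h5 j0
    have h7 : (1 : K) = 0 := by
      rw [← hψ0, hc j0, h6, map_zero]
    exact one_ne_zero h7

private theorem WordsExist_top {D : Fin w → Derivation ℂ K K}
    (hD : ∀ f : K, (∀ i, D i f = 0) → ∃ c : ℂ, f = algebraMap ℂ K c) {n : ℕ} {u : Fin n → K}
    (hu : LinearIndependent ℂ u) (V : Submodule K (Fin n → K)) (huV : u ∈ V)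
    (hV : ∀ x ∈ V, ∀ i, (fun j => D i (x j)) ∈ V) : V = ⊤ := by
  by_contra hne
  obtain ⟨f, hf, hle⟩ := Submodule.exists_le_ker_of_lt_top V (lt_top_iff_ne_top.2 hne)
  have hfx : ∀ x : Fin n → K, f x = ∑ j, f (Pi.single j 1) * x j := by
    intro x
    have h1 : x = ∑ j, x j • (Pi.single j 1 : Fin n → K) := by
      funext k
      simp [Finset.sum_apply, Pi.single_apply]
    conv_lhs => rw [h1]
    rw [map_sum]
    refine Finset.sum_congr rfl fun j _ => ?_
    rw [map_smul, smul_eq_mul, mul_comm]
  have h2 := WordsExist_kill hD hu V huV hV _ (fun j => f (Pi.single j 1)) le_rfl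
    (fun x hx => by rw [← hfx x]; exact hle hx)
  apply hf
  refine LinearMap.ext fun x => ?_
  rw [hfx x]
  simp only [LinearMap.zero_apply]
  refine Finset.sum_eq_zero fun j _ => ?_
  have := congrFun h2 j
  simp only [Pi.zero_apply] at this
  rw [this, zero_mul]

private theorem WordsExist_step (D : Fin w → Derivation ℂ K K) {n : ℕ} (u : Fin n → K) (l : ℕ)
    {x : Fin n → K} (hx : x ∈ WordsExist_V D u l) (i : Fin w) :
    (fun j => D i (x j)) ∈ WordsExist_V D u (l + 1) := by
  unfold WordsExist_V at hx
  induction hx using Submodule.span_induction with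
  | mem x h =>
    obtain ⟨W, hW, rfl⟩ := h
    refine Submodule.subset_span ⟨i :: W, ?_, rfl⟩
    simp only [List.length_cons]
    omega
  | zero =>
    have : (fun j => D i ((0 : Fin n → K) j)) = 0 := by
      funext j
      simp
    rw [this]
    exact Submodule.zero_mem _
  | add x y hx hy ihx ihy =>
    have : (fun j => D i ((x + y) j)) = (fun j => D i (x j)) + fun j => D i (y j) := by
      funext j
      simp
    rw [this]
    exact Submodule.add_mem _ ihx ihy
  | smul a x hx ih =>
    have h1 : (fun j => D i ((a • x) j)) = a • (fun j => D i (x j)) + D i a • x := by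
      funext j
      simp only [Pi.smul_apply, Pi.add_apply, smul_eq_mul, Derivation.leibniz]
      ring
    rw [h1]
    refine Submodule.add_mem _ (Submodule.smul_mem _ _ ih) (Submodule.smul_mem _ _ ?_)
    refine Submodule.span_mono ?_ hx
    rintro y ⟨W, hW, rfl⟩
    exact ⟨W, by omega, rfl⟩

private theorem WordsExist_mono (D : Fin w → Derivation ℂ K K) {n : ℕ} (u : Fin n → K) (l : ℕ) :
    WordsExist_V D u l ≤ WordsExist_V D u (l + 1) := by
  refine Submodule.span_mono ?_
  rintro y ⟨W, hW, rfl⟩
  exact ⟨W, by omega, rfl⟩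

private theorem WordsExist_dim {D : Fin w → Derivation ℂ K K}
    (hD : ∀ f : K, (∀ i, D i f = 0) → ∃ c : ℂ, f = algebraMap ℂ K c) {n : ℕ} {u : Fin n → K}
    (hu : LinearIndependent ℂ u) (l : ℕ) (hl : l < n) :
    l + 1 ≤ Module.finrank K (WordsExist_V D u l) := by
  have huV : ∀ l, u ∈ WordsExist_V D u l := fun l =>
    Submodule.subset_span ⟨[], by simp, rfl⟩
  induction l with
  | zero =>
    have hne : u ≠ 0 := by
      intro h0
      have := hu.ne_zero (⟨0, hl⟩ : Fin n)
      rw [h0] at this
      exact this rfl
    have hpos : 0 < Module.finrank K (WordsExist_V D u 0) := by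
      rw [Module.finrank_pos_iff_exists_ne_zero]
      refine ⟨⟨u, huV 0⟩, fun h => hne ?_⟩
      exact congrArg Subtype.val h
    omega
  | succ l ih =>
    have h1 := ih (by omega)
    by_cases htop : WordsExist_V D u (l + 1) = ⊤
    · rw [htop, finrank_top, Module.finrank_fin_fun]
      omega
    · have hlt : WordsExist_V D u l < WordsExist_V D u (l + 1) := by
        refine lt_of_le_of_ne (WordsExist_mono D u l) fun heq => htop ?_
        refine WordsExist_top hD hu _ (huV _) fun x hx i => ?_
        rw [← heq] at hx
        exact WordsExist_step D u l hx i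
      have h2 := Submodule.finrank_lt_finrank_of_lt hlt
      omega

private theorem WordsExist_choose {D : Fin w → Derivation ℂ K K}
    (hD : ∀ f : K, (∀ i, D i f = 0) → ∃ c : ℂ, f = algebraMap ℂ K c) {n : ℕ} {u : Fin n → K}
    (hu : LinearIndependent ℂ u) (m : ℕ) (hm : m ≤ n) :
    ∃ W : Fin m → List (Fin w), (∀ i, (W i).length ≤ i) ∧
      LinearIndependent K fun i => WordsExist_v D u (W i) := by
  induction m with
  | zero => exact ⟨fun i => i.elim0, fun i => i.elim0, linearIndependent_empty_type⟩
  | succ m ih =>
    obtain ⟨W, hW, hind⟩ := ih (by omega)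
    have hdim := WordsExist_dim hD hu m (by omega)
    obtain ⟨W', hW', hnot⟩ : ∃ W' : List (Fin w), W'.length ≤ m ∧
        WordsExist_v D u W' ∉ Submodule.span K (Set.range fun i => WordsExist_v D u (W i)) := by
      by_contra hc
      push Not at hc
      have hle : WordsExist_V D u m ≤
          Submodule.span K (Set.range fun i => WordsExist_v D u (W i)) := by
        refine Submodule.span_le.2 ?_
        rintro x ⟨W', h1, rfl⟩
        exact hc W' h1
      have h1 := Submodule.finrank_mono hle
      have h2 := finrank_span_eq_card hind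
      rw [Fintype.card_fin] at h2
      omega
    refine ⟨Fin.snoc W W', fun i => ?_, ?_⟩
    · refine Fin.lastCases ?_ (fun j => ?_) i
      · rw [Fin.snoc_last, Fin.val_last]
        exact hW'
      · rw [Fin.snoc_castSucc, Fin.val_castSucc]
        exact hW j
    · have h1 : (fun i => WordsExist_v D u ((Fin.snoc W W' : Fin (m + 1) → List (Fin w)) i)) =
          Fin.snoc (fun i => WordsExist_v D u (W i)) (WordsExist_v D u W') := by
        funext i
        refine Fin.lastCases ?_ (fun j => ?_) i
        · rw [Fin.snoc_last, Fin.snoc_last]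
        · rw [Fin.snoc_castSucc, Fin.snoc_castSucc]
      rw [h1]
      exact linearIndependent_finSnoc.2 ⟨hind, hnot⟩

theorem exists_words (D : Fin w → Derivation ℂ K K)
    (hD : ∀ f : K, (∀ i, D i f = 0) → ∃ c : ℂ, f = algebraMap ℂ K c) {n : ℕ} (u : Fin n → K)
    (hu : LinearIndependent ℂ u) :
    ∃ W : Fin n → List (Fin w), (∀ i, (W i).length ≤ i) ∧ wr D W u ≠ 0 := by
  obtain ⟨W, hW, hind⟩ := WordsExist_choose hD hu n le_rfl
  refine ⟨W, hW, ?_⟩
  have h1 : LinearIndependent K (Matrix.of fun i j => wordD D (W i) (u j)).row := hind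
  rw [Matrix.linearIndependent_rows_iff_isUnit] at h1
  exact ((Matrix.isUnit_iff_isUnit_det _).1 h1).ne_zero

end Pool.Agent.H62.FC
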