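import Pool.Agent.H62.FC.Words
import Pool.Agent.H62.FC.Words
import Pool.Agent.H62.FC.Defs
import Pool.Agent.H62.FC.NevDefs
import Pool.Agent.H62.FC.CircuitDefs
import Pool.Agent.H62.FC.WordsChange

/-!
# Orders of generalised Wronskians
-/

noncomputable section

namespace Pool.Agent.H62.FC

open Pool.Agent.H23.Fano (PrimeDivisorOver)
open Pool.Agent.H17LG.Variety (IsLogGeneralType)

variable {K : Type} [Field K] [Algebra ℂ K] {w : ℕ}

omit [Algebra ℂ K] in
/-- The order of a product. -/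
theorem WordsOrd_prod {ι : Type*} (v : AddValuation K (WithTop ℤ)) (s : Finset ι) (f : ι → K)
    (b : ι → ℤ) (h : ∀ i ∈ s, ((b i : ℤ) : WithTop ℤ) ≤ v (f i)) :
    ((∑ i ∈ s, b i : ℤ) : WithTop ℤ) ≤ v (∏ i ∈ s, f i) := by
  classical
  induction s using Finset.induction_on with
  | empty => simp
  | insert i s hi ih =>
    rw [Finset.sum_insert hi, Finset.prod_insert hi, v.map_mul, WithTop.coe_add]
    exact add_le_add (h i (Finset.mem_insert_self i s))
      (ih fun j hj => h j (Finset.mem_insert_of_mem hj))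

omit [Algebra ℂ K] in
/-- The order of a product of elements of order `≥ 0`. -/
theorem WordsOrd_prod_nonneg {ι : Type*} (v : AddValuation K (WithTop ℤ)) (s : Finset ι)
    (f : ι → K) (h : ∀ i ∈ s, 0 ≤ v (f i)) : 0 ≤ v (∏ i ∈ s, f i) := by
  have := WordsOrd_prod v s f (fun _ => 0) (fun i hi => by simpa using h i hi)
  simpa using this

omit [Algebra ℂ K] in
/-- The order of a determinant. -/
theorem WordsOrd_det (v : AddValuation K (WithTop ℤ)) {n : ℕ} (A : Matrix (Fin n) (Fin n) K)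
    (b : Fin n → ℤ) (h : ∀ i j, ((b j : ℤ) : WithTop ℤ) ≤ v (A i j)) :
    ((∑ j, b j : ℤ) : WithTop ℤ) ≤ v A.det := by
  rw [Matrix.det_apply]
  refine v.map_le_sum fun σ _ => ?_
  have h1 : v (Equiv.Perm.sign σ • ∏ i, A (σ i) i) = v (∏ i, A (σ i) i) := by
    rcases Int.units_eq_one_or (Equiv.Perm.sign σ) with h | h
    · rw [h, one_smul]
    · rw [h, Units.neg_smul, one_smul, v.map_neg]
  rw [h1]
  exact WordsOrd_prod v Finset.univ _ b fun i _ => h _ _

theorem WordsOrd_wordD_sum (D : Fin w → Derivation ℂ K K) (l : List (Fin w)) {ι : Type*}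
    (s : Finset ι) (f : ι → K) : wordD D l (∑ i ∈ s, f i) = ∑ i ∈ s, wordD D l (f i) := by
  induction l with
  | nil => simp
  | cons i l ih => simp only [wordD_cons, ih, map_sum]

theorem WordsOrd_wordD_le (v : AddValuation K (WithTop ℤ)) {D : Fin w → Derivation ℂ K K}
    (hD : ∀ i f, v f ≤ v (D i f)) (l : List (Fin w)) (f : K) : v f ≤ v (wordD D l f) := by
  induction l with
  | nil => simp
  | cons i l ih => exact ih.trans (hD i _)

theorem WordsOrd_low (v : AddValuation K (WithTop ℤ)) {D : Fin w → Derivation ℂ K K}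
    (hD : ∀ i f, v f ≤ v (D i f)) {n : ℕ} {u : Fin n → K} {a : Fin n → ℤ}
    (ha : ∀ j, (a j : WithTop ℤ) ≤ v (u j)) (W : Fin n → List (Fin w)) :
    ((∑ j, a j : ℤ) : WithTop ℤ) ≤ v (wr D W u) :=
  WordsOrd_det v _ a fun i j => (ha j).trans (WordsOrd_wordD_le v hD (W i) (u j))

theorem ord_wr_change (v : AddValuation K (WithTop ℤ)) {D D' : Fin w → Derivation ℂ K K} {δ : K}
    {C : Fin w → Fin w → K} (hC : ∀ i j, 0 ≤ v (C i j)) (hδ : δ ≠ 0)
    (h : ∀ i f, δ * D i f = ∑ j, C i j * D' j f) {n s : ℕ} {u : Fin n → K}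
    (hu : LowVanish D' s u) {W : Fin n → List (Fin w)} (hW : ∑ i, (W i).length = s)
    {μ : WithTop ℤ} (hμ : ∀ W' : Fin n → List (Fin w), ∑ i, (W' i).length = s → μ ≤ v (wr D' W' u)) :
    μ ≤ v (δ ^ s * wr D W u) := by
  have h1 : ∀ i f, D i f = ∑ j, (fun i j => C i j / δ) i j * D' j f := by
    intro i f
    have e1 : D i f = (δ * D i f) / δ := by field_simp
    rw [e1, h i f, Finset.sum_div]
    refine Finset.sum_congr rfl fun j _ => ?_
    ring
  rw [wr_change h1 hu hW, Finset.mul_sum]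
  refine v.map_le_sum fun γ _ => ?_
  have h2 : δ ^ s * ((∏ i, ∏ k, (fun i j => C i j / δ) ((W i).get k) (γ i k)) *
      wr D' (fun i => List.ofFn (γ i)) u) =
      (∏ i, ∏ k, C ((W i).get k) (γ i k)) * wr D' (fun i => List.ofFn (γ i)) u := by
    have e1 : ∏ i, ∏ k, (fun i j => C i j / δ) ((W i).get k) (γ i k) =
        (∏ i, ∏ k, C ((W i).get k) (γ i k)) / δ ^ s := by
      simp only [Finset.prod_div_distrib, Finset.prod_const, Finset.card_univ, Fintype.card_fin]
      rw [Finset.prod_pow_eq_pow_sum, hW]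
    rw [e1]
    field_simp
  rw [h2, v.map_mul]
  have h3 : 0 ≤ v (∏ i, ∏ k, C ((W i).get k) (γ i k)) :=
    WordsOrd_prod_nonneg v _ _ fun i _ => WordsOrd_prod_nonneg v _ _ fun k _ => hC _ _
  have h4 : μ ≤ v (wr D' (fun i => List.ofFn (γ i)) u) := by
    refine hμ _ ?_
    simp only [List.length_ofFn]
    exact hW
  calc μ = 0 + μ := (zero_add μ).symm
    _ ≤ _ := add_le_add h3 h4

theorem ord_wr_log (v : AddValuation K (WithTop ℤ)) {D : Fin w → Derivation ℂ K K}
    (hD : ∀ i f, v f ≤ v (D i f)) {n : ℕ} {u : Fin n → K} (hrel : ∑ j, u j = -1)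
    {a : Fin n → ℤ} (ha : ∀ j, v (u j) = (a j : WithTop ℤ)) {μ : ℤ} (hμ : μ = 0 ∨ ∃ j, a j = μ)
    (W : Fin n → List (Fin w)) : (((∑ j, a j) - μ : ℤ) : WithTop ℤ) ≤ v (wr D W u) := by
  rcases hμ with rfl | ⟨j₀, rfl⟩
  · rw [sub_zero]
    exact WordsOrd_low v hD (fun j => (ha j).ge) W
  · have h1 : wr D W u = wr D W (Function.update u j₀ (-1)) := by
      have e1 := Matrix.det_updateCol_sum (Matrix.of fun i j => wordD D (W i) (u j)) j₀
        (fun _ => 1)
      rw [one_smul] at e1
      rw [wr, ← e1, wr]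
      congr 1
      ext i j
      by_cases hj : j = j₀
      · subst hj
        simp only [Matrix.updateCol_self, Matrix.of_apply, one_smul, Function.update_self]
        rw [← WordsOrd_wordD_sum, hrel]
      · simp only [Matrix.updateCol_ne hj, Matrix.of_apply, Function.update_of_ne hj]
    have h2 : (∑ j, a j) - a j₀ = ∑ j, Function.update a j₀ 0 j := by
      rw [Finset.sum_update_of_mem (Finset.mem_univ j₀), zero_add,
        ← Finset.add_sum_erase Finset.univ a (Finset.mem_univ j₀), Finset.sdiff_singleton_eq_erase]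
      ring
    rw [h1, h2]
    refine WordsOrd_low v hD (fun j => ?_) W
    by_cases hj : j = j₀
    · subst hj
      simp
    · rw [Function.update_of_ne hj, Function.update_of_ne hj, ha j]

theorem ord_wr_regular (v : AddValuation K (WithTop ℤ)) {D : Fin w → Derivation ℂ K K}
    (hD : ∀ i f, 0 ≤ v f → 0 ≤ v (D i f)) {n : ℕ} {u : Fin n → K} (hu : ∀ j, 0 ≤ v (u j))
    (W : Fin n → List (Fin w)) : 0 ≤ v (wr D W u) := by
  have h1 : ∀ (l : List (Fin w)) (f : K), 0 ≤ v f → 0 ≤ v (wordD D l f) := by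
    intro l f hf
    induction l with
    | nil => simpa using hf
    | cons i l ih => exact hD i _ ih
  have h2 := WordsOrd_det v (Matrix.of fun i j => wordD D (W i) (u j)) (fun _ => 0)
    (fun i j => by simpa using h1 (W i) (u j) (hu j))
  rw [Finset.sum_const_zero, WithTop.coe_zero] at h2
  exact h2

end Pool.Agent.H62.FC
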