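import Pool.Agent.H62.FC.Words
import Pool.Agent.H62.FC.Defs
import Pool.Agent.H62.FC.NevDefs
import Pool.Agent.H62.FC.CircuitDefs
import Pool.Agent.H62.FC.WordsChange
import Pool.Agent.H62.FC.WordsExist
import Pool.Agent.H62.FC.WordsOrd
import Pool.Agent.H17LG.ModLREG
import Pool.Agent.H23.Forms
import Pool.Agent.H23.Bridge

/-!
# Log general type from circuits

The main algebraic theorem: pluricanonical forms from generalised Wronskians.
-/

noncomputable section

namespace Pool.Agent.H62.FC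

open Pool.Agent.H23.Fano (PrimeDivisorOver Form)
open Pool.Agent.H17LG.Variety (IsLogGeneralType PoleAtMost)
open Pool.Agent.H23 (dualDer dualDer_apply dualDer_coord exists_basis_kaehler ιMulti_eq fc fc_ιMulti
  exists_int det_mem valRing ofFano)
open Pool.Agent.H17LG (exists_logDivisorCoords)

variable {K : Type} [Field K] [Algebra ℂ K] {w : ℕ}

/-- A function with vanishing differential is constant. -/
private lemma LGTMain_const {f : K} (hf : KaehlerDifferential.D ℂ K f = 0) :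
    ∃ c : ℂ, f = algebraMap ℂ K c := by
  by_cases hfa : IsAlgebraic ℂ f
  · have hint : IsIntegral ℂ f := hfa.isIntegral
    have h1 : (minpoly ℂ f).degree = 1 :=
      IsAlgClosed.degree_eq_one_of_irreducible _ (minpoly.irreducible hint)
    obtain ⟨c, hc⟩ := minpoly.mem_range_of_degree_eq_one ℂ f h1
    exact ⟨c, hc.symm⟩
  · exfalso
    have htr : Transcendental ℂ f := hfa
    have hind : AlgebraicIndepOn ℂ id ({f} : Set K) := algebraicIndependent_unique_type_iff.mpr htr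
    obtain ⟨s, hs, hsb⟩ := exists_isTranscendenceBasis_superset hind
    obtain ⟨b, hb⟩ := exists_basis_kaehler hsb
    have h2 := hb ⟨f, hs rfl⟩
    have h3 := b.ne_zero ⟨f, hs rfl⟩
    rw [h2] at h3
    exact h3 hf

private lemma LGTMain_expand {t : Fin w → K} (b : Module.Basis (Fin w) K Ω[K⁄ℂ])
    (hb : ∀ i, b i = KaehlerDifferential.D ℂ K (t i)) (X : Derivation ℂ K K) (f : K) :
    X f = ∑ i, X (t i) * dualDer b i f := by
  have h1 : ∀ g, X g = X.liftKaehlerDifferential (KaehlerDifferential.D ℂ K g) := fun g => by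
    rw [Derivation.liftKaehlerDifferential_comp_D]
  rw [h1 f, ← b.sum_repr (KaehlerDifferential.D ℂ K f), map_sum]
  refine Finset.sum_congr rfl fun i _ => ?_
  rw [map_smul, hb, ← h1, smul_eq_mul, dualDer_apply, mul_comm]

private lemma LGTMain_words (D : Fin w → Derivation ℂ K K)
    (hD : ∀ f : K, (∀ i, D i f = 0) → ∃ c : ℂ, f = algebraMap ℂ K c) {n : ℕ} (hn : 2 ≤ n)
    (u : Fin n → K) (hu : LinearIndependent ℂ u) :
    ∃ (s : ℕ) (W : Fin n → List (Fin w)), ∑ i, (W i).length = s ∧ wr D W u ≠ 0 ∧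
      LowVanish D s u ∧ 1 ≤ s ∧ 2 * s ≤ n * (n - 1) := by
  classical
  obtain ⟨W₀, hW₀, hW₀'⟩ := exists_words D hD u hu
  have hex : ∃ s, ∃ W : Fin n → List (Fin w), ∑ i, (W i).length = s ∧ wr D W u ≠ 0 :=
    ⟨_, W₀, rfl, hW₀'⟩
  obtain ⟨W, hW1, hW2⟩ := Nat.find_spec hex
  refine ⟨Nat.find hex, W, hW1, hW2, ?_, ?_, ?_⟩
  · intro W' hW'
    by_contra h
    exact Nat.find_min hex hW' ⟨W', rfl, h⟩
  · by_contra h
    have h0 : Nat.find hex = 0 := by omega
    rw [h0] at hW1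
    have h1 : ∀ i, W i = [] := by
      intro i
      have := (Finset.sum_eq_zero_iff.1 hW1) i (Finset.mem_univ i)
      exact List.length_eq_zero_iff.1 this
    apply hW2
    unfold wr
    apply Matrix.det_zero_of_row_eq (i := (⟨0, by omega⟩ : Fin n)) (j := ⟨1, by omega⟩)
    · intro h
      have := congrArg Fin.val h
      simp at this
    · funext j
      simp [h1]
  · have h1 : Nat.find hex ≤ ∑ i, (W₀ i).length := Nat.find_min' hex ⟨W₀, rfl, hW₀'⟩
    have h2 : ∑ i, (W₀ i).length ≤ ∑ i : Fin n, (i : ℕ) := Finset.sum_le_sum fun i _ => hW₀ i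
    have h3 : (∑ i : Fin n, (i : ℕ)) * 2 = n * (n - 1) := by
      rw [Fin.sum_univ_eq_sum_range (fun i => i) n]
      exact Finset.sum_range_id_mul_two n
    omega

private lemma LGTMain_alg {L L' : IntermediateField ℂ K} (h : L ≤ L')
    (hL : Algebra.IsAlgebraic L K) : Algebra.IsAlgebraic L' K := by
  let : Algebra L L' := (IntermediateField.inclusion h).toAlgebra
  have : IsScalarTower L L' K := IsScalarTower.of_algebraMap_eq fun _ => rfl
  exact Algebra.IsAlgebraic.tower_top (K := L) L'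

private lemma LGTMain_mu {n : ℕ} (a : Fin n → ℤ) :
    ∃ μ : ℤ, μ ≤ 0 ∧ (∀ j, μ ≤ a j) ∧ (μ = 0 ∨ ∃ j, a j = μ) := by
  have hne : (insert 0 (Finset.univ.image a)).Nonempty := Finset.insert_nonempty _ _
  refine ⟨(insert 0 (Finset.univ.image a)).min' hne, ?_, ?_, ?_⟩
  · exact Finset.min'_le _ _ (Finset.mem_insert_self _ _)
  · intro j
    exact Finset.min'_le _ _ (Finset.mem_insert_of_mem (Finset.mem_image_of_mem _ (Finset.mem_univ j)))
  · have h := Finset.min'_mem _ hne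
    rw [Finset.mem_insert, Finset.mem_image] at h
    obtain h | ⟨j, _, hj⟩ := h
    · exact Or.inl h
    · exact Or.inr ⟨j, hj⟩

private lemma LGTMain_num {n : Fin w → ℕ} {k S e : ℕ} (he : e = k * S + 1)
    (hnk : ∀ i, n i + 1 ≤ k) (a : (i : Fin w) → Fin (n i) → ℤ) (μ : Fin w → ℤ)
    (hμ0 : ∀ i, μ i ≤ 0) (hμ : ∀ i j, μ i ≤ a i j) (x : Fin w → ℤ)
    (hx : ∀ i, ∑ j, a i j - μ i ≤ x i) (τ : ℤ) (hτ : τ = 0 ∨ ∃ l j, τ = a l j) :
    (S : ℤ) * ∑ i, (∑ j, (a i j - μ i) - μ i) ≤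
      ∑ i, ((e : ℤ) * (x i - ∑ j, a i j) + S * ∑ j, a i j) + τ := by
  have h1 : ∑ i, μ i ≤ τ := by
    obtain rfl | ⟨l, j, rfl⟩ := hτ
    · exact Finset.sum_nonpos fun i _ => hμ0 i
    · refine le_trans ?_ (hμ l j)
      rw [← Finset.add_sum_erase _ _ (Finset.mem_univ l)]
      have : ∑ i ∈ Finset.univ.erase l, μ i ≤ 0 := Finset.sum_nonpos fun i _ => hμ0 i
      linarith
  have h2 : ∀ i, (S : ℤ) * (∑ j, (a i j - μ i) - μ i) + (-μ i) ≤
      (e : ℤ) * (x i - ∑ j, a i j) + S * ∑ j, a i j := by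
    intro i
    have h3 : ∑ j, (a i j - μ i) = ∑ j, a i j - n i * μ i := by
      rw [Finset.sum_sub_distrib]
      simp
    rw [h3]
    have h4 : (e : ℤ) * (-μ i) ≤ (e : ℤ) * (x i - ∑ j, a i j) :=
      mul_le_mul_of_nonneg_left (by linarith [hx i]) (Int.natCast_nonneg e)
    have h5 : (n i : ℤ) + 1 ≤ k := by exact_mod_cast hnk i
    have h6 : 0 ≤ ((k : ℤ) - n i - 1) * S * (-μ i) :=
      mul_nonneg (mul_nonneg (by linarith) (Int.natCast_nonneg S)) (by linarith [hμ0 i])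
    have h7 : (e : ℤ) = k * S + 1 := by rw [he]; push_cast; ring
    rw [h7] at h4 ⊢
    nlinarith
  calc (S : ℤ) * ∑ i, (∑ j, (a i j - μ i) - μ i)
      = ∑ i, ((S : ℤ) * (∑ j, (a i j - μ i) - μ i) + (-μ i)) + ∑ i, μ i := by
        rw [Finset.mul_sum, Finset.sum_add_distrib, Finset.sum_neg_distrib]
        ring
    _ ≤ _ := add_le_add (Finset.sum_le_sum fun i _ => h2 i) h1

omit [Algebra ℂ K] in
private lemma LGTMain_prod {ι : Type*} (v : AddValuation K (WithTop ℤ)) (T : Finset ι) (y : ι → K)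
    (z : ι → ℤ) (h : ∀ i ∈ T, v (y i) = (z i : WithTop ℤ)) :
    v (∏ i ∈ T, y i) = ((∑ i ∈ T, z i : ℤ) : WithTop ℤ) := by
  classical
  induction T using Finset.induction_on with
  | empty => simp
  | insert i T hi ih =>
    rw [Finset.prod_insert hi, Finset.sum_insert hi, v.map_mul, h i (Finset.mem_insert_self _ _),
      ih fun j hj => h j (Finset.mem_insert_of_mem hj)]
    push_cast
    rfl

omit [Algebra ℂ K] in
private lemma LGTMain_pow (v : AddValuation K (WithTop ℤ)) {y : K} {z : ℤ}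
    (h : v y = (z : WithTop ℤ)) (e : ℕ) : v (y ^ e) = ((e * z : ℤ) : WithTop ℤ) := by
  induction e with
  | zero => simp
  | succ e ih =>
    rw [pow_succ, v.map_mul, ih, h, ← WithTop.coe_add]
    congr 1
    push_cast
    ring

omit [Algebra ℂ K] in
private lemma LGTMain_val (v : AddValuation K (WithTop ℤ)) {X P : K} {x σ : ℤ} (hP0 : P ≠ 0)
    (hX0 : X ≠ 0) (hX : v X = (x : WithTop ℤ)) (hP : v P = (σ : WithTop ℤ)) (e S : ℕ) :
    v ((X / P) ^ e * P ^ S) = ((e * (x - σ) + S * σ : ℤ) : WithTop ℤ) := by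
  obtain ⟨q, hq⟩ := exists_int v (div_ne_zero hX0 hP0)
  have h1 : v (X / P) + v P = v X := by rw [← v.map_mul, div_mul_cancel₀ _ hP0]
  rw [hq, hP, hX, ← WithTop.coe_add, WithTop.coe_inj] at h1
  have h2 : q = x - σ := by omega
  rw [v.map_mul, LGTMain_pow v hq, LGTMain_pow v hP, ← WithTop.coe_add, h2]

omit [Algebra ℂ K] in
private lemma LGTMain_theta (v : AddValuation K (WithTop ℤ)) {F P : Fin w → K} {s : Fin w → ℕ}
    {δ : K} (hδ : δ ≠ 0) (hF : ∀ i, F i ≠ 0) (hP : ∀ i, P i ≠ 0) {x σ : Fin w → ℤ}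
    (hx : ∀ i, v (δ ^ s i * F i) = (x i : WithTop ℤ)) (hσ : ∀ i, v (P i) = (σ i : WithTop ℤ))
    (e S : ℕ) (hS : S = ∑ i, s i) {T : K} {τ : ℤ} (hT : v T = (τ : WithTop ℤ)) :
    v ((∏ i, ((F i / P i) ^ e * P i ^ S)) * T * δ ^ (e * S)) =
      ((∑ i, ((e : ℤ) * (x i - σ i) + S * σ i) + τ : ℤ) : WithTop ℤ) := by
  have h1 : (∏ i, ((F i / P i) ^ e * P i ^ S)) * T * δ ^ (e * S) =
      (∏ i, ((δ ^ s i * F i / P i) ^ e * P i ^ S)) * T := by
    have h2 : ∀ i, (δ ^ s i * F i / P i) ^ e * P i ^ S =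
        (δ ^ e) ^ s i * ((F i / P i) ^ e * P i ^ S) := by
      intro i
      rw [mul_div_assoc, mul_pow, ← pow_mul, ← pow_mul, mul_comm (s i) e, mul_assoc]
    have h3 : ∏ i, ((δ ^ s i * F i / P i) ^ e * P i ^ S) =
        δ ^ (e * S) * ∏ i, ((F i / P i) ^ e * P i ^ S) := by
      rw [Finset.prod_congr rfl fun i _ => h2 i, Finset.prod_mul_distrib (f := fun i => (δ ^ e) ^ s i),
        Finset.prod_pow_eq_pow_sum, ← hS, ← pow_mul]
    rw [h3]
    ring
  rw [h1, v.map_mul, hT, LGTMain_prod v Finset.univ _ (fun i => (e : ℤ) * (x i - σ i) + S * σ i),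
    ← WithTop.coe_add]
  intro i _
  exact LGTMain_val v (hP i) (mul_ne_zero (pow_ne_zero _ hδ) (hF i)) (hx i) (hσ i) e S

/-- the matrix of a frame -/
private def LGTMain_mat (b' : Module.Basis (Fin w) K Ω[K⁄ℂ]) (c t : Fin w → K) :
    Matrix (Fin w) (Fin w) K :=
  Matrix.of fun j i => c j * dualDer b' j (t i) * (t i)⁻¹

private lemma LGTMain_frame {t : Fin w → K} (ht : ∀ i, t i ≠ 0) (b : Module.Basis (Fin w) K Ω[K⁄ℂ])
    (hb : ∀ i, b i = KaehlerDifferential.D ℂ K (t i)) (b' : Module.Basis (Fin w) K Ω[K⁄ℂ])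
    (c : Fin w → K) (j : Fin w) (f : K) :
    (c j • dualDer b' j) f = ∑ i, LGTMain_mat b' c t j i * (t i • dualDer b i) f := by
  change c j * dualDer b' j f = _
  rw [LGTMain_expand b hb (dualDer b' j) f, Finset.mul_sum]
  refine Finset.sum_congr rfl fun i _ => ?_
  change _ = c j * dualDer b' j (t i) * (t i)⁻¹ * (t i * dualDer b i f)
  have := ht i
  field_simp

private lemma LGTMain_adj {D L : Fin w → Derivation ℂ K K} {A : Matrix (Fin w) (Fin w) K}
    (h : ∀ j f, L j f = ∑ i, A j i * D i f) (i : Fin w) (f : K) :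
    A.det * D i f = ∑ j, A.adjugate i j * L j f := by
  have h1 : A.adjugate * A = A.det • (1 : Matrix (Fin w) (Fin w) K) := A.adjugate_mul
  have h2 : ∀ l, ∑ j, A.adjugate i j * A j l = if i = l then A.det else 0 := by
    intro l
    have := congrFun (congrFun h1 i) l
    rw [Matrix.mul_apply, Matrix.smul_apply, Matrix.one_apply] at this
    rw [this]
    simp
  calc A.det * D i f = ∑ l, (if i = l then A.det else 0) * D l f := by simp
    _ = ∑ l, (∑ j, A.adjugate i j * A j l) * D l f := by simp only [h2]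
    _ = ∑ j, A.adjugate i j * L j f := by
      simp only [h, Finset.mul_sum, Finset.sum_mul]
      rw [Finset.sum_comm]
      simp only [mul_assoc]

private lemma LGTMain_adj_mem (O : Subalgebra ℂ K) {A : Matrix (Fin w) (Fin w) K}
    (hA : ∀ i j, A i j ∈ O) (i j : Fin w) : A.adjugate i j ∈ O := by
  rw [Matrix.adjugate_apply]
  apply det_mem
  intro i' j'
  rw [Matrix.updateRow_apply]
  split_ifs
  · rw [Pi.single_apply]
    split_ifs
    · exact O.one_mem
    · exact O.zero_mem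
  · exact hA i' j'

private lemma LGTMain_det (b' : Module.Basis (Fin w) K Ω[K⁄ℂ]) (c t : Fin w → K) :
    (LGTMain_mat b' c t).det = (∏ j, c j) * ((∏ i, (t i)⁻¹) *
      b'.det fun i => KaehlerDifferential.D ℂ K (t i)) := by
  have h1 : LGTMain_mat b' c t =
      Matrix.of fun j i => c j * (Matrix.of fun j i => (t i)⁻¹ *
        (b'.toMatrix fun i => KaehlerDifferential.D ℂ K (t i)) j i) j i := by
    ext j i
    simp only [LGTMain_mat, Matrix.of_apply, Module.Basis.toMatrix_apply, dualDer_apply]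
    ring
  rw [h1, Matrix.det_mul_column, Matrix.det_mul_row, Module.Basis.det_apply]

omit [Algebra ℂ K] in
private lemma LGTMain_quot (v : AddValuation K (WithTop ℤ)) {x t : K} (ht : t ≠ 0)
    (h : v t ≤ v x) : 0 ≤ v (x * t⁻¹) := by
  by_cases hx : x = 0
  · rw [hx, zero_mul, v.map_zero]
    exact le_top
  obtain ⟨q, hq⟩ := exists_int v (mul_ne_zero hx (inv_ne_zero ht))
  obtain ⟨p, hp⟩ := exists_int v ht
  have h1 : v (x * t⁻¹) + v t = v x := by rw [← v.map_mul, mul_assoc, inv_mul_cancel₀ ht, mul_one]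
  rw [← h1, hq, hp, ← WithTop.coe_add, WithTop.coe_le_coe] at h
  rw [hq]
  exact_mod_cast (by omega : (0 : ℤ) ≤ q)

private lemma LGTMain_bound (v : AddValuation K (WithTop ℤ))
    (hv : ∀ c : ℂ, 0 ≤ v (algebraMap ℂ K c)) {t : Fin w → K} (ht : ∀ i, t i ≠ 0)
    (b : Module.Basis (Fin w) K Ω[K⁄ℂ]) (hb : ∀ i, b i = KaehlerDifferential.D ℂ K (t i))
    (b' : Module.Basis (Fin w) K Ω[K⁄ℂ]) (c : Fin w → K)
    (hA : ∀ j i, 0 ≤ v (LGTMain_mat b' c t j i)) (hδ : (LGTMain_mat b' c t).det ≠ 0) {n s : ℕ}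
    {u : Fin n → K} {W : Fin n → List (Fin w)} (hW : ∑ i, (W i).length = s)
    (hu : LowVanish (fun i => t i • dualDer b i) s u) {μ : WithTop ℤ}
    (hμ : ∀ W' : Fin n → List (Fin w), ∑ i, (W' i).length = s →
      μ ≤ v (wr (fun j => c j • dualDer b' j) W' u)) :
    μ ≤ v ((LGTMain_mat b' c t).det ^ s * wr (fun i => t i • dualDer b i) W u) := by
  have h1 := LGTMain_frame ht b hb b' c
  refine ord_wr_change v (D' := fun j => c j • dualDer b' j)
    (C := fun i j => (LGTMain_mat b' c t).adjugate i j) (fun i j => ?_) hδ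
    (fun i f => LGTMain_adj (D := fun i => t i • dualDer b i) h1 i f) (LowVanish.change h1 hu)
    hW hμ
  exact LGTMain_adj_mem (valRing v hv) hA i j

theorem logGeneralType_of_circuits [Algebra.EssFiniteType ℂ K] {k d : ℕ} (hw : 1 ≤ w)
    (n : Fin w → ℕ) (hn2 : ∀ i, 2 ≤ n i) (hnk : ∀ i, n i + 1 ≤ k) (u : (i : Fin w) → Fin (n i) → K)
    (hu0 : ∀ i j, u i j ≠ 0) (hrel : ∀ i, ∑ j, u i j = -1) (hind : ∀ i, LinearIndependent ℂ (u i))
    (j₀ : (i : Fin w) → Fin (n i)) (ht : IsTranscendenceBasis ℂ (fun i => u i (j₀ i)))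
    (hd : w * k * (k - 1) * (k - 2) < 2 * d) (B : PrimeDivisorOver K w → Prop)
    (hB : ∀ E, ¬ B E → ∀ i j, ∃ m : ℤ, E.ord (u i j) = ((d * m : ℤ) : WithTop ℤ)) :
    IsLogGeneralType B := by
  classical
  obtain ⟨w, rfl⟩ : ∃ w', w = w' + 1 := ⟨w - 1, by omega⟩
  obtain ⟨t, ht_def⟩ : ∃ t : Fin (w + 1) → K, t = fun i => u i (j₀ i) := ⟨_, rfl⟩
  rw [← ht_def] at ht
  have ht0 : ∀ i, t i ≠ 0 := fun i => by rw [ht_def]; exact hu0 i _
  obtain ⟨b, hb⟩ := exists_basis_kaehler ht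
  have hD : ∀ f : K, (∀ i, (t i • dualDer b i) f = 0) → ∃ c : ℂ, f = algebraMap ℂ K c := by
    intro f hf
    apply LGTMain_const
    apply b.repr.injective
    ext i
    have h1 : t i * dualDer b i f = 0 := hf i
    have := (mul_eq_zero.1 h1).resolve_left (ht0 i)
    rw [dualDer_apply] at this
    simpa using this
  choose s W hW1 hW2 hW3 hW4 hW5 using fun i =>
    LGTMain_words (fun i => t i • dualDer b i) hD (hn2 i) (u i) (hind i)
  obtain ⟨S, hS⟩ : ∃ S, S = ∑ i, s i := ⟨_, rfl⟩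
  have hS1 : 1 ≤ S := by
    rw [hS, Fin.sum_univ_succ]
    have := hW4 0
    omega
  have hkS : k * S + 1 ≤ d := by
    have h1 : 2 * S ≤ (w + 1) * ((k - 1) * (k - 2)) := by
      rw [hS, Finset.mul_sum]
      calc ∑ i, 2 * s i ≤ ∑ i : Fin (w + 1), (k - 1) * (k - 2) := by
            refine Finset.sum_le_sum fun i _ => (hW5 i).trans ?_
            have := hnk i
            exact Nat.mul_le_mul (by omega) (by omega)
        _ = (w + 1) * ((k - 1) * (k - 2)) := by simp
    have h2 : k * (2 * S) ≤ k * ((w + 1) * ((k - 1) * (k - 2))) := Nat.mul_le_mul_left k h1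
    have h3 : k * ((w + 1) * ((k - 1) * (k - 2))) = (w + 1) * k * (k - 1) * (k - 2) := by ring
    have h4 : k * (2 * S) = 2 * (k * S) := by ring
    omega
  obtain ⟨e, he⟩ : ∃ e, e = k * S + 1 := ⟨_, rfl⟩
  obtain ⟨F, hF⟩ : ∃ F : Fin (w + 1) → K,
      F = fun i => wr (fun i => t i • dualDer b i) (W i) (u i) := ⟨_, rfl⟩
  have hF0 : ∀ i, F i ≠ 0 := fun i => by rw [hF]; exact hW2 i
  obtain ⟨P, hP⟩ : ∃ P : Fin (w + 1) → K, P = fun i => ∏ j, u i j := ⟨_, rfl⟩
  have hP0 : ∀ i, P i ≠ 0 := fun i => by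
    rw [hP]; exact Finset.prod_ne_zero_iff.2 fun j _ => hu0 i j
  obtain ⟨Θ, hΘ⟩ : ∃ Θ : K, Θ = ∏ i, ((F i / P i) ^ e * P i ^ S) := ⟨_, rfl⟩
  have hΘ0 : Θ ≠ 0 := by
    rw [hΘ]
    exact Finset.prod_ne_zero_iff.2 fun i _ => mul_ne_zero
      (pow_ne_zero _ (div_ne_zero (hF0 i) (hP0 i))) (pow_ne_zero _ (hP0 i))
  obtain ⟨T, hT⟩ : ∃ T : Fin (w + 1 + 1) → K, T = Fin.cons 1 t := ⟨_, rfl⟩
  have hT0 : T 0 = 1 := by rw [hT]; rfl
  have hTs : ∀ i, T (Fin.succ i) = t i := fun i => by rw [hT]; rfl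
  have hω0 : Form.mk (∏ i, (t i)⁻¹) t ≠ 0 := by
    intro h0
    have h1 : fc b ((∏ i, (t i)⁻¹) • exteriorPower.ιMulti K (w + 1)
        fun i => KaehlerDifferential.D ℂ K (t i)) = 0 := by
      rw [show ((∏ i, (t i)⁻¹) • exteriorPower.ιMulti K (w + 1)
        fun i => KaehlerDifferential.D ℂ K (t i)) = 0 from h0, map_zero]
    rw [map_smul, fc_ιMulti, smul_eq_mul] at h1
    simp only [← hb, b.det_self, mul_one] at h1
    exact Finset.prod_ne_zero_iff.2 (fun i _ => inv_ne_zero (ht0 i)) h1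
  refine ⟨e * S, Nat.one_le_iff_ne_zero.2 (Nat.mul_ne_zero (by omega) (by omega)),
    Form.mk (∏ i, (t i)⁻¹) t, hω0, w + 1, fun l => Θ * T l,
    mul_ne_zero hΘ0 (by rw [hT0]; exact one_ne_zero), ?_, ?_⟩
  · intro l E
    choose a ha using fun i j => exists_int E.ord (hu0 i j)
    choose μ hμ0 hμ hμ' using fun i => LGTMain_mu (a i)
    obtain ⟨g, b', hb', hg0, hg, hreg, hlog1, hlog0⟩ := exists_logDivisorCoords ht (ofFano E)
    change E.ord (g 0) = 1 at hg0
    change ∀ i, 0 ≤ E.ord (g i) at hg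
    change ∀ i f, 0 ≤ E.ord f → 0 ≤ E.ord (dualDer b' i f) at hreg
    change ∀ i, i ≠ 0 → ∀ f, E.ord f ≤ E.ord (dualDer b' i f) at hlog1
    change ∀ f, E.ord f ≤ E.ord (g 0 * dualDer b' 0 f) at hlog0
    obtain ⟨G, hG⟩ : ∃ G : K, G = (∏ i, (t i)⁻¹) *
      b'.det fun i => KaehlerDifferential.D ℂ K (t i) := ⟨_, rfl⟩
    have hη : Form.mk 1 g ∈ Pool.Agent.H23.Fano.regularForms (w + 1) E.localRing := by
      refine AddSubgroup.subset_closure ⟨1, g, ?_, hg, rfl⟩
      change 0 ≤ E.ord 1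
      rw [E.ord.map_one]
    have hω : Form.mk (∏ i, (t i)⁻¹) t = G • Form.mk 1 g := by
      change ((∏ i, (t i)⁻¹) • exteriorPower.ιMulti K (w + 1)
        fun i => KaehlerDifferential.D ℂ K (t i)) = G • ((1 : K) •
          exteriorPower.ιMulti K (w + 1) fun i => KaehlerDifferential.D ℂ K (g i))
      rw [ιMulti_eq b', smul_smul, ← hG, one_smul]
      simp only [hb']
    have hG0 : G ≠ 0 := by
      intro h0
      apply hω0
      rw [hω, h0, zero_smul]
    obtain ⟨τ, hτ, hτ'⟩ : ∃ τ : ℤ, E.ord (T l) = (τ : WithTop ℤ) ∧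
        (τ = 0 ∨ ∃ i j, τ = a i j) := by
      refine Fin.cases ?_ (fun i => ?_) l
      · exact ⟨0, by rw [hT0, E.ord.map_one]; rfl, Or.inl rfl⟩
      · exact ⟨a i (j₀ i), by rw [hTs, ht_def, ha], Or.inr ⟨i, _, rfl⟩⟩
    have hσ : ∀ i, E.ord (P i) = ((∑ j, a i j : ℤ) : WithTop ℤ) := fun i => by
      rw [hP]
      exact LGTMain_prod E.ord Finset.univ _ _ fun j _ => ha i j
    have hg00 : g 0 ≠ 0 := by
      intro h0
      rw [h0, E.ord.map_zero] at hg0
      exact absurd hg0 (by simp)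
    -- the logarithmic frame
    obtain ⟨c, hc⟩ : ∃ c : Fin (w + 1) → K, c = Fin.cons (g 0) 1 := ⟨_, rfl⟩
    have hc0 : c 0 = g 0 := by rw [hc]; rfl
    have hcs : ∀ i : Fin w, c (Fin.succ i) = 1 := fun i => by rw [hc]; rfl
    have hlog : ∀ j f, E.ord f ≤ E.ord (c j * dualDer b' j f) := by
      intro j f
      refine Fin.cases ?_ (fun i => ?_) j
      · rw [hc0]; exact hlog0 f
      · rw [hcs, one_mul]; exact hlog1 _ (Fin.succ_ne_zero i) f
    have hdet : (LGTMain_mat b' c t).det = g 0 * G := by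
      rw [LGTMain_det, ← hG, Fin.prod_univ_succ, hc0]
      simp only [hcs, Finset.prod_const_one, mul_one]
    have hδ0 : g 0 * G ≠ 0 := mul_ne_zero hg00 hG0
    choose x hx using fun i => exists_int E.ord (mul_ne_zero (pow_ne_zero (s i) hδ0) (hF0 i))
    have hxge : ∀ i, ∑ j, a i j - μ i ≤ x i := by
      intro i
      have h1 := LGTMain_bound E.ord E.ord_const ht0 b hb b' c
        (fun j i => LGTMain_quot E.ord (ht0 i) (hlog j (t i))) (by rw [hdet]; exact hδ0) (hW1 i)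
        (hW3 i) (μ := ((∑ j, a i j - μ i : ℤ) : WithTop ℤ))
        (fun W' _ => ord_wr_log E.ord (fun j f => hlog j f) (hrel i) (ha i) (hμ' i) W')
      rw [hdet] at h1
      have h2 : ((∑ j, a i j - μ i : ℤ) : WithTop ℤ) ≤ E.ord ((g 0 * G) ^ s i * F i) := by
        rw [hF]; exact h1
      rw [hx i, WithTop.coe_le_coe] at h2
      exact h2
    have hZ := LGTMain_theta E.ord hδ0 hF0 hP0 hx hσ e S hS hτ
    rw [← hΘ] at hZ
    have hZ' := LGTMain_num he hnk a μ hμ0 hμ x hxge τ hτ'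
    obtain ⟨Z, hZd⟩ : ∃ Z : ℤ, Z = ∑ i, ((e : ℤ) * (x i - ∑ j, a i j) + S * ∑ j, a i j) + τ :=
      ⟨_, rfl⟩
    rw [← hZd] at hZ hZ'
    have hTl0 : T l ≠ 0 := by
      intro h0
      rw [h0, E.ord.map_zero] at hτ
      exact absurd hτ (by simp)
    obtain ⟨y, hy⟩ := exists_int E.ord (mul_ne_zero (mul_ne_zero hΘ0 hTl0) (pow_ne_zero (e * S) hG0))
    have hZy : Z = y + (e * S : ℕ) := by
      have h1 : Θ * T l * (g 0 * G) ^ (e * S) = Θ * T l * G ^ (e * S) * g 0 ^ (e * S) := by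
        rw [mul_pow]; ring
      have h2 : E.ord (g 0) = ((1 : ℤ) : WithTop ℤ) := hg0
      rw [h1, E.ord.map_mul, hy, LGTMain_pow E.ord h2, ← WithTop.coe_add, WithTop.coe_inj] at hZ
      rw [← hZ, mul_one]
    have hA0 : ∀ i, 0 ≤ ∑ j, (a i j - μ i) - μ i := by
      intro i
      have h1 : 0 ≤ ∑ j, (a i j - μ i) := Finset.sum_nonneg fun j _ => by linarith [hμ i j]
      linarith [hμ0 i]
    refine ⟨fun hBE => ⟨G, Form.mk 1 g, hη, hω, ?_⟩, fun hBE => ⟨G, Form.mk 1 g, hη, hω, ?_⟩⟩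
    · change 0 ≤ E.ord (Θ * T l * G ^ (e * S)) + ((0 : ℕ) : WithTop ℤ)
      rw [Nat.cast_zero, add_zero]
      by_cases hall : ∀ i j, a i j = 0
      · -- the regular frame
        have hv0 : ∀ i, E.ord (t i) = 0 := fun i => by
          rw [ht_def, ha, hall]; rfl
        have hdet' : (LGTMain_mat b' 1 t).det = G := by
          rw [LGTMain_det, ← hG]
          simp
        choose x' hx' using fun i => exists_int E.ord (mul_ne_zero (pow_ne_zero (s i) hG0) (hF0 i))
        have hx'0 : ∀ i, 0 ≤ x' i := by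
          intro i
          have h1 := LGTMain_bound E.ord E.ord_const ht0 b hb b' 1
            (fun j i => LGTMain_quot E.ord (ht0 i) (by
              rw [hv0, Pi.one_apply, one_mul]
              exact hreg j _ (by rw [hv0]))) (by rw [hdet']; exact hG0) (hW1 i)
            (hW3 i) (μ := 0)
            (fun W' _ => ord_wr_regular E.ord (fun j f hf => by
              change 0 ≤ E.ord (1 * dualDer b' j f)
              rw [one_mul]
              exact hreg j f hf) (fun j => by rw [ha, hall]; rfl) W')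
          rw [hdet'] at h1
          have h2 : 0 ≤ E.ord (G ^ s i * F i) := by
            rw [hF]; exact h1
          rw [hx' i] at h2
          exact_mod_cast h2
        have hZ'' := LGTMain_theta E.ord hG0 hF0 hP0 hx' hσ e S hS hτ
        rw [← hΘ] at hZ''
        rw [hZ'']
        have h3 : 0 ≤ ∑ i, ((e : ℤ) * (x' i - ∑ j, a i j) + S * ∑ j, a i j) + τ := by
          have h4 : τ = 0 := by
            obtain h | ⟨i, j, h⟩ := hτ'
            · exact h
            · rw [h, hall]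
          rw [h4, add_zero]
          refine Finset.sum_nonneg fun i _ => ?_
          simp only [hall, Finset.sum_const_zero, sub_zero, mul_zero, add_zero]
          exact mul_nonneg (Int.natCast_nonneg e) (hx'0 i)
        exact_mod_cast h3
      · push Not at hall
        obtain ⟨i, j, hij⟩ := hall
        obtain ⟨q, hq⟩ := hB E hBE i j
        rw [ha, WithTop.coe_inj] at hq
        have h1 : (d : ℤ) ≤ ∑ i, (∑ j, (a i j - μ i) - μ i) := by
          have h2 : ∑ j, (a i j - μ i) - μ i ≤ ∑ i, (∑ j, (a i j - μ i) - μ i) :=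
            Finset.single_le_sum (f := fun i => ∑ j, (a i j - μ i) - μ i)
              (fun i _ => hA0 i) (Finset.mem_univ i)
          refine le_trans ?_ h2
          have h3 : a i j - μ i ≤ ∑ j, (a i j - μ i) :=
            Finset.single_le_sum (f := fun j => a i j - μ i)
              (fun j _ => by linarith [hμ i j]) (Finset.mem_univ j)
          have h4 : q ≠ 0 := by
            rintro rfl
            exact hij (by rw [hq, mul_zero])
          have h5 : (0 : ℤ) ≤ d := Int.natCast_nonneg d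
          obtain h6 | h6 : 1 ≤ q ∨ q ≤ -1 := by omega
          · nlinarith [hμ0 i, hμ i j]
          · nlinarith [hμ0 i, hμ i j]
        have h2 : ((e * S : ℕ) : ℤ) ≤ (S : ℤ) * d := by
          have : e * S ≤ S * d := by
            rw [mul_comm S d]
            exact Nat.mul_le_mul_right S (by rw [he]; exact hkS)
          exact_mod_cast this
        have h3 : (S : ℤ) * d ≤ Z := (mul_le_mul_of_nonneg_left h1 (Int.natCast_nonneg S)).trans hZ'
        rw [hy]
        have h4 : (0 : ℤ) ≤ y := by linarith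
        exact_mod_cast h4
    · change 0 ≤ E.ord (Θ * T l * G ^ (e * S)) + ((e * S : ℕ) : WithTop ℤ)
      have h1 : 0 ≤ Z := le_trans (mul_nonneg (Int.natCast_nonneg S)
        (Finset.sum_nonneg fun i _ => hA0 i)) hZ'
      rw [hy]
      have h2 : (0 : ℤ) ≤ y + (e * S : ℕ) := by rw [← hZy]; exact h1
      have h3 : ((e * S : ℕ) : WithTop ℤ) = (((e * S : ℕ) : ℤ) : WithTop ℤ) := rfl
      rw [h3, ← WithTop.coe_add]
      exact WithTop.coe_le_coe.2 h2
  · refine LGTMain_alg ?_ ht.isAlgebraic_field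
    rw [IntermediateField.adjoin_le_iff]
    rintro _ ⟨i, rfl⟩
    apply IntermediateField.subset_adjoin
    refine ⟨Fin.succ i, ?_⟩
    simp only [hT0, hTs]
    rw [mul_one, mul_div_cancel_left₀ _ hΘ0]

end Pool.Agent.H62.FC
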