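import Pool.Agent.H62.FC.Words
import Pool.Agent.H62.FC.Defs
import Pool.Agent.H62.FC.NevDefs
import Pool.Agent.H62.FC.CircuitDefs
import Pool.Agent.H62.FC.Circuit
import Pool.Agent.H62.FC.LGTMain
import Pool.Agent.H62.FC.Lattice

/-! # Log general type from sparse equations -/

noncomputable section

namespace Pool.Agent.H62.FC

open Pool.Agent.H23.Fano (PrimeDivisorOver Form)
open Pool.Agent.H17LG.Variety (IsLogGeneralType)
open MvPolynomial (aeval weightedHomogeneousComponent)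

namespace Equations_aux

variable {K : Type} [Field K] [Algebra ℂ K] {I : Type} [Fintype I]

/-- the monomial -/
def mon (ξ : I → K) (a : I →₀ ℕ) : K := ∏ i, ξ i ^ a i

omit [Algebra ℂ K] in
theorem mon_ne_zero {ξ : I → K} (hξ : ∀ i, ξ i ≠ 0) (a : I →₀ ℕ) : mon ξ a ≠ 0 :=
  Finset.prod_ne_zero_iff.2 fun i _ => pow_ne_zero _ (hξ i)

theorem aeval_eq (ξ : I → K) (P : MvPolynomial I ℂ) :
    aeval ξ P = ∑ a ∈ P.support, P.coeff a • mon ξ a := by
  rw [MvPolynomial.aeval_def, MvPolynomial.eval₂_eq']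
  simp only [mon, Algebra.smul_def]

theorem aeval_whc_eq (ξ : I → K) (P : MvPolynomial I ℂ) (n : I → ℤ) (v : ℤ) :
    aeval ξ (weightedHomogeneousComponent n v P) =
      ∑ a ∈ P.support with Finsupp.weight n a = v, P.coeff a • mon ξ a := by
  rw [MvPolynomial.weightedHomogeneousComponent_apply, map_sum]
  refine Finset.sum_congr rfl fun a _ => ?_
  rw [MvPolynomial.aeval_monomial, Algebra.smul_def, mon, Finsupp.prod_fintype _ _ (by simp)]

/-- `∏ ξ i ^ γ i` -/
def zmon (ξ : I → K) (γ : I → ℤ) : K := ∏ i, ξ i ^ γ i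

omit [Algebra ℂ K] in
theorem zmon_sub {ξ : I → K} (hξ : ∀ i, ξ i ≠ 0) (a b : I →₀ ℕ) :
    zmon ξ (fun i => (a i : ℤ) - b i) = mon ξ a / mon ξ b := by
  unfold zmon mon
  rw [← Finset.prod_div_distrib]
  refine Finset.prod_congr rfl fun i _ => ?_
  rw [zpow_sub₀ (hξ i), zpow_natCast, zpow_natCast]

theorem zmon_mem {ξ : I → K} (hξ : ∀ i, ξ i ≠ 0) {Γ : Set (I → ℤ)} (F : IntermediateField ℂ K)
    (h : ∀ γ ∈ Γ, zmon ξ γ ∈ F) {γ : I → ℤ} (hγ : γ ∈ AddSubgroup.closure Γ) : zmon ξ γ ∈ F := by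
  induction hγ using AddSubgroup.closure_induction with
  | mem γ hγ => exact h γ hγ
  | zero => simp [zmon, F.one_mem]
  | add x y _ _ hx hy =>
    have : zmon ξ (x + y) = zmon ξ x * zmon ξ y := by
      unfold zmon
      rw [← Finset.prod_mul_distrib]
      exact Finset.prod_congr rfl fun i _ => zpow_add₀ (hξ i) _ _
    rw [this]
    exact F.mul_mem hx hy
  | neg x _ hx =>
    have : zmon ξ (-x) = (zmon ξ x)⁻¹ := by
      unfold zmon
      rw [← Finset.prod_inv_distrib]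
      exact Finset.prod_congr rfl fun i _ => zpow_neg _ _
    rw [this]
    exact F.inv_mem hx

omit [Algebra ℂ K] in
theorem zmon_smul_single [DecidableEq I] {ξ : I → K} (hξ : ∀ i, ξ i ≠ 0) (M : ℕ) (i j : I) :
    zmon ξ ((M : ℤ) • (Pi.single i 1 - Pi.single j 1 : I → ℤ)) = (ξ i / ξ j) ^ M := by
  unfold zmon
  have h1 : ∀ l, ξ l ^ (((M : ℤ) • (Pi.single i 1 - Pi.single j 1 : I → ℤ)) l) =
      (if l = i then ξ i ^ M else 1) / (if l = j then ξ j ^ M else 1) := by
    intro l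
    have : ((M : ℤ) • (Pi.single i 1 - Pi.single j 1 : I → ℤ)) l =
        (if l = i then (M : ℤ) else 0) - (if l = j then (M : ℤ) else 0) := by
      simp only [Pi.smul_apply, Pi.sub_apply, Pi.single_apply, smul_eq_mul]
      split_ifs <;> ring
    rw [this, zpow_sub₀ (hξ l)]
    congr 1
    · split_ifs with h
      · subst h; rw [zpow_natCast]
      · rw [zpow_zero]
    · split_ifs with h
      · subst h; rw [zpow_natCast]
      · rw [zpow_zero]
  rw [Finset.prod_congr rfl fun l _ => h1 l, Finset.prod_div_distrib, div_pow]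
  simp

theorem ord_const {w : ℕ} (E : PrimeDivisorOver K w) {c : ℂ} (hc : c ≠ 0) :
    E.ord (algebraMap ℂ K c) = 0 := by
  have h1 := E.ord_const c
  have h2 := E.ord_const c⁻¹
  have h3 : E.ord (algebraMap ℂ K c) + E.ord (algebraMap ℂ K c⁻¹) = 0 := by
    rw [← E.ord.map_mul, ← map_mul, mul_inv_cancel₀ hc, map_one, E.ord.map_one]
  refine le_antisymm ?_ h1
  calc E.ord (algebraMap ℂ K c) ≤ E.ord (algebraMap ℂ K c) + E.ord (algebraMap ℂ K c⁻¹) :=
        le_add_of_nonneg_right h2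
    _ = 0 := h3

theorem ord_div {w : ℕ} (E : PrimeDivisorOver K w) {c : ℂ} (hc : c ≠ 0) {x y : K}
    (hy : y ≠ 0) {m : ℤ} (h : E.ord x = E.ord y + (m : WithTop ℤ)) :
    E.ord (c • (x / y)) = (m : WithTop ℤ) := by
  have h1 : E.ord (x / y) + E.ord y = E.ord x := by
    rw [← E.ord.map_mul, div_mul_cancel₀ _ hy]
  have hy' : E.ord y ≠ ⊤ := by
    rwa [Ne, E.ord.top_iff]
  rw [Algebra.smul_def, E.ord.map_mul, ord_const E hc, zero_add]
  rw [h, add_comm (E.ord y)] at h1
  exact WithTop.add_right_cancel hy' h1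

end Equations_aux

open Equations_aux

/-- Log general type from equations. -/
theorem isLogGeneralType_of_equations {K : Type} [Field K] [Algebra ℂ K]
    [Algebra.EssFiniteType ℂ K] {w k d : ℕ} (hw : 1 ≤ w)
    (hz : ∃ z : Fin w → K, IsTranscendenceBasis ℂ z) {I : Type} [Fintype I] [DecidableEq I]
    {ξ : I → K} (hξ : ∀ i, ξ i ≠ 0)
    (halg : Algebra.IsAlgebraic (IntermediateField.adjoin ℂ {f | ∃ i j, f = ξ i / ξ j}) K)
    {κ : Type} {P : κ → MvPolynomial I ℂ} {e : κ → ℕ} (hP : ∀ l, (P l).IsHomogeneous (e l))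
    (hk : ∀ l, (P l).support.card ≤ k) (hrel : ∀ l, aeval ξ (P l) = 0)
    (hlev : ∀ n : I → ℤ, (∀ l v, aeval ξ (weightedHomogeneousComponent n v (P l)) = 0) →
      ∀ i j, n i = n j)
    (hd : w * k * (k - 1) * (k - 2) < 2 * d) (B : PrimeDivisorOver K w → Prop)
    (hB : ∀ E, ¬ B E → ∀ l, ∀ a ∈ (P l).support, ∀ b ∈ (P l).support, ∃ m : ℤ,
      E.ord (∏ i, ξ i ^ a i) = E.ord (∏ i, ξ i ^ b i) + ((d * m : ℤ) : WithTop ℤ)) :
    IsLogGeneralType B := by
  classical
  -- the set of the differences of exponents in circuits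
  set Γ : Set (I → ℤ) := {γ | ∃ (l : κ) (ρ : Finset (I →₀ ℕ)), ρ ⊆ (P l).support ∧
    IsCircuit ℂ (mon ξ) ρ ∧ ∃ a ∈ ρ, ∃ b ∈ ρ, γ = fun i => (a i : ℤ) - b i} with hΓ
  have hcomb : ∀ i j : I, ∃ M : ℕ, 0 < M ∧
      (M : ℤ) • (Pi.single i 1 - Pi.single j 1 : I → ℤ) ∈ AddSubgroup.closure Γ := by
    intro i j
    refine exists_combination fun n hn => hlev n (fun l v => ?_) i j
    rw [aeval_whc_eq]
    refine sum_level_eq_zero (F := ℂ) (y := mon ξ) (ν := fun a => Finsupp.weight n a)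
      (S := (P l).support) (c := fun a => (P l).coeff a) ?_ ?_ v
    · intro ρ hρS hρ a ha b hb
      have h1 := hn _ ⟨l, ρ, hρS, hρ, a, ha, b, hb, rfl⟩
      have h2 : ∀ a : I →₀ ℕ, Finsupp.weight n a = ∑ l, n l * (a l : ℤ) := by
        intro a
        rw [Finsupp.weight_apply, Finsupp.sum_fintype _ _ (by simp)]
        exact Finset.sum_congr rfl fun l _ => by rw [nsmul_eq_mul, mul_comm]
      rw [h2, h2, ← sub_eq_zero, ← Finset.sum_sub_distrib, ← h1]
      exact Finset.sum_congr rfl fun l _ => by ring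
    · rw [← aeval_eq]
      exact hrel l
  -- the good elements
  set U : Set K := {u | ∃ (n : ℕ) (u' : Fin n → K) (j : Fin n), 2 ≤ n ∧ n + 1 ≤ k ∧
    (∀ j, u' j ≠ 0) ∧ ∑ j, u' j = -1 ∧ LinearIndependent ℂ u' ∧
    (∀ E, ¬ B E → ∀ j, ∃ m : ℤ, E.ord (u' j) = ((d * m : ℤ) : WithTop ℤ)) ∧ u = u' j} with hU
  have hratio : ∀ (l : κ) (ρ : Finset (I →₀ ℕ)), ρ ⊆ (P l).support → IsCircuit ℂ (mon ξ) ρ →
      ∀ a ∈ ρ, ∀ b ∈ ρ, mon ξ a / mon ξ b ∈ IntermediateField.adjoin ℂ U := by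
    intro l ρ hρS hρ a ha b hb
    obtain ⟨n, e', c, hn, he, hmem, hne, hc, hsum, hind⟩ :=
      IsCircuit.exists_normal (mon_ne_zero hξ) hρ hb
    rcases (hmem a).1 ha with rfl | ⟨j, rfl⟩
    · rw [div_self (mon_ne_zero hξ _)]
      exact IntermediateField.one_mem _
    have hn1 : 1 ≤ n := by
      have := j.2
      omega
    rcases Nat.lt_or_ge n 2 with hn2 | hn2
    · obtain rfl : n = 1 := by omega
      have hj : j = 0 := Subsingleton.elim _ _
      subst hj
      rw [Fin.sum_univ_one] at hsum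
      have : mon ξ (e' 0) / mon ξ b = algebraMap ℂ K (-(c 0)⁻¹) := by
        have h1 : (c 0)⁻¹ • (c 0 • (mon ξ (e' 0) / mon ξ b)) = (c 0)⁻¹ • (-1 : K) := by rw [hsum]
        rw [inv_smul_smul₀ (hc 0)] at h1
        rw [h1, Algebra.smul_def, map_neg, mul_neg, mul_one]
      rw [this]
      exact IntermediateField.algebraMap_mem _ _
    · have hu : c j • (mon ξ (e' j) / mon ξ b) ∈ U := by
        refine ⟨n, fun j => c j • (mon ξ (e' j) / mon ξ b), j, hn2, ?_, ?_, hsum, hind, ?_, rfl⟩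
        · rw [hn]
          exact (Finset.card_le_card hρS).trans (hk l)
        · intro j
          exact smul_ne_zero (hc j) (div_ne_zero (mon_ne_zero hξ _) (mon_ne_zero hξ _))
        · intro E hE j
          obtain ⟨m, hm⟩ := hB E hE l (e' j) (hρS ((hmem _).2 (Or.inr ⟨j, rfl⟩))) b (hρS hb)
          exact ⟨m, ord_div E (hc j) (mon_ne_zero hξ _) hm⟩
      have h1 : mon ξ (e' j) / mon ξ b = algebraMap ℂ K (c j)⁻¹ * (c j • (mon ξ (e' j) / mon ξ b)) := by
        rw [← Algebra.smul_def, inv_smul_smul₀ (hc j)]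
      rw [h1]
      exact IntermediateField.mul_mem _ (IntermediateField.algebraMap_mem _ _)
        (IntermediateField.subset_adjoin _ _ hu)
  set F := IntermediateField.adjoin ℂ U with hF
  have hroot : ∀ i j, IsAlgebraic F (ξ i / ξ j) := by
    intro i j
    obtain ⟨M, hM, hmem⟩ := hcomb i j
    have h1 : (ξ i / ξ j) ^ M ∈ F := by
      rw [← zmon_smul_single hξ]
      refine zmon_mem hξ F ?_ hmem
      rintro γ ⟨l, ρ, hρS, hρ, a, ha, b, hb, rfl⟩
      rw [zmon_sub hξ]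
      exact hratio l ρ hρS hρ a ha b hb
    have h2 : IsAlgebraic F ((ξ i / ξ j) ^ M) := isAlgebraic_algebraMap (⟨_, h1⟩ : F)
    exact h2.of_pow hM
  -- transitivity
  have hle : IntermediateField.adjoin ℂ {f | ∃ i j, f = ξ i / ξ j} ≤
      (algebraicClosure F K).restrictScalars ℂ := by
    rw [IntermediateField.adjoin_le_iff]
    rintro f ⟨i, j, rfl⟩
    exact mem_algebraicClosure_iff.2 (hroot i j)
  have hK : Algebra.IsAlgebraic F K := by
    refine ⟨fun x => ?_⟩
    have h1 : IsAlgebraic (IntermediateField.adjoin ℂ {f | ∃ i j, f = ξ i / ξ j}) x :=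
      halg.isAlgebraic x
    have h2 : IsAlgebraic (algebraicClosure F K) x := by
      let G0 := IntermediateField.adjoin ℂ {f | ∃ i j, f = ξ i / ξ j}
      let _ : Algebra G0 (algebraicClosure F K) :=
        (IntermediateField.inclusion hle : G0 →ₐ[ℂ] _).toRingHom.toAlgebra
      have : IsScalarTower G0 (algebraicClosure F K) K := .of_algebraMap_eq fun _ ↦ rfl
      exact h1.tower_top _
    exact h2.restrictScalars F
  have hK' : Algebra.IsAlgebraic (Algebra.adjoin ℂ U) K :=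
    (IntermediateField.isAlgebraic_adjoin_iff_top).1 hK
  obtain ⟨t, htU, ht⟩ := exists_isTranscendenceBasis_subset (R := ℂ) U
  obtain ⟨z, hz⟩ := hz
  have hcard := hz.lift_cardinalMk_eq ht
  rw [Cardinal.lift_mk_eq'] at hcard
  obtain ⟨σ⟩ := hcard
  have hb : IsTranscendenceBasis ℂ (fun i : Fin w => ((σ i : t) : K)) := by
    exact ht.comp_equiv σ
  have hdata : ∀ i : Fin w, ((σ i : t) : K) ∈ U := fun i => htU (σ i).2
  choose n u' j₀ hn2 hnk hu0 hrel' hind hB' heq using hdata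
  refine logGeneralType_of_circuits (k := k) (d := d) hw n hn2 hnk u' hu0 hrel' hind j₀ ?_ hd B
    fun E hE i j => hB' i E hE j
  simpa only [heq] using hb

end Pool.Agent.H62.FC
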