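import Pool.Agent.H62.FC.Words
import Pool.Agent.H62.FC.Defs
import Pool.Agent.H62.FC.NevDefs
import Pool.Agent.H62.FC.CircuitDefs
import Pool.Agent.H62.FC.Dense
import Pool.Agent.H62.FC.Equations
import Pool.Agent.H17LG.Point
import Pool.Agent.H17GT.Main

/-!
# Subvarieties outside the exceptional set are of log general type
-/

open MvPolynomial Topology Filter
open Pool.Agent.H92.GGL (ordZ)
open Pool.Agent.H17 (PN VanishesAt zeroLocus ZariskiClosedIn HolomorphicInto puncturedDisc
  PseudoBrodyHyperbolic PseudoPicardHyperbolic)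
open Pool.Agent.H17GT (coordFun)
open Pool.Agent.H17LG.Variety (FunField ratio IsLogGeneralType)
open Pool.Agent.H23.Fano (PrimeDivisorOver)

noncomputable section

namespace Pool.Agent.H62.FC

variable {N : ℕ} {κ : Type} {A : κ → MvPolynomial (Fin (N + 1)) ℂ} {e : κ → ℕ}
  {O : Finset (Fin (N + 1))} {P : Ideal (MvPolynomial (Fin (N + 1)) ℂ)}

/-- The generic point, in terms of `FunField` and `ratio`. -/
theorem Subvar_point (P : Ideal (MvPolynomial (Fin (N + 1)) ℂ)) [P.IsPrime] {k : ℕ}
    (z : Fin (k + 1) → FunField P) (hz : IsTranscendenceBasis ℂ z) :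
    ∃ x : Fin (N + 1) → FunField P, x ≠ 0 ∧
      IntermediateField.adjoin ℂ {y | ∃ i j, y = x i / x j} = ⊤ ∧
      (∀ (d : ℕ) (G : MvPolynomial (Fin (N + 1)) ℂ), G.IsHomogeneous d →
        (aeval x G = 0 ↔ G ∈ P)) ∧ (∀ i, x i = 0 ↔ coordFun P i = 0) ∧
      ∀ i j, x i / x j = ratio P i j := by
  obtain ⟨x, h1, h2, _, h4, h5, h6⟩ := Pool.Agent.H17LG.exists_point_log P z hz
  exact ⟨x, h1, h2, h4, h5, h6⟩

/-- the part of a sum over all coordinates -/
theorem Subvar_weight {M : Type*} [AddCommMonoid M] {ι τ : Type*} (f : ι → τ)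
    (n : ι → M) (n' : τ → M) (h : ∀ i, n' (f i) = n i) (a : ι →₀ ℕ) :
    Finsupp.weight n' (a.mapDomain f) = Finsupp.weight n a := by
  rw [Finsupp.weight_apply, Finsupp.weight_apply, Finsupp.sum_mapDomain_index]
  · simp [h]
  · simp
  · intro i m₁ m₂
    rw [add_smul]

theorem Subvar_comp {ι τ : Type*} {f : ι → τ} (hf : Function.Injective f)
    (n : ι → ℤ) (n' : τ → ℤ) (h : ∀ i, n' (f i) = n i) (v : ℤ) (p : MvPolynomial τ ℂ) :
    killCompl hf (weightedHomogeneousComponent n' v p) =
      weightedHomogeneousComponent n v (killCompl hf p) := by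
  classical
  ext a
  rw [coeff_killCompl, coeff_weightedHomogeneousComponent, coeff_weightedHomogeneousComponent,
    coeff_killCompl, Subvar_weight f n n' h]

theorem Subvar_homog {ι τ : Type*} {f : ι → τ} (hf : Function.Injective f) {m : ℕ}
    {p : MvPolynomial τ ℂ} (hp : p.IsHomogeneous m) : (killCompl hf p).IsHomogeneous m := by
  intro a ha
  rw [coeff_killCompl] at ha
  have h1 := hp ha
  rw [Subvar_weight f (1 : ι → ℕ) (1 : τ → ℕ) (fun _ => rfl)] at h1
  exact h1

theorem Subvar_homog_comp {τ : Type*} {m : ℕ} {p : MvPolynomial τ ℂ} (hp : p.IsHomogeneous m)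
    (n : τ → ℤ) (v : ℤ) : (weightedHomogeneousComponent n v p).IsHomogeneous m := by
  classical
  intro a ha
  rw [coeff_weightedHomogeneousComponent] at ha
  refine hp (d := a) fun h => ha ?_
  rw [h, ite_self]

theorem Subvar_aeval {ι τ : Type*} {f : ι → τ} (hf : Function.Injective f) {K : Type*} [Field K]
    [Algebra ℂ K] {x : τ → K} (hx : ∀ i, i ∉ Set.range f → x i = 0) (p : MvPolynomial τ ℂ) :
    aeval (fun i => x (f i)) (killCompl hf p) = aeval x p := by
  have h : ((aeval (fun i => x (f i)) : MvPolynomial ι ℂ →ₐ[ℂ] K)).comp (killCompl hf) =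
      aeval x := by
    apply algHom_ext
    intro i
    rw [AlgHom.comp_apply, aeval_X, killCompl, aeval_X]
    split_ifs with hi
    · rw [aeval_X]
      congr 1
      exact Equiv.apply_ofInjective_symm hf ⟨i, hi⟩
    · rw [map_zero, hx i hi]
  rw [← h]
  rfl

theorem Subvar_ord_prod {K ι : Type*} [Field K] [Fintype ι] (v : AddValuation K (WithTop ℤ))
    {ξ : ι → K} {o : ι → ℤ} (ho : ∀ i, v (ξ i) = (o i : WithTop ℤ)) (a : ι →₀ ℕ) :
    v (∏ i, ξ i ^ a i) = ((∑ i, (a i : ℤ) * o i : ℤ) : WithTop ℤ) := by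
  classical
  have h : ∀ s : Finset ι, v (∏ i ∈ s, ξ i ^ a i) =
      ((∑ i ∈ s, (a i : ℤ) * o i : ℤ) : WithTop ℤ) := by
    intro s
    induction s using Finset.induction_on with
    | empty => simp
    | insert i s hi ih =>
      rw [Finset.prod_insert hi, Finset.sum_insert hi, AddValuation.map_mul, ih,
        AddValuation.map_pow, ho i, WithTop.coe_add]
      congr 1
  exact h Finset.univ

/-! D-B -/
theorem logGeneralType_of_not_subset [P.IsPrime] (hP : Homog P) {k d : ℕ}
    (hA : ∀ l, (A l).IsHomogeneous (e l)) (hk : ∀ l, (A l).support.card ≤ k)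
    (hdiv : ∀ l, ∀ a ∈ (A l).support, ∀ i ∉ O, d ∣ a i)
    (hO : ∀ i ∈ O, X i ∉ P) (hAP : ∀ l, A l ∈ P)
    (hsub : ¬ primeLocus P O ⊆ excSet (openLocus A O)) {w : ℕ} (hw : 1 ≤ w)
    (hz : ∃ z : Fin w → FunField P, IsTranscendenceBasis ℂ z)
    (hd : w * k * (k - 1) * (k - 2) < 2 * d) : LogGeneralType P O w := by
  classical
  obtain ⟨w, rfl⟩ : ∃ w', w = w' + 1 := ⟨w - 1, by omega⟩
  obtain ⟨z, hz'⟩ := hz
  obtain ⟨x, hx0, hgen, hker, hxc, hxr⟩ := Subvar_point P z hz'
  have hess : Algebra.EssFiniteType ℂ (FunField P) := H17GT.essFiniteType_functionField P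
  have hX : ∀ i, x i = 0 ↔ X i ∈ P := by
    intro i
    rw [← hker 1 (X i) (isHomogeneous_X ℂ i), aeval_X]
  let I : Type := {i : Fin (N + 1) // X i ∉ P}
  let f : I → Fin (N + 1) := Subtype.val
  have hf : Function.Injective f := Subtype.val_injective
  have hrange : ∀ i, i ∉ Set.range f → x i = 0 := by
    intro i hi
    by_contra h0
    exact hi ⟨⟨i, fun h => h0 ((hX i).2 h)⟩, rfl⟩
  let ξ : I → FunField P := fun i => x (f i)
  have hξ : ∀ i, ξ i ≠ 0 := fun i h => i.2 ((hX i.1).1 h)
  -- a coordinate which is not zero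
  obtain ⟨i₀, hi₀⟩ : ∃ i₀, x i₀ ≠ 0 := by
    by_contra hcon
    push Not at hcon
    exact hx0 (funext hcon)
  have : Nonempty I := ⟨⟨i₀, fun h => hi₀ ((hX i₀).2 h)⟩⟩
  have halg : Algebra.IsAlgebraic
      (IntermediateField.adjoin ℂ {g | ∃ i j, g = ξ i / ξ j}) (FunField P) := by
    have h1 : IntermediateField.adjoin ℂ {g | ∃ i j, g = ξ i / ξ j} = ⊤ := by
      rw [eq_top_iff, ← hgen, IntermediateField.adjoin_le_iff]
      rintro y ⟨i, j, rfl⟩
      by_cases hi : x i = 0
      · rw [hi, zero_div]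
        exact zero_mem _
      by_cases hj : x j = 0
      · rw [hj, div_zero]
        exact zero_mem _
      exact IntermediateField.subset_adjoin _ _
        ⟨⟨i, fun h => hi ((hX i).2 h)⟩, ⟨j, fun h => hj ((hX j).2 h)⟩, rfl⟩
    rw [h1]
    exact ⟨fun g => isAlgebraic_algebraMap (⟨g, IntermediateField.mem_top⟩ :
      (⊤ : IntermediateField ℂ (FunField P)))⟩
  have hinj : Function.Injective (fun a : I →₀ ℕ => a.mapDomain f) :=
    Finsupp.mapDomain_injective hf
  have hmem : ∀ l, ∀ a ∈ (killCompl hf (A l)).support, a.mapDomain f ∈ (A l).support := by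
    intro l a ha
    rw [mem_support_iff, coeff_killCompl] at ha
    exact mem_support_iff.2 ha
  refine isLogGeneralType_of_equations (K := FunField P) (I := I) (ξ := ξ)
    (P := fun l => killCompl hf (A l)) (e := e) (k := k) (d := d) hw ⟨z, hz'⟩ hξ halg
    (fun l => Subvar_homog hf (hA l)) (fun l => ?_) (fun l => ?_) (fun n hn i j => ?_) hd _
    (fun E hE l a ha b hb => ?_)
  · refine le_trans ?_ (hk l)
    refine Finset.card_le_card_of_injOn (fun a => a.mapDomain f) (fun a ha => hmem l a ha)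
      hinj.injOn
  · change aeval (fun i => x (f i)) (killCompl hf (A l)) = 0
    rw [Subvar_aeval hf hrange]
    exact (hker _ _ (hA l)).2 (hAP l)
  · by_contra hij
    apply hsub
    let n' : Fin (N + 1) → ℤ := fun i => if h : X i ∉ P then n ⟨i, h⟩ else 0
    have hn' : ∀ i : I, n' (f i) = n i := by
      intro i
      exact dif_pos i.2
    refine primeLocus_subset_excSet hP hA hO (n := n') ⟨f i, f j, i.2, j.2, ?_⟩ ?_
    · rw [hn', hn']
      exact hij
    · intro l v
      rw [← hker _ _ (Subvar_homog_comp (hA l) n' v), ← Subvar_aeval hf hrange,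
        Subvar_comp hf n n' hn']
      exact hn l v
  · -- the orders
    have hfin : ∀ i, ∃ o : ℤ, E.ord (ξ i) = (o : WithTop ℤ) := by
      intro i
      have h1 : E.ord (ξ i) ≠ ⊤ := fun h => hξ i ((AddValuation.top_iff _).1 h)
      exact ⟨(E.ord (ξ i)).untop h1, (WithTop.coe_untop _ h1).symm⟩
    choose o ho using hfin
    obtain ⟨j, hj⟩ := Finite.exists_min o
    have hxj : x (f j) ≠ 0 := hξ j
    have hrat : ∀ i : I, E.ord (ratio P (f i) (f j)) = ((o i - o j : ℤ) : WithTop ℤ) := by
      intro i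
      rw [← hxr]
      have h1 : E.ord (x (f i) / x (f j)) + E.ord (x (f j)) = E.ord (x (f i)) := by
        rw [← AddValuation.map_mul, div_mul_cancel₀ _ hxj]
      rw [show x (f i) = ξ i from rfl, show x (f j) = ξ j from rfl, ho i, ho j] at h1
      have h2 : E.ord (ξ i / ξ j) ≠ ⊤ := by
        intro h
        rw [h, WithTop.top_add] at h1
        exact WithTop.top_ne_coe h1
      obtain ⟨c, hc⟩ := WithTop.ne_top_iff_exists.1 h2
      rw [← hc] at h1 ⊢
      norm_cast at h1 ⊢
      omega
    have hOo : ∀ i : I, f i ∈ O → o i = o j := by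
      intro i hi
      by_contra hne
      apply hE
      refine ⟨f j, fun h => hxj ((hxc _).2 h), fun i' => ?_, f i, hi, ?_⟩
      · by_cases h : X i' ∈ P
        · rw [← hxr, (hX i').2 h, zero_div, AddValuation.map_zero]
          exact le_top
        · rw [show i' = f ⟨i', h⟩ from rfl, hrat]
          have := hj ⟨i', h⟩
          norm_cast
          omega
      · rw [hrat]
        have := hj i
        norm_cast
        omega
    have hsum : ∀ c : I →₀ ℕ, c ∈ (killCompl hf (A l)).support → ∑ i, (c i : ℤ) = e l := by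
      intro c hc
      have h1 := Subvar_homog hf (hA l) (mem_support_iff.1 hc)
      rw [Finsupp.weight_apply, Finsupp.sum_fintype _ _ (by simp)] at h1
      have h2 : ∑ i, c i = e l := by
        rw [← h1]
        simp
      rw [← h2]
      push_cast
      rfl
    have hdvd : (d : ℤ) ∣ ∑ i, ((a i : ℤ) - b i) * (o i - o j) := by
      refine Finset.dvd_sum fun i _ => ?_
      by_cases hi : f i ∈ O
      · rw [hOo i hi, sub_self, mul_zero]
        exact dvd_zero _
      · refine Dvd.dvd.mul_right (dvd_sub ?_ ?_) _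
        · have h1 := hdiv l _ (hmem l a ha) (f i) hi
          rw [Finsupp.mapDomain_apply hf] at h1
          exact_mod_cast h1
        · have h1 := hdiv l _ (hmem l b hb) (f i) hi
          rw [Finsupp.mapDomain_apply hf] at h1
          exact_mod_cast h1
    obtain ⟨m, hm⟩ := hdvd
    refine ⟨m, ?_⟩
    have h1 : ∑ i, ((a i : ℤ) - b i) * (o i - o j) =
        (∑ i, (a i : ℤ) * o i) - (∑ i, (b i : ℤ) * o i) -
          ((∑ i, (a i : ℤ)) - ∑ i, (b i : ℤ)) * o j := by
      rw [← Finset.sum_sub_distrib, ← Finset.sum_sub_distrib, Finset.sum_mul,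
        ← Finset.sum_sub_distrib]
      exact Finset.sum_congr rfl fun i _ => by ring
    rw [h1, hsum a ha, hsum b hb, sub_self, zero_mul, sub_zero] at hm
    rw [Subvar_ord_prod E.ord ho a, Subvar_ord_prod E.ord ho b, ← WithTop.coe_add,
      WithTop.coe_inj]
    omega

end Pool.Agent.H62.FC
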