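import Pool.Agent.H62.FC.CompExc
import Pool.Agent.H62.FC.Components
import Pool.Agent.H62.FC.Dense
import Pool.Agent.H62.FC.GradedCurves
import Pool.Agent.H62.FC.GradedField
import Pool.Agent.H62.FC.PicardBrody
import Pool.Agent.H62.FC.Subvar
import Pool.Agent.H62.FC.Trdeg
import Pool.Agent.H62.FC.Eval

/-!
# Fermat covers: the components
-/

open MvPolynomial Topology Filter
open Pool.Agent.H17 (PN VanishesAt zeroLocus ZariskiClosedIn HolomorphicInto puncturedDisc
  PseudoBrodyHyperbolic PseudoPicardHyperbolic vanishesAt_mk_iff)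
open Pool.Agent.H17GT (coordFun functionField)
open Pool.Agent.H17LG.Variety (FunField)

noncomputable section

namespace Pool.Agent.H62.FC

variable {N : ℕ} {κ : Type} {A : κ → MvPolynomial (Fin (N + 1)) ℂ} {e : κ → ℕ}
  {O : Finset (Fin (N + 1))} {P : Ideal (MvPolynomial (Fin (N + 1)) ℂ)}

/-- The union of the images of the non-constant holomorphic maps `ℂ → X`. -/
def entireCurves (X : Set (PN N)) : Set (PN N) :=
  {x | ∃ f : ℂ → PN N, HolomorphicInto f Set.univ ∧ (∀ z, f z ∈ X) ∧ (∃ z w, f z ≠ f w) ∧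
    ∃ z, f z = x}

/-- The set `Y` is stable under the one-parameter group `(x i) ↦ (x i * t ^ (n i))`. -/
def StableUnder (Y : Set (PN N)) (n : Fin (N + 1) → ℤ) : Prop :=
  ∀ x ∈ Y, ∀ (t : ℂ) (h : (fun i => x.rep i * t ^ n i) ≠ 0), t ≠ 0 →
    Projectivization.mk ℂ (fun i => x.rep i * t ^ n i) h ∈ Y

/-- The points of the monomial curves are on entire curves. -/
lemma monomialCurves_subset (X : Set (PN N)) : monomialCurves X ⊆ entireCurves X := by
  rintro x ⟨a, ha, n, rfl, ⟨i, j, hi, hj, hij⟩, hX⟩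
  have hne : ∀ z : ℂ, (fun l => a l * Complex.exp z ^ n l) ≠ 0 := by
    intro z h
    have h1 := congrFun h i
    simp only [Pi.zero_apply, mul_eq_zero] at h1
    rcases h1 with h1 | h1
    · exact hi h1
    · exact zpow_ne_zero _ (Complex.exp_ne_zero z) h1
  refine ⟨fun z => Projectivization.mk ℂ (fun l => a l * Complex.exp z ^ n l) (hne z),
    ?_, fun z => hX _ (hne z) (Complex.exp_ne_zero z), ?_, 0, ?_⟩
  · intro z _
    refine ⟨fun w l => a l * Complex.exp w ^ n l, ?_, Eventually.of_forall fun w => ⟨hne w, rfl⟩⟩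
    rw [analyticAt_pi_iff]
    intro l
    exact analyticAt_const.mul (AnalyticAt.zpow analyticAt_cexp (Complex.exp_ne_zero z))
  · refine ⟨0, 1, fun h => ?_⟩
    rw [Projectivization.mk_eq_mk_iff'] at h
    obtain ⟨c, hc⟩ := h
    have h1 := congrFun hc i
    have h2 := congrFun hc j
    simp only [Pi.smul_apply, smul_eq_mul, Complex.exp_zero, one_zpow, mul_one] at h1 h2
    have h3 : c * Complex.exp 1 ^ n i = 1 :=
      mul_left_cancel₀ hi (by rw [mul_one]; linear_combination h1)
    have h4 : c * Complex.exp 1 ^ n j = 1 :=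
      mul_left_cancel₀ hj (by rw [mul_one]; linear_combination h2)
    have hc0 : c ≠ 0 := by
      rintro rfl
      rw [zero_mul] at h3
      exact zero_ne_one h3
    have h5 : Complex.exp 1 ^ n i = Complex.exp 1 ^ n j :=
      mul_left_cancel₀ hc0 (h3.trans h4.symm)
    have h6 := congrArg norm h5
    rw [norm_zpow, norm_zpow, Complex.norm_exp, Complex.one_re] at h6
    exact hij ((zpow_right_injective₀ (Real.exp_pos 1) (by
      have := Real.add_one_lt_exp (one_ne_zero (α := ℝ))
      linarith)) h6)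
  · simp

/-- Stability under a one-parameter group in terms of ideals. -/
lemma graded_of_stable [P.IsPrime] (hP : Homog P) (hO : ∀ i ∈ O, X i ∉ P) (hne : ∃ i, X i ∉ P)
    {n : Fin (N + 1) → ℤ} (h : StableUnder (primeLocus P O) n) :
    ∀ p ∈ P, ∀ v, weightedHomogeneousComponent n v p ∈ P := by
  -- forms
  have h1 : ∀ (m : ℕ) (p : MvPolynomial (Fin (N + 1)) ℂ), p.IsHomogeneous m → p ∈ P →
      ∀ v, weightedHomogeneousComponent n v p ∈ P := by
    intro m p hp hpP v
    have hhom : (weightedHomogeneousComponent n v p).IsHomogeneous m := by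
      intro c hc
      apply hp
      intro h0
      rw [coeff_weightedHomogeneousComponent] at hc
      split_ifs at hc with h2
      · exact hc h0
      · exact hc rfl
    refine mem_of_vanishes hP hO hne hhom fun x hx => ?_
    refine component_eq_zero_of_zpow (fun t ht => ?_) v
    have hx0 : (fun i => x.rep i * t ^ n i) ≠ 0 := by
      intro h0
      apply x.rep_nonzero
      funext i
      have h2 := congrFun h0 i
      simp only [Pi.zero_apply, mul_eq_zero] at h2
      rcases h2 with h2 | h2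
      · exact h2
      · exact absurd h2 (zpow_ne_zero _ ht)
    have h2 := h x hx t hx0 ht
    rw [mk_mem_primeLocus] at h2
    exact h2.1 p hpP m hp
  intro p hp v
  have h2 : p = ∑ m ∈ Finset.range (p.totalDegree + 1), homogeneousComponent m p :=
    (sum_homogeneousComponent p).symm
  rw [h2, map_sum]
  exact Ideal.sum_mem _ fun m _ => h1 m _ (homogeneousComponent_isHomogeneous m p) (hP p hp m) v


lemma stable_of_graded {n : Fin (N + 1) → ℤ}
    (hgr : ∀ p ∈ P, ∀ v, weightedHomogeneousComponent n v p ∈ P) :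
    StableUnder (primeLocus P O) n := by
  have hhom : ∀ (m : ℕ) (p : MvPolynomial (Fin (N + 1)) ℂ), p.IsHomogeneous m → ∀ v,
      (weightedHomogeneousComponent n v p).IsHomogeneous m := by
    intro m p hp v c hc
    apply hp
    intro h0
    rw [coeff_weightedHomogeneousComponent] at hc
    split_ifs at hc with h2
    · exact hc h0
    · exact hc rfl
  intro x hx t h ht
  rw [mk_mem_primeLocus]
  constructor
  · intro Q hQ m hm
    exact eval_zpow_eq_zero (fun v => hx.1 _ (hgr Q hQ v) m (hhom m Q hm v)) ht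
  · intro i hi
    exact mul_ne_zero (hx.2 i hi) (zpow_ne_zero _ ht)

/-- A variety of positive dimension has a non-zero coordinate. -/
lemma exists_X_notMem [P.IsPrime] {r : ℕ} (hr : 1 ≤ r)
    (hz : ∃ z : Fin r → FunField P, IsTranscendenceBasis ℂ z) : ∃ i, X i ∉ P := by
  by_contra hcon
  push Not at hcon
  obtain ⟨z, hz⟩ := hz
  have h1 : functionField P = ⊥ := by
    rw [functionField, IntermediateField.adjoin_eq_bot_iff]
    rintro f ⟨i, j, rfl⟩
    have h2 : coordFun P i = 0 := by
      rw [coordFun, Ideal.Quotient.eq_zero_iff_mem.mpr (hcon i), map_zero]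
    rw [h2, zero_div]
    exact zero_mem _
  have h2 : Transcendental ℂ (z ⟨0, hr⟩) := by
    have := hz.1.transcendental ⟨0, hr⟩
    exact this
  apply h2
  set y : functionField P := z ⟨0, hr⟩ with hy
  have h3 : (y : FractionRing (MvPolynomial (Fin (N + 1)) ℂ ⧸ P)) ∈
      (⊥ : IntermediateField ℂ (FractionRing (MvPolynomial (Fin (N + 1)) ℂ ⧸ P))) := by
    rw [← h1]
    exact y.2
  obtain ⟨c, hc⟩ := IntermediateField.mem_bot.mp h3
  have h4 : y = algebraMap ℂ (functionField P) c := Subtype.ext hc.symm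
  have h5 : IsAlgebraic ℂ y := by
    rw [h4]
    exact isAlgebraic_algebraMap c
  exact h5
/-- **The components of a Fermat cover.** -/
theorem component_tfae [Finite κ] [P.IsPrime] {k d : ℕ}
    (hA : ∀ l, (A l).IsHomogeneous (e l)) (hk : ∀ l, (A l).support.card ≤ k)
    (hdiv : ∀ l, ∀ a ∈ (A l).support, ∀ i ∉ O, d ∣ a i) (hd : k * (k - 2) < d)
    (hP : P ∈ (Ideal.span (Set.range A)).minimalPrimes) (hO : ∀ i ∈ O, X i ∉ P) {r : ℕ}
    (hr : 1 ≤ r) (hz : ∃ z : Fin r → FunField P, IsTranscendenceBasis ℂ z)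
    (hrd : r * k * (k - 1) * (k - 2) < 2 * d) :
    List.TFAE [LogGeneralType P O r, PseudoPicardHyperbolic (primeLocus P O),
      PseudoBrodyHyperbolic (primeLocus P O), StronglyLogGeneralType P O,
      ¬ primeLocus P O ⊆ excSet (openLocus A O),
      ∀ n : Fin (N + 1) → ℤ, StableUnder (primeLocus P O) n →
        ∀ i j, X i ∉ P → X j ∉ P → n i = n j] := by
  have hhom : Homog P := homog_of_minimal hA hP
  have hAP : ∀ l, A l ∈ P := fun l => hP.1.2 (Ideal.subset_span ⟨l, rfl⟩)
  have hYX : primeLocus P O ⊆ openLocus A O := primeLocus_subset hA hAP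
  have hne : ∃ i, X i ∉ P := exists_X_notMem hr hz
  by_cases hG : ∃ n : Fin (N + 1) → ℤ, (∃ i j, X i ∉ P ∧ X j ∉ P ∧ n i ≠ n j) ∧
      ∀ p ∈ P, ∀ v, weightedHomogeneousComponent n v p ∈ P
  · -- no property holds
    obtain ⟨n, hn, hgr⟩ := hG
    have h1 : ¬ LogGeneralType P O r := not_logGeneralType_of_graded hhom hO hn hgr hz
    have h2 : ¬ PseudoPicardHyperbolic (primeLocus P O) := not_picard_of_graded hhom hO hn hgr
    have h3 : ¬ PseudoBrodyHyperbolic (primeLocus P O) := not_brody_of_graded hhom hO hn hgr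
    have h4 : ¬ StronglyLogGeneralType P O := by
      rintro ⟨Ξ, hΞ, hΞne, h⟩
      refine h1 (h P hhom le_rfl hO (fun hsub => hΞne ?_) r hr hz)
      obtain ⟨S, -, rfl⟩ := hΞ
      exact Set.Subset.antisymm (fun x hx => hx.1) hsub
    have h5 : primeLocus P O ⊆ excSet (openLocus A O) :=
      primeLocus_subset_excSet hhom hA hO hn fun l v => hgr _ (hAP l) v
    have h6 : ¬ ∀ n : Fin (N + 1) → ℤ, StableUnder (primeLocus P O) n →
        ∀ i j, X i ∉ P → X j ∉ P → n i = n j := by
      intro h
      obtain ⟨i, j, hi, hj, hij⟩ := hn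
      exact hij (h n (stable_of_graded hgr) i j hi hj)
    tfae_have 1 → 2 := fun h => absurd h h1
    tfae_have 2 → 3 := fun h => absurd h h2
    tfae_have 3 → 4 := fun h => absurd h h3
    tfae_have 4 → 5 := fun h => absurd h h4
    tfae_have 5 → 6 := fun h => absurd h5 h
    tfae_have 6 → 1 := fun h => absurd h h6
    tfae_finish
  · -- all properties hold
    have h5 : ¬ primeLocus P O ⊆ excSet (openLocus A O) := fun h =>
      hG (exists_graded_of_subset hA hP hO hne h)
    have hΞ : ZariskiClosedIn (primeLocus P O) (primeLocus P O ∩ excSet (openLocus A O)) :=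
      zariskiClosedIn_inter_excSet hYX
    have hΞne : primeLocus P O ∩ excSet (openLocus A O) ≠ primeLocus P O := fun h =>
      h5 (Set.inter_eq_left.mp h)
    have h1 : LogGeneralType P O r :=
      logGeneralType_of_not_subset hhom hA hk hdiv hO hAP h5 hr hz hrd
    have h2 : PseudoPicardHyperbolic (primeLocus P O) := by
      refine ⟨_, hΞ, hΞne, fun f hf hfX ⟨z, hz1, hz2⟩ => ?_⟩
      exact picard hA hk hdiv hd hf (fun w hw => hYX (hfX w hw))
        ⟨z, hz1, fun h => hz2 ⟨hfX z hz1, h⟩⟩
    have h3 : PseudoBrodyHyperbolic (primeLocus P O) := by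
      refine ⟨_, hΞ, hΞne, fun f hf hfX hfne z => ⟨hfX z, ?_⟩⟩
      exact brody hA hk hdiv hd hf (fun w => hYX (hfX w)) hfne z
    have h4 : StronglyLogGeneralType P O := by
      refine ⟨_, hΞ, hΞne, fun Q _ hQ hPQ hOQ hsub w hw hzw => ?_⟩
      have hwr : w ≤ r := trdeg_mono hhom hQ hPQ hz hzw
      refine logGeneralType_of_not_subset hQ hA hk hdiv hOQ (fun l => hPQ (hAP l))
        (fun h => hsub fun x hx => ⟨primeLocus_mono hPQ hx, h hx⟩) hw hzw ?_
      refine lt_of_le_of_lt ?_ hrd
      gcongr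
    have h6 : ∀ n : Fin (N + 1) → ℤ, StableUnder (primeLocus P O) n →
        ∀ i j, X i ∉ P → X j ∉ P → n i = n j := by
      intro n hn i j hi hj
      by_contra hij
      exact hG ⟨n, ⟨i, j, hi, hj, hij⟩, graded_of_stable hhom hO hne hn⟩
    tfae_have 1 → 2 := fun _ => h2
    tfae_have 2 → 3 := fun _ => h3
    tfae_have 3 → 4 := fun _ => h4
    tfae_have 4 → 5 := fun _ => h5
    tfae_have 5 → 6 := fun _ => h6
    tfae_have 6 → 1 := fun _ => h1
    tfae_finish

/-- The Zariski closure of the union of the entire curves. -/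
theorem closure_entireCurves {k d : ℕ} (hA : ∀ l, (A l).IsHomogeneous (e l))
    (hk : ∀ l, (A l).support.card ≤ k)
    (hdiv : ∀ l, ∀ a ∈ (A l).support, ∀ i ∉ O, d ∣ a i) (hd : k * (k - 2) < d) :
    closureIn (openLocus A O) (entireCurves (openLocus A O)) = excSet (openLocus A O) := by
  apply Set.Subset.antisymm
  · rintro x ⟨hx, h⟩
    refine ⟨hx, fun n Q hn hQ => h n Q hn ?_⟩
    rintro y ⟨f, hf, hfX, hne, z, rfl⟩
    exact (brody hA hk hdiv hd hf hfX hne z).2 n Q hn hQ
  · rintro x ⟨hx, h⟩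
    exact ⟨hx, fun n Q hn hQ => h n Q hn fun y hy => hQ y (monomialCurves_subset _ hy)⟩

end Pool.Agent.H62.FC
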