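import Pool.Agent.H62.FC.Words
import Pool.Agent.H62.FC.Defs
import Pool.Agent.H62.FC.NevDefs
import Pool.Agent.H62.FC.CircuitDefs
import Pool.Agent.H62.FC.Components
import Pool.Agent.H62.FC.Dense

/-! # Fermat covers: components contained in the exceptional set are graded -/

noncomputable section

namespace Pool.Agent.H62.FC

open MvPolynomial Topology Filter
open Pool.Agent.H17 (PN VanishesAt zeroLocus)

variable {N : ℕ} {κ : Type} {A : κ → MvPolynomial (Fin (N + 1)) ℂ} {e : κ → ℕ}
  {O : Finset (Fin (N + 1))} {P : Ideal (MvPolynomial (Fin (N + 1)) ℂ)}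

private lemma CompExc_prod_zpow {ι : Type*} [Fintype ι] (n : ι → ℤ) {c : ℂ} (hc : c ≠ 0)
    (d : ι → ℕ) : ∏ i, (c ^ n i) ^ d i = c ^ (∑ i, d i • n i) := by
  classical
  have h : ∀ s : Finset ι, ∏ i ∈ s, (c ^ n i) ^ d i = c ^ (∑ i ∈ s, d i • n i) := by
    intro s
    induction s using Finset.induction_on with
    | empty => simp
    | insert a s ha ih =>
      rw [Finset.prod_insert ha, Finset.sum_insert ha, zpow_add₀ hc, ih, ← zpow_natCast,
        ← zpow_mul, nsmul_eq_mul, mul_comm (n a)]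
  exact h Finset.univ

private lemma CompExc_eval {n : Fin (N + 1) → ℤ} {v : ℤ} {q : MvPolynomial (Fin (N + 1)) ℂ}
    (hq : IsWeightedHomogeneous n q v) (a : Fin (N + 1) → ℂ) {c : ℂ} (hc : c ≠ 0) :
    eval (fun i => a i * c ^ n i) q = c ^ v * eval a q := by
  rw [eval_eq', eval_eq', Finset.mul_sum]
  refine Finset.sum_congr rfl fun d hd => ?_
  have h1 : Finsupp.weight n d = v := hq (mem_support_iff.mp hd)
  have h2 : ∏ i, (c ^ n i) ^ d i = c ^ v := by
    rw [← h1, Finsupp.weight_apply, Finsupp.sum_fintype _ _ (by simp)]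
    exact CompExc_prod_zpow n hc _
  simp_rw [mul_pow]
  rw [Finset.prod_mul_distrib, h2]
  ring

private lemma CompExc_form {n : Fin (N + 1) → ℤ} {v : ℤ} {q : MvPolynomial (Fin (N + 1)) ℂ}
    {m : ℕ} (hq : q.IsHomogeneous m) : (weightedHomogeneousComponent n v q).IsHomogeneous m := by
  classical
  intro d hd
  rw [coeff_weightedHomogeneousComponent] at hd
  split_ifs at hd with h
  · exact hq hd
  · exact absurd rfl hd

private lemma CompExc_eval_eq (n : Fin (N + 1) → ℤ) (q : MvPolynomial (Fin (N + 1)) ℂ)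
    (a : Fin (N + 1) → ℂ) {c : ℂ} (hc : c ≠ 0) :
    eval (fun i => a i * c ^ n i) q =
      ∑ v ∈ (weightedHomogeneousComponent_finsupp (w := n) q).toFinset,
        c ^ v * eval a (weightedHomogeneousComponent n v q) := by
  conv_lhs => rw [← sum_weightedHomogeneousComponent n q,
    finsum_eq_sum _ (weightedHomogeneousComponent_finsupp q), map_sum]
  refine Finset.sum_congr rfl fun v _ => ?_
  exact CompExc_eval (weightedHomogeneousComponent_isWeightedHomogeneous v q) a hc

/-- Characters are linearly independent. -/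
private lemma CompExc_char {ι : Type} (χ : ι → (ℂˣ →* ℂ)) (hχ : Function.Injective χ)
    {s : Finset ι} {b : ι → ℂ} (h : ∀ t : ℂˣ, ∑ v ∈ s, χ v t * b v = 0) : ∀ v ∈ s, b v = 0 := by
  have h1 := (linearIndependent_monoidHom ℂˣ ℂ).comp χ hχ
  refine linearIndependent_iff'.1 h1 s b ?_
  funext t
  rw [Finset.sum_apply]
  refine (Finset.sum_congr rfl fun v _ => ?_).trans (h t)
  simp [mul_comm]

private lemma CompExc_laurent {s : Finset ℤ} {b : ℤ → ℂ}
    (h : ∀ t : ℂ, t ≠ 0 → ∑ v ∈ s, t ^ v * b v = 0) : ∀ v ∈ s, b v = 0 := by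
  refine CompExc_char (fun v => (Units.coeHom ℂ).comp (zpowGroupHom v)) ?_ fun t => ?_
  · intro v w hvw
    have h1 := DFunLike.congr_fun hvw (Units.mk0 (2 : ℂ) two_ne_zero)
    have h2 : (2 : ℂ) ^ v = 2 ^ w := by simpa using h1
    have h6 : (2 : ℝ) ^ v = 2 ^ w := by
      have h7 : (((2 : ℝ) ^ v : ℝ) : ℂ) = (((2 : ℝ) ^ w : ℝ) : ℂ) := by
        push_cast
        exact h2
      exact_mod_cast h7
    exact zpow_right_injective₀ (by norm_num) (by norm_num) h6
  · have := h t t.ne_zero
    simpa using this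

private lemma CompExc_poly {s : Finset ℕ} {b : ℕ → ℂ}
    (h : ∀ t : ℂ, t ≠ 0 → ∑ v ∈ s, t ^ v * b v = 0) : ∀ v ∈ s, b v = 0 := by
  refine CompExc_char (fun v => (Units.coeHom ℂ).comp (powMonoidHom v)) ?_ fun t => ?_
  · intro v w hvw
    have h1 := DFunLike.congr_fun hvw (Units.mk0 (2 : ℂ) two_ne_zero)
    have h2 : (2 : ℂ) ^ v = 2 ^ w := by simpa using h1
    have h6 : (2 : ℕ) ^ v = 2 ^ w := by exact_mod_cast h2
    exact Nat.pow_right_injective le_rfl h6
  · have := h t t.ne_zero
    simpa using this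

/-- The homogeneous components of a polynomial which vanishes along a line. -/
private lemma CompExc_components {p : MvPolynomial (Fin (N + 1)) ℂ} {x : Fin (N + 1) → ℂ}
    (h : ∀ c : ℂ, c ≠ 0 → eval (fun i => c * x i) p = 0) (m : ℕ) :
    eval x (homogeneousComponent m p) = 0 := by
  by_cases hm : m ∈ Finset.range (p.totalDegree + 1)
  · refine CompExc_poly (s := Finset.range (p.totalDegree + 1))
      (b := fun m => eval x (homogeneousComponent m p)) (fun t ht => ?_) m hm
    rw [← h t ht]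
    conv_rhs => rw [← sum_homogeneousComponent p, map_sum]
    refine Finset.sum_congr rfl fun v _ => ?_
    exact (Pool.Agent.H17.eval_smul_of_isHomogeneous
      (homogeneousComponent_isHomogeneous v p) t x).symm
  · rw [homogeneousComponent_eq_zero, map_zero]
    rw [Finset.mem_range] at hm
    omega

/-- The stratum of the locus belonging to the weights `n`. -/
private def CompExc_T (A : κ → MvPolynomial (Fin (N + 1)) ℂ) (O : Finset (Fin (N + 1)))
    (i j : Fin (N + 1)) (n : Fin (N + 1) → ℤ) : Set (PN N) :=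
  {x | x ∈ openLocus A O ∧ x.rep i ≠ 0 ∧ x.rep j ≠ 0 ∧
    ∀ l v, eval x.rep (weightedHomogeneousComponent n v (A l)) = 0}

private lemma CompExc_T_congr {i j : Fin (N + 1)} {n n' : Fin (N + 1) → ℤ}
    (h : ∀ l, ∀ d ∈ (A l).support, ∀ d' ∈ (A l).support,
      (Finsupp.weight n d = Finsupp.weight n d' ↔ Finsupp.weight n' d = Finsupp.weight n' d')) :
    CompExc_T A O i j n ⊆ CompExc_T A O i j n' := by
  classical
  rintro x ⟨hx, hi, hj, hv⟩
  refine ⟨hx, hi, hj, fun l v => ?_⟩
  by_cases h0 : weightedHomogeneousComponent n' v (A l) = 0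
  · rw [h0, map_zero]
  · obtain ⟨d, hd⟩ := ne_zero_iff.1 h0
    rw [coeff_weightedHomogeneousComponent] at hd
    split_ifs at hd with hdv
    · have hds : d ∈ (A l).support := mem_support_iff.2 hd
      have heq : weightedHomogeneousComponent n' v (A l) =
          weightedHomogeneousComponent n (Finsupp.weight n d) (A l) := by
        ext d'
        rw [coeff_weightedHomogeneousComponent, coeff_weightedHomogeneousComponent]
        by_cases hd' : d' ∈ (A l).support
        · have h1 := h l d' hd' d hds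
          rw [hdv] at h1
          by_cases h2 : Finsupp.weight n' d' = v
          · rw [if_pos h2, if_pos (h1.2 h2)]
          · rw [if_neg h2, if_neg (fun h3 => h2 (h1.1 h3))]
        · rw [notMem_support_iff.1 hd']
          simp
      rw [heq]
      exact hv l _
    · exact absurd rfl hd

/-- Every point on a monomial curve lies in a stratum. -/
private lemma CompExc_mem_T (hA : ∀ l, (A l).IsHomogeneous (e l)) {x : PN N}
    (hx : x ∈ monomialCurves (openLocus A O)) :
    ∃ i j n, n i ≠ n j ∧ x ∈ CompExc_T A O i j n := by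
  obtain ⟨a, ha, n, hxa, ⟨i, j, hi, hj, hij⟩, hcurve⟩ := hx
  obtain ⟨b, hb, hrep⟩ := Pool.Agent.H17.exists_smul_rep a ha
  rw [← hxa] at hrep
  have hrepi : ∀ k, x.rep k = b * a k := fun k => by rw [hrep]; rfl
  have hne : ∀ t : ℂ, t ≠ 0 → (fun i => a i * t ^ n i) ≠ 0 := by
    intro t ht h0
    apply ha
    funext k
    have h1 := congrFun h0 k
    simp only [Pi.zero_apply, mul_eq_zero] at h1
    exact h1.resolve_right (zpow_ne_zero _ ht)
  refine ⟨i, j, n, hij, ?_, ?_, ?_, ?_⟩
  · have h1 := hcurve 1 (hne 1 one_ne_zero) one_ne_zero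
    have h2 : Projectivization.mk ℂ (fun i => a i * (1 : ℂ) ^ n i) (hne 1 one_ne_zero) = x := by
      rw [hxa]
      congr 1
      funext k
      rw [one_zpow, mul_one]
    rwa [h2] at h1
  · rw [hrepi]
    exact mul_ne_zero hb hi
  · rw [hrepi]
    exact mul_ne_zero hb hj
  · intro l v
    have h1 : ∀ t : ℂ, t ≠ 0 → ∑ v ∈ (weightedHomogeneousComponent_finsupp (w := n)
        (A l)).toFinset, t ^ v * eval a (weightedHomogeneousComponent n v (A l)) = 0 := by
      intro t ht
      rw [← CompExc_eval_eq n (A l) a ht]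
      have h2 := (hcurve t (hne t ht) ht).1 l
      rwa [Pool.Agent.H17.vanishesAt_mk_iff (hA l)] at h2
    have h2 : eval a (weightedHomogeneousComponent n v (A l)) = 0 := by
      by_cases hv : v ∈ (weightedHomogeneousComponent_finsupp (w := n) (A l)).toFinset
      · exact CompExc_laurent (b := fun v => eval a (weightedHomogeneousComponent n v (A l)))
          h1 v hv
      · have h3 : weightedHomogeneousComponent n v (A l) = 0 := by
          by_contra hcon
          exact hv ((Set.Finite.mem_toFinset _).2 hcon)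
        rw [h3, map_zero]
    have h3 : x.rep = fun k => b * a k := funext hrepi
    rw [h3, Pool.Agent.H17.eval_smul_of_isHomogeneous (CompExc_form (hA l)), h2, mul_zero]

/-- One stratum is dense in the component. -/
private lemma CompExc_exists [Finite κ] [P.IsPrime] (hP : Homog P)
    (hA : ∀ l, (A l).IsHomogeneous (e l)) (hO : ∀ i ∈ O, X i ∉ P)
    (hne : ∃ i, X i ∉ P) (hsub : primeLocus P O ⊆ excSet (openLocus A O)) :
    ∃ i j n, n i ≠ n j ∧ ∀ (m : ℕ) (F : MvPolynomial (Fin (N + 1)) ℂ), F.IsHomogeneous m →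
      (∀ x ∈ CompExc_T A O i j n, VanishesAt F x) → F ∈ P := by
  classical
  have := Fintype.ofFinite κ
  by_contra hcon
  push Not at hcon
  let M : Finset (Fin (N + 1) →₀ ℕ) := Finset.univ.biUnion fun l => (A l).support
  let R : (Fin (N + 1) → ℤ) → Finset ((Fin (N + 1) →₀ ℕ) × (Fin (N + 1) →₀ ℕ)) :=
    fun n => (M ×ˢ M).filter fun p => Finsupp.weight n p.1 = Finsupp.weight n p.2
  let Q := (Fin (N + 1) × Fin (N + 1)) × Finset ((Fin (N + 1) →₀ ℕ) × (Fin (N + 1) →₀ ℕ))
  have hR : ∀ i j n n', R n = R n' → CompExc_T A O i j n ⊆ CompExc_T A O i j n' := by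
    intro i j n n' hnn
    refine CompExc_T_congr fun l d hd d' hd' => ?_
    have hdM : d ∈ M := Finset.mem_biUnion.2 ⟨l, Finset.mem_univ _, hd⟩
    have hdM' : d' ∈ M := Finset.mem_biUnion.2 ⟨l, Finset.mem_univ _, hd'⟩
    have h1 : (d, d') ∈ R n ↔ (d, d') ∈ R n' := by rw [hnn]
    simpa [R, hdM, hdM'] using h1
  have key : ∀ q : Q, ∃ (m : ℕ) (F : MvPolynomial (Fin (N + 1)) ℂ), F.IsHomogeneous m ∧ F ∉ P ∧
      ∀ n, n q.1.1 ≠ n q.1.2 → R n = q.2 → ∀ x ∈ CompExc_T A O q.1.1 q.1.2 n,
        VanishesAt F x := by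
    rintro ⟨⟨i, j⟩, r⟩
    by_cases h : ∃ n : Fin (N + 1) → ℤ, n i ≠ n j ∧ R n = r
    · obtain ⟨n, hn, hr⟩ := h
      obtain ⟨m, F, hF, hFv, hFP⟩ := hcon i j n hn
      refine ⟨m, F, hF, hFP, fun n' _ hr' x hx => hFv x (hR i j n' n ?_ hx)⟩
      rw [hr]
      exact hr'
    · refine ⟨0, 1, isHomogeneous_one _ _, ?_, fun n' hn' hr' => absurd ⟨n', hn', hr'⟩ h⟩
      exact fun h1 => Ideal.IsPrime.ne_top inferInstance ((Ideal.eq_top_iff_one P).2 h1)
  choose m F hF hFP hFv using key
  let T : Finset Q := Finset.univ ×ˢ (M ×ˢ M).powerset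
  have hG : (∏ q ∈ T, F q).IsHomogeneous (∑ q ∈ T, m q) :=
    IsHomogeneous.prod _ _ _ fun q _ => hF q
  have hGP : ∏ q ∈ T, F q ∉ P := by
    rw [Ideal.IsPrime.prod_mem_iff]
    rintro ⟨q, -, hq⟩
    exact hFP q hq
  apply hGP
  refine mem_of_vanishes hP hO hne hG fun x hx => ?_
  refine (hsub hx).2 _ _ hG fun y hy => ?_
  obtain ⟨i, j, n, hn, hyT⟩ := CompExc_mem_T hA hy
  have h1 : VanishesAt (F ((i, j), R n)) y := hFv ((i, j), R n) n hn rfl y hyT
  have h2 : ((i, j), R n) ∈ T :=
    Finset.mem_product.2 ⟨Finset.mem_univ _, Finset.mem_powerset.2 (Finset.filter_subset _ _)⟩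
  change eval y.rep (∏ q ∈ T, F q) = 0
  rw [map_prod]
  exact Finset.prod_eq_zero h2 h1

theorem exists_graded_of_subset [Finite κ] (hA : ∀ l, (A l).IsHomogeneous (e l))
    (hP : P ∈ (Ideal.span (Set.range A)).minimalPrimes) (hO : ∀ i ∈ O, X i ∉ P)
    (hne : ∃ i, X i ∉ P) (hsub : primeLocus P O ⊆ excSet (openLocus A O)) :
    ∃ n : Fin (N + 1) → ℤ, (∃ i j, X i ∉ P ∧ X j ∉ P ∧ n i ≠ n j) ∧
      ∀ p ∈ P, ∀ v, weightedHomogeneousComponent n v p ∈ P := by
  classical
  have hprime : P.IsPrime := hP.1.1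
  have hPh : Homog P := homog_of_minimal hA hP
  obtain ⟨i, j, n, hij, hT⟩ := CompExc_exists hPh hA hO hne hsub
  have hgr : ∀ p ∈ P, ∀ v, weightedHomogeneousComponent n v p ∈ P :=
    graded_of_levels hP fun l v =>
      hT (e l) _ (CompExc_form (hA l)) fun x hx => hx.2.2.2 l v
  -- the ideal of the polynomials vanishing on the cone over the stratum
  let J : Ideal (MvPolynomial (Fin (N + 1)) ℂ) :=
    { carrier := {p | ∀ x ∈ CompExc_T A O i j n, ∀ c : ℂ, c ≠ 0 →
        eval (fun k => c * x.rep k) p = 0}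
      add_mem' := by
        intro p q hp hq x hx c hc
        rw [map_add, hp x hx c hc, hq x hx c hc, add_zero]
      zero_mem' := by
        intro x hx c hc
        rw [map_zero]
      smul_mem' := by
        intro r p hp x hx c hc
        rw [smul_eq_mul, map_mul, hp x hx c hc, mul_zero] }
  have hJmem : ∀ p, p ∈ J ↔ ∀ x ∈ CompExc_T A O i j n, ∀ c : ℂ, c ≠ 0 →
      eval (fun k => c * x.rep k) p = 0 := fun p => Iff.rfl
  have hJP : J ≤ P := by
    intro p hp
    rw [← sum_homogeneousComponent p]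
    refine P.sum_mem fun m _ => ?_
    refine hT m _ (homogeneousComponent_isHomogeneous m p) fun x hx => ?_
    exact CompExc_components (fun c hc => hp x hx c hc) m
  have hAJ : Ideal.span (Set.range A) ≤ J := by
    rw [Ideal.span_le]
    rintro _ ⟨l, rfl⟩
    intro x hx c hc
    rw [Pool.Agent.H17.eval_smul_of_isHomogeneous (hA l)]
    have h1 : eval x.rep (A l) = 0 := hx.1.1 l
    rw [h1, mul_zero]
  have hX : ∀ k, (∀ x ∈ CompExc_T A O i j n, x.rep k ≠ 0) → X k ∉ P := by
    intro k hk hkP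
    have hdisj : Disjoint (J : Set (MvPolynomial (Fin (N + 1)) ℂ))
        (P.primeCompl ⊔ Submonoid.powers (X k) : Submonoid _) := by
      rw [Set.disjoint_left]
      intro f hfJ hf
      obtain ⟨s, hs, t, ht, rfl⟩ := Submonoid.mem_sup.1 hf
      obtain ⟨r, rfl⟩ := ht
      apply hs
      apply hJP
      intro x hx c hc
      have h1 := hfJ x hx c hc
      rw [map_mul, map_pow, eval_X] at h1
      exact (mul_eq_zero.1 h1).resolve_right (pow_ne_zero _ (mul_ne_zero hc (hk x hx)))
    obtain ⟨P', hP', hJP', hd⟩ := Ideal.exists_le_prime_disjoint J _ hdisj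
    have h1 : P' ≤ P := by
      intro p hp
      by_contra hcon
      exact Set.disjoint_left.1 hd hp (Submonoid.mem_sup_left hcon)
    have h2 : P ≤ P' := hP.2 ⟨hP', hAJ.trans hJP'⟩ h1
    exact Set.disjoint_left.1 hd (h2 hkP)
      (Submonoid.mem_sup_right (Submonoid.mem_powers (X k)))
  exact ⟨n, ⟨i, j, hX i fun x hx => hx.2.1, hX j fun x hx => hx.2.2.1, hij⟩, hgr⟩

end Pool.Agent.H62.FC
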